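import Pool.Agent.W2helper10.E9.Cnt

/-!
# The checker
-/

set_option autoImplicit false

namespace Pool.Agent.W2helper10.E9

open Pool.Agent.MPe9218d Pool.Agent.H372R3.GD Pool.Agent.H372R3.GE

/-- certificates: `s` solution reached, `u n` too few chains at `n`, `d n` too many chains at `n`,
`b j g t t'` case split `v j ≤ g` or `v j ≥ g + 1` -/
inductive Tr
  | s : Tr
  | u : ℕ → Tr
  | d : ℕ → Tr
  | b : ℕ → ℕ → Tr → Tr → Tr

def cB (em mask : ℕ) (d : ℕ → ℕ) (PB : List ℕ) (n : ℕ) : ℕ :=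
  (bif mask.testBit n then 1 else 0) + cf em mask d PB n n

/-- data of a pair `(M, s)` up to `N` -/
structure W where
  M : ℕ
  s : ℕ
  N : ℕ
  em : ℕ
  mask : ℕ
  PB : List ℕ
  AL : List ℕ

def PA (M s N : ℕ) : List ℕ :=
  (List.range (N + 1)).reverse.filter (fun e => Nat.blt 0 e && okAb M s e)

def mk (mask : ℕ) : List ℕ → ℕ → Bool
  | [], _ => true
  | a :: l, i => (mask.testBit i == (Nat.blt 0 a && Nat.blt 0 i)) && mk mask l (i + 1)

def okW (w : W) : Bool :=
  Nat.ble 1 w.M && (Nat.ble 1 w.em && ((w.AL == dp w.N (PA w.M w.s w.N)) && (mk w.mask w.AL 0 &&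
  ((w.PB == (List.range (w.N + 1)).reverse.filter (fun e => w.mask.testBit e)) &&
    w.PB.all (fun e => Nat.ble w.em e)))))

def ckk (M N em mask : ℕ) (PB AL : List ℕ) (sols : List (List ℕ)) : Tr → List ℕ → List ℕ → Bool
  | .s, lo, hi => (lo == hi) && sols.elem lo
  | .u n, lo, _ => Nat.ble 1 n && (Nat.ble n N &&
      Nat.blt (cB em mask (dl M lo) PB n) (AL.getD n 0))
  | .d n, _, hi => Nat.ble 1 n && (Nat.ble n N &&
      Nat.blt (AL.getD n 0) (cB em mask (dl M hi) PB n))
  | .b j g t t', lo, hi => Nat.blt j M && (ckk M N em mask PB AL sols t lo (hi.set j g) &&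
      ckk M N em mask PB AL sols t' (lo.set j (g + 1)) hi)

lemma mk_spec (mask : ℕ) : ∀ (L : List ℕ) (i : ℕ), mk mask L i = true → ∀ k, k < L.length →
    (mask.testBit (i + k) = true ↔ 0 < L.getD k 0 ∧ 0 < i + k) := by
  intro L
  induction L with
  | nil => intro i _ k hk; simp at hk
  | cons a l ih =>
    intro i h k hk
    rw [mk, Bool.and_eq_true, beq_iff_eq] at h
    obtain ⟨h1, h2⟩ := h
    rcases k with _ | k
    · rw [Nat.add_zero, h1, Bool.and_eq_true, Nat.blt_eq, Nat.blt_eq]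
      simp
    · have := ih (i + 1) h2 k (by simpa using hk)
      rw [show i + 1 + k = i + (k + 1) by omega] at this
      rw [this]
      simp

lemma suf_of (mask : ℕ) : ∀ ps : List ℕ, ps.Pairwise (· > ·) →
    (∀ u ∈ ps, ∀ x, x ≤ u → (mask.testBit x = true ↔ x ∈ ps)) → Suf mask ps := by
  intro ps
  induction ps with
  | nil => intro _ _; exact trivial
  | cons e ps ih =>
    intro hs h
    have hs' := (List.pairwise_cons.mp hs)
    refine ⟨fun x hx => ?_, ih hs'.2 fun u hu x hx => ?_⟩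
    · rw [h e (by simp) x hx.le, List.mem_cons]
      constructor
      · rintro (h1 | h1)
        · omega
        · exact h1
      · exact Or.inr
    · have hue := hs'.1 u hu
      rw [h u (List.mem_cons_of_mem _ hu) x hx, List.mem_cons]
      constructor
      · rintro (h1 | h1)
        · omega
        · exact h1
      · exact Or.inr

lemma range_desc (n : ℕ) (p : ℕ → Bool) :
    ((List.range n).reverse.filter p).Pairwise (· > ·) := by
  apply List.Pairwise.filter
  rw [List.pairwise_reverse]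
  exact List.pairwise_lt_range

lemma LSet_PSet {ok : ℕ → Prop} {d : ℕ → ℕ} {ps : List ℕ} {m n : ℕ}
    (h : ∀ e, (1 ≤ e ∧ e ≤ m ∧ ok e) ↔ (e ∈ ps ∧ e ≤ m)) : LSet ok d m n = PSet ps d m n := by
  ext l
  constructor
  · rintro ⟨h1, h2, h3⟩
    exact ⟨fun e he => (h e).mp (h1 e he), chain_pw.mp h2, h3⟩
  · rintro ⟨h1, h2, h3⟩
    exact ⟨fun e he => (h e).mpr (h1 e he), chain_pw.mpr h2, h3⟩

section
variable {w : W} (hw : okW w = true)
include hw

lemma okW_M : 1 ≤ w.M := by
  rw [okW, Bool.and_eq_true, Nat.ble_eq] at hw; exact hw.1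

lemma okW_em : 1 ≤ w.em := by
  rw [okW, Bool.and_eq_true, Bool.and_eq_true, Nat.ble_eq, Nat.ble_eq] at hw; exact hw.2.1

lemma okW_AL : w.AL = dp w.N (PA w.M w.s w.N) := by
  simp only [okW, Bool.and_eq_true, beq_iff_eq] at hw; exact hw.2.2.1

lemma okW_mk : mk w.mask w.AL 0 = true := by
  simp only [okW, Bool.and_eq_true, beq_iff_eq] at hw; exact hw.2.2.2.1

lemma okW_PB : w.PB = (List.range (w.N + 1)).reverse.filter (fun e => w.mask.testBit e) := by
  simp only [okW, Bool.and_eq_true, beq_iff_eq] at hw; exact hw.2.2.2.2.1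

lemma okW_all : ∀ e ∈ w.PB, w.em ≤ e := by
  simp only [okW, Bool.and_eq_true, beq_iff_eq, List.all_eq_true, Nat.ble_eq] at hw
  exact hw.2.2.2.2.2

lemma AL_spec {n : ℕ} (hn : n ≤ w.N) : w.AL.getD n 0 = A (a w.M) w.s w.M n := by
  unfold A
  rw [ASet_eq, LSet_large le_rfl hn, LSet_PSet (ps := PA w.M w.s w.N), cl_eq (fun _ => le_rfl),
    cl_ap, ← dp_get w.N _ n hn, ← okW_AL hw]
  · exact range_desc _ _
  · intro x hx
    unfold PA at hx
    simp only [List.mem_filter, List.mem_reverse, List.mem_range] at hx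
    omega
  · exact range_desc _ _
  · intro x hx
    unfold PA at hx
    simp only [List.mem_filter, List.mem_reverse, List.mem_range, Bool.and_eq_true,
      Nat.blt_eq] at hx
    omega
  · intro e
    unfold PA
    simp only [List.mem_filter, List.mem_reverse, List.mem_range, Bool.and_eq_true,
      Nat.blt_eq, okA_iff]
    constructor
    · rintro ⟨h1, h2, h3⟩
      exact ⟨⟨by omega, by omega, h3⟩, h2⟩
    · rintro ⟨⟨h1, h2, h3⟩, h4⟩
      exact ⟨by omega, h4, h3⟩

lemma mask_spec {e : ℕ} (he1 : 1 ≤ e) (he : e ≤ w.N) :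
    e ∉ C w.M w.s ↔ w.mask.testBit e = true := by
  have h1 := mk_spec w.mask w.AL 0 (okW_mk hw) e (by rw [okW_AL hw, dp_len]; omega)
  rw [Nat.zero_add, AL_spec hw he] at h1
  rw [h1]
  unfold C
  rw [Set.mem_ofPred_eq]
  constructor
  · intro h
    refine ⟨?_, by omega⟩
    by_contra h2
    exact h ⟨he1, by omega⟩
  · rintro ⟨h2, _⟩ ⟨_, h3⟩
    omega

lemma PB_spec {e : ℕ} : e ∈ w.PB ↔ e ≤ w.N ∧ w.mask.testBit e = true := by
  rw [okW_PB hw]
  simp only [List.mem_filter, List.mem_reverse, List.mem_range]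
  constructor
  · rintro ⟨h1, h2⟩
    exact ⟨by omega, h2⟩
  · rintro ⟨h1, h2⟩
    exact ⟨by omega, h2⟩

lemma B_spec {d : ℕ → ℕ} (hd : ∀ e, 1 ≤ d e) {n : ℕ} (hn1 : 1 ≤ n) (hn : n ≤ w.N) :
    (LSet (fun e => e ∉ C w.M w.s) d n n).ncard = cB w.em w.mask d w.PB n := by
  have hem := okW_em hw
  have hall := okW_all hw
  have hdesc : w.PB.Pairwise (· > ·) := by
    rw [okW_PB hw]; exact range_desc _ _
  rw [LSet_PSet (ps := w.PB), cl_eq hd _ hdesc (fun x hx => hem.trans (hall x hx)),
    cl_cf hem hd _ hdesc hall _ _ _ hn1]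
  · unfold cB
    congr 1
    by_cases h : w.mask.testBit n = true
    · rw [if_pos ⟨(PB_spec hw).mpr ⟨hn, h⟩, le_rfl⟩, h]; rfl
    · rw [if_neg (fun h' => h ((PB_spec hw).mp h'.1).2)]
      rw [Bool.not_eq_true] at h
      rw [h]; rfl
  · apply suf_of _ _ hdesc
    intro u hu x hx
    rw [PB_spec hw]
    have := ((PB_spec hw).mp hu).1
    constructor
    · intro h; exact ⟨by omega, h⟩
    · exact fun h => h.2
  · intro e
    constructor
    · rintro ⟨h1, h2, h3⟩
      exact ⟨(PB_spec hw).mpr ⟨by omega, (mask_spec hw h1 (by omega)).mp h3⟩, h2⟩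
    · rintro ⟨h1, h2⟩
      have h3 := hem.trans (hall e h1)
      have h4 := (PB_spec hw).mp h1
      exact ⟨h3, h2, (mask_spec hw h3 h4.1).mpr h4.2⟩

lemma ncard_mono {d d' : ℕ → ℕ} (hd : ∀ e, 1 ≤ d e) (h : ∀ e, d e ≤ d' e) {n : ℕ} (hn1 : 1 ≤ n)
    (hn : n ≤ w.N) : cB w.em w.mask d' w.PB n ≤ cB w.em w.mask d w.PB n := by
  rw [← B_spec hw hd hn1 hn, ← B_spec hw (fun e => (hd e).trans (h e)) hn1 hn]
  exact Set.ncard_le_ncard (LSet_mono h) (finite_LSet hd _ _)

theorem csound {v : ℕ → ℕ} (hv : ∀ r, 1 ≤ v r) {sols : List (List ℕ)}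
    (hId : ∀ n, 1 ≤ n → n ≤ w.N → w.AL.getD n 0 = cB w.em w.mask (fun e => v (e % w.M)) w.PB n) :
    ∀ (t : Tr) (lo hi : List ℕ), ckk w.M w.N w.em w.mask w.PB w.AL sols t lo hi = true →
      lo.length = w.M → hi.length = w.M → (∀ r, r < w.M → 1 ≤ lo.getD r 1) →
      (∀ r, r < w.M → lo.getD r 1 ≤ v r ∧ v r ≤ hi.getD r 1) →
      (List.range w.M).map v ∈ sols := by
  have hM := okW_M hw
  have hlt : ∀ e, e % w.M < w.M := fun e => Nat.mod_lt _ hM
  intro t
  induction t with
  | s =>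
    intro lo hi h hlo hhi _ hbd
    rw [ckk, Bool.and_eq_true, beq_iff_eq, List.elem_iff] at h
    obtain ⟨h1, h2⟩ := h
    have : (List.range w.M).map v = lo := by
      apply List.ext_getElem
      · simp [hlo]
      · intro i h3 h4
        have h5 := hbd i (by omega)
        rw [← h1, List.getD_eq_getElem _ _ h4] at h5
        simp only [List.getElem_map, List.getElem_range]
        omega
    rw [this]
    exact h2
  | u n =>
    intro lo hi h hlo hhi hpos hbd
    exfalso
    rw [ckk] at h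
    simp only [Bool.and_eq_true, Nat.ble_eq, Nat.blt_eq] at h
    obtain ⟨h1, h2, h3⟩ := h
    have hA := hId n h1 h2
    have m2 : cB w.em w.mask (fun e => v (e % w.M)) w.PB n ≤ cB w.em w.mask (dl w.M lo) w.PB n :=
      ncard_mono hw (fun e => hpos _ (hlt e)) (fun e => (hbd _ (hlt e)).1) h1 h2
    omega
  | d n =>
    intro lo hi h hlo hhi hpos hbd
    exfalso
    rw [ckk] at h
    simp only [Bool.and_eq_true, Nat.ble_eq, Nat.blt_eq] at h
    obtain ⟨h1, h2, h3⟩ := h
    have hA := hId n h1 h2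
    have m2 : cB w.em w.mask (dl w.M hi) w.PB n ≤ cB w.em w.mask (fun e => v (e % w.M)) w.PB n :=
      ncard_mono hw (fun e => hv _) (fun e => (hbd _ (hlt e)).2) h1 h2
    omega
  | b j g t t' iht ihu =>
    intro lo hi h hlo hhi hpos hbd
    rw [ckk] at h
    simp only [Bool.and_eq_true, Nat.blt_eq] at h
    obtain ⟨h1, h2, h3⟩ := h
    by_cases hg : v j ≤ g
    · refine iht lo (hi.set j g) h2 hlo (by simpa using hhi) hpos (fun r hr => ?_)
      rw [getD_set _ _ _ _ (by omega)]
      refine ⟨(hbd r hr).1, ?_⟩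
      split_ifs with hrj
      · rw [hrj]; exact hg
      · exact (hbd r hr).2
    · refine ihu (lo.set j (g + 1)) hi h3 (by simpa using hlo) hhi (fun r hr => ?_)
        (fun r hr => ?_)
      · rw [getD_set _ _ _ _ (by omega)]
        split_ifs with hrj
        · omega
        · exact hpos r hr
      · rw [getD_set _ _ _ _ (by omega)]
        refine ⟨?_, (hbd r hr).2⟩
        split_ifs with hrj
        · rw [hrj]; omega
        · exact (hbd r hr).1

/-- the main criterion -/
theorem crit {t : Tr} {sols : List (List ℕ)}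
    (ht : ckk w.M w.N w.em w.mask w.PB w.AL sols t (List.replicate w.M 1)
      (List.replicate w.M INF) = true)
    (hN : w.N < INF) {v : ℕ → ℕ} (hv : ∀ r, 1 ≤ v r)
    (hId : ∀ n, 1 ≤ n → n ≤ w.N →
      A (a w.M) w.s w.M n = (LSet (fun e => e ∉ C w.M w.s) (fun e => v (e % w.M)) n n).ncard) :
    (List.range w.M).map (fun r => min (v r) INF) ∈ sols := by
  have hM := okW_M hw
  refine csound hw (v := fun r => min (v r) INF) (fun r => le_min (hv r) (by norm_num [INF]))
    (fun n h1 h2 => ?_) t _ _ ht (by simp) (by simp) (fun r hr => ?_) (fun r hr => ?_)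
  · rw [AL_spec hw h2, hId n h1 h2, LSet_cap (N := INF - 1) (by omega),
      B_spec hw (fun e => le_min (hv _) (by norm_num [INF])) h1 h2]
    rfl
  · rw [getD_replicate _ _ _ hr]
  · rw [getD_replicate _ _ _ hr, getD_replicate _ _ _ hr]
    exact ⟨le_min (hv r) (by norm_num [INF]), min_le_right _ _⟩

/-- the criterion for a single modulus -/
theorem crit_one {t : Tr} {sols : List (List ℕ)}
    (ht : ckk w.M w.N w.em w.mask w.PB w.AL sols t (List.replicate w.M 1)
      (List.replicate w.M INF) = true)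
    (hN : Nat.blt w.N INF = true) {b : ℕ → ℕ} (hb : ∀ j, 1 ≤ j → j ≤ w.M → 1 ≤ b j)
    (hId : Identity w.M w.s b) :
    (List.range w.M).map (fun r => min (b (resM w.M r)) INF) ∈ sols := by
  have hM := okW_M hw
  rw [Nat.blt_eq] at hN
  refine crit hw ht hN (v := fun r => b (resM w.M r)) (fun r => res_pos hM hb r)
    (fun n h1 _ => ?_)
  rw [hId n h1]
  unfold B0
  rw [BSet_eq hM b hb]
  congr 2
  funext e
  rw [resM_mod]

/-- the criterion for a single modulus without solutions -/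
theorem crit_none {t : Tr}
    (ht : ckk w.M w.N w.em w.mask w.PB w.AL [] t (List.replicate w.M 1)
      (List.replicate w.M INF) = true)
    (hN : Nat.blt w.N INF = true) {b : ℕ → ℕ} (hb : ∀ j, 1 ≤ j → j ≤ w.M → 1 ≤ b j)
    (hId : Identity w.M w.s b) : False :=
  List.not_mem_nil (crit_one hw ht hN hb hId)

end

end Pool.Agent.W2helper10.E9
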