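import Pool.Agent.H372R3.GE2

/-!
# Counting chains whose parts lie in an explicit list
-/

set_option autoImplicit false

namespace Pool.Agent.W2helper10.E9

open Pool.Agent.MPe9218d Pool.Agent.H372R3.GD Pool.Agent.H372R3.GE

lemma chain_pw {d : ℕ → ℕ} {l : List ℕ} :
    l.IsChain (fun e e' => e' + d e ≤ e) ↔ l.Pairwise (fun e e' => e' + d e ≤ e) := by
  have : IsTrans ℕ (fun e e' => e' + d e ≤ e) := ⟨fun a b c h1 h2 => by omega⟩
  exact List.isChain_iff_pairwise

/-- chains with all parts in the list `ps`, at most `m`, and sum `n` -/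
def PSet (ps : List ℕ) (d : ℕ → ℕ) (m n : ℕ) : Set (List ℕ) :=
  {l | (∀ e ∈ l, e ∈ ps ∧ e ≤ m) ∧ l.Pairwise (fun e e' => e' + d e ≤ e) ∧ l.sum = n}

/-- the number of these chains -/
def cl (d : ℕ → ℕ) : List ℕ → ℕ → ℕ → ℕ
  | [], _, n => if n = 0 then 1 else 0
  | e :: ps, m, n => cl d ps m n + if e ≤ m ∧ e ≤ n then cl d ps (e - d e) (n - e) else 0

lemma PSet_nil (d : ℕ → ℕ) (m n : ℕ) : PSet [] d m n = if n = 0 then {[]} else ∅ := by
  ext l
  constructor
  · rintro ⟨h1, h2, h3⟩
    have hl : l = [] := by
      rcases l with _ | ⟨e, l⟩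
      · rfl
      · have := (h1 e (by simp)).1; simp at this
    subst hl
    have : n = 0 := by simpa using h3.symm
    simp [this]
  · intro h
    split_ifs at h with hn
    · rw [Set.mem_singleton_iff] at h
      subst h
      exact ⟨by simp, by simp, by simp [hn]⟩
    · exact absurd h (Set.notMem_empty _)

lemma PSet_cons {d : ℕ → ℕ} (hd : ∀ e, 1 ≤ d e) {e : ℕ} {ps : List ℕ}
    (hs : (e :: ps).Pairwise (· > ·)) (hp : ∀ x ∈ ps, 1 ≤ x) (m n : ℕ) :
    PSet (e :: ps) d m n = PSet ps d m n ∪
      (if e ≤ m ∧ e ≤ n then (fun l => e :: l) '' PSet ps d (e - d e) (n - e) else ∅) := by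
  rw [List.pairwise_cons] at hs
  ext l
  constructor
  · rintro ⟨h1, h2, h3⟩
    rcases l with _ | ⟨x, l⟩
    · left; exact ⟨by simp, by simp, h3⟩
    · rw [List.pairwise_cons] at h2
      by_cases hx : x = e
      · right
        subst hx
        have hx1 := (h1 x (by simp)).2
        have hx2 : x ≤ n := by simp at h3; omega
        rw [if_pos ⟨hx1, hx2⟩]
        refine ⟨l, ⟨?_, h2.2, ?_⟩, rfl⟩
        · intro y hy
          have h4 := h1 y (List.mem_cons_of_mem _ hy)
          have h5 := h2.1 y hy
          have h6 := hd x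
          refine ⟨?_, by omega⟩
          rcases List.mem_cons.mp h4.1 with h7 | h7
          · omega
          · exact h7
        · simp at h3; omega
      · left
        have hx' : x ∈ ps := by
          rcases List.mem_cons.mp (h1 x (by simp)).1 with h7 | h7
          · exact absurd h7 hx
          · exact h7
        have hxe := hs.1 x hx'
        refine ⟨?_, List.pairwise_cons.mpr h2, h3⟩
        intro y hy
        have h4 := h1 y hy
        refine ⟨?_, h4.2⟩
        rcases List.mem_cons.mp hy with rfl | hy
        · exact hx'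
        · have h5 := h2.1 y hy
          rcases List.mem_cons.mp h4.1 with h7 | h7
          · omega
          · exact h7
  · intro h
    rcases h with ⟨h1, h2, h3⟩ | h
    · exact ⟨fun y hy => ⟨List.mem_cons_of_mem _ (h1 y hy).1, (h1 y hy).2⟩, h2, h3⟩
    · split_ifs at h with hc
      · obtain ⟨l, ⟨h1, h2, h3⟩, rfl⟩ := h
        have h6 := hd e
        refine ⟨?_, ?_, ?_⟩
        · intro y hy
          rcases List.mem_cons.mp hy with rfl | hy
          · exact ⟨by simp, hc.1⟩
          · have := (h1 y hy).2
            exact ⟨List.mem_cons_of_mem _ (h1 y hy).1, by omega⟩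
        · show (e :: l).Pairwise _
          rw [List.pairwise_cons]
          refine ⟨fun y hy => ?_, h2⟩
          have h7 := (h1 y hy).2
          have h8 := (h1 y hy).1
          have h9 := hp y h8
          omega
        · show (e :: l).sum = n
          simp; omega
      · exact absurd h (Set.notMem_empty _)

lemma PSet_finite (ps : List ℕ) {d : ℕ → ℕ} (hd : ∀ e, 1 ≤ d e) (hp : ∀ x ∈ ps, 1 ≤ x) (m n : ℕ) :
    (PSet ps d m n).Finite := by
  refine (finite_partitions n).subset ?_
  rintro l ⟨h1, h2, h3⟩
  refine ⟨h2.imp (fun {a b} h => ?_), fun e he => hp e (h1 e he).1, h3⟩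
  have := hd a
  show b ≤ a
  omega

lemma cl_eq {d : ℕ → ℕ} (hd : ∀ e, 1 ≤ d e) : ∀ (ps : List ℕ), ps.Pairwise (· > ·) →
    (∀ x ∈ ps, 1 ≤ x) → ∀ m n, (PSet ps d m n).ncard = cl d ps m n := by
  intro ps
  induction ps with
  | nil =>
    intro _ _ m n
    rw [PSet_nil, cl]
    split_ifs <;> simp
  | cons e ps ih =>
    intro hs hp m n
    have hs' := (List.pairwise_cons.mp hs)
    have hp' : ∀ x ∈ ps, 1 ≤ x := fun x hx => hp x (List.mem_cons_of_mem _ hx)
    rw [PSet_cons hd hs hp', cl]
    split_ifs with hc
    · have hdisj : Disjoint (PSet ps d m n)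
          ((fun l => e :: l) '' PSet ps d (e - d e) (n - e)) := by
        rw [Set.disjoint_left]
        rintro l ⟨h1, _, _⟩ ⟨l', _, rfl⟩
        have := (h1 e (by simp)).1
        have := hs'.1 e this
        omega
      have hinj : Function.Injective (fun l : List ℕ => e :: l) := by
        intro a b hab; simpa using hab
      rw [Set.ncard_union_eq hdisj (PSet_finite _ hd hp' _ _)
        ((PSet_finite _ hd hp' _ _).image _), Set.ncard_image_of_injective _ hinj,
        ih hs'.2 hp', ih hs'.2 hp']
    · rw [Set.union_empty, ih hs'.2 hp', add_zero]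

/-- the number of chains with at least two parts, efficient version -/
def cf (em mask : ℕ) (d : ℕ → ℕ) : List ℕ → ℕ → ℕ → ℕ
  | [], _, _ => 0
  | e :: ps, m, n =>
    bif Nat.ble (2 * em) n then
      (bif Nat.ble e m && Nat.ble (e + em) n then
        (bif mask.testBit (n - e) && Nat.ble (n - e) (e - d e) then 1 else 0) +
          cf em mask d ps (e - d e) (n - e)
      else 0) + cf em mask d ps m n
    else 0

lemma cf_small {em mask : ℕ} {d : ℕ → ℕ} (ps : List ℕ) (m : ℕ) {n : ℕ} (h : n < 2 * em) :
    cf em mask d ps m n = 0 := by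
  rcases ps with _ | ⟨e, ps⟩
  · rfl
  · rw [cf]
    have : Nat.ble (2 * em) n = false := by
      rw [Bool.eq_false_iff, Ne, Nat.ble_eq]; omega
    rw [this]; rfl

/-- the mask gives the membership in all tails -/
def Suf (mask : ℕ) : List ℕ → Prop
  | [] => True
  | e :: ps => (∀ x, x < e → (mask.testBit x = true ↔ x ∈ ps)) ∧ Suf mask ps

lemma cl_zero (d : ℕ → ℕ) : ∀ (ps : List ℕ), (∀ x ∈ ps, 1 ≤ x) → ∀ m, cl d ps m 0 = 1 := by
  intro ps
  induction ps with
  | nil => intro _ m; rw [cl]; simp
  | cons e ps ih =>
    intro hp m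
    rw [cl, ih (fun x hx => hp x (List.mem_cons_of_mem _ hx))]
    have := hp e (by simp)
    rw [if_neg (by omega)]

lemma cl_cf {em mask : ℕ} (hem : 1 ≤ em) {d : ℕ → ℕ} (hd : ∀ e, 1 ≤ d e) : ∀ (ps : List ℕ),
    ps.Pairwise (· > ·) → (∀ x ∈ ps, em ≤ x) → Suf mask ps → ∀ m n, 1 ≤ n →
    cl d ps m n = (if n ∈ ps ∧ n ≤ m then 1 else 0) + cf em mask d ps m n := by
  intro ps
  induction ps with
  | nil =>
    intro _ _ _ m n hn
    rw [cl, cf, if_neg (by omega), if_neg (by simp)]
  | cons e ps ih =>
    intro hs hp hsuf m n hn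
    have hs' := (List.pairwise_cons.mp hs)
    have hp' : ∀ x ∈ ps, em ≤ x := fun x hx => hp x (List.mem_cons_of_mem _ hx)
    have hp1 : ∀ x ∈ ps, 1 ≤ x := fun x hx => hem.trans (hp' x hx)
    have he := hp e (by simp)
    have he' : e ∉ ps := fun h => by have := hs'.1 e h; omega
    obtain ⟨hsuf1, hsuf2⟩ := hsuf
    have ihm := ih hs'.2 hp' hsuf2
    have hde := hd e
    rw [cl, ihm m n hn]
    by_cases hn2 : n < 2 * em
    · rw [cf_small _ _ hn2, cf_small _ _ hn2, add_zero, add_zero]
      by_cases hc : e ≤ m ∧ e ≤ n
      · rw [if_pos hc]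
        rcases Nat.eq_or_lt_of_le hc.2 with h1 | h1
        · subst h1
          rw [Nat.sub_self, cl_zero d ps hp1, if_neg (fun h => he' h.1), if_pos ⟨by simp, hc.1⟩]
        · have h9 : ¬ (n - e ∈ ps ∧ n - e ≤ e - d e) := fun h => by
            have := hp' _ h.1; omega
          rw [ihm _ _ (by omega), cf_small _ _ (by omega : n - e < 2 * em), add_zero,
            if_neg h9, add_zero]
          have : (n ∈ e :: ps ∧ n ≤ m) ↔ (n ∈ ps ∧ n ≤ m) := by
            rw [List.mem_cons]
            constructor
            · rintro ⟨h2 | h2, h3⟩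
              · omega
              · exact ⟨h2, h3⟩
            · rintro ⟨h2, h3⟩
              exact ⟨Or.inr h2, h3⟩
          simp only [this]
      · rw [if_neg hc, add_zero]
        have : (n ∈ e :: ps ∧ n ≤ m) ↔ (n ∈ ps ∧ n ≤ m) := by
          rw [List.mem_cons]
          constructor
          · rintro ⟨h2 | h2, h3⟩
            · exfalso; apply hc; omega
            · exact ⟨h2, h3⟩
          · rintro ⟨h2, h3⟩
            exact ⟨Or.inr h2, h3⟩
        simp only [this]
    · rw [cf]
      have hb : Nat.ble (2 * em) n = true := by rw [Nat.ble_eq]; omega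
      rw [hb, cond_true]
      by_cases hc : e ≤ m ∧ e ≤ n
      · rw [if_pos hc]
        rcases Nat.eq_or_lt_of_le hc.2 with h1 | h1
        · have hb2 : (Nat.ble e m && Nat.ble (e + em) n) = false := by
            rw [Bool.and_eq_false_iff]; right
            rw [Bool.eq_false_iff, Ne, Nat.ble_eq]; omega
          rw [hb2, cond_false]
          subst h1
          rw [Nat.sub_self, cl_zero d ps hp1, if_neg (fun h => he' h.1), if_pos ⟨by simp, hc.1⟩]
          omega
        · have hmem : (n ∈ e :: ps ∧ n ≤ m) ↔ (n ∈ ps ∧ n ≤ m) := by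
            rw [List.mem_cons]
            constructor
            · rintro ⟨h2 | h2, h3⟩
              · omega
              · exact ⟨h2, h3⟩
            · rintro ⟨h2, h3⟩
              exact ⟨Or.inr h2, h3⟩
          rw [ihm _ _ (by omega)]
          simp only [hmem]
          by_cases h2 : e + em ≤ n
          · have hb2 : (Nat.ble e m && Nat.ble (e + em) n) = true := by
              rw [Bool.and_eq_true, Nat.ble_eq, Nat.ble_eq]; exact ⟨hc.1, h2⟩
            rw [hb2, cond_true]
            have h3 : (if n - e ∈ ps ∧ n - e ≤ e - d e then 1 else 0) =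
                (bif mask.testBit (n - e) && Nat.ble (n - e) (e - d e) then 1 else 0) := by
              by_cases h4 : n - e ≤ e - d e
              · have h5 := hsuf1 (n - e) (by omega)
                by_cases h6 : n - e ∈ ps
                · have h7 := h5.mpr h6
                  have h8 : Nat.ble (n - e) (e - d e) = true := by rw [Nat.ble_eq]; exact h4
                  rw [if_pos ⟨h6, h4⟩, h7, h8]
                  rfl
                · have h7 : mask.testBit (n - e) = false := by
                    rw [Bool.eq_false_iff]; exact fun h => h6 (h5.mp h)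
                  rw [if_neg (fun h => h6 h.1), h7]
                  rfl
              · have h8 : Nat.ble (n - e) (e - d e) = false := by
                  rw [Bool.eq_false_iff, Ne, Nat.ble_eq]; exact h4
                rw [if_neg (fun h => h4 h.2), h8, Bool.and_false]
                rfl
            rw [h3]
            omega
          · have hb2 : (Nat.ble e m && Nat.ble (e + em) n) = false := by
              rw [Bool.and_eq_false_iff]; right
              rw [Bool.eq_false_iff, Ne, Nat.ble_eq]; exact h2
            have h9 : ¬ (n - e ∈ ps ∧ n - e ≤ e - d e) := fun h => by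
              have := hp' _ h.1; omega
            rw [hb2, cond_false, cf_small ps (e - d e) (by omega : n - e < 2 * em), if_neg h9]
            omega
      · have hb2 : (Nat.ble e m && Nat.ble (e + em) n) = false := by
          by_cases h2 : e ≤ m
          · rw [Bool.and_eq_false_iff]; right
            rw [Bool.eq_false_iff, Ne, Nat.ble_eq]; omega
          · rw [Bool.and_eq_false_iff]; left
            rw [Bool.eq_false_iff, Ne, Nat.ble_eq]; exact h2
        rw [if_neg hc, hb2, cond_false]
        have : (n ∈ e :: ps ∧ n ≤ m) ↔ (n ∈ ps ∧ n ≤ m) := by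
          rw [List.mem_cons]
          constructor
          · rintro ⟨h2 | h2, h3⟩
            · exfalso; apply hc; omega
            · exact ⟨h2, h3⟩
          · rintro ⟨h2, h3⟩
            exact ⟨Or.inr h2, h3⟩
        simp only [this]
        omega

/-- the number of chains of distinct parts -/
def ap : List ℕ → ℕ → ℕ
  | [], n => if n = 0 then 1 else 0
  | e :: ps, n => ap ps n + if e ≤ n then ap ps (n - e) else 0

lemma cl_ap : ∀ (ps : List ℕ), ps.Pairwise (· > ·) → ∀ m n, (∀ x ∈ ps, x ≤ m) →
    cl (fun _ => 1) ps m n = ap ps n := by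
  intro ps
  induction ps with
  | nil => intro _ m n _; rw [cl, ap]
  | cons e ps ih =>
    intro hs m n hm
    have hs' := (List.pairwise_cons.mp hs)
    have he := hm e (by simp)
    rw [cl, ap, ih hs'.2 m n (fun x hx => hm x (List.mem_cons_of_mem _ hx))]
    by_cases h : e ≤ n
    · rw [if_pos ⟨he, h⟩, if_pos h, ih hs'.2 _ _ (fun x hx => ?_)]
      have := hs'.1 x hx
      omega
    · rw [if_neg (fun h' => h h'.2), if_neg h]

/-- one step of the computation of the numbers `ap` -/
def st (e : ℕ) (L : List ℕ) : List ℕ := List.zipWith (· + ·) L (List.replicate e 0 ++ L)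

def dp (N : ℕ) : List ℕ → List ℕ
  | [] => 1 :: List.replicate N 0
  | e :: ps => st e (dp N ps)

lemma dp_len (N : ℕ) (ps : List ℕ) : (dp N ps).length = N + 1 := by
  induction ps with
  | nil => simp [dp]
  | cons e ps ih => simp [dp, st, ih]

lemma dp_get (N : ℕ) (ps : List ℕ) : ∀ n, n ≤ N → (dp N ps).getD n 0 = ap ps n := by
  induction ps with
  | nil =>
    intro n hn
    rcases n with _ | n
    · simp [dp, ap]
    · rw [dp, ap, List.getD_cons_succ]
      simp
  | cons e ps ih =>
    intro n hn
    have hl := dp_len N ps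
    have hl2 : (st e (dp N ps)).length = N + 1 := dp_len N (e :: ps)
    rw [dp, ap, ← ih n hn, List.getD_eq_getElem _ _ (by omega), List.getD_eq_getElem _ _ (by omega)]
    unfold st
    rw [List.getElem_zipWith]
    congr 1
    split_ifs with h
    · rw [List.getElem_append_right (by simpa using h), ← ih (n - e) (by omega),
        List.getD_eq_getElem _ _ (by omega)]
      congr 1
      simp
    · rw [List.getElem_append_left (by simpa using h)]
      simp

end Pool.Agent.W2helper10.E9
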