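import Pool.Agent.W2helper10.E9.Pc

set_option autoImplicit false
set_option maxRecDepth 1000000

namespace Pool.Agent.W2helper10.E9

open Pool.Agent.MPe9218d Pool.Agent.H372R3.GD Pool.Agent.H372R3.GE

def PB_14_4 : List ℕ :=
  [99, 98, 97, 96, 95, 94, 93, 92, 91, 90, 89, 88, 87, 86, 85, 84, 83, 82, 81, 80, 79, 78, 77,
  76, 75, 74, 73, 72, 71, 70, 69, 68, 67, 66, 65, 64, 63, 62, 61, 60, 59, 58, 57, 56, 55, 54,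
  53, 52, 51, 50, 49, 48, 47, 46, 45, 44, 43, 42, 41, 40, 39, 38, 37, 36, 35, 34, 33, 32, 31,
  30, 29, 28, 27, 26, 25, 24, 23, 22, 20, 19, 18, 16, 13, 12, 10, 6]

def AL_14_4 : List ℕ :=
  [1, 0, 0, 0, 0, 0, 1, 0, 0, 0, 1, 0, 1, 1, 0, 0, 1, 0, 1, 1, 1, 0, 1, 1, 1, 1, 2, 1, 1, 1, 2,
  1, 2, 2, 2, 1, 3, 2, 3, 3, 4, 2, 3, 3, 4, 3, 5, 4, 4, 4, 6, 5, 6, 6, 7, 5, 7, 7, 7, 7, 10, 8,
  9, 9, 11, 10, 13, 12, 13, 11, 14, 13, 16, 15, 18, 16, 18, 18, 22, 20, 23, 23, 24, 22, 27, 26,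
  28, 29, 33, 30, 34, 35, 38, 37, 43, 41, 43, 42, 48, 47]

def w_14_4 : W :=
  ⟨14, 4, 99, 6, 1267650600228229401496700924992, PB_14_4, AL_14_4⟩

theorem ok_14_4 : okW w_14_4 = true := by decide +kernel

end Pool.Agent.W2helper10.E9
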