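import Pool.Agent.W2helper10.E9.D14_4

set_option autoImplicit false
set_option maxRecDepth 1000000

namespace Pool.Agent.W2helper10.E9

open Pool.Agent.MPe9218d Pool.Agent.H372R3.GD Pool.Agent.H372R3.GE

def tp_14_4_0 : Tp :=
    (.b 8 30 (.b 12 10 (.d 42) (.b 10 32 (.b 0 12 (.b 11 33 (.b 5 21 (.b 4 48 (.b 3 46 (.b 4 27
    (.d 65) (.b 8 28 (.b 2 16 (.b 9 31 (.d 43) (.b 0 9 (.b 10 26 (.b 0 6 (.b 8 24 (.d 48) (.b 2 12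
    (.d 48) (.b 1 37 (.b 11 29 (.b 5 17 (.b 8 26 (.d 46) (.b 2 14 (.d 46) (.b 10 22 (.d 54) (.b 4
    36 (.b 1 30 (.b 0 3 (.d 53) (.b 4 34 (.d 58) (.b 3 32 (.d 58) (.b 11 20 (.d 58) (.b 9 41 (.b 1
    25 (.b 6 9 (.d 59) (.b 1 24 (.b 9 39 (.b 9 38 (.b 9 35 (.d 67) (.b 12 11 (.u 74) (.u 69))) (.u
    64)) (.u 63)) (.u 62))) (.u 61)) (.u 61)))))) (.u 56)) (.u 56))))) (.u 49)) (.u 49)) (.u
    49)))) (.u 50)) (.u 50)) (.u 47))) (.u 72)) (.u 72))) (.u 72)) (.u 72)) (.u 45)) (.u 45)) (.u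
    44)) (.u 44))) (.b 12 10 (.b 4 48 (.b 3 46 (.b 4 27 (.d 65) (.b 11 34 (.b 10 32 (.b 5 22 (.b 2
    16 (.b 9 31 (.d 43) (.b 0 9 (.b 12 8 (.d 44) (.b 11 33 (.b 5 21 (.b 10 26 (.b 0 6 (.b 2 12 (.d
    48) (.b 1 37 (.b 11 29 (.b 5 17 (.b 2 14 (.d 46) (.b 10 22 (.d 54) (.b 4 36 (.b 1 30 (.b 0 3
    (.d 53) (.b 4 34 (.d 58) (.b 3 32 (.d 58) (.b 11 20 (.d 58) (.b 9 41 (.b 1 25 (.b 6 9 (.d 59)
    (.b 1 24 (.b 9 39 (.b 9 38 (.b 9 35 (.d 67) (.b 8 31 (.b 12 9 (.d 71) (.u 72)) (.u 69))) (.u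
    64)) (.u 63)) (.u 62))) (.u 61)) (.u 61)))))) (.u 56)) (.u 56)))) (.u 49)) (.u 49)) (.u 49)))
    (.u 50)) (.u 50)) (.u 45)) (.u 45))) (.u 47))) (.u 72)) (.u 72)) (.u 72)) (.u 72))) (.u 72))
    (.u 72)) (.u 42)))

theorem cp_14_4_0 : ckp 14 99 6 1267650600228229401496700924992
    PB_14_4 AL_14_4 []
    [] tp_14_4_0
    [3, 24, 11, 26, 27, 14, 9, 30, 17, 18, 19, 20, 7, 16]
    [15, 1000000, 18, 1000000, 54, 27, 10, 30, 32, 1000000, 36, 40, 12, 16] = true := by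
  decide +kernel

def tp_14_4_1 : Tp :=
    (.b 7 29 (.d 41) (.b 7 57 (.b 3 49 (.b 1 45 (.b 11 37 (.b 0 12 (.b 10 32 (.b 12 8 (.d 44) (.b
    11 33 (.b 13 9 (.b 4 28 (.d 64) (.b 3 26 (.d 64) (.b 0 2 (.d 64) (.b 5 34 (.b 7 33 (.b 5 29
    (.b 3 27 (.d 63) (.b 4 54 (.b 5 28 (.b 2 22 (.b 7 30 (.b 2 21 (.d 67) (.u 72)) (.u 68)) (.u
    66)) (.u 66)) (.u 66))) (.u 65)) (.u 65)) (.u 60))))) (.u 45)) (.u 45))) (.b 12 8 (.b 8 24 (.b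
    0 8 (.b 13 8 (.d 46) (.b 9 27 (.d 47) (.b 1 37 (.b 11 29 (.b 8 23 (.u 50) (.u 49)) (.u 49))
    (.u 49)))) (.u 48)) (.u 48)) (.u 44))) (.b 10 32 (.b 12 8 (.b 8 26 (.b 13 8 (.b 9 27 (.b 10 28
    (.b 8 24 (.b 10 26 (.b 9 24 (.b 3 39 (.b 11 27 (.b 12 7 (.d 45) (.b 10 25 (.b 5 34 (.b 4 28
    (.d 64) (.b 3 26 (.d 64) (.b 7 33 (.b 5 29 (.b 3 27 (.d 63) (.b 4 54 (.b 5 28 (.b 2 22 (.b 7
    30 (.b 2 21 (.d 67) (.b 0 13 (.d 71) (.u 72))) (.u 68)) (.u 66)) (.u 66)) (.u 66))) (.u 65))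
    (.u 65)))) (.u 60)) (.u 51))) (.u 51)) (.u 51)) (.u 50)) (.u 50)) (.u 48)) (.u 48)) (.u 47))
    (.u 46)) (.u 46)) (.u 44)) (.u 44))) (.u 69)) (.u 69)) (.u 69)) (.u 69)))

theorem cp_14_4_1 : ckp 14 99 6 1267650600228229401496700924992
    PB_14_4 AL_14_4 []
    [] tp_14_4_1
    [1, 24, 21, 26, 27, 28, 9, 1, 17, 18, 19, 20, 7, 8]
    [15, 1000000, 24, 1000000, 1000000, 1000000, 10, 1000000, 30, 31, 1000000, 1000000, 10, 11] = true := by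
  decide +kernel

end Pool.Agent.W2helper10.E9
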