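import Pool.Agent.W2helper10.E9.D14_4

set_option autoImplicit false
set_option maxRecDepth 1000000

namespace Pool.Agent.W2helper10.E9

open Pool.Agent.MPe9218d Pool.Agent.H372R3.GD Pool.Agent.H372R3.GE

def tp_14_4_2 : Tp :=
    (.b 13 15 (.b 12 13 (.b 0 16 (.b 2 20 (.b 13 14 (.d 40) (.b 9 31 (.b 2 17 (.b 0 15 (.b 7 29
    (.d 41) (.b 11 33 (.b 12 7 (.b 8 30 (.d 42) (.b 2 14 (.b 0 10 (.b 10 32 (.d 44) (.b 2 12 (.b 0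
    8 (.b 9 27 (.d 47) (.b 1 37 (.b 11 29 (.b 2 11 (.u 50) (.u 49)) (.u 49)) (.u 49))) (.u 48))
    (.u 48))) (.u 46)) (.u 46))) (.u 45)) (.u 45))) (.b 7 29 (.b 10 32 (.b 12 8 (.b 8 30 (.d 42)
    (.u 46)) (.u 44)) (.u 44)) (.u 41))) (.u 43)) (.u 43))) (.b 13 14 (.b 8 30 (.b 12 10 (.b 9 31
    (.b 13 11 (.b 0 15 .h (.b 7 29 (.b 10 32 (.b 12 8 (.b 8 26 (.b 13 8 (.b 10 26 (.b 9 24 (.b 7
    23 (.d 47) (.b 8 24 (.b 3 39 (.b 11 27 (.b 7 25 (.d 45) (.b 12 7 (.d 45) (.b 10 25 (.b 5 34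
    (.b 4 28 (.d 64) (.b 3 26 (.d 64) (.b 5 29 (.b 4 54 (.b 5 28 (.b 2 22 (.b 1 45 (.b 3 27 (.d
    63) (.b 2 21 (.d 67) (.b 4 50 (.b 1 44 (.b 7 27 (.d 71) (.u 72)) (.u 70)) (.u 70)))) (.u 69))
    (.u 66)) (.u 66)) (.u 66)) (.u 65)))) (.u 60)) (.u 51)))) (.u 51)) (.u 51)) (.u 48))) (.u 50))
    (.u 50)) (.u 46)) (.u 46)) (.u 44)) (.u 44)) (.u 41))) (.u 43)) (.u 43)) (.u 42)) (.u 42)) (.u
    40))) (.b 2 20 (.b 13 14 (.b 7 29 (.b 10 32 (.b 12 8 (.b 10 26 (.b 9 24 (.b 7 23 (.d 47) (.b 3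
    39 (.b 11 27 (.b 10 25 (.b 8 40 (.b 5 34 (.b 4 28 (.d 64) (.b 3 26 (.d 64) (.b 5 29 (.b 4 54
    (.b 8 34 (.b 5 28 (.b 8 32 (.b 2 18 (.b 8 30 (.d 42) (.b 2 14 (.b 13 11 (.d 43) (.u 46)) (.u
    46))) (.b 8 30 (.b 13 11 (.b 8 26 (.b 13 8 (.b 7 25 (.d 45) (.b 12 7 (.d 45) (.b 8 24 (.b 4 50
    (.b 1 44 (.b 3 27 (.d 63) (.b 0 17 (.d 67) (.b 2 19 (.d 69) (.b 7 27 (.d 71) (.u 72))))) (.u
    70)) (.u 70)) (.u 48)))) (.u 46)) (.u 46)) (.u 43)) (.u 42))) (.u 68)) (.u 66)) (.u 66)) (.u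
    66)) (.u 65)))) (.u 60)) (.u 60)) (.u 51)) (.u 51)) (.u 51))) (.u 50)) (.u 50)) (.u 44)) (.u
    44)) (.u 41)) (.u 40)) (.u 40))) (.u 39)) (.u 39))

theorem cp_14_4_2 : ckp 14 99 6 1267650600228229401496700924992
    PB_14_4 AL_14_4 []
    [([1, 24, 21, 26, 27, 28, 9, 1, 17, 18, 19, 20, 7, 8], [15, 1000000, 24, 1000000, 1000000,
      1000000, 10, 1000000, 30, 31, 1000000, 1000000, 10, 11])] tp_14_4_2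
    [1, 24, 11, 26, 27, 28, 9, 1, 17, 18, 19, 20, 7, 8]
    [18, 1000000, 24, 1000000, 1000000, 1000000, 10, 1000000, 1000000, 1000000, 1000000, 1000000, 14, 17] = true := by
  decide +kernel

def tp_14_4_3 : Tp :=
    (.b 12 14 (.d 38) (.b 5 27 (.b 13 15 (.b 0 16 (.b 2 20 (.b 13 14 (.d 40) (.b 0 15 (.b 7 29 (.d
    41) (.b 11 40 (.b 8 34 (.b 0 2 (.d 60) (.b 10 36 (.b 3 32 (.d 58) (.b 11 20 (.d 58) (.b 0 8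
    (.d 58) (.b 9 41 (.b 7 37 (.b 1 27 (.d 59) (.b 6 9 (.d 59) (.u 61))) (.u 61)) (.u 61))))) (.u
    68))) (.u 66)) (.u 66))) (.b 7 29 (.b 10 32 (.b 4 20 (.b 3 32 (.d 58) (.b 11 20 (.d 58) (.b 7
    12 (.d 58) (.b 8 40 (.b 1 51 (.b 11 43 (.b 1 27 (.d 59) (.b 6 9 (.d 59) (.b 9 41 (.b 7 15 (.b
    9 27 (.d 47) (.b 10 26 (.b 8 24 (.d 48) (.b 4 16 (.d 48) (.b 2 12 (.d 48) (.b 1 37 (.b 11 29
    (.b 5 21 (.d 45) (.b 4 19 (.d 45) (.b 8 26 (.b 2 18 (.d 42) (.b 9 31 (.b 5 23 (.u 46) (.u 43))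
    (.u 43))) (.u 46)))) (.u 49)) (.u 49))))) (.u 50))) (.u 61)) (.u 61)))) (.u 63)) (.u 63)) (.u
    60))))) (.u 44)) (.u 44)) (.u 41)))) (.b 13 14 (.b 8 30 (.b 4 22 (.b 7 10 (.d 60) (.b 0 2 (.d
    60) (.b 11 40 (.b 2 22 (.b 10 36 (.b 3 32 (.d 58) (.b 11 20 (.d 58) (.b 7 12 (.d 58) (.b 0 8
    (.d 58) (.b 1 51 (.b 9 39 (.b 9 38 (.d 64) (.b 5 23 (.b 13 11 (.b 10 26 (.b 4 14 (.b 0 12 (.d
    44) (.b 7 23 (.b 0 15 (.d 41) (.b 11 33 (.d 45) (.b 5 21 (.d 45) (.b 13 9 (.d 45) (.u 46)))))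
    (.u 47))) (.u 50)) (.u 50)) (.u 43)) (.u 43))) (.u 63)) (.u 63)))))) (.u 68)) (.u 66)) (.u
    66)))) (.u 42)) (.u 42)) (.u 40))) (.b 2 20 (.b 13 14 (.b 7 29 (.b 10 32 (.b 4 20 (.b 3 32 (.d
    58) (.b 11 20 (.d 58) (.b 7 12 (.d 58) (.b 8 40 (.b 1 51 (.b 11 43 (.b 1 27 (.d 59) (.b 6 9
    (.d 59) (.b 9 41 (.b 7 15 (.b 9 27 (.d 47) (.b 10 26 (.b 8 24 (.d 48) (.b 4 16 (.d 48) (.b 2
    12 (.d 48) (.b 1 37 (.b 11 29 (.b 5 21 (.d 45) (.b 4 19 (.d 45) (.b 13 9 (.d 45) (.b 8 26 (.b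
    2 18 (.d 42) (.u 46)) (.u 46))))) (.u 49)) (.u 49))))) (.u 50))) (.u 61)) (.u 61)))) (.u 63))
    (.u 63)) (.u 60))))) (.u 44)) (.u 44)) (.u 41)) (.u 40)) (.u 40))) (.u 39)) (.u 39)))

theorem cp_14_4_3 : ckp 14 99 6 1267650600228229401496700924992
    PB_14_4 AL_14_4 []
    [] tp_14_4_3
    [1, 24, 11, 26, 13, 14, 9, 1, 17, 18, 19, 20, 7, 8]
    [18, 1000000, 24, 1000000, 26, 1000000, 10, 1000000, 1000000, 1000000, 1000000, 1000000, 16, 17] = true := by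
  decide +kernel

end Pool.Agent.W2helper10.E9
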