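import Pool.Agent.W2helper10.E9.D14_4

set_option autoImplicit false
set_option maxRecDepth 1000000

namespace Pool.Agent.W2helper10.E9

open Pool.Agent.MPe9218d Pool.Agent.H372R3.GD Pool.Agent.H372R3.GE

def tp_14_4_4 : Tp :=
    (.b 4 26 .h (.b 12 14 (.b 5 27 (.b 12 13 (.b 13 15 (.d 39) (.b 2 20 (.b 0 16 (.b 0 15 (.b 7 29
    (.d 41) (.b 10 36 (.b 8 32 (.b 0 2 (.d 60) (.b 4 54 (.b 11 40 (.b 13 16 (.b 7 30 (.b 12 12 (.b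
    2 18 .h (.b 8 30 (.b 12 10 (.b 9 31 (.b 5 23 (.b 4 28 (.d 64) (.b 3 26 (.d 64) (.b 3 53 (.b 1
    47 (.d 67) (.b 3 29 (.b 11 21 (.d 57) (.b 10 19 (.d 57) (.b 4 34 (.d 58) (.b 0 8 (.d 58) (.b
    10 28 (.b 8 24 (.b 10 26 (.b 9 24 (.b 0 9 (.d 47) (.b 9 21 (.b 6 9 (.u 62) (.u 59)) (.u 53)))
    (.u 50)) (.u 50)) (.u 48)) (.u 48)))))) (.u 61))) (.u 65)))) (.u 43)) (.u 43)) (.u 42)) (.u
    42))) (.u 68)) (.u 68)) (.u 66)) (.u 66)) (.u 66))) (.u 68)) (.u 68))) (.b 7 29 (.b 10 32 (.b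
    12 8 (.b 10 26 (.b 9 24 (.b 7 23 (.d 47) (.b 8 40 (.b 4 28 (.d 64) (.b 3 26 (.d 64) (.b 3 53
    (.b 11 41 (.b 4 54 (.b 11 40 (.b 8 34 (.b 13 16 (.b 1 47 (.d 67) (.b 9 21 (.b 3 29 (.b 11 21
    (.d 57) (.b 10 19 (.d 57) (.b 4 34 (.d 58) (.b 6 9 (.u 62) (.u 59))))) (.u 61)) (.u 53))) (.u
    66)) (.u 66)) (.u 66)) (.u 66)) (.u 65)) (.u 65)))) (.u 60))) (.u 50)) (.u 50)) (.u 44)) (.u
    44)) (.u 41))) (.u 40)) (.u 40))) (.b 13 15 (.b 8 30 (.b 2 18 (.b 10 32 (.b 0 12 (.b 13 14 (.d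
    40) (.b 7 29 (.d 41) (.b 11 33 (.b 5 21 (.b 0 2 (.d 60) (.b 4 54 (.u 68) (.u 66))) (.u 45))
    (.u 45)))) (.u 44)) (.u 44)) (.u 42)) (.u 42)) (.u 39))) .h) (.u 38)))

theorem cp_14_4_4 : ckp 14 99 6 1267650600228229401496700924992
    PB_14_4 AL_14_4 []
    [([1, 24, 11, 26, 13, 14, 9, 1, 17, 18, 19, 20, 7, 8], [18, 1000000, 24, 1000000, 26,
      1000000, 10, 1000000, 1000000, 1000000, 1000000, 1000000, 16, 17]), ([3, 24, 11, 26, 27,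
      14, 9, 30, 17, 18, 19, 20, 7, 16], [15, 1000000, 18, 1000000, 54, 27, 10, 30, 32, 1000000,
      36, 40, 12, 16]), ([1, 24, 11, 26, 27, 28, 9, 1, 17, 18, 19, 20, 7, 8], [18, 1000000, 24,
      1000000, 1000000, 1000000, 10, 1000000, 1000000, 1000000, 1000000, 1000000, 14, 17])] tp_14_4_4
    [1, 24, 11, 26, 13, 14, 9, 1, 17, 18, 19, 20, 7, 8]
    [18, 1000000, 24, 1000000, 1000000, 1000000, 10, 1000000, 1000000, 1000000, 1000000, 1000000, 16, 17] = true := by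
  decide +kernel

def tp_14_4_5 : Tp :=
    (.b 12 20 (.b 13 21 (.b 2 24 (.b 12 16 (.b 3 25 (.b 13 17 (.d 37) (.b 5 27 (.b 12 13 (.b 2 20
    (.b 0 16 (.b 4 26 (.d 38) (.b 0 15 (.b 7 29 (.d 41) (.b 3 21 (.d 41) (.b 4 54 (.b 11 40 (.b 8
    34 (.b 0 2 (.d 60) (.u 66)) (.u 66)) (.u 66)) (.u 66)))) (.b 4 54 (.b 11 40 (.b 8 34 (.b 7 10
    (.d 60) (.b 3 2 (.d 60) (.u 66))) (.u 66)) (.u 66)) (.u 66)))) (.u 40)) (.u 40)) (.u 39)) (.u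
    39))) (.b 13 17 (.b 0 18 .h (.b 4 26 (.b 12 14 (.b 2 20 (.b 13 14 (.b 7 29 (.b 5 27 (.b 12 13
    (.d 39) (.b 10 32 (.b 4 20 (.b 3 32 (.d 58) (.b 11 20 (.d 58) (.b 7 12 (.d 58) (.b 8 40 (.b 1
    51 (.b 11 43 (.b 1 27 (.d 59) (.b 6 9 (.d 59) (.b 9 41 (.b 7 15 (.b 9 27 (.d 47) (.b 10 26 (.b
    8 24 (.d 48) (.b 4 16 (.d 48) (.b 2 12 (.d 48) (.b 1 37 (.b 11 29 (.b 5 21 (.d 45) (.b 4 19
    (.d 45) (.b 13 9 (.d 45) (.b 8 26 (.b 2 18 (.d 42) (.u 46)) (.u 46))))) (.u 49)) (.u 49)))))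
    (.u 50))) (.u 61)) (.u 61)))) (.u 63)) (.u 63)) (.u 60))))) (.u 44)) (.u 44))) (.b 12 13 (.b 2
    18 (.b 4 22 (.b 8 30 (.d 42) (.b 12 10 (.d 42) (.b 10 32 (.b 4 20 (.b 2 14 (.b 13 8 (.b 9 31
    (.d 43) (.b 7 23 (.b 11 33 (.d 45) (.b 4 19 (.d 45) (.u 49))) (.u 47))) (.u 46)) (.u 46)) (.u
    44)) (.u 44)))) (.b 10 32 (.b 12 8 (.b 8 30 (.d 42) (.b 2 14 (.b 13 8 (.b 9 31 (.d 43) (.b 7
    23 (.b 11 33 (.d 45) (.b 12 7 (.d 45) (.u 49))) (.u 47))) (.u 46)) (.u 46))) (.u 44)) (.u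
    44))) (.b 9 31 (.b 13 11 (.b 8 26 (.b 13 8 (.b 4 22 (.b 12 10 (.d 42) (.b 10 32 (.b 4 20 (.b 3
    32 (.d 58) (.b 11 20 (.d 58) (.b 7 12 (.d 58) (.b 5 34 (.b 1 24 (.d 62) (.b 1 51 (.b 11 43 (.b
    1 27 (.d 59) (.b 6 9 (.d 59) (.b 7 15 (.b 11 33 (.d 45) (.b 4 19 (.d 45) (.b 9 27 (.d 47) (.u
    49)))) (.u 61)))) (.u 63)) (.u 63))) (.u 60))))) (.u 44)) (.u 44))) (.b 12 10 (.b 10 32 (.b 12
    8 (.b 10 26 (.b 9 24 (.b 7 23 (.d 47) (.b 8 24 (.b 3 39 (.b 11 27 (.b 7 25 (.d 45) (.b 12 7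
    (.d 45) (.b 10 25 (.b 3 32 (.d 58) (.b 11 20 (.d 58) (.b 5 34 (.b 1 27 (.d 59) (.b 6 9 (.d 59)
    (.u 61))) (.u 60)))) (.u 51)))) (.u 51)) (.u 51)) (.u 48))) (.u 50)) (.u 50)) (.u 44)) (.u
    44)) (.u 42))) (.u 46)) (.u 46)) (.u 43)) (.u 43))) (.u 39))) (.u 41)) (.u 40)) (.u 40)) (.u
    38)) (.u 38))) (.u 37))) (.u 36)) (.u 36)) (.u 33)) (.u 32))

theorem cp_14_4_5 : ckp 14 99 6 1267650600228229401496700924992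
    PB_14_4 AL_14_4 []
    [([1, 24, 11, 26, 13, 14, 9, 1, 17, 18, 19, 20, 7, 8], [18, 1000000, 24, 1000000, 1000000,
      1000000, 10, 1000000, 1000000, 1000000, 1000000, 1000000, 16, 17])] tp_14_4_5
    [1, 24, 11, 1, 13, 14, 9, 1, 17, 18, 19, 20, 7, 8]
    [22, 1000000, 1000000, 1000000, 1000000, 1000000, 10, 1000000, 1000000, 1000000, 1000000, 1000000, 1000000, 1000000] = true := by
  decide +kernel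

end Pool.Agent.W2helper10.E9
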