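import Pool.Agent.W2helper10.E9.D14_4

set_option autoImplicit false
set_option maxRecDepth 1000000

namespace Pool.Agent.W2helper10.E9

open Pool.Agent.MPe9218d Pool.Agent.H372R3.GD Pool.Agent.H372R3.GE

def tp_14_4_6 : Tp :=
    (.b 13 15 (.b 12 13 (.b 3 39 (.b 11 27 (.b 0 16 (.b 2 20 (.b 13 14 (.d 40) (.b 2 17 (.b 8 32
    (.b 7 30 (.b 1 47 (.d 67) (.b 9 21 (.b 4 33 (.b 3 32 (.d 58) (.b 11 20 (.d 58) (.u 61))) (.u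
    59)) (.u 53))) (.u 68)) (.u 68)) (.u 43))) (.b 13 14 (.b 8 30 (.b 12 10 (.b 13 11 (.b 8 24 (.b
    7 30 (.b 0 15 (.b 7 29 (.d 41) (.b 1 45 (.b 3 27 (.d 63) (.b 2 21 (.d 67) (.b 4 48 (.b 0 12
    (.b 12 8 (.d 44) (.b 13 9 (.b 1 44 (.d 70) (.b 8 23 (.b 9 21 (.b 4 33 (.b 3 32 (.d 58) (.b 11
    20 (.d 58) (.u 61))) (.u 59)) (.u 53)) (.u 49))) (.u 45))) (.u 72)) (.u 72)))) (.u 69))) (.b 7
    29 (.b 12 8 (.b 13 8 (.b 7 25 (.d 45) (.b 12 7 (.d 45) (.b 1 45 (.b 3 27 (.d 63) (.b 2 21 (.d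
    67) (.b 4 50 (.b 1 44 (.b 7 27 (.d 71) (.u 72)) (.u 70)) (.u 70)))) (.u 69)))) (.u 46)) (.u
    44)) (.u 41))) (.u 68)) (.u 48)) (.u 43)) (.u 42)) (.u 42)) (.u 40))) (.b 2 20 (.b 13 14 (.b 7
    29 (.b 12 8 (.b 8 32 (.b 2 18 (.b 8 30 (.d 42) (.b 2 14 (.b 13 11 (.d 43) (.u 46)) (.u 46)))
    (.b 8 30 (.b 13 11 (.b 8 26 (.b 13 8 (.b 7 25 (.d 45) (.b 12 7 (.d 45) (.b 8 24 (.b 4 50 (.b 1
    44 (.b 3 27 (.d 63) (.b 0 17 (.d 67) (.b 2 19 (.d 69) (.b 7 27 (.d 71) (.u 72))))) (.u 70))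
    (.u 70)) (.u 48)))) (.u 46)) (.u 46)) (.u 43)) (.u 42))) (.u 68)) (.u 44)) (.u 41)) (.u 40))
    (.u 40))) (.u 51)) (.u 51)) (.u 39)) (.u 39))

theorem cp_14_4_6 : ckp 14 99 6 1267650600228229401496700924992
    PB_14_4 AL_14_4 []
    [] tp_14_4_6
    [10, 24, 11, 27, 29, 28, 11, 24, 19, 18, 17, 20, 7, 8]
    [18, 1000000, 22, 53, 54, 28, 14, 33, 34, 24, 18, 40, 14, 16] = true := by
  decide +kernel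

def tp_14_4_7 : Tp :=
    (.b 13 17 (.b 0 18 (.b 4 26 (.b 12 14 (.d 38) (.b 5 27 (.b 13 15 (.b 3 32 (.d 58) (.b 11 20
    (.d 58) (.b 1 51 (.b 11 43 (.b 9 39 (.b 8 37 (.b 10 16 (.d 60) (.b 7 37 (.b 1 27 (.d 59) (.u
    61)) (.u 61))) (.u 63)) (.u 63)) (.u 63)) (.u 63)))) (.u 39)) (.u 39))) (.b 12 14 (.b 9 24 (.b
    7 23 (.d 47) (.b 0 9 (.d 47) (.b 4 28 (.d 64) (.b 3 26 (.d 64) (.b 3 53 (.b 11 41 (.b 7 33 (.b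
    5 29 (.b 4 54 (.b 11 40 (.b 8 34 (.b 10 16 (.d 60) (.b 5 28 (.b 2 22 (.b 13 16 (.b 5 27 (.b 12
    13 (.b 13 15 (.d 39) (.b 2 20 (.b 0 16 (.b 8 32 (.b 7 30 (.b 1 47 (.d 67) (.b 9 21 (.b 4 33
    (.b 3 32 (.d 58) (.b 11 20 (.d 58) (.u 61))) (.u 59)) (.u 53))) (.u 68)) (.u 68)) (.u 40)) (.u
    40))) (.b 13 15 (.b 8 30 (.b 2 18 (.b 0 12 (.b 13 14 (.d 40) (.b 7 29 (.d 41) (.b 11 33 (.b 5
    21 (.b 2 17 (.d 43) (.b 8 24 (.u 68) (.u 48))) (.u 45)) (.u 45)))) (.u 44)) (.u 42)) (.u 42))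
    (.u 39))) .h) (.u 66)) (.u 66)) (.u 66))) (.u 66)) (.u 66)) (.u 66)) (.u 65)) (.u 65)) (.u
    65)) (.u 65)))))) (.u 50)) (.u 38))) (.b 4 26 (.b 12 14 (.b 2 20 (.b 13 14 (.b 7 29 (.b 3 32
    (.d 58) (.b 11 20 (.d 58) (.b 1 51 (.b 11 43 (.b 9 39 (.b 8 37 (.b 1 24 (.d 62) (.b 5 31 (.b 1
    27 (.d 59) (.b 10 16 (.d 60) (.u 61))) (.u 63))) (.u 63)) (.u 63)) (.u 63)) (.u 63)))) (.u
    41)) (.u 40)) (.u 40)) (.u 38)) (.u 38))) (.u 37))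

theorem cp_14_4_7 : ckp 14 99 6 1267650600228229401496700924992
    PB_14_4 AL_14_4 []
    [([10, 24, 11, 27, 29, 28, 11, 24, 19, 18, 17, 20, 7, 8], [18, 1000000, 22, 53, 54, 28,
      14, 33, 34, 24, 18, 40, 14, 16])] tp_14_4_7
    [9, 24, 11, 26, 13, 14, 11, 17, 19, 18, 15, 20, 7, 8]
    [22, 1000000, 24, 1000000, 1000000, 1000000, 14, 1000000, 1000000, 1000000, 18, 1000000, 16, 21] = true := by
  decide +kernel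

end Pool.Agent.W2helper10.E9
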