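import Pool.Agent.W2helper10.E9.D14_4

set_option autoImplicit false
set_option maxRecDepth 1000000

namespace Pool.Agent.W2helper10.E9

open Pool.Agent.MPe9218d Pool.Agent.H372R3.GD Pool.Agent.H372R3.GE

def tp_14_4_8 : Tp :=
    (.b 11 33 (.d 45) (.b 7 25 (.d 45) (.b 9 27 (.b 3 29 (.b 6 11 (.d 57) (.b 0 26 (.d 58) (.b 1
    41 (.b 13 12 (.d 70) (.b 0 36 (.b 4 18 (.d 74) (.b 8 24 (.b 9 24 (.b 5 15 (.b 1 39 (.b 1 38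
    (.b 1 29 (.d 85) (.b 0 27 (.d 85) (.b 11 37 (.d 97) (.b 7 27 (.b 7 26 (.b 2 19 (.d 97) (.b 13
    13 (.d 97) (.u 69))) (.u 72)) (.u 71))))) (.u 76)) (.u 75)) (.u 51)) (.u 50)) (.u 48))) (.b 8
    24 (.b 4 16 (.b 8 20 (.b 5 14 (.b 4 13 (.d 51) (.b 8 18 (.b 0 38 (.d 74) (.b 1 39 (.b 1 38 (.b
    9 26 (.b 1 35 (.b 9 25 (.d 49) (.b 4 14 (.b 1 33 (.b 1 31 (.b 8 17 (.d 77) (.u 55)) (.u 55))
    (.u 53)) (.u 50))) (.u 79)) (.u 76)) (.u 76)) (.u 75))) (.u 54))) (.u 52)) (.u 52)) (.u 48))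
    (.u 48)))) (.u 73)))) (.u 61)) (.u 47))))

theorem cp_14_4_8 : ckp 14 99 6 1267650600228229401496700924992
    PB_14_4 AL_14_4 []
    [] tp_14_4_8
    [25, 28, 19, 28, 13, 14, 11, 12, 17, 18, 14, 20, 14, 12]
    [44, 47, 20, 53, 19, 20, 14, 29, 26, 31, 14, 40, 14, 14] = true := by
  decide +kernel

def tp_14_4_9 : Tp :=
    (.b 9 24 (.b 7 23 (.d 47) (.b 0 36 (.b 8 24 (.b 3 39 (.b 11 27 (.b 7 25 (.d 45) (.b 3 29 (.b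
    11 21 (.d 57) (.b 6 11 (.d 57) (.b 0 26 (.d 58) (.b 7 27 (.d 71) (.b 1 41 (.b 5 25 (.d 69) (.b
    2 19 (.d 69) (.b 1 39 (.b 1 38 (.b 1 30 (.d 97) (.b 0 27 (.b 8 18 (.d 54) (.b 8 22 (.d 78) (.b
    11 26 (.b 1 35 (.b 8 23 (.d 49) (.b 9 23 (.b 11 22 (.d 84) (.b 9 18 (.d 84) (.b 6 12 (.b 1 31
    (.d 83) (.b 11 23 (.d 83) (.b 9 19 (.b 1 33 (.d 53) (.b 1 34 (.d 80) (.b 11 25 (.b 11 24 (.d
    83) (.u 82)) (.u 81)))) (.u 55)))) (.u 56)))) (.u 79))) (.u 79)) (.u 52)))) (.u 85))) (.u 76))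
    (.u 75)))) (.u 73)))))) (.u 61))) (.u 51)) (.u 51)) (.u 48)) (.u 48))) (.u 50))

theorem cp_14_4_9 : ckp 14 99 6 1267650600228229401496700924992
    PB_14_4 AL_14_4 []
    [] tp_14_4_9
    [25, 28, 19, 28, 20, 24, 11, 12, 17, 18, 14, 20, 14, 8]
    [44, 47, 20, 53, 20, 27, 14, 29, 26, 31, 14, 40, 14, 8] = true := by
  decide +kernel

end Pool.Agent.W2helper10.E9
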