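import Pool.Agent.W2helper10.E9.D14_4

set_option autoImplicit false
set_option maxRecDepth 1000000

namespace Pool.Agent.W2helper10.E9

open Pool.Agent.MPe9218d Pool.Agent.H372R3.GD Pool.Agent.H372R3.GE

def tp_14_4_10 : Tp :=
    (.b 0 44 (.b 5 23 (.b 9 31 (.b 13 11 (.d 43) (.b 8 26 (.b 5 20 (.b 4 19 .h (.b 9 24 (.b 7 23
    (.d 47) (.b 0 36 (.b 8 24 (.b 3 29 (.b 11 21 (.d 57) (.b 6 11 (.d 57) (.b 0 26 (.d 58) (.b 7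
    24 (.d 74) (.b 7 25 (.b 11 33 (.d 45) (.b 5 15 (.b 11 35 (.d 71) (.b 1 41 (.b 13 12 (.d 70)
    (.b 1 39 (.b 1 38 (.b 11 37 (.d 97) (.b 2 19 (.d 97) (.b 13 13 (.d 97) (.u 69)))) (.u 76)) (.u
    75))) (.u 73))) (.u 51))) (.b 11 33 (.b 7 27 (.d 71) (.b 1 41 (.b 2 19 (.d 69) (.b 13 13 (.d
    69) (.b 7 28 (.d 98) (.d 99)))) (.u 73))) (.u 45))))))) (.u 61)) (.u 48)) (.u 48))) (.u 50)))
    (.u 46)) (.u 46))) (.b 13 11 (.b 7 23 (.b 4 14 (.b 11 33 (.d 45) (.b 5 21 (.d 45) (.b 13 9 (.d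
    45) (.u 46)))) (.u 50)) (.u 47)) (.u 43))) (.b 9 31 (.b 13 11 (.b 8 26 (.b 13 8 (.b 4 19 (.b
    11 33 (.d 45) (.b 7 25 (.d 45) (.b 9 27 (.b 1 37 (.b 9 25 (.b 8 23 (.b 3 39 (.b 4 13 (.b 0 36
    (.d 48) (.b 9 24 (.d 50) (.u 52))) (.u 51)) (.u 51)) (.u 49)) (.u 49)) (.u 49)) (.u 47)))) .h)
    (.u 46)) (.u 46)) (.u 43)) (.u 43))) (.u 68))

theorem cp_14_4_10 : ckp 14 99 6 1267650600228229401496700924992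
    PB_14_4 AL_14_4 []
    [([25, 28, 19, 28, 13, 14, 11, 12, 17, 18, 14, 20, 14, 12], [44, 47, 20, 53, 19, 20, 14,
      29, 26, 31, 14, 40, 14, 14]), ([25, 28, 19, 28, 20, 24, 11, 12, 17, 18, 14, 20, 14, 8],
      [44, 47, 20, 53, 20, 27, 14, 29, 26, 31, 14, 40, 14, 8])] tp_14_4_10
    [25, 28, 19, 28, 13, 14, 11, 12, 17, 18, 14, 20, 14, 8]
    [46, 47, 20, 53, 20, 27, 14, 29, 30, 35, 14, 40, 14, 14] = true := by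
  decide +kernel

def tp_14_4_11 : Tp :=
    (.b 7 8 (.d 62) (.b 11 40 (.b 5 28 (.b 1 27 (.d 59) (.b 7 11 (.d 59) (.b 0 24 (.d 60) (.b 3 53
    (.b 1 47 (.b 3 27 (.d 63) (.b 10 13 (.d 63) (.b 4 22 (.b 12 10 (.d 42) (.b 4 20 (.b 1 44 (.b 4
    19 (.b 11 33 (.d 45) (.b 7 25 (.d 45) (.b 9 27 (.b 1 37 (.b 9 25 (.b 8 23 (.b 3 39 (.b 4 13
    (.b 0 36 (.d 48) (.b 9 24 (.d 50) (.u 52))) (.u 51)) (.u 51)) (.u 49)) (.u 49)) (.u 49)) (.u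
    47)))) (.b 9 24 (.b 7 23 (.d 47) (.b 0 36 (.b 8 24 (.b 3 39 (.b 11 27 (.b 7 25 (.d 45) (.b 3
    29 (.b 11 21 (.d 57) (.b 6 11 (.d 57) (.b 0 26 (.d 58) (.b 12 12 (.d 68) (.b 2 19 (.d 69) (.b
    7 27 (.d 71) (.b 1 41 (.b 1 39 (.b 1 38 (.b 1 37 (.d 77) (.b 8 23 (.b 9 21 (.d 77) (.u 53))
    (.u 49))) (.u 76)) (.u 75)) (.u 73)))))))) (.u 61))) (.u 51)) (.u 51)) (.u 48)) (.u 48))) (.u
    50))) (.u 70)) (.u 44))) (.b 12 10 (.b 12 8 (.b 9 24 (.b 7 23 (.d 47) (.b 0 36 (.b 8 24 (.b 3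
    39 (.b 11 27 (.b 7 25 (.d 45) (.b 12 7 (.d 45) (.b 3 29 (.b 11 21 (.d 57) (.b 6 11 (.d 57) (.b
    0 26 (.d 58) (.b 4 24 (.d 68) (.b 1 44 (.b 2 19 (.d 69) (.b 7 27 (.d 71) (.b 1 41 (.b 1 39 (.b
    1 38 (.b 1 37 (.d 77) (.b 8 23 (.b 9 21 (.d 77) (.u 53)) (.u 49))) (.u 76)) (.u 75)) (.u
    73)))) (.u 70)))))) (.u 61)))) (.u 51)) (.u 51)) (.u 48)) (.u 48))) (.u 50)) (.u 44)) (.u
    42))))) (.u 67)) (.u 65))))) (.u 66)) (.u 66)))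

theorem cp_14_4_11 : ckp 14 99 6 1267650600228229401496700924992
    PB_14_4 AL_14_4 []
    [] tp_14_4_11
    [23, 25, 19, 27, 13, 28, 11, 7, 17, 18, 13, 20, 7, 8]
    [46, 1000000, 20, 1000000, 26, 1000000, 14, 29, 26, 31, 14, 1000000, 13, 8] = true := by
  decide +kernel

end Pool.Agent.W2helper10.E9
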