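import Pool.Agent.W2helper10.E9.D14_4

set_option autoImplicit false
set_option maxRecDepth 1000000

namespace Pool.Agent.W2helper10.E9

open Pool.Agent.MPe9218d Pool.Agent.H372R3.GD Pool.Agent.H372R3.GE

def tp_14_4_12 : Tp :=
    (.b 10 18 (.b 12 20 (.b 13 21 (.b 0 22 (.b 10 14 (.d 34) (.b 2 24 (.b 12 16 (.b 8 18 (.d 54)
    (.b 7 16 (.d 54) (.b 3 8 (.d 54) (.b 0 2 (.d 54) (.b 0 8 (.d 54) (.b 3 25 (.b 13 17 (.d 37)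
    (.b 5 27 (.b 12 13 (.b 2 20 (.b 0 16 (.b 4 26 (.d 38) (.b 4 34 (.d 58) (.b 11 20 (.d 58) (.b
    11 47 (.b 7 39 (.b 1 27 (.b 9 21 (.d 53) (.b 7 17 (.d 53) (.b 3 9 (.d 53) (.b 11 23 (.d 55)
    (.b 8 38 (.b 10 16 (.d 60) (.b 7 36 (.b 1 24 (.b 9 41 (.d 61) (.b 3 12 (.b 7 29 (.d 41) (.b 0
    15 (.d 41) (.b 12 8 (.d 44) (.b 11 33 (.b 5 21 (.b 2 17 (.d 43) (.b 8 26 (.b 5 20 (.b 8 24 (.b
    13 19 (.b 13 18 (.b 7 33 (.u 66) (.u 65)) (.u 64)) (.u 63)) (.u 48)) (.u 46)) (.u 46))) (.u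
    45)) (.u 45))))) (.u 50))) (.u 62)) (.u 62))) (.u 62)))))) (.u 59)) (.u 59)) (.u 59))))) (.u
    40)) (.u 40)) (.u 39)) (.u 39))) .h)))))) (.u 36)) (.u 36))) (.b 10 14 (.b 4 26 (.b 12 14 (.b
    2 24 (.b 10 12 (.d 36) (.b 2 20 (.b 13 14 (.b 3 25 (.d 37) (.b 7 29 (.b 5 27 (.b 12 13 (.d 39)
    (.b 4 20 (.b 2 18 (.b 8 30 (.d 42) (.b 2 17 (.b 5 23 (.b 9 31 (.d 43) (.b 13 11 (.d 43) (.b 5
    20 (.b 2 14 (.b 7 23 (.b 11 33 (.d 45) (.b 4 19 (.d 45) (.b 1 37 (.b 5 17 (.b 2 11 (.u 50) (.u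
    49)) (.u 49)) (.u 49)))) (.u 47)) (.u 46)) (.u 46)))) (.b 2 14 (.b 13 8 (.b 9 31 (.d 43) (.b 7
    23 (.b 11 33 (.d 45) (.b 4 19 (.d 45) (.u 49))) (.u 47))) (.u 46)) (.u 46))) (.b 5 20 (.b 13 8
    (.b 9 31 (.d 43) (.b 11 33 (.d 45) (.b 7 25 (.d 45) (.b 4 19 (.d 45) (.u 47))))) (.u 46)) (.u
    46)))) (.b 8 30 (.b 0 24 (.d 60) (.b 7 10 (.d 60) (.b 0 46 (.b 1 24 (.d 62) (.b 11 40 (.b 1 27
    (.d 59) (.b 7 11 (.d 59) (.b 3 53 (.b 1 47 (.b 9 35 (.b 3 27 (.d 63) (.b 10 13 (.d 63) .h))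
    (.u 67)) (.u 67)) (.u 65)))) (.u 66))) (.u 66)))) (.u 42))) (.u 44))) (.b 12 13 (.b 2 18 (.b 4
    22 (.b 8 30 (.d 42) (.b 12 10 (.d 42) (.b 4 20 (.b 2 14 (.b 13 8 (.b 9 31 (.d 43) (.b 7 23 (.b
    11 33 (.d 45) (.b 4 19 (.d 45) (.u 49))) (.u 47))) (.u 46)) (.u 46)) (.u 44)))) (.b 12 8 (.b 8
    30 (.d 42) (.b 2 14 (.b 13 8 (.b 9 31 (.d 43) (.b 7 23 (.b 11 33 (.d 45) (.b 12 7 (.d 45) (.u
    49))) (.u 47))) (.u 46)) (.u 46))) (.u 44))) (.b 9 31 (.b 13 11 (.b 8 26 (.b 13 8 (.b 3 26 (.d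
    64) (.b 7 6 (.d 64) (.b 0 46 (.b 1 24 (.d 62) .h) (.u 66)))) (.u 46)) (.u 46)) (.u 43)) (.u
    43))) (.u 39))) (.u 41))) (.u 40)) (.u 40))) (.b 10 12 (.b 13 14 (.b 3 25 (.d 37) (.b 10 11
    (.d 37) (.u 40))) (.u 40)) (.u 36))) (.u 38)) (.u 38)) (.u 34))) (.u 33)) (.u 32)) (.u 30))

theorem cp_14_4_12 : ckp 14 99 6 1267650600228229401496700924992
    PB_14_4 AL_14_4 []
    [([9, 24, 11, 26, 13, 14, 11, 17, 19, 18, 15, 20, 7, 8], [22, 1000000, 24, 1000000,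
      1000000, 1000000, 14, 1000000, 1000000, 1000000, 18, 1000000, 16, 21]), ([25, 28, 19, 28,
      13, 14, 11, 12, 17, 18, 14, 20, 14, 8], [46, 47, 20, 53, 20, 27, 14, 29, 30, 35, 14, 40,
      14, 14]), ([23, 25, 19, 27, 13, 28, 11, 7, 17, 18, 13, 20, 7, 8], [46, 1000000, 20,
      1000000, 26, 1000000, 14, 29, 26, 31, 14, 1000000, 13, 8])] tp_14_4_12
    [1, 24, 11, 1, 13, 14, 11, 1, 17, 18, 5, 20, 7, 8]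
    [1000000, 1000000, 1000000, 1000000, 1000000, 1000000, 14, 1000000, 1000000, 1000000, 1000000, 1000000, 1000000, 1000000] = true := by
  decide +kernel

def tp_14_4_13 : Tp :=
    (.b 10 4 (.d 16) (.b 12 6 (.d 18) (.b 13 7 (.d 19) (.b 2 10 (.d 22) (.b 4 12 (.d 24) (.b 5 13
    (.d 25) (.b 6 14 (.b 8 16 (.d 28) (.b 9 17 (.d 29) (.b 11 19 (.d 31) (.b 1 23 (.d 35) (.b 6 10
    (.b 10 18 (.d 30) (.b 0 22 (.b 6 8 (.b 12 20 (.d 32) (.b 2 24 (.b 6 4 (.b 13 21 (.d 33) (.b 3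
    25 (.b 5 27 (.b 6 1 (.b 2 20 (.b 0 16 (.b 4 26 (.d 38) (.b 8 30 (.b 2 18 (.b 0 15 (.b 7 29 (.d
    41) (.b 3 21 (.d 41) (.b 10 32 (.b 0 12 (.b 11 33 (.b 5 21 (.b 1 51 (.b 9 39 (.b 4 54 (.b 12
    42 (.b 0 8 (.b 4 34 (.d 58) (.b 12 22 (.d 58) (.b 11 20 (.d 58) (.b 7 39 (.b 1 27 (.b 11 23
    (.d 55) (.b 9 19 (.d 55) (.b 8 17 (.d 55) (.b 0 1 (.d 55) (.b 13 23 (.b 9 27 (.d 47) (.b 12 30
    (.b 10 26 (.b 8 24 (.d 48) (.b 2 12 (.d 48) (.b 11 29 (.b 5 17 (.b 8 26 (.d 46) (.b 2 14 (.d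
    46) (.b 0 6 (.b 10 22 (.d 54) (.b 0 2 (.d 54) (.b 4 36 (.b 12 24 (.b 0 3 (.d 53) (.b 13 22 (.d
    60) (.b 7 37 (.d 61) (.b 1 25 (.d 61) (.u 62))))) (.u 56)) (.u 56)))) (.u 50)))) (.u 49)) (.u
    49)))) (.u 50)) (.u 50))) (.u 59)))))) (.u 59)) (.u 59))))) (.u 66)) (.u 66)) (.u 66)) (.u
    63)) (.u 63)) (.u 45)) (.u 45)) (.u 44)) (.u 44)))) (.b 10 32 (.b 3 18 (.b 7 29 (.d 41) (.b 11
    33 (.b 5 21 (.b 9 31 (.d 43) (.b 2 17 (.d 43) (.b 12 34 (.b 8 26 (.b 5 20 (.b 13 35 (.b 3 15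
    (.b 10 28 (.b 8 24 (.b 12 30 (.b 10 26 (.b 3 12 (.u 66) (.u 50)) (.u 50)) (.u 50)) (.u 48))
    (.u 48)) (.u 47)) (.u 47)) (.u 46)) (.u 46)) (.u 46)))) (.u 45)) (.u 45))) (.u 44)) (.u 44)))
    (.u 42)) (.u 42))) (.u 40)) (.u 40)) (.u 39)) (.u 39)) (.u 37))) (.u 36)) (.u 36))) .h) (.u
    34))) .h))))) (.u 26))))))))

theorem cp_14_4_13 : ckp 14 99 6 1267650600228229401496700924992
    PB_14_4 AL_14_4 []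
    [([1, 24, 11, 1, 13, 14, 9, 1, 17, 18, 19, 20, 7, 8], [22, 1000000, 1000000, 1000000,
      1000000, 1000000, 10, 1000000, 1000000, 1000000, 1000000, 1000000, 1000000, 1000000]),
      ([1, 24, 11, 1, 13, 14, 11, 1, 17, 18, 5, 20, 7, 8], [1000000, 1000000, 1000000, 1000000,
      1000000, 1000000, 14, 1000000, 1000000, 1000000, 1000000, 1000000, 1000000, 1000000])] tp_14_4_13
    [1, 1, 1, 1, 1, 1, 1, 1, 1, 1, 1, 1, 1, 1]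
    [1000000, 1000000, 1000000, 1000000, 1000000, 1000000, 1000000, 1000000, 1000000, 1000000, 1000000, 1000000, 1000000, 1000000] = true := by
  decide +kernel

end Pool.Agent.W2helper10.E9
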