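import Pool.Agent.W2helper10.E9.Pc

set_option autoImplicit false
set_option maxRecDepth 1000000

namespace Pool.Agent.W2helper10.E9

open Pool.Agent.MPe9218d Pool.Agent.H372R3.GD Pool.Agent.H372R3.GE

def PB_15_4 : List ℕ :=
  [142, 141, 140, 139, 138, 137, 136, 135, 134, 133, 132, 131, 130, 129, 128, 127, 126, 125,
  124, 123, 122, 121, 120, 119, 118, 117, 116, 115, 114, 113, 112, 111, 110, 109, 108, 107, 106,
  105, 104, 103, 102, 101, 100, 99, 98, 97, 96, 95, 94, 93, 92, 91, 90, 89, 88, 87, 86, 85, 84,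
  83, 82, 81, 80, 79, 78, 77, 76, 75, 74, 73, 72, 71, 70, 69, 68, 67, 66, 65, 64, 63, 62, 61,
  60, 59, 58, 57, 56, 55, 54, 53, 52, 51, 50, 49, 48, 47, 46, 45, 44, 43, 42, 41, 40, 39, 38,
  37, 36, 35, 34, 33, 32, 31, 29, 28, 27, 26, 25, 24, 22, 21, 20, 18, 14, 13, 11, 7]

def AL_15_4 : List ℕ :=
  [1, 0, 0, 0, 0, 0, 0, 1, 0, 0, 0, 1, 0, 1, 1, 0, 0, 0, 1, 0, 1, 1, 1, 0, 1, 1, 1, 1, 1, 2, 0,
  1, 1, 2, 1, 2, 2, 2, 1, 2, 3, 2, 3, 3, 3, 1, 3, 3, 4, 3, 5, 4, 3, 4, 5, 6, 4, 6, 5, 6, 4, 7,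
  7, 7, 7, 8, 9, 7, 9, 9, 11, 9, 12, 11, 11, 10, 13, 14, 14, 15, 16, 16, 14, 18, 19, 20, 18, 22,
  20, 21, 21, 26, 26, 25, 28, 28, 30, 28, 34, 33, 36, 34, 39, 38, 38, 41, 44, 47, 46, 51, 51,
  53, 51, 60, 60, 62, 62, 67, 67, 68, 74, 79, 81, 80, 88, 87, 92, 92, 102, 102, 106, 108, 115,
  116, 118, 127, 131, 138, 137, 149, 149, 154, 157]

def w_15_4 : W :=
  ⟨15, 4, 142, 7, 11150372599265311570767859136324179670100096, PB_15_4, AL_15_4⟩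

theorem ok_15_4 : okW w_15_4 = true := by decide +kernel

end Pool.Agent.W2helper10.E9
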