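import Pool.Agent.W2helper10.E9.D15_4

set_option autoImplicit false
set_option maxRecDepth 1000000

namespace Pool.Agent.W2helper10.E9

open Pool.Agent.MPe9218d Pool.Agent.H372R3.GD Pool.Agent.H372R3.GE

def tp_15_4_0 : Tp :=
    (.b 10 25 (.d 115) (.b 12 27 (.d 117) (.b 0 52 (.d 128) (.d 142))))

theorem cp_15_4_0 : ckp 15 142 7 11150372599265311570767859136324179670100096
    PB_15_4 AL_15_4 [[46, 33, 33, 22, 35, 22, 22, 15, 39, 26, 26, 15, 28, 15, 15]]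
    [] tp_15_4_0
    [52, 33, 33, 22, 35, 22, 22, 15, 32, 26, 25, 15, 27, 15, 15]
    [53, 33, 33, 22, 35, 22, 22, 15, 32, 26, 26, 15, 28, 15, 15] = true := by
  decide +kernel

def tp_15_4_1 : Tp :=
    (.b 8 35 (.d 71) (.b 0 47 (.b 0 46 (.b 8 37 (.d 99) (.b 14 14 (.d 104) (.b 6 21 (.d 111) (.b
    10 25 (.d 115) (.b 12 27 (.d 117) (.b 8 38 (.d 128) .s)))))) (.u 74)) (.u 73)))

theorem cp_15_4_1 : ckp 15 142 7 11150372599265311570767859136324179670100096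
    PB_15_4 AL_15_4 [[46, 33, 33, 22, 35, 22, 22, 15, 39, 26, 26, 15, 28, 15, 15]]
    [] tp_15_4_1
    [46, 33, 33, 22, 35, 22, 21, 15, 32, 26, 25, 15, 27, 15, 14]
    [49, 33, 33, 22, 35, 22, 22, 15, 39, 26, 26, 15, 28, 15, 15] = true := by
  decide +kernel

end Pool.Agent.W2helper10.E9
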