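import Pool.Agent.W2helper10.E9.D15_4

set_option autoImplicit false
set_option maxRecDepth 1000000

namespace Pool.Agent.W2helper10.E9

open Pool.Agent.MPe9218d Pool.Agent.H372R3.GD Pool.Agent.H372R3.GE

def tp_15_4_2 : Tp :=
    (.b 2 31 (.d 93) (.b 4 33 (.d 95) (.b 8 39 (.b 2 32 (.d 122) (.b 4 34 (.d 124) (.b 0 49 .h (.b
    8 35 (.b 8 33 (.b 8 32 (.b 0 51 (.d 99) (.b 14 14 (.d 104) (.b 6 21 (.d 111) .h))) (.u 74))
    (.u 73)) (.u 71))))) (.u 67))))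

theorem cp_15_4_2 : ckp 15 142 7 11150372599265311570767859136324179670100096
    PB_15_4 AL_15_4 [[46, 33, 33, 22, 35, 22, 22, 15, 39, 26, 26, 15, 28, 15, 15]]
    [([46, 33, 33, 22, 35, 22, 21, 15, 32, 26, 25, 15, 27, 15, 14], [49, 33, 33, 22, 35, 22,
      22, 15, 39, 26, 26, 15, 28, 15, 15]), ([52, 33, 33, 22, 35, 22, 22, 15, 32, 26, 25, 15,
      27, 15, 15], [53, 33, 33, 22, 35, 22, 22, 15, 32, 26, 26, 15, 28, 15, 15])] tp_15_4_2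
    [46, 33, 31, 22, 31, 22, 21, 15, 32, 26, 25, 15, 27, 15, 14]
    [53, 33, 33, 22, 35, 22, 22, 15, 40, 26, 26, 15, 28, 15, 15] = true := by
  decide +kernel

def tp_15_4_3 : Tp :=
    (.b 0 59 (.b 6 20 (.d 82) (.b 10 24 (.d 86) (.b 12 26 (.d 88) (.b 0 45 (.d 135) (.b 0 53 .h
    (.b 8 39 (.b 4 31 (.b 8 35 (.b 8 33 (.b 8 32 (.b 0 55 (.d 95) (.b 14 14 (.d 104) (.d 108)))
    (.u 74)) (.u 73)) (.u 71)) (.u 67)) (.u 67))))))) (.u 121))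

theorem cp_15_4_3 : ckp 15 142 7 11150372599265311570767859136324179670100096
    PB_15_4 AL_15_4 [[46, 33, 33, 22, 35, 22, 22, 15, 39, 26, 26, 15, 28, 15, 15]]
    [([46, 33, 31, 22, 31, 22, 21, 15, 32, 26, 25, 15, 27, 15, 14], [53, 33, 33, 22, 35, 22,
      22, 15, 40, 26, 26, 15, 28, 15, 15])] tp_15_4_3
    [45, 33, 31, 22, 31, 22, 20, 15, 32, 26, 24, 15, 25, 15, 14]
    [1000000, 33, 33, 22, 35, 22, 22, 15, 40, 26, 26, 15, 28, 15, 15] = true := by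
  decide +kernel

end Pool.Agent.W2helper10.E9
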