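import Pool.Agent.W2helper10.E9.D15_4

set_option autoImplicit false
set_option maxRecDepth 1000000

namespace Pool.Agent.W2helper10.E9

open Pool.Agent.MPe9218d Pool.Agent.H372R3.GD Pool.Agent.H372R3.GE

def tp_15_4_20 : Tp :=
    (.b 13 17 (.d 39) (.b 11 13 (.d 39) (.b 3 26 (.b 14 18 (.b 4 27 (.b 5 28 (.b 14 16 (.b 3 22
    (.b 5 22 (.b 0 27 (.d 63) (.b 12 21 (.d 63) (.b 12 44 (.b 6 29 (.b 0 32 (.d 58) (.b 10 22 (.d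
    58) (.b 9 43 (.d 65) (.b 3 20 (.b 6 22 (.b 14 8 (.b 2 21 (.d 43) (.b 10 33 (.d 47) (.b 3 19
    (.d 47) (.b 12 35 (.d 49) (.b 5 21 (.d 49) (.u 51)))))) (.u 50)) (.u 50)) (.u 46))))) (.b 2 21
    (.b 14 15 (.b 9 28 (.b 3 20 (.d 46) (.b 10 33 (.b 14 11 (.b 14 8 (.b 10 29 (.b 10 26 (.b 10 19
    (.d 61) (.b 7 13 (.d 61) (.b 6 37 (.d 65) (.b 1 50 (.b 13 18 (.d 68) (.b 11 14 (.d 68) (.b 6
    55 (.b 12 37 (.b 6 52 (.b 0 40 (.b 8 39 (.d 67) (.b 1 25 (.d 67) (.b 13 19 (.d 67) (.b 4 25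
    (.d 73) (.b 12 36 (.d 78) (.b 5 21 (.b 5 15 (.b 6 40 (.b 0 32 (.d 58) (.b 10 22 (.d 58) (.b 8
    57 (.b 1 43 (.b 2 20 (.d 74) (.b 3 21 (.d 75) (.b 8 54 (.b 1 40 (.b 0 38 (.b 9 26 (.d 52) (.b
    1 39 (.b 1 35 (.b 1 33 (.b 9 27 (.d 81) (.u 82)) (.u 59)) (.u 57)) (.u 53))) (.u 82)) (.u 82))
    (.u 82)))) (.u 79)) (.u 79)))) (.u 62)) (.u 55)) (.u 49))))))) (.u 80)) (.u 80)) (.u 77)) (.u
    77)))) (.u 72))))) (.u 54)) (.u 51)) (.u 50)) (.u 47)) (.u 47))) (.u 50)) (.u 43)) (.u 43)))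
    (.u 70)))) (.u 48)) (.u 44)) (.u 42)) (.u 42)) (.u 41)) (.u 40)) (.u 40))))

theorem cp_15_4_20 : ckp 15 142 7 11150372599265311570767859136324179670100096
    PB_15_4 AL_15_4 [[46, 33, 33, 22, 35, 22, 22, 15, 39, 26, 26, 15, 28, 15, 15]]
    [] tp_15_4_20
    [1, 25, 20, 12, 24, 14, 15, 12, 32, 18, 19, 5, 21, 7, 8]
    [1000000, 1000000, 25, 1000000, 1000000, 1000000, 1000000, 15, 1000000, 1000000, 1000000, 15, 1000000, 21, 22] = true := by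
  decide +kernel

def tp_15_4_21 : Tp :=
    (.b 11 4 (.d 18) (.b 13 6 (.d 20) (.b 14 7 (.d 21) (.b 3 11 (.d 25) (.b 5 13 (.d 27) (.b 6 14
    (.d 28) (.b 7 15 (.b 9 17 (.d 31) (.b 10 18 (.d 32) (.b 12 20 (.d 34) (.b 11 15 (.b 7 11 (.d
    33) (.b 13 21 (.b 14 22 (.b 1 24 (.d 38) (.b 8 31 (.d 45) (.b 4 23 (.d 45) (.b 2 19 (.d 45)
    (.b 2 25 .h (.b 6 29 (.b 14 15 (.b 13 17 .h (.b 11 13 (.b 4 27 (.b 5 28 (.b 5 22 (.b 0 27 (.d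
    63) (.b 12 21 (.d 63) (.b 3 26 .h (.b 11 12 (.b 11 8 (.b 10 29 (.b 3 56 (.b 12 44 (.b 1 50 (.b
    9 36 (.b 2 29 (.d 65) (.b 9 32 (.b 11 6 (.d 46) (.b 6 25 .h (.b 14 11 (.b 9 28 (.b 14 8 (.b 2
    40 (.b 10 26 (.b 3 27 (.d 69) (.b 3 49 (.b 6 26 (.d 76) (.b 12 37 (.b 0 40 (.d 80) (.b 9 26
    (.b 12 35 (.b 5 21 (.d 49) (.b 3 41 (.b 12 29 (.b 12 28 (.b 0 42 (.d 78) (.b 8 57 (.b 1 43 (.b
    6 27 (.d 75) (.b 11 7 (.d 75) (.u 82))) (.u 79)) (.u 79))) (.u 56)) (.u 55)) (.u 55))) (.b 5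
    21 (.b 3 41 (.b 5 15 (.b 5 14 (.b 8 57 (.b 1 43 (.b 6 27 (.d 75) (.b 11 7 (.d 75) (.u 82)))
    (.u 79)) (.u 79)) (.u 56)) (.u 55)) (.u 55)) (.u 49))) (.u 52))) (.u 77))) (.u 77))) (.u 54))
    (.u 54)) (.u 50)) (.u 50)) (.u 47)))) (.b 11 6 (.b 6 22 (.b 14 11 (.d 47) (.b 11 5 (.d 47) (.u
    50))) (.u 50)) (.u 46)))) (.u 72)) (.u 72)) (.u 70)) (.u 70)) (.u 51)) (.u 44)) (.u 40)))))
    (.u 48)) (.u 42)) (.u 41)) (.u 39))) (.u 43)) (.u 43))))))) (.u 36)) (.u 35))) (.u 37))))) (.u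
    29))))))))

theorem cp_15_4_21 : ckp 15 142 7 11150372599265311570767859136324179670100096
    PB_15_4 AL_15_4 [[46, 33, 33, 22, 35, 22, 22, 15, 39, 26, 26, 15, 28, 15, 15]]
    [([1, 25, 20, 12, 24, 14, 15, 12, 32, 18, 19, 5, 21, 7, 8], [1000000, 1000000, 25,
      1000000, 1000000, 1000000, 1000000, 15, 1000000, 1000000, 1000000, 15, 1000000, 21, 22]),
      ([1, 25, 26, 12, 24, 14, 15, 12, 32, 18, 19, 5, 21, 7, 8], [1000000, 1000000, 1000000,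
      1000000, 1000000, 1000000, 29, 15, 1000000, 1000000, 1000000, 15, 1000000, 17, 15]), ([28,
      25, 26, 12, 24, 14, 15, 12, 32, 18, 19, 5, 22, 18, 8], [1000000, 1000000, 1000000, 26, 27,
      22, 29, 15, 1000000, 1000000, 1000000, 13, 1000000, 21, 15]), ([28, 25, 30, 27, 24, 14,
      15, 12, 32, 18, 19, 7, 22, 18, 8], [1000000, 50, 1000000, 56, 27, 22, 25, 15, 1000000, 32,
      29, 8, 44, 21, 15])] tp_15_4_21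
    [1, 1, 1, 1, 1, 1, 1, 1, 1, 1, 1, 1, 1, 1, 1]
    [1000000, 1000000, 1000000, 1000000, 1000000, 1000000, 1000000, 1000000, 1000000, 1000000, 1000000, 1000000, 1000000, 1000000, 1000000] = true := by
  decide +kernel

end Pool.Agent.W2helper10.E9
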