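import Pool.Agent.W2helper10.E9.D15_4

set_option autoImplicit false
set_option maxRecDepth 1000000

namespace Pool.Agent.W2helper10.E9

open Pool.Agent.MPe9218d Pool.Agent.H372R3.GD Pool.Agent.H372R3.GE

def tp_15_4_4 : Tp :=
    (.b 0 44 (.d 106) (.b 0 46 (.d 118) (.b 8 32 (.b 0 49 (.d 71) (.b 0 51 (.d 99) (.b 14 14 (.d
    104) (.b 6 21 (.d 111) (.b 10 25 (.d 115) (.b 4 41 (.d 117) (.d 118))))))) (.u 74))))

theorem cp_15_4_4 : ckp 15 142 7 11150372599265311570767859136324179670100096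
    PB_15_4 AL_15_4 [[46, 33, 33, 22, 35, 22, 22, 15, 39, 26, 26, 15, 28, 15, 15]]
    [] tp_15_4_4
    [43, 33, 32, 22, 41, 22, 21, 15, 32, 26, 25, 15, 21, 15, 14]
    [53, 33, 33, 22, 42, 22, 22, 15, 39, 26, 26, 15, 21, 15, 15] = true := by
  decide +kernel

def tp_15_4_5 : Tp :=
    (.b 4 38 (.b 1 32 (.d 60) (.b 12 24 (.d 60) (.b 4 36 (.b 4 35 (.b 8 42 (.b 8 40 (.b 7 14 (.d
    90) (.b 2 30 (.d 94) (.b 0 44 (.d 106) .h))) (.u 66)) (.u 64)) (.u 63)) (.u 62)))) (.b 12 22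
    (.b 1 32 (.d 60) (.b 12 21 (.b 8 42 (.b 8 40 (.b 0 53 (.b 8 39 (.b 6 20 (.d 82) (.b 10 24 (.d
    86) (.b 4 40 (.d 88) (.b 7 14 (.d 90) (.b 2 31 (.d 93) .h))))) (.u 67)) (.u 67)) (.u 66)) (.u
    64)) (.u 63))) (.u 62)))

theorem cp_15_4_5 : ckp 15 142 7 11150372599265311570767859136324179670100096
    PB_15_4 AL_15_4 [[46, 33, 33, 22, 35, 22, 22, 15, 39, 26, 26, 15, 28, 15, 15]]
    [([45, 33, 31, 22, 31, 22, 20, 15, 32, 26, 24, 15, 25, 15, 14], [1000000, 33, 33, 22, 35,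
      22, 22, 15, 40, 26, 26, 15, 28, 15, 15]), ([43, 33, 32, 22, 41, 22, 21, 15, 32, 26, 25,
      15, 21, 15, 14], [53, 33, 33, 22, 42, 22, 22, 15, 39, 26, 26, 15, 21, 15, 15])] tp_15_4_5
    [43, 25, 30, 22, 31, 22, 20, 14, 32, 26, 24, 15, 21, 15, 14]
    [1000000, 33, 33, 22, 42, 22, 22, 15, 46, 26, 26, 15, 28, 15, 15] = true := by
  decide +kernel

end Pool.Agent.W2helper10.E9
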