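import Pool.Agent.W2helper10.E9.D15_4

set_option autoImplicit false
set_option maxRecDepth 1000000

namespace Pool.Agent.W2helper10.E9

open Pool.Agent.MPe9218d Pool.Agent.H372R3.GD Pool.Agent.H372R3.GE

def tp_15_4_6 : Tp :=
    (.b 10 22 (.b 10 19 (.b 2 37 (.d 87) (.b 4 30 (.d 98) (.b 0 56 (.d 124) (.b 8 35 (.b 1 28 (.d
    64) (.b 4 31 (.b 1 32 (.d 60) (.b 12 24 (.d 60) (.b 8 33 (.b 8 32 (.b 7 14 (.d 90) (.b 0 57
    (.b 6 20 (.d 82) (.b 2 38 (.d 86) (.b 12 26 (.d 88) (.b 14 14 (.d 104) (.d 108))))) (.u 93)))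
    (.u 74)) (.u 73)))) (.u 67))) (.u 71))))) (.u 61)) (.u 58))

theorem cp_15_4_6 : ckp 15 142 7 11150372599265311570767859136324179670100096
    PB_15_4 AL_15_4 [[46, 33, 33, 22, 35, 22, 22, 15, 39, 26, 26, 15, 28, 15, 15]]
    [] tp_15_4_6
    [43, 25, 37, 22, 30, 22, 20, 14, 32, 26, 19, 15, 21, 15, 14]
    [1000000, 33, 40, 22, 42, 22, 22, 15, 55, 26, 26, 15, 28, 15, 15] = true := by
  decide +kernel

def tp_15_4_7 : Tp :=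
    (.b 4 29 (.d 69) (.b 3 21 (.d 75) (.b 14 13 (.d 75) (.b 0 40 (.d 80) (.b 8 55 (.b 6 19 (.d 83)
    (.b 10 26 (.b 4 42 (.b 12 28 (.b 0 42 (.d 78) (.b 7 13 (.d 113) (.b 2 36 (.b 10 22 (.d 58) (.b
    2 33 (.b 10 23 (.d 87) (.b 4 30 (.d 98) (.b 8 46 .h (.b 1 28 (.b 1 26 (.b 0 49 (.b 0 47 (.b 0
    46 (.b 2 30 (.d 94) (.b 4 33 (.d 95) (.b 1 25 (.b 4 38 (.d 101) (.b 12 24 (.b 12 22 (.b 12 21
    (.b 7 14 (.d 90) (.b 2 31 (.d 93) (.d 101))) (.u 63)) (.u 62)) (.u 60))) (.u 67)))) (.u 74))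
    (.u 73)) (.u 71)) (.u 66)) (.u 64))))) (.u 61))) .h))) (.u 56)) (.u 56)) (.u 54))) (.u
    81))))))

theorem cp_15_4_7 : ckp 15 142 7 11150372599265311570767859136324179670100096
    PB_15_4 AL_15_4 [[46, 33, 33, 22, 35, 22, 22, 15, 39, 26, 26, 15, 28, 15, 15]]
    [([43, 25, 30, 22, 31, 22, 20, 14, 32, 26, 24, 15, 21, 15, 14], [1000000, 33, 33, 22, 42,
      22, 22, 15, 46, 26, 26, 15, 28, 15, 15]), ([43, 25, 37, 22, 30, 22, 20, 14, 32, 26, 19,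
      15, 21, 15, 14], [1000000, 33, 40, 22, 42, 22, 22, 15, 55, 26, 26, 15, 28, 15, 15])] tp_15_4_7
    [39, 25, 30, 21, 29, 22, 16, 12, 32, 26, 19, 15, 21, 15, 12]
    [1000000, 33, 40, 22, 51, 22, 22, 15, 57, 26, 27, 15, 29, 15, 15] = true := by
  decide +kernel

end Pool.Agent.W2helper10.E9
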