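import Pool.Agent.W2helper10.E9.D15_4

set_option autoImplicit false
set_option maxRecDepth 1000000

namespace Pool.Agent.W2helper10.E9

open Pool.Agent.MPe9218d Pool.Agent.H372R3.GD Pool.Agent.H372R3.GE

def tp_15_4_8 : Tp :=
    (.b 9 26 (.b 1 39 (.b 10 27 (.b 9 25 (.d 53) (.b 1 33 (.b 6 15 (.d 57) (.b 2 40 .h (.b 10 26
    (.b 6 18 (.b 10 22 (.b 2 41 (.d 83) (.b 2 70 (.b 4 44 (.b 0 42 (.d 78) (.b 2 44 (.b 4 29 (.d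
    69) (.b 3 21 (.d 75) (.b 14 13 (.d 75) (.b 8 55 (.b 0 44 (.d 106) (.b 4 35 (.d 106) (.b 12 21
    (.b 4 36 (.d 62) (.b 7 12 (.d 62) (.d 106))) (.u 63)))) (.u 81))))) (.u 80))) (.u 84)) (.u
    84))) (.u 58)) (.u 54)) (.u 54)))) (.u 59))) (.b 9 25 (.b 2 40 (.b 6 18 (.b 2 36 (.b 4 29 (.d
    69) (.b 3 21 (.d 75) (.b 14 13 (.d 75) (.b 0 40 (.d 80) (.b 8 55 (.d 83) (.u 81)))))) (.u 58))
    (.u 54)) (.u 54)) (.u 53))) (.b 10 27 (.b 9 25 (.b 9 19 (.b 6 15 (.d 57) (.b 8 42 (.b 8 40 (.d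
    94) (.u 66)) (.u 64))) (.u 59)) (.u 53)) (.u 53))) (.u 52))

theorem cp_15_4_8 : ckp 15 142 7 11150372599265311570767859136324179670100096
    PB_15_4 AL_15_4 [[46, 33, 33, 22, 35, 22, 22, 15, 39, 26, 26, 15, 28, 15, 15]]
    [([39, 25, 30, 21, 29, 22, 16, 12, 32, 26, 19, 15, 21, 15, 12], [1000000, 33, 40, 22, 51,
      22, 22, 15, 57, 26, 27, 15, 29, 15, 15])] tp_15_4_8
    [39, 25, 30, 21, 29, 22, 15, 12, 32, 18, 19, 15, 21, 15, 12]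
    [1000000, 43, 1000000, 22, 51, 22, 22, 15, 57, 28, 29, 15, 29, 15, 15] = true := by
  decide +kernel

def tp_15_4_9 : Tp :=
    (.b 9 26 (.d 52) (.b 1 39 (.b 10 27 (.b 8 35 (.d 71) (.b 2 51 (.b 4 29 (.d 69) (.b 2 44 (.d
    80) (.b 10 26 (.b 6 18 (.b 8 54 (.b 9 27 (.d 81) (.b 4 46 (.b 12 36 (.d 78) (.b 2 48 (.d 106)
    (.b 14 12 (.b 2 49 (.d 75) (.b 3 21 (.d 75) (.b 8 42 (.d 105) (.b 1 28 (.b 6 15 (.d 57) (.b 0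
    31 (.d 59) (.b 4 35 (.b 7 12 (.d 62) (.b 1 26 (.b 0 36 (.d 84) (.b 10 22 (.b 6 17 (.d 85) (.b
    5 14 (.b 8 50 (.b 8 48 (.b 8 47 (.b 10 21 (.b 8 46 (.d 90) (.b 10 20 (.d 90) (.u 60))) (.u
    89)) (.u 89)) (.u 88)) (.u 86)) (.u 56))) (.u 58))) (.u 66))) (.u 63)))) (.u 64))))) (.u
    76)))) (.u 82))) (.u 82)) (.u 54)) (.u 54)))) (.u 73))) (.u 53)) (.u 53)))

theorem cp_15_4_9 : ckp 15 142 7 11150372599265311570767859136324179670100096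
    PB_15_4 AL_15_4 [[46, 33, 33, 22, 35, 22, 22, 15, 39, 26, 26, 15, 28, 15, 15]]
    [] tp_15_4_9
    [26, 25, 30, 21, 29, 14, 15, 12, 32, 18, 19, 15, 36, 15, 12]
    [38, 43, 1000000, 22, 51, 15, 22, 15, 57, 28, 29, 15, 37, 15, 15] = true := by
  decide +kernel

end Pool.Agent.W2helper10.E9
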