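import Pool.Agent.W2helper10.E9.D15_4

set_option autoImplicit false
set_option maxRecDepth 1000000

namespace Pool.Agent.W2helper10.E9

open Pool.Agent.MPe9218d Pool.Agent.H372R3.GD Pool.Agent.H372R3.GE

def tp_15_4_10 : Tp :=
    (.b 10 22 (.d 58) (.b 2 33 (.b 10 23 (.d 87) (.b 4 37 (.d 91) (.b 0 48 (.d 102) (.b 8 33 (.b 4
    38 (.d 60) (.b 1 32 (.d 60) (.b 0 53 (.b 0 49 (.d 71) (.b 8 32 (.b 10 24 (.d 86) (.b 4 40 (.d
    88) (.b 7 14 (.d 90) (.b 2 31 (.d 93) (.b 0 51 (.d 99) (.d 102)))))) (.u 74))) (.u 67)))) (.u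
    73))))) (.u 61)))

theorem cp_15_4_10 : ckp 15 142 7 11150372599265311570767859136324179670100096
    PB_15_4 AL_15_4 [[46, 33, 33, 22, 35, 22, 22, 15, 39, 26, 26, 15, 28, 15, 15]]
    [] tp_15_4_10
    [45, 25, 30, 22, 37, 22, 28, 14, 32, 26, 19, 15, 21, 15, 8]
    [68, 33, 36, 22, 42, 22, 29, 15, 54, 26, 26, 15, 21, 15, 8] = true := by
  decide +kernel

def tp_15_4_11 : Tp :=
    (.b 4 35 (.d 106) (.b 12 21 (.b 4 36 (.d 62) (.b 7 12 (.d 62) (.b 1 39 (.b 9 25 (.d 53) (.b 1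
    35 (.b 1 33 (.b 7 13 (.d 113) (.b 2 36 .h (.b 10 22 (.b 10 19 (.b 2 37 (.d 87) (.b 4 37 (.d
    91) (.b 8 46 (.d 120) (.b 1 28 (.b 4 38 (.d 60) (.b 1 26 (.b 0 53 (.b 1 25 (.b 0 49 (.b 0 47
    (.b 0 46 (.b 7 14 (.d 90) (.d 101)) (.u 74)) (.u 73)) (.u 71)) (.u 67)) (.u 67)) (.u 66))) (.u
    64))))) (.u 61)) (.u 58)))) (.u 59)) (.u 57))) (.b 9 25 (.b 9 21 (.b 9 19 (.b 8 42 (.b 8 40
    (.b 0 53 (.b 8 39 (.b 2 31 (.d 93) (.d 94)) (.u 67)) (.u 67)) (.u 66)) (.u 64)) (.u 59)) (.u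
    57)) (.u 53))))) (.u 63)))

theorem cp_15_4_11 : ckp 15 142 7 11150372599265311570767859136324179670100096
    PB_15_4 AL_15_4 [[46, 33, 33, 22, 35, 22, 22, 15, 39, 26, 26, 15, 28, 15, 15]]
    [([45, 25, 30, 22, 37, 22, 28, 14, 32, 26, 19, 15, 21, 15, 8], [68, 33, 36, 22, 42, 22,
      29, 15, 54, 26, 26, 15, 21, 15, 8])] tp_15_4_11
    [45, 25, 30, 22, 30, 22, 28, 12, 32, 18, 19, 15, 21, 15, 8]
    [68, 40, 40, 22, 42, 22, 29, 15, 54, 26, 26, 15, 28, 15, 8] = true := by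
  decide +kernel

end Pool.Agent.W2helper10.E9
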