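import Pool.Agent.W2helper10.E9.D15_4

set_option autoImplicit false
set_option maxRecDepth 1000000

namespace Pool.Agent.W2helper10.E9

open Pool.Agent.MPe9218d Pool.Agent.H372R3.GD Pool.Agent.H372R3.GE

def tp_15_4_12 : Tp :=
    (.b 5 21 (.b 5 15 (.b 4 42 (.b 5 14 (.b 4 35 (.b 7 12 (.d 62) (.b 8 57 (.b 1 43 (.b 6 27 (.d
    75) (.b 3 21 (.d 75) (.b 8 55 (.b 1 41 (.b 0 68 (.b 8 54 (.b 1 40 (.b 8 44 (.d 92) (.b 1 28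
    (.b 9 25 (.d 53) (.b 1 26 (.b 0 49 (.b 0 47 (.b 0 46 (.b 8 46 (.d 90) (.b 2 34 (.d 90) (.b 10
    20 (.b 2 36 (.d 58) (.b 2 37 (.d 87) (.b 8 48 (.b 2 38 (.d 86) (.b 8 47 (.d 90) (.u 89))) (.u
    88)))) (.u 60)))) (.u 74)) (.u 73)) (.u 71)) (.u 66))) (.u 64))) (.u 82)) (.u 82)) (.u 82))
    (.u 81)) (.u 81)))) (.u 79)) (.u 79))) (.u 63)) (.u 56)) (.u 56)) (.u 55)) (.u 49))

theorem cp_15_4_12 : ckp 15 142 7 11150372599265311570767859136324179670100096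
    PB_15_4 AL_15_4 [[46, 33, 33, 22, 35, 22, 22, 15, 39, 26, 26, 15, 28, 15, 15]]
    [] tp_15_4_12
    [41, 25, 30, 21, 30, 14, 27, 12, 32, 18, 19, 15, 36, 15, 8]
    [1000000, 50, 40, 22, 51, 22, 29, 15, 1000000, 26, 26, 15, 37, 15, 8] = true := by
  decide +kernel

def tp_15_4_13 : Tp :=
    (.b 14 11 (.d 47) (.b 9 28 (.b 6 22 (.b 4 51 (.b 12 37 (.b 11 14 (.d 68) (.b 4 28 (.d 70) (.b
    12 35 (.b 5 21 (.d 49) (.b 12 29 (.b 8 57 (.b 1 43 (.b 0 38 (.b 9 26 (.d 52) (.b 1 39 (.b 10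
    27 (.b 8 35 (.d 71) (.b 2 51 (.b 4 29 (.d 69) (.b 4 50 (.d 78) (.b 2 44 (.d 80) (.b 10 26 (.b
    6 18 (.u 82) (.u 54)) (.u 54))))) (.u 73))) (.u 53)) (.u 53))) .h) (.u 79)) (.u 79)) (.u 55)))
    (.b 5 21 (.b 5 15 (.b 8 57 (.b 1 43 (.b 0 38 .h (.b 9 26 (.b 4 35 (.b 7 12 (.d 62) (.b 8 44
    (.d 92) (.b 1 28 (.b 9 21 (.d 57) (.b 6 15 (.d 57) (.b 1 26 (.b 0 49 (.b 2 51 (.b 4 29 (.d 69)
    (.b 0 47 (.b 0 46 (.b 9 23 (.d 85) (.b 6 17 (.d 85) (.b 5 14 (.d 92) (.u 56)))) (.u 74)) (.u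
    73))) (.u 73)) (.u 71)) (.u 66)))) (.u 64)))) (.u 63)) (.u 52))) (.u 79)) (.u 79)) (.u 55))
    (.u 49))))) (.u 77)) (.u 77)) (.u 50)) (.u 50)))

theorem cp_15_4_13 : ckp 15 142 7 11150372599265311570767859136324179670100096
    PB_15_4 AL_15_4 [[46, 33, 33, 22, 35, 22, 22, 15, 39, 26, 26, 15, 28, 15, 15]]
    [([39, 25, 30, 21, 29, 22, 15, 12, 32, 18, 19, 15, 21, 15, 12], [1000000, 43, 1000000, 22,
      51, 22, 22, 15, 57, 28, 29, 15, 29, 15, 15]), ([26, 25, 30, 21, 29, 14, 15, 12, 32, 18,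
      19, 15, 36, 15, 12], [38, 43, 1000000, 22, 51, 15, 22, 15, 57, 28, 29, 15, 37, 15, 15])] tp_15_4_13
    [26, 25, 30, 21, 28, 14, 15, 12, 32, 18, 19, 14, 21, 15, 8]
    [1000000, 50, 1000000, 22, 1000000, 22, 25, 15, 1000000, 32, 29, 15, 1000000, 15, 15] = true := by
  decide +kernel

end Pool.Agent.W2helper10.E9
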