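import Pool.Agent.W2helper10.E9.D15_4

set_option autoImplicit false
set_option maxRecDepth 1000000

namespace Pool.Agent.W2helper10.E9

open Pool.Agent.MPe9218d Pool.Agent.H372R3.GD Pool.Agent.H372R3.GE

def tp_15_4_14 : Tp :=
    (.b 9 28 (.b 6 22 (.b 13 7 (.d 49) (.b 4 51 (.b 8 57 (.b 5 51 (.b 1 43 (.b 0 38 (.b 9 26 (.d
    52) (.b 1 39 (.b 10 27 (.b 8 32 (.d 74) (.b 4 50 (.d 78) (.b 2 55 (.b 5 30 (.b 11 14 (.d 68)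
    (.b 2 44 (.d 80) (.b 10 26 (.b 6 18 (.u 82) (.u 54)) (.u 54)))) (.u 70)) (.u 69)))) (.u 53))
    (.u 53))) (.b 9 26 (.b 1 39 (.b 10 27 (.b 9 25 (.d 53) (.b 1 33 (.b 2 40 (.b 4 29 (.d 69) (.b
    5 30 (.b 6 15 (.d 57) (.b 11 14 (.d 68) (.b 3 21 (.d 75) (.b 14 13 (.d 75) (.b 0 40 (.d 80)
    (.b 8 55 (.d 83) (.u 81))))))) (.u 70))) (.b 10 26 (.b 6 18 (.b 10 22 (.b 5 47 (.d 83) (.b 6
    15 (.b 10 19 (.b 7 13 (.b 4 35 (.b 12 28 (.d 56) (.b 7 12 (.d 62) (.u 63))) (.u 63)) (.u 61))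
    (.u 61)) (.u 57))) (.u 58)) (.u 54)) (.u 54))) (.u 59))) (.b 9 25 (.b 2 40 (.b 6 18 (.b 2 36
    (.b 4 29 (.d 69) (.b 5 30 (.b 11 14 (.d 68) (.b 3 21 (.d 75) (.b 14 13 (.d 75) (.b 0 40 (.d
    80) (.b 8 55 (.d 83) (.u 81)))))) (.u 70))) (.u 58)) (.u 54)) (.u 54)) (.u 53))) (.b 10 27 (.b
    9 25 (.b 9 19 (.b 8 42 (.b 5 36 (.b 6 15 (.d 57) (.b 8 40 (.b 2 41 (.d 83) (.b 10 26 (.b 6 18
    (.b 10 22 (.d 83) (.u 58)) (.u 54)) (.u 54))) (.u 66))) (.u 64)) (.u 64)) (.u 59)) (.u 53))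
    (.u 53))) (.u 52))) (.u 79)) (.u 79)) (.u 79)) (.u 77))) (.u 50)) (.u 50))

theorem cp_15_4_14 : ckp 15 142 7 11150372599265311570767859136324179670100096
    PB_15_4 AL_15_4 [[46, 33, 33, 22, 35, 22, 22, 15, 39, 26, 26, 15, 28, 15, 15]]
    [] tp_15_4_14
    [26, 25, 30, 21, 28, 29, 15, 12, 32, 18, 19, 14, 21, 7, 12]
    [1000000, 50, 1000000, 22, 1000000, 58, 25, 15, 1000000, 32, 29, 15, 29, 8, 15] = true := by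
  decide +kernel

def tp_15_4_15 : Tp :=
    (.b 13 14 (.d 42) (.b 5 22 (.b 9 32 (.b 3 20 (.d 46) (.b 10 29 (.b 2 29 (.d 65) (.b 0 25 (.d
    65) (.b 1 50 (.b 6 25 .h (.b 14 11 (.b 9 28 (.b 14 8 (.b 2 40 (.b 10 26 (.b 4 29 (.d 69) (.b
    12 44 (.b 11 14 (.d 68) (.b 6 26 (.d 76) (.b 4 51 (.b 12 37 (.b 0 40 (.d 80) (.b 9 26 (.b 12
    35 (.b 5 21 (.d 49) (.b 12 29 (.b 4 42 (.b 12 28 (.b 0 42 (.d 78) (.b 8 57 (.b 1 43 (.b 6 27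
    (.d 75) (.b 3 21 (.d 75) (.b 8 55 (.b 1 41 (.b 0 68 (.b 8 54 (.b 1 40 (.b 0 44 (.d 106) .h)
    (.u 82)) (.u 82)) (.u 82)) (.u 81)) (.u 81)))) (.u 79)) (.u 79))) (.u 56)) (.u 56)) (.u 55)))
    .h) (.u 52))) (.u 77)) (.u 77)))) (.u 70))) (.u 54)) (.u 54)) (.u 50)) (.u 50)) (.u 47))) (.u
    72)))) (.u 51))) (.b 3 20 (.b 6 22 (.b 14 8 (.b 10 33 (.d 47) (.b 3 19 (.d 47) (.b 12 35 (.d
    49) (.b 5 21 (.d 49) (.u 51))))) (.u 50)) (.u 50)) (.u 46))) (.u 48)))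

theorem cp_15_4_15 : ckp 15 142 7 11150372599265311570767859136324179670100096
    PB_15_4 AL_15_4 [[46, 33, 33, 22, 35, 22, 22, 15, 39, 26, 26, 15, 28, 15, 15]]
    [([26, 25, 30, 21, 28, 14, 15, 12, 32, 18, 19, 14, 21, 15, 8], [1000000, 50, 1000000, 22,
      1000000, 22, 25, 15, 1000000, 32, 29, 15, 1000000, 15, 15]), ([45, 25, 30, 22, 30, 22, 28,
      12, 32, 18, 19, 15, 21, 15, 8], [68, 40, 40, 22, 42, 22, 29, 15, 54, 26, 26, 15, 28, 15,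
      8]), ([41, 25, 30, 21, 30, 14, 27, 12, 32, 18, 19, 15, 36, 15, 8], [1000000, 50, 40, 22,
      51, 22, 29, 15, 1000000, 26, 26, 15, 37, 15, 8])] tp_15_4_15
    [1, 25, 26, 12, 28, 14, 15, 12, 32, 18, 19, 14, 21, 7, 8]
    [1000000, 1000000, 1000000, 22, 1000000, 28, 29, 15, 1000000, 1000000, 1000000, 15, 1000000, 15, 15] = true := by
  decide +kernel

end Pool.Agent.W2helper10.E9
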