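import Pool.Agent.W2helper10.E9.D15_4

set_option autoImplicit false
set_option maxRecDepth 1000000

namespace Pool.Agent.W2helper10.E9

open Pool.Agent.MPe9218d Pool.Agent.H372R3.GD Pool.Agent.H372R3.GE

def tp_15_4_16 : Tp :=
    (.b 13 15 (.b 5 28 .h (.b 13 14 (.b 13 8 (.b 12 29 (.b 9 32 (.b 3 20 (.d 46) (.b 10 29 (.b 2
    29 (.d 65) (.b 0 25 (.d 65) (.b 5 58 (.b 1 50 (.b 6 25 (.b 14 11 (.d 47) .h) (.b 14 11 (.b 9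
    28 (.b 14 8 (.b 13 7 (.d 49) (.b 2 40 (.b 10 26 (.b 4 29 (.d 69) (.b 5 30 (.b 11 14 (.d 68)
    (.b 6 26 (.d 76) (.b 4 51 (.b 8 57 (.b 1 43 (.b 6 27 (.d 75) (.b 3 21 (.d 75) (.b 0 40 (.d 80)
    (.b 9 26 (.b 4 42 (.b 12 28 (.b 0 42 (.d 78) (.b 8 55 (.b 1 41 (.b 0 68 (.b 8 54 (.b 1 40 (.b
    1 39 (.d 83) (.b 9 25 (.b 9 21 (.b 9 19 (.b 8 42 (.b 8 40 (.d 83) (.u 66)) (.u 64)) (.u 59))
    (.u 57)) (.u 53))) (.u 82)) (.u 82)) (.u 82)) (.u 81)) (.u 81))) (.u 56)) (.u 56)) (.u 52)))))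
    (.u 79)) (.u 79)) (.u 77)))) (.u 70))) (.u 54)) (.u 54))) (.u 50)) (.u 50)) (.u 47))) (.u 72))
    (.u 72)))) (.u 51))) (.b 3 20 (.b 6 22 (.b 14 9 (.d 49) (.b 13 7 (.d 49) (.u 50))) (.u 50))
    (.u 46))) (.u 55)) (.u 48)) (.u 42))) (.u 41))

theorem cp_15_4_16 : ckp 15 142 7 11150372599265311570767859136324179670100096
    PB_15_4 AL_15_4 [[46, 33, 33, 22, 35, 22, 22, 15, 39, 26, 26, 15, 28, 15, 15]]
    [([1, 25, 26, 12, 28, 14, 15, 12, 32, 18, 19, 14, 21, 7, 8], [1000000, 1000000, 1000000,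
      22, 1000000, 28, 29, 15, 1000000, 1000000, 1000000, 15, 1000000, 15, 15]), ([26, 25, 30,
      21, 28, 29, 15, 12, 32, 18, 19, 14, 21, 7, 12], [1000000, 50, 1000000, 22, 1000000, 58,
      25, 15, 1000000, 32, 29, 15, 29, 8, 15])] tp_15_4_16
    [1, 25, 26, 12, 28, 14, 15, 12, 32, 18, 19, 14, 21, 7, 8]
    [1000000, 1000000, 1000000, 22, 1000000, 1000000, 29, 15, 1000000, 1000000, 1000000, 15, 1000000, 17, 15] = true := by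
  decide +kernel

def tp_15_4_17 : Tp :=
    (.b 14 11 (.d 47) (.b 9 28 (.b 6 22 (.b 3 49 (.b 12 37 (.b 12 35 (.b 5 21 (.d 49) (.b 3 41 (.b
    12 29 (.b 0 42 (.d 78) (.b 9 26 (.b 8 57 (.b 1 43 (.b 2 44 (.b 3 27 (.d 69) (.b 14 13 (.d 75)
    (.b 11 7 (.d 75) (.b 0 68 (.b 8 54 (.b 1 41 (.d 81) (.b 10 27 (.b 9 25 (.b 3 37 (.b 9 19 (.b 6
    15 (.d 57) (.b 8 42 (.b 8 40 (.b 3 30 (.b 12 22 (.d 62) (.b 7 12 (.d 62) (.u 82))) (.u 66))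
    (.u 66)) (.u 64))) (.u 59)) (.u 59)) (.u 53)) (.u 53))) (.u 82)) (.u 82))))) (.u 80)) (.u 79))
    (.u 79)) (.u 52))) (.u 55)) (.u 55))) (.b 5 21 (.b 3 41 (.b 5 15 (.b 8 57 (.b 1 43 (.b 0 43
    (.d 107) (.b 9 26 (.b 12 36 (.b 2 44 (.b 3 27 (.d 69) (.b 14 13 (.d 75) (.b 11 7 (.d 75) (.b 0
    68 (.b 8 54 (.b 1 41 (.d 81) (.b 10 27 (.b 9 25 (.b 3 37 (.b 9 19 (.b 6 15 (.d 57) (.b 8 42
    (.b 8 40 (.b 3 30 (.b 7 12 (.d 62) (.u 82)) (.u 66)) (.u 66)) (.u 64))) (.u 59)) (.u 59)) (.u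
    53)) (.u 53))) (.u 82)) (.u 82))))) (.u 80)) (.u 78)) (.u 52))) (.u 79)) (.u 79)) (.u 55)) (.u
    55)) (.u 49))) (.u 77)) (.u 77)) (.u 50)) (.u 50)))

theorem cp_15_4_17 : ckp 15 142 7 11150372599265311570767859136324179670100096
    PB_15_4 AL_15_4 [[46, 33, 33, 22, 35, 22, 22, 15, 39, 26, 26, 15, 28, 15, 15]]
    [] tp_15_4_17
    [28, 25, 30, 27, 24, 14, 15, 12, 32, 18, 19, 7, 22, 18, 8]
    [1000000, 50, 1000000, 56, 27, 22, 25, 15, 1000000, 32, 29, 8, 44, 21, 15] = true := by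
  decide +kernel

end Pool.Agent.W2helper10.E9
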