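import Pool.Agent.W2helper10.E9.D15_4

set_option autoImplicit false
set_option maxRecDepth 1000000

namespace Pool.Agent.W2helper10.E9

open Pool.Agent.MPe9218d Pool.Agent.H372R3.GD Pool.Agent.H372R3.GE

def tp_15_4_18 : Tp :=
    (.b 11 12 (.d 40) (.b 3 22 (.b 12 44 (.b 1 50 (.b 9 36 (.b 2 29 (.d 65) (.b 9 32 (.b 3 20 (.d
    46) (.b 10 29 (.b 12 22 (.d 62) (.b 7 12 (.d 62) (.b 13 18 (.d 68) (.b 2 55 (.d 69) (.b 10 26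
    (.b 6 18 (.b 14 11 (.d 47) (.b 9 28 (.b 14 12 (.b 12 37 (.b 0 40 (.b 8 35 (.d 71) (.b 4 25 (.b
    12 36 (.d 78) (.b 5 21 (.b 5 15 (.b 8 57 (.b 1 43 (.b 4 24 (.d 74) (.b 3 21 (.d 75) (.b 8 54
    (.b 1 40 (.b 0 38 (.b 9 26 (.d 52) (.b 1 39 (.b 9 27 (.d 81) (.u 82)) (.u 53))) (.u 82)) (.u
    82)) (.u 82)))) (.u 79)) (.u 79)) (.u 55)) (.u 49))) (.u 73))) (.u 80)) (.u 77)) (.u 76)) (.u
    50))) (.u 54)) (.u 54)))))) (.u 51))) (.b 3 20 (.b 6 22 (.b 14 8 (.b 10 33 (.d 47) (.b 3 19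
    (.d 47) (.b 12 35 (.d 49) (.b 5 21 (.d 49) (.u 51))))) (.u 50)) (.u 50)) (.u 46)))) (.u 72))
    (.u 72)) (.u 70)) (.u 44)))

theorem cp_15_4_18 : ckp 15 142 7 11150372599265311570767859136324179670100096
    PB_15_4 AL_15_4 [[46, 33, 33, 22, 35, 22, 22, 15, 39, 26, 26, 15, 28, 15, 15]]
    [] tp_15_4_18
    [28, 25, 26, 12, 24, 14, 15, 12, 32, 18, 19, 5, 22, 18, 8]
    [1000000, 1000000, 1000000, 26, 27, 22, 29, 15, 1000000, 1000000, 1000000, 13, 1000000, 21, 15] = true := by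
  decide +kernel

def tp_15_4_19 : Tp :=
    (.b 11 13 (.d 39) (.b 3 26 (.b 3 22 (.b 4 27 (.b 13 15 (.d 41) (.b 5 28 (.b 5 22 (.b 0 27 (.d
    63) (.b 12 21 (.d 63) (.b 1 50 (.b 9 36 (.b 2 29 (.d 65) (.b 9 32 (.b 3 20 (.d 46) (.b 10 29
    (.b 12 22 (.d 62) (.b 7 12 (.d 62) (.b 2 55 (.d 69) (.b 10 26 (.b 6 18 (.b 14 11 (.d 47) (.b 9
    28 (.b 14 12 (.b 12 37 (.b 11 14 (.d 68) (.b 13 16 (.d 70) (.b 0 40 (.b 8 39 (.d 67) (.b 1 25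
    (.d 67) (.b 4 25 (.b 12 36 (.d 78) (.b 5 21 (.b 5 15 (.b 8 57 (.b 1 43 (.b 4 24 (.d 74) (.b 3
    21 (.d 75) (.b 8 54 (.b 1 40 (.b 0 38 (.b 9 26 (.d 52) (.b 1 39 (.b 9 27 (.d 81) (.u 82)) (.u
    53))) (.u 82)) (.u 82)) (.u 82)))) (.u 79)) (.u 79)) (.u 55)) (.u 49))) (.u 73)))) (.u 80))))
    (.u 77)) (.u 76)) (.u 50))) (.u 54)) (.u 54))))) (.u 51))) (.b 3 20 (.b 6 22 (.b 14 8 (.b 10
    33 (.d 47) (.b 3 19 (.d 47) (.b 12 35 (.d 49) (.b 5 21 (.d 49) (.u 51))))) (.u 50)) (.u 50))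
    (.u 46)))) (.u 72)) (.u 72)))) (.u 48)) (.u 42))) .h) (.u 44)) (.u 40)))

theorem cp_15_4_19 : ckp 15 142 7 11150372599265311570767859136324179670100096
    PB_15_4 AL_15_4 [[46, 33, 33, 22, 35, 22, 22, 15, 39, 26, 26, 15, 28, 15, 15]]
    [([1, 25, 26, 12, 28, 14, 15, 12, 32, 18, 19, 14, 21, 7, 8], [1000000, 1000000, 1000000,
      22, 1000000, 1000000, 29, 15, 1000000, 1000000, 1000000, 15, 1000000, 17, 15])] tp_15_4_19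
    [1, 25, 26, 12, 24, 14, 15, 12, 32, 18, 19, 5, 21, 7, 8]
    [1000000, 1000000, 1000000, 1000000, 1000000, 1000000, 29, 15, 1000000, 1000000, 1000000, 15, 1000000, 17, 15] = true := by
  decide +kernel

end Pool.Agent.W2helper10.E9
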