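import Pool.Agent.W2helper10.E9.Pc

set_option autoImplicit false
set_option maxRecDepth 1000000

namespace Pool.Agent.W2helper10.E9

open Pool.Agent.MPe9218d Pool.Agent.H372R3.GD Pool.Agent.H372R3.GE

def PB_16_4 : List ℕ :=
  [116, 115, 114, 113, 112, 111, 110, 109, 108, 107, 106, 105, 104, 103, 102, 101, 100, 99, 98,
  97, 96, 95, 94, 93, 92, 91, 90, 89, 88, 87, 86, 85, 84, 83, 82, 81, 80, 79, 78, 77, 76, 75,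
  74, 73, 72, 71, 70, 69, 68, 67, 66, 65, 64, 63, 62, 61, 60, 59, 58, 57, 56, 55, 54, 53, 52,
  51, 50, 49, 48, 47, 46, 45, 44, 43, 42, 41, 40, 39, 38, 37, 36, 35, 34, 32, 31, 30, 29, 28,
  27, 26, 24, 23, 22, 20, 15, 14, 12, 8]

def AL_16_4 : List ℕ :=
  [1, 0, 0, 0, 0, 0, 0, 0, 1, 0, 0, 0, 1, 0, 1, 1, 0, 0, 0, 0, 1, 0, 1, 1, 1, 0, 1, 1, 1, 1, 1,
  1, 1, 0, 1, 1, 2, 1, 2, 2, 2, 1, 2, 2, 3, 2, 3, 2, 2, 1, 3, 3, 4, 3, 5, 4, 3, 3, 5, 5, 5, 4,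
  5, 4, 5, 4, 7, 7, 7, 7, 8, 7, 8, 7, 9, 9, 10, 8, 11, 9, 10, 10, 13, 13, 15, 13, 16, 14, 14,
  14, 19, 17, 18, 17, 19, 18, 20, 20, 26, 25, 25, 25, 27, 25, 28, 28, 32, 31, 33, 31, 36, 34,
  37, 39, 44, 43, 46]

def w_16_4 : W :=
  ⟨16, 4, 116, 8, 166153499473114484112975873908461824, PB_16_4, AL_16_4⟩

theorem ok_16_4 : okW w_16_4 = true := by decide +kernel

end Pool.Agent.W2helper10.E9
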