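import Pool.Agent.W2helper10.E9.D16_4

set_option autoImplicit false
set_option maxRecDepth 1000000

namespace Pool.Agent.W2helper10.E9

open Pool.Agent.MPe9218d Pool.Agent.H372R3.GD Pool.Agent.H372R3.GE

def tp_16_4_0 : Tp :=
    (.b 14 16 (.b 6 30 (.b 15 16 (.b 5 29 (.d 45) (.b 14 15 (.d 45) (.b 7 31 (.b 8 28 (.b 4 24 (.d
    48) (.b 10 34 (.b 6 26 (.b 6 24 (.b 11 31 (.b 8 25 (.b 5 38 (.d 68) (.b 13 22 (.d 68) (.b 2 30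
    (.d 70) (.b 12 18 (.d 70) (.b 7 27 (.b 15 11 (.d 51) (.b 10 30 (.b 7 24 (.b 5 54 (.b 13 38 (.b
    1 22 (.d 76) (.b 2 54 (.b 3 28 (.d 74) (.b 0 22 (.d 74) (.b 4 26 (.b 2 52 (.b 1 50 (.b 3 29
    (.d 73) (.b 1 25 (.d 73) (.b 3 59 (.b 9 37 (.d 77) (.u 80)) (.u 75)))) (.u 80)) (.u 80)) (.u
    78)))) (.u 78))) (.u 84)) (.u 84)) (.u 54)) (.u 54))) (.b 15 11 (.b 10 30 (.b 15 8 (.b 3 43
    (.b 13 31 (.b 6 23 (.d 53) (.b 2 42 (.b 11 28 (.b 1 41 (.d 57) (.b 5 45 (.b 2 36 (.b 8 18 (.d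
    62) (.b 9 45 (.b 9 42 (.b 3 31 (.d 71) (.b 1 57 (.b 0 22 (.d 74) (.b 4 26 (.b 1 50 (.b 9 37
    (.d 77) (.b 4 25 (.d 79) (.u 80))) (.u 80)) (.u 78))) (.u 73))) (.u 72)) (.u 69))) (.u 64))
    (.u 61))) (.u 58)) (.u 58))) (.u 59)) (.u 59)) (.u 54)) (.u 54)) (.u 51))))))) (.u 55)) (.u
    55)) (.u 52)) (.u 50)) (.u 50))) (.u 52)) (.u 47)))) (.u 46)) (.u 46)) (.u 44))

theorem cp_16_4_0 : ckp 16 116 8 166153499473114484112975873908461824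
    PB_16_4 AL_16_4 []
    [] tp_16_4_0
    [21, 1, 27, 28, 17, 26, 15, 16, 17, 34, 29, 20, 17, 22, 7, 8]
    [24, 1000000, 1000000, 1000000, 28, 1000000, 1000000, 1000000, 1000000, 1000000, 1000000, 1000000, 20, 1000000, 18, 19] = true := by
  decide +kernel

def tp_16_4_1 : Tp :=
    (.b 14 10 (.d 50) (.b 6 24 (.b 4 54 (.b 3 52 (.b 13 37 (.b 6 23 (.d 53) (.b 2 42 (.b 11 28 (.b
    4 30 (.d 74) (.b 3 28 (.d 74) (.b 1 23 (.d 75) (.b 15 18 (.b 14 14 (.b 1 51 (.b 3 29 (.d 73)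
    (.b 1 25 (.d 73) (.b 5 61 (.d 77) (.b 4 37 (.b 13 23 (.b 1 41 (.d 57) (.b 8 20 (.d 60) (.b 7
    17 (.b 3 43 (.d 59) (.b 11 23 (.b 2 36 (.b 7 16 (.d 62) (.b 11 20 (.b 9 45 (.b 2 35 (.d 65)
    (.b 9 43 (.b 9 42 (.b 4 32 (.b 9 37 (.d 77) (.u 79)) (.u 72)) (.u 72)) (.u 71))) (.u 69)) (.u
    66))) (.u 64)) (.u 63))) (.u 61)))) (.u 67)) (.u 67))))) (.u 79)) (.u 78)) (.u 76))))) (.u
    58)) (.u 58))) (.b 6 23 (.b 1 41 (.b 11 29 (.b 3 43 (.b 7 19 (.b 5 39 (.b 1 37 (.d 61) (.b 7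
    17 (.d 61) (.b 6 15 (.d 61) (.b 4 40 (.b 2 36 (.b 8 18 (.d 62) (.b 4 37 (.b 13 53 (.b 9 45 (.b
    9 42 (.b 3 31 (.d 71) (.b 4 32 (.b 13 49 (.b 4 30 (.d 74) (.b 13 47 (.b 13 46 (.b 15 18 (.d
    77) (.u 76)) (.u 76)) (.u 75))) (.u 73)) (.u 72))) (.u 72)) (.u 69)) (.u 69)) (.u 67))) (.u
    64)) (.u 64))))) (.u 67)) (.u 59)) (.u 59)) (.u 57)) (.u 57)) (.u 53))) (.u 82)) (.u 82)) (.u
    52)))

theorem cp_16_4_1 : ckp 16 116 8 166153499473114484112975873908461824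
    PB_16_4 AL_16_4 []
    [] tp_16_4_1
    [18, 1, 31, 28, 29, 39, 15, 16, 17, 34, 29, 20, 19, 23, 7, 18]
    [18, 1000000, 1000000, 1000000, 1000000, 1000000, 26, 24, 25, 1000000, 30, 31, 20, 1000000, 15, 19] = true := by
  decide +kernel

end Pool.Agent.W2helper10.E9
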