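import Pool.Agent.W2helper10.E9.D16_4

set_option autoImplicit false
set_option maxRecDepth 1000000

namespace Pool.Agent.W2helper10.E9

open Pool.Agent.MPe9218d Pool.Agent.H372R3.GD Pool.Agent.H372R3.GE

def tp_16_4_2 : Tp :=
    (.b 15 17 (.b 14 15 (.d 45) (.b 10 34 (.b 6 26 (.b 5 38 (.d 68) (.b 13 22 (.d 68) (.b 0 18 (.b
    15 16 (.d 46) (.b 11 35 (.b 7 27 (.b 0 17 (.d 47) (.b 8 28 (.b 6 24 (.b 10 30 (.b 8 26 (.b 7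
    24 (.b 11 31 (.b 8 25 (.b 2 30 (.d 70) (.b 12 18 (.d 70) (.b 2 54 (.b 4 30 (.d 74) (.b 3 28
    (.d 74) (.b 1 20 (.b 5 45 (.d 61) (.b 7 17 (.d 61) (.b 6 15 (.d 61) (.b 3 39 (.d 63) (.b 11 23
    (.d 63) (.b 8 17 (.d 63) (.b 9 49 (.b 2 35 (.b 8 18 (.d 62) (.b 4 40 (.d 64) (.b 13 25 (.b 6
    23 (.d 53) (.b 11 29 (.d 57) (.u 58))) (.u 65)))) (.u 65)) (.u 65)))))))) (.u 78)))) (.u
    78)))) (.u 55)) (.u 55)) (.u 54)) (.u 54)) (.u 54)) (.u 52)) (.u 52))) (.u 51)) (.u 51))) (.b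
    15 16 (.b 7 31 (.b 8 28 (.b 6 24 (.b 11 31 (.b 8 25 (.b 2 30 (.d 70) (.b 12 18 (.d 70) (.b 2
    54 (.b 4 30 (.d 74) (.b 3 28 (.d 74) (.b 1 20 (.b 5 45 (.d 61) (.b 7 17 (.d 61) (.b 6 15 (.d
    61) (.b 3 39 (.d 63) (.b 11 23 (.d 63) (.b 8 17 (.d 63) (.b 9 49 (.b 2 35 (.b 8 18 (.d 62) (.b
    4 40 (.d 64) (.b 13 25 (.b 11 29 (.d 57) (.b 6 18 (.b 7 25 (.d 53) (.b 15 9 (.d 53) (.u 54)))
    (.u 58))) (.u 65)))) (.u 65)) (.u 65)))))))) (.u 78)))) (.u 78)))) (.u 55)) (.u 55)) (.u 52))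
    (.u 52)) (.u 47)) (.u 46))))) (.u 50)) (.u 50))) (.b 14 15 (.b 6 30 (.b 0 18 (.b 11 35 (.b 7
    27 (.b 0 17 (.d 47) (.b 10 30 (.b 8 26 (.b 7 24 (.b 11 31 (.b 8 25 (.b 5 38 (.d 68) (.b 13 22
    (.d 68) (.b 2 30 (.d 70) (.b 12 18 (.d 70) (.b 6 26 .h (.b 14 10 (.b 14 8 (.b 2 42 (.b 11 28
    (.b 4 30 (.d 74) (.b 3 28 (.d 74) (.b 1 20 (.d 78) (.b 3 55 (.b 1 51 (.b 5 61 (.d 77) (.b 4 37
    (.b 13 23 (.b 14 7 (.d 53) (.b 1 41 (.d 57) (.b 8 20 (.d 60) (.b 7 17 (.b 3 43 (.d 59) (.b 11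
    23 (.b 2 36 (.b 7 16 (.d 62) (.b 11 20 (.b 9 45 (.b 2 35 (.d 65) (.b 9 43 (.b 9 42 (.b 4 32
    (.b 15 18 (.b 9 37 (.d 77) (.u 79)) (.u 76)) (.u 72)) (.u 72)) (.u 71))) (.u 69)) (.u 66)))
    (.u 64)) (.u 63))) (.u 61))))) (.u 67)) (.u 67))) (.u 79)) (.u 79))))) (.u 58)) (.u 58)) (.u
    52)) (.u 50))))))) (.u 55)) (.u 55)) (.u 54)) (.u 54)) (.u 54))) (.u 51)) (.u 51)) (.u 46))
    (.u 46)) (.u 45)))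

theorem cp_16_4_2 : ckp 16 116 8 166153499473114484112975873908461824
    PB_16_4 AL_16_4 []
    [([18, 1, 31, 28, 29, 39, 15, 16, 17, 34, 29, 20, 19, 23, 7, 18], [18, 1000000, 1000000,
      1000000, 1000000, 1000000, 26, 24, 25, 1000000, 30, 31, 20, 1000000, 15, 19])] tp_16_4_2
    [9, 1, 27, 28, 29, 30, 15, 16, 17, 34, 29, 20, 17, 22, 7, 8]
    [20, 1000000, 1000000, 1000000, 1000000, 1000000, 1000000, 1000000, 32, 1000000, 1000000, 1000000, 20, 1000000, 16, 19] = true := by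
  decide +kernel

def tp_16_4_3 : Tp :=
    (.b 15 19 (.b 4 28 (.b 0 20 (.b 14 16 (.d 44) (.b 5 29 (.b 15 17 (.d 45) (.b 6 30 (.b 0 18 (.b
    1 37 (.d 61) (.b 7 17 (.d 61) (.b 6 15 (.d 61) (.b 8 48 (.b 2 36 (.b 8 18 (.d 62) (.b 8 44 (.d
    68) (.b 4 24 (.b 6 24 (.b 0 12 (.b 7 31 (.d 47) (.b 11 35 (.b 4 21 (.b 10 34 (.d 50) (.b 13 37
    (.b 6 23 (.u 54) (.u 53)) (.u 53))) (.u 51)) (.u 51))) (.u 52)) (.u 52)) (.u 48)))) (.u 64))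
    (.u 64))))) (.u 46)) (.u 46))) (.b 15 17 (.b 6 30 (.b 0 18 (.b 15 16 (.d 46) (.b 7 31 (.b 0 17
    (.d 47) (.b 8 28 (.b 4 24 (.d 48) (.b 10 34 (.b 6 26 (.b 11 35 (.b 7 27 (.b 6 24 (.b 10 30 (.b
    8 26 (.b 7 24 (.b 11 31 (.b 8 25 (.b 5 38 (.d 68) (.b 13 22 (.d 68) (.b 2 30 (.d 70) (.b 12 18
    (.d 70) (.b 2 58 (.d 74) (.b 11 28 (.b 6 18 (.b 13 37 (.d 53) (.b 1 41 (.b 3 43 (.b 7 19 (.b 1
    34 (.b 5 45 (.d 61) (.b 7 17 (.d 61) (.b 6 15 (.d 61) (.b 8 18 (.b 6 16 (.d 60) (.b 3 39 (.d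
    63) (.b 11 23 (.d 63) (.b 8 17 (.d 63) (.u 65))))) (.u 62))))) (.u 64)) (.u 59)) (.u 59)) (.u
    57))) (.u 58)) (.u 58))))))) (.u 55)) (.u 55)) (.u 54)) (.u 54)) (.u 54)) (.u 52)) (.u 51))
    (.u 51)) (.u 50)) (.u 50))) (.u 52))) (.b 0 17 (.b 11 35 (.b 4 21 (.b 8 32 (.d 48) (.b 6 24
    (.b 10 34 (.d 50) (.b 0 12 (.b 13 37 (.b 6 23 (.u 54) (.u 53)) (.u 53)) (.u 52))) (.u 52)))
    (.u 51)) (.u 51)) (.u 47)))) (.b 15 16 (.b 7 31 (.b 8 28 (.b 4 24 (.d 48) (.b 10 34 (.b 6 26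
    (.b 6 24 (.b 11 31 (.b 8 25 (.b 5 38 (.d 68) (.b 13 22 (.d 68) (.b 2 30 (.d 70) (.b 12 18 (.d
    70) (.b 2 58 (.d 74) (.b 11 28 (.b 6 18 (.b 1 34 (.b 13 33 (.d 57) (.b 3 43 (.b 7 19 (.b 15 11
    (.d 51) (.b 13 37 (.d 53) (.b 10 30 (.b 5 45 (.d 61) (.b 7 17 (.d 61) (.b 6 15 (.d 61) (.b 8
    18 (.b 6 16 (.d 60) (.b 3 39 (.d 63) (.b 11 23 (.d 63) (.b 8 17 (.d 63) (.u 65))))) (.u
    62))))) (.u 54)))) (.u 59)) (.u 59))) (.u 64)) (.u 58)) (.u 58))))))) (.u 55)) (.u 55)) (.u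
    52)) (.u 50)) (.u 50))) (.u 52)) (.u 47)) (.u 46))) (.b 0 18 (.b 15 16 (.b 10 34 (.b 4 22 (.b
    8 32 (.d 48) (.u 52)) (.u 50)) (.u 50)) (.u 46)) (.u 46))) (.u 45)))) .h) (.b 0 20 (.b 14 16
    (.b 8 32 (.b 5 29 (.b 15 17 (.d 45) (.b 14 15 (.d 45) (.b 6 30 (.b 0 18 (.b 10 34 (.b 6 26 (.b
    11 35 (.b 7 27 (.b 0 17 (.d 47) (.b 8 28 (.b 6 24 (.b 10 30 (.b 8 26 (.b 7 24 (.b 11 31 (.b 8
    25 (.b 1 37 (.d 61) (.b 7 17 (.d 61) (.b 6 15 (.d 61) (.b 4 40 (.b 2 36 (.b 8 18 (.d 62) (.d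
    68)) (.u 64)) (.u 64))))) (.u 55)) (.u 55)) (.u 54)) (.u 54)) (.u 54)) (.u 52)) (.u 52))) (.u
    51)) (.u 51)) (.u 50)) (.u 50)) (.u 46)) (.u 46)))) .h) (.u 48)) (.u 44)) (.u 44))) (.u 43))

theorem cp_16_4_3 : ckp 16 116 8 166153499473114484112975873908461824
    PB_16_4 AL_16_4 []
    [([21, 1, 27, 28, 17, 26, 15, 16, 17, 34, 29, 20, 17, 22, 7, 8], [24, 1000000, 1000000,
      1000000, 28, 1000000, 1000000, 1000000, 1000000, 1000000, 1000000, 1000000, 20, 1000000,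
      18, 19]), ([9, 1, 27, 28, 29, 30, 15, 16, 17, 34, 29, 20, 17, 22, 7, 8], [20, 1000000,
      1000000, 1000000, 1000000, 1000000, 1000000, 1000000, 32, 1000000, 1000000, 1000000, 20,
      1000000, 16, 19])] tp_16_4_3
    [9, 1, 27, 28, 17, 26, 15, 16, 17, 34, 29, 20, 17, 22, 7, 8]
    [24, 1000000, 1000000, 1000000, 1000000, 1000000, 1000000, 1000000, 1000000, 1000000, 1000000, 1000000, 20, 1000000, 18, 23] = true := by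
  decide +kernel

end Pool.Agent.W2helper10.E9
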