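import Pool.Agent.W2helper10.E9.D16_4

set_option autoImplicit false
set_option maxRecDepth 1000000

namespace Pool.Agent.W2helper10.E9

open Pool.Agent.MPe9218d Pool.Agent.H372R3.GD Pool.Agent.H372R3.GE

def tp_16_4_4 : Tp :=
    (.b 5 55 (.b 5 54 (.b 1 41 (.b 13 33 (.d 57) (.b 3 43 (.b 7 19 (.b 0 36 (.b 8 20 (.b 5 39 (.b
    1 37 (.d 61) (.b 7 17 (.d 61) (.b 2 36 (.b 9 45 (.b 9 42 (.b 3 31 (.d 71) (.b 5 33 (.d 73) (.b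
    12 15 (.d 73) (.b 9 37 (.d 77) (.b 15 13 (.d 81) (.d 85)))))) (.u 72)) (.u 69)) (.u 64)))) (.u
    67)) (.u 60)) (.u 60)) (.u 59)) (.u 59))) (.b 13 33 (.b 2 36 (.b 9 45 (.b 9 42 (.b 3 31 (.d
    71) (.b 1 45 (.d 85) (.b 8 24 (.b 1 46 (.d 116) (.b 3 43 (.b 5 31 (.d 75) (.b 15 13 (.d 81)
    (.b 5 38 (.d 114) (.b 13 22 (.d 114) (.b 0 28 (.b 8 18 (.d 62) (.b 7 16 (.d 62) (.b 3 40 (.d
    94) (.b 11 23 (.b 11 20 (.d 94) (.u 66)) (.u 63))))) (.u 68)))))) (.b 13 31 (.b 7 19 (.b 11 20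
    (.b 0 34 (.d 94) (.b 8 17 (.b 7 16 (.d 62) (.d 94)) (.u 63))) (.u 66)) (.u 59)) (.u 59)))) (.u
    88)))) (.u 72)) (.u 69)) (.u 64)) (.u 57))) (.u 84)) (.u 83))

theorem cp_16_4_4 : ckp 16 116 8 166153499473114484112975873908461824
    PB_16_4 AL_16_4 []
    [] tp_16_4_4
    [27, 23, 31, 29, 25, 31, 24, 16, 17, 34, 29, 20, 15, 22, 16, 12]
    [40, 1000000, 42, 1000000, 26, 1000000, 24, 24, 25, 1000000, 30, 28, 16, 37, 16, 16] = true := by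
  decide +kernel

def tp_16_4_5 : Tp :=
    (.b 6 23 (.d 53) (.b 2 42 (.b 11 28 (.b 3 28 (.d 74) (.b 0 40 (.b 10 28 (.d 56) (.b 5 30 (.d
    76) (.b 1 22 (.d 76) (.b 4 26 .h (.u 78))))) (.b 10 28 (.b 13 30 (.b 1 41 (.d 57) (.b 10 27
    (.d 57) (.b 8 20 (.b 2 36 (.b 9 45 (.b 0 56 (.b 9 42 (.b 3 31 (.d 71) (.b 0 50 (.b 5 30 (.d
    76) (.b 4 26 (.b 5 55 (.b 5 54 (.b 0 44 (.b 1 45 (.d 85) (.b 0 42 (.b 3 44 (.b 5 31 (.d 75)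
    (.b 15 13 (.d 81) (.b 7 20 (.b 0 41 (.d 87) (.b 5 38 (.d 100) (.b 13 22 (.b 5 39 (.d 67) (.d
    100)) (.u 68)))) (.u 90)))) (.u 90)) (.u 86))) (.u 84)) (.u 84)) (.u 83)) (.u 78))) (.u 78)))
    (.u 72)) (.u 72)) (.u 69)) (.u 64)) (.u 60)))) (.u 60)) (.u 56)))) (.u 58)) (.u 58)))

theorem cp_16_4_5 : ckp 16 116 8 166153499473114484112975873908461824
    PB_16_4 AL_16_4 []
    [([27, 23, 31, 29, 25, 31, 24, 16, 17, 34, 29, 20, 15, 22, 16, 12], [40, 1000000, 42,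
      1000000, 26, 1000000, 24, 24, 25, 1000000, 30, 28, 16, 37, 16, 16])] tp_16_4_5
    [27, 1, 31, 28, 25, 30, 15, 16, 17, 34, 19, 20, 15, 22, 16, 12]
    [1000000, 1000000, 1000000, 1000000, 28, 1000000, 24, 24, 25, 1000000, 30, 31, 16, 37, 16, 16] = true := by
  decide +kernel

end Pool.Agent.W2helper10.E9
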