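import Pool.Agent.W2helper10.E9.D16_4

set_option autoImplicit false
set_option maxRecDepth 1000000

namespace Pool.Agent.W2helper10.E9

open Pool.Agent.MPe9218d Pool.Agent.H372R3.GD Pool.Agent.H372R3.GE

def tp_16_4_6 : Tp :=
    (.b 15 11 (.b 10 30 (.b 15 8 (.b 3 43 (.b 13 31 (.b 6 23 (.d 53) (.b 2 42 (.b 11 28 (.b 1 41
    (.d 57) (.b 10 27 (.d 57) (.b 5 45 (.b 2 36 (.b 9 45 (.b 0 56 (.b 9 42 (.b 3 31 (.d 71) (.b 5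
    31 (.d 75) (.b 0 52 (.b 0 50 (.b 4 26 (.b 7 29 (.d 81) (.b 0 44 (.b 1 45 (.d 85) (.b 0 42 (.b
    0 41 (.b 10 29 (.b 1 73 (.b 0 38 (.b 10 28 (.d 56) (.b 8 24 (.b 8 22 (.b 5 38 (.d 114) (.b 13
    30 (.d 114) (.b 0 36 (.b 8 20 (.b 5 39 (.b 0 28 (.b 8 18 (.d 62) (.b 11 27 (.d 91) (.b 3 39
    (.b 3 36 (.b 2 35 (.d 65) (.b 1 69 (.b 8 19 (.d 94) (.u 93)) (.u 93))) (.u 66)) (.u 63)))) (.u
    68)) (.u 67)) (.u 60)) (.u 60)))) (.u 90)) (.u 88))) (.u 90)) (.u 89)) (.u 87)) (.u 87)) (.u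
    86))) (.u 84))) (.u 78)) (.u 78)) (.u 76)))) (.u 72)) (.u 72)) (.u 69)) (.u 64)) (.u 61))))
    (.u 58)) (.u 58))) (.u 59)) (.u 59)) (.u 54)) (.u 54)) (.u 51))

theorem cp_16_4_6 : ckp 16 116 8 166153499473114484112975873908461824
    PB_16_4 AL_16_4 []
    [] tp_16_4_6
    [27, 1, 31, 28, 25, 30, 15, 28, 17, 34, 19, 20, 15, 22, 16, 8]
    [1000000, 1000000, 1000000, 1000000, 28, 1000000, 24, 31, 25, 1000000, 34, 31, 16, 1000000, 16, 16] = true := by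
  decide +kernel

def tp_16_4_7 : Tp :=
    (.b 12 16 (.d 40) (.b 10 28 (.d 56) (.b 4 16 (.d 56) (.b 0 8 (.d 56) (.b 2 26 (.b 14 18 (.d
    42) (.b 4 28 (.b 0 20 (.b 3 27 (.b 15 19 (.d 43) (.b 5 29 (.b 1 37 (.d 61) (.b 7 17 (.d 61)
    (.b 6 15 (.d 61) (.b 8 48 (.b 9 49 (.d 65) (.b 13 25 (.d 65) (.b 11 21 (.d 65) (.b 10 50 (.b 6
    42 (.b 8 18 (.d 62) (.b 11 51 (.b 7 43 (.b 11 23 (.d 63) (.u 69)) (.u 67)) (.u 67))) (.u 66))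
    (.u 66))))) (.u 64))))) (.u 45))) (.b 15 19 (.b 5 29 (.b 15 17 (.d 45) (.b 1 37 (.d 61) (.b 7
    17 (.d 61) (.b 6 15 (.d 61) (.b 8 48 (.b 13 53 (.b 9 45 (.b 3 37 (.d 65) (.b 13 25 (.d 65) (.b
    11 21 (.d 65) (.u 66)))) (.u 69)) (.u 69)) (.u 64)))))) (.b 15 17 (.b 6 30 (.b 8 18 (.d 62)
    (.b 7 16 (.d 62) (.b 11 44 (.d 74) (.b 8 25 (.b 4 24 (.d 48) (.b 2 20 (.d 48) (.b 10 34 (.b 6
    26 (.b 7 27 (.b 0 17 (.d 47) (.b 15 11 (.b 2 22 (.d 46) (.b 0 18 (.d 46) (.b 6 24 (.u 55) (.u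
    52)))) (.u 51))) (.u 51)) (.u 50)) (.u 50)))) (.u 55))))) (.b 10 34 (.b 4 22 (.b 8 32 (.d 48)
    (.b 2 20 (.d 48) (.u 52))) (.u 50)) (.u 50))) (.u 45))) (.u 43))) (.u 44)) (.u 44))) (.b 14 18
    (.b 3 27 (.b 15 19 (.d 43) (.b 6 30 (.b 0 18 (.b 4 28 (.b 14 16 (.d 44) (.b 5 29 (.b 1 37 (.d
    61) (.b 7 17 (.d 61) (.b 6 15 (.d 61) (.b 8 48 (.b 2 36 (.b 8 18 (.d 62) (.b 8 44 (.d 68) (.b
    4 24 (.b 6 24 (.b 0 12 (.b 7 31 (.d 47) (.b 3 23 (.d 47) (.b 11 35 (.b 4 21 (.b 10 34 (.d 50)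
    (.b 13 37 (.b 6 23 (.u 54) (.u 53)) (.u 53))) (.u 51)) (.u 51)))) (.u 52)) (.u 52)) (.u 48))))
    (.u 64)) (.u 64))))) (.u 45))) (.b 14 16 (.b 8 32 (.b 11 35 (.b 7 27 (.b 3 23 (.d 47) (.b 0 17
    (.d 47) (.b 10 30 (.b 8 26 (.b 7 24 (.b 11 31 (.b 8 25 (.b 1 35 (.d 63) (.b 11 23 (.d 63) (.b
    8 17 (.d 63) (.b 4 40 (.b 2 36 (.b 8 18 (.d 62) (.b 7 16 (.d 62) (.b 4 38 (.b 5 38 (.d 68) (.b
    14 15 (.b 13 22 (.d 68) (.b 13 53 (.b 9 45 (.b 2 30 (.d 70) (.b 12 18 (.d 70) (.b 9 43 (.d 71)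
    (.u 72)))) (.u 69)) (.u 69))) (.u 45))) (.u 66)))) (.u 64)) (.u 64))))) (.u 55)) (.u 55)) (.u
    54)) (.u 54)) (.u 54)))) (.u 51)) (.u 51)) (.u 48)) (.u 44))) (.u 46)) (.u 46))) .h) (.u
    42)))))))

theorem cp_16_4_7 : ckp 16 116 8 166153499473114484112975873908461824
    PB_16_4 AL_16_4 []
    [([9, 1, 27, 28, 17, 26, 15, 16, 17, 34, 29, 20, 17, 22, 7, 8], [24, 1000000, 1000000,
      1000000, 1000000, 1000000, 1000000, 1000000, 1000000, 1000000, 1000000, 1000000, 20,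
      1000000, 18, 23])] tp_16_4_7
    [1, 1, 20, 22, 13, 26, 15, 16, 17, 34, 19, 20, 5, 22, 7, 8]
    [24, 1000000, 1000000, 1000000, 1000000, 1000000, 1000000, 1000000, 1000000, 1000000, 1000000, 1000000, 20, 1000000, 22, 23] = true := by
  decide +kernel

end Pool.Agent.W2helper10.E9
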