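import Pool.Agent.W2helper10.E9.D16_4

set_option autoImplicit false
set_option maxRecDepth 1000000

namespace Pool.Agent.W2helper10.E9

open Pool.Agent.MPe9218d Pool.Agent.H372R3.GD Pool.Agent.H372R3.GE

def tp_16_4_8 : Tp :=
    (.b 12 4 (.d 20) (.b 14 6 (.d 22) (.b 15 7 (.d 23) (.b 4 12 (.d 28) (.b 6 14 (.d 30) (.b 7 15
    (.d 31) (.b 8 16 (.d 32) (.b 10 18 (.d 34) (.b 11 19 (.d 35) (.b 12 20 (.b 13 21 (.d 37) (.b
    14 22 (.b 15 23 (.b 9 33 (.d 49) (.b 5 25 (.d 49) (.b 3 21 (.d 49) (.b 2 19 (.d 49) (.b 0 24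
    .h (.b 12 16 (.b 4 28 (.b 14 16 (.b 2 26 (.d 42) (.b 12 14 (.d 42) (.b 6 30 (.b 15 16 (.b 3 27
    (.d 43) (.b 5 29 (.d 45) (.b 14 15 (.d 45) (.b 7 31 (.b 8 28 (.b 4 24 (.d 48) (.b 10 34 (.b 6
    26 (.b 6 24 (.b 11 31 (.b 8 25 (.b 2 30 (.d 70) (.b 0 26 (.d 70) (.b 7 27 (.b 15 11 (.d 51)
    (.b 10 30 (.b 7 24 (.b 13 37 .h (.b 6 23 (.b 3 43 (.b 7 19 (.b 5 39 (.b 1 37 (.d 61) (.b 7 17
    (.d 61) (.b 6 15 (.d 61) (.b 13 53 (.b 9 45 (.b 0 56 (.b 9 42 (.b 3 31 (.d 71) (.b 2 58 (.b 2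
    54 (.b 0 50 (.b 4 26 (.b 15 12 (.d 82) (.b 13 39 (.b 5 31 (.d 75) (.b 0 44 (.b 13 38 (.b 1 45
    (.d 85) (.b 11 29 (.b 10 27 (.b 0 40 (.d 56) (.b 8 20 (.b 6 16 (.b 5 38 (.b 0 41 (.b 2 46 (.d
    86) (.b 11 28 (.b 10 22 (.b 8 18 (.b 10 20 (.u 88) (.u 64)) (.u 62)) (.u 62)) (.u 58))) (.u
    87)) (.u 68)) (.u 60)) (.u 60))) (.u 57)) (.u 57))) (.u 84)) (.u 84))) (.u 83))) (.u 78)) (.u
    78)) (.u 78)) (.u 74))) (.u 72)) (.u 72)) (.u 69)) (.u 69))))) (.u 67)) (.u 59)) (.u 59)) (.u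
    53))) (.u 54)) (.u 54))) .h))) (.u 55)) (.u 55)) (.u 52)) (.u 50)) (.u 50))) (.u 52)) (.u
    47))))) (.u 46)) (.u 46)))) (.u 44)) (.u 44)) (.u 40))))))) (.u 39)) (.u 38))) (.u
    36)))))))))))

theorem cp_16_4_8 : ckp 16 116 8 166153499473114484112975873908461824
    PB_16_4 AL_16_4 []
    [([1, 1, 20, 22, 13, 26, 15, 16, 17, 34, 19, 20, 5, 22, 7, 8], [24, 1000000, 1000000,
      1000000, 1000000, 1000000, 1000000, 1000000, 1000000, 1000000, 1000000, 1000000, 20,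
      1000000, 22, 23]), ([27, 1, 31, 28, 25, 30, 15, 16, 17, 34, 19, 20, 15, 22, 16, 12],
      [1000000, 1000000, 1000000, 1000000, 28, 1000000, 24, 24, 25, 1000000, 30, 31, 16, 37, 16,
      16]), ([27, 1, 31, 28, 25, 30, 15, 28, 17, 34, 19, 20, 15, 22, 16, 8], [1000000, 1000000,
      1000000, 1000000, 28, 1000000, 24, 31, 25, 1000000, 34, 31, 16, 1000000, 16, 16])] tp_16_4_8
    [1, 1, 1, 1, 1, 1, 1, 1, 1, 1, 1, 1, 1, 1, 1, 1]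
    [1000000, 1000000, 1000000, 1000000, 1000000, 1000000, 1000000, 1000000, 1000000, 1000000, 1000000, 1000000, 1000000, 1000000, 1000000, 1000000] = true := by
  decide +kernel

end Pool.Agent.W2helper10.E9
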