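import Pool.Agent.W2helper10.E9.Pc

set_option autoImplicit false
set_option maxRecDepth 1000000

namespace Pool.Agent.W2helper10.E9

open Pool.Agent.MPe9218d Pool.Agent.H372R3.GD Pool.Agent.H372R3.GE

def PB_17_4 : List ℕ :=
  [97, 96, 95, 94, 93, 92, 91, 90, 89, 88, 87, 86, 85, 84, 83, 82, 81, 80, 79, 78, 77, 76, 75,
  74, 73, 72, 71, 70, 69, 68, 67, 66, 65, 64, 63, 62, 61, 60, 59, 58, 57, 56, 55, 54, 53, 52,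
  51, 50, 49, 48, 47, 46, 45, 44, 43, 42, 41, 40, 39, 38, 37, 35, 33, 32, 31, 30, 29, 28, 26,
  25, 24, 22, 16, 15, 13, 9]

def AL_17_4 : List ℕ :=
  [1, 0, 0, 0, 0, 0, 0, 0, 0, 1, 0, 0, 0, 1, 0, 1, 1, 0, 0, 0, 0, 0, 1, 0, 1, 1, 1, 0, 1, 1, 1,
  1, 1, 1, 0, 1, 0, 1, 1, 2, 1, 2, 2, 2, 1, 2, 2, 2, 3, 2, 2, 1, 2, 1, 3, 3, 4, 3, 5, 4, 3, 3,
  4, 5, 4, 5, 3, 4, 3, 5, 4, 7, 7, 7, 7, 8, 7, 6, 8, 7, 9, 8, 9, 7, 9, 8, 10, 10, 13, 13, 14,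
  14, 14, 14, 12, 14, 15, 17]

def w_17_4 : W :=
  ⟨17, 4, 97, 9, 316912650057057350288129761792, PB_17_4, AL_17_4⟩

theorem ok_17_4 : okW w_17_4 = true := by decide +kernel

end Pool.Agent.W2helper10.E9
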