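import Pool.Agent.W2helper10.E9.D17_4

set_option autoImplicit false
set_option maxRecDepth 1000000

namespace Pool.Agent.W2helper10.E9

open Pool.Agent.MPe9218d Pool.Agent.H372R3.GD Pool.Agent.H372R3.GE

def tp_17_4_0 : Tp :=
    (.b 11 30 (.b 4 46 (.b 14 32 (.b 2 18 (.d 88) (.b 10 65 (.b 8 61 (.b 1 47 (.b 3 30 (.d 78) (.b
    2 28 (.d 78) (.b 13 16 (.d 78) (.b 6 32 (.d 82) (.b 1 43 (.b 12 31 (.d 61) (.b 11 29 (.d 61)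
    (.b 2 44 (.b 4 39 (.b 6 35 (.d 79) (.b 4 31 (.d 79) (.b 10 37 (.d 85) (.b 5 27 (.d 85) (.b 8
    60 (.d 92) (.b 6 42 (.b 2 40 (.d 66) (.b 3 39 (.b 14 24 (.b 10 52 (.d 70) (.b 3 38 (.d 70) (.u
    74))) (.u 72)) (.u 69))) (.u 72))))))) (.u 71)) (.u 62)))) (.b 9 21 (.b 10 48 (.b 8 44 (.b 2
    48 (.d 92) (.b 12 30 (.b 11 29 (.d 61) (.b 6 48 (.b 3 41 (.b 9 19 (.b 3 39 (.b 8 43 (.b 0 46
    (.d 90) (.b 1 45 (.b 2 78 (.u 97) (.u 96)) (.u 93))) (.u 75)) (.u 69)) (.u 67)) (.u 67)) (.u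
    66))) (.u 62))) (.u 74)) (.u 74)) (.u 65))))))) (.u 91)) (.u 91)) (.u 91))) (.u 64)) (.u 64))
    (.u 60))

theorem cp_17_4_0 : ckp 17 97 9 316912650057057350288129761792
    PB_17_4 AL_17_4 []
    [] tp_17_4_0
    [43, 27, 1, 29, 31, 27, 32, 26, 34, 18, 36, 20, 21, 16, 23, 17, 8]
    [1000000, 1000000, 1000000, 45, 57, 30, 59, 26, 63, 27, 69, 32, 33, 17, 33, 17, 8] = true := by
  decide +kernel

def tp_17_4_1 : Tp :=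
    (.b 0 22 (.d 80) (.b 8 63 (.b 6 59 (.b 14 41 (.b 7 25 (.b 14 39 (.d 57) (.b 3 45 (.b 7 19 (.b
    4 46 (.b 0 38 (.b 11 30 (.d 60) (.b 1 43 (.b 12 31 (.b 8 46 (.b 6 42 (.b 2 40 (.d 66) (.b 0 36
    (.d 66) (.b 7 16 (.d 66) (.b 3 39 (.b 6 41 (.b 8 43 (.b 10 45 (.d 77) (.b 4 33 (.d 77) (.b 1
    27 (.d 77) (.b 3 30 (.d 78) (.b 13 16 (.d 78) (.b 8 37 (.d 81) (.b 6 33 (.d 81) (.b 2 57 (.b 6
    35 (.d 79) (.b 5 28 (.b 2 54 (.b 5 27 (.d 85) (.b 14 40 (.d 90) (.b 10 65 (.d 92) (.u 91))))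
    (.u 86)) (.u 84))) (.u 83))))))))) (.u 75)) (.u 73)) (.u 69))))) (.u 72)) (.u 72)) (.u 61))
    (.u 61))) (.u 64)) (.u 64)) (.u 63)) (.u 63))) (.b 14 39 (.b 3 45 (.b 14 33 (.b 0 42 (.b 11 30
    (.d 60) (.b 10 45 (.d 77) (.b 4 33 (.d 77) (.b 2 29 (.d 77) (.b 1 27 (.d 77) (.b 0 25 (.d 77)
    (.b 8 37 (.d 81) (.b 6 33 (.d 81) (.b 1 56 (.b 3 30 (.d 78) (.b 13 16 (.d 78) (.b 2 57 (.b 6
    35 (.d 79) (.b 1 54 (.b 5 28 (.b 2 54 (.b 4 56 (.b 6 58 (.d 90) (.b 8 46 (.b 14 24 (.b 10 65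
    (.b 1 47 (.b 5 27 (.d 85) (.d 92)) (.u 91)) (.u 91)) (.u 72)) (.u 72))) (.u 88)) (.u 86)) (.u
    84)) (.u 84))) (.u 83)))) (.u 82)))))))))) .h) (.u 63)) (.u 63)) (.u 57))) (.u 89)) (.u 89))
    (.u 89)))

theorem cp_17_4_1 : ckp 17 97 9 316912650057057350288129761792
    PB_17_4 AL_17_4 []
    [([43, 27, 1, 29, 31, 27, 32, 26, 34, 18, 36, 20, 21, 16, 23, 17, 8], [1000000, 1000000,
      1000000, 45, 57, 30, 59, 26, 63, 27, 69, 32, 33, 17, 33, 17, 8])] tp_17_4_1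
    [1, 27, 1, 29, 31, 27, 32, 16, 34, 18, 36, 20, 21, 16, 23, 17, 8]
    [1000000, 1000000, 1000000, 55, 57, 30, 61, 26, 1000000, 27, 69, 32, 33, 17, 43, 17, 8] = true := by
  decide +kernel

end Pool.Agent.W2helper10.E9
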