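import Pool.Agent.W2helper10.E9.D17_4

set_option autoImplicit false
set_option maxRecDepth 1000000

namespace Pool.Agent.W2helper10.E9

open Pool.Agent.MPe9218d Pool.Agent.H372R3.GD Pool.Agent.H372R3.GE

def tp_17_4_2 : Tp :=
    (.b 11 30 (.b 4 46 (.b 14 32 (.b 8 63 (.b 6 59 (.b 5 57 (.b 2 18 (.d 88) (.b 1 43 (.b 12 31
    (.d 61) (.b 11 29 (.d 61) (.b 2 44 (.b 5 41 (.b 4 39 (.b 6 35 (.d 79) (.b 4 31 (.d 79) (.b 3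
    29 (.d 79) (.b 2 27 (.d 79) (.b 5 32 (.b 3 30 (.d 78) (.b 2 28 (.d 78) (.b 13 16 (.d 78) (.b
    10 37 (.d 85) (.b 15 12 (.d 86) (.b 10 69 (.b 8 60 (.d 92) (.b 6 42 (.b 2 40 (.d 66) (.b 3 39
    (.b 14 24 (.b 10 52 (.d 70) (.b 3 38 (.d 70) (.u 74))) (.u 72)) (.u 69))) (.u 72))) (.u
    87))))))) (.u 80)))))) (.u 71)) (.u 71)) (.u 62)))) (.b 5 47 (.b 9 21 (.b 10 48 (.b 8 44 (.b
    15 11 (.d 87) (.b 1 47 (.d 91) (.b 2 48 (.d 92) (.b 12 30 (.b 11 29 (.d 61) (.b 6 48 (.b 3 41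
    (.b 9 19 (.b 5 43 (.b 3 39 (.b 8 43 (.b 0 46 (.d 90) (.u 93)) (.u 75)) (.u 69)) (.u 69)) (.u
    67)) (.u 67)) (.u 66))) (.u 62))))) (.u 74)) (.u 74)) (.u 65)) (.u 65)))) (.u 89)) (.u 89))
    (.u 89)) (.u 64)) (.u 64)) (.u 60))

theorem cp_17_4_2 : ckp 17 97 9 316912650057057350288129761792
    PB_17_4 AL_17_4 []
    [] tp_17_4_2
    [43, 27, 1, 29, 30, 31, 32, 26, 34, 18, 36, 20, 21, 16, 23, 11, 8]
    [1000000, 1000000, 1000000, 45, 1000000, 1000000, 1000000, 26, 1000000, 27, 1000000, 32, 33, 17, 33, 16, 8] = true := by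
  decide +kernel

def tp_17_4_3 : Tp :=
    (.b 11 30 (.b 4 46 (.b 14 32 (.b 8 63 (.b 6 59 (.b 5 57 (.b 2 18 (.d 88) (.b 1 43 (.b 12 31
    (.d 61) (.b 11 29 (.d 61) (.b 2 44 (.b 5 41 (.b 4 39 (.b 6 35 (.d 79) (.b 4 31 (.d 79) (.b 3
    29 (.d 79) (.b 2 27 (.d 79) (.b 5 32 (.b 3 30 (.d 78) (.b 2 28 (.d 78) (.b 13 16 (.d 78) (.b
    10 37 (.d 85) (.b 7 30 (.d 86) (.b 10 69 (.b 8 60 (.d 92) (.b 6 42 (.b 2 40 (.d 66) (.b 3 39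
    (.b 14 24 (.b 10 52 (.d 70) (.b 3 38 (.d 70) (.u 74))) (.u 72)) (.u 69))) (.u 72))) (.u
    87))))))) (.u 80)))))) (.u 71)) (.u 71)) (.u 62)))) (.b 5 47 (.b 9 21 (.b 10 48 (.b 8 44 (.b 7
    29 (.d 87) (.b 1 47 (.d 91) (.b 2 48 (.d 92) (.b 12 30 (.b 11 29 (.d 61) (.b 6 48 (.b 3 41 (.b
    9 19 (.b 5 43 (.b 3 39 (.b 8 43 (.b 0 46 (.d 90) (.u 93)) (.u 75)) (.u 69)) (.u 69)) (.u 67))
    (.u 67)) (.u 66))) (.u 62))))) (.u 74)) (.u 74)) (.u 65)) (.u 65)))) (.u 89)) (.u 89)) (.u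
    89)) (.u 64)) (.u 64)) (.u 60))

theorem cp_17_4_3 : ckp 17 97 9 316912650057057350288129761792
    PB_17_4 AL_17_4 []
    [] tp_17_4_3
    [43, 27, 1, 29, 30, 31, 32, 29, 34, 18, 36, 20, 21, 16, 23, 8, 8]
    [1000000, 1000000, 1000000, 45, 1000000, 1000000, 1000000, 32, 1000000, 27, 1000000, 32, 33, 17, 33, 8, 8] = true := by
  decide +kernel

end Pool.Agent.W2helper10.E9
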