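import Pool.Agent.W2helper10.E9.D17_4

set_option autoImplicit false
set_option maxRecDepth 1000000

namespace Pool.Agent.W2helper10.E9

open Pool.Agent.MPe9218d Pool.Agent.H372R3.GD Pool.Agent.H372R3.GE

def tp_17_4_4 : Tp :=
    (.b 15 10 (.d 54) (.b 7 26 (.b 7 25 (.b 14 39 (.d 57) (.b 3 45 (.b 7 19 (.b 4 46 (.b 0 38 (.b
    11 30 (.d 60) (.b 1 43 (.b 12 31 (.b 8 46 (.b 6 42 (.b 2 40 (.d 66) (.b 0 36 (.d 66) (.b 7 16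
    (.d 66) (.b 5 43 (.b 3 39 (.b 5 40 (.b 6 41 (.b 8 43 (.b 10 45 (.d 77) (.b 4 33 (.d 77) (.b 1
    27 (.d 77) (.b 14 50 (.b 5 32 (.b 3 30 (.d 78) (.b 13 16 (.d 78) (.b 6 32 (.d 82) (.b 2 55 (.b
    6 35 (.d 79) (.b 8 35 (.d 83) (.b 15 14 (.b 14 41 (.b 14 40 (.d 90) (.b 10 65 (.d 91) (.b 1 30
    (.b 9 21 (.d 65) (.b 7 17 (.d 65) (.b 4 42 (.d 68) (.b 12 24 (.d 68) (.u 70))))) (.u 74))))
    (.u 89)) (.u 84)))) (.u 85))))) (.u 80)) (.u 80))))) (.u 75)) (.u 73)) (.u 72)) (.u 69)) (.u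
    69))))) (.u 72)) (.u 72)) (.u 61)) (.u 61))) (.u 64)) (.u 64)) (.u 63)) (.u 63))) (.b 14 39
    (.b 3 45 (.b 14 33 (.b 0 42 (.b 11 30 (.d 60) (.b 10 45 (.d 77) (.b 4 33 (.d 77) (.b 2 29 (.d
    77) (.b 1 27 (.d 77) (.b 0 25 (.d 77) (.b 5 32 (.b 8 67 (.b 4 59 (.b 2 55 (.b 6 35 (.d 79) (.b
    3 29 (.d 79) (.b 1 56 (.b 3 30 (.d 78) (.b 13 16 (.d 78) (.b 1 53 (.b 4 56 (.b 8 63 (.b 6 59
    (.b 8 35 (.d 83) (.b 15 14 (.b 6 58 (.d 90) (.b 8 46 (.b 14 24 (.d 92) (.u 72)) (.u 72))) (.u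
    84))) (.u 89)) (.u 89)) (.u 88)) (.u 85)))) (.u 82)))) (.u 85)) (.u 85)) (.u 85)) (.u
    80)))))))) .h) (.u 63)) (.u 63)) (.u 57))) (.u 56)))

theorem cp_17_4_4 : ckp 17 97 9 316912650057057350288129761792
    PB_17_4 AL_17_4 []
    [([43, 27, 1, 29, 30, 31, 32, 26, 34, 18, 36, 20, 21, 16, 23, 11, 8], [1000000, 1000000,
      1000000, 45, 1000000, 1000000, 1000000, 26, 1000000, 27, 1000000, 32, 33, 17, 33, 16, 8])] tp_17_4_4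
    [1, 27, 1, 29, 30, 31, 32, 16, 34, 18, 36, 20, 21, 16, 23, 7, 8]
    [1000000, 1000000, 1000000, 1000000, 1000000, 1000000, 1000000, 28, 1000000, 27, 1000000, 32, 33, 17, 1000000, 16, 8] = true := by
  decide +kernel

def tp_17_4_5 : Tp :=
    (.b 15 17 (.b 5 30 (.b 15 16 (.d 48) (.b 7 28 (.b 7 26 (.b 10 69 (.b 6 61 (.b 4 57 (.b 3 55
    (.b 14 43 (.b 4 30 (.d 80) .h) (.u 87)) (.u 87)) (.u 87)) (.u 87)) (.u 87)) (.u 56)) (.u 54)))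
    (.b 15 16 (.b 7 28 .h (.b 15 10 (.b 15 8 (.b 3 45 (.b 14 33 (.b 15 7 (.d 57) (.b 0 42 (.b 11
    30 (.d 60) (.b 10 45 (.d 77) (.b 4 33 (.d 77) (.b 2 29 (.d 77) (.b 1 27 (.d 77) (.b 0 25 (.d
    77) (.b 5 32 (.b 8 67 (.b 4 59 (.b 2 55 (.b 6 35 (.d 79) (.b 3 29 (.d 79) (.b 1 56 (.b 3 30
    (.d 78) (.b 13 16 (.d 78) (.b 1 53 (.b 8 34 (.d 84) (.b 4 56 (.b 8 63 (.b 6 59 (.b 8 35 (.d
    83) (.b 6 58 (.d 90) (.b 8 46 (.b 14 24 (.d 92) (.u 72)) (.u 72)))) (.u 89)) (.u 89)) (.u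
    88))) (.u 85)))) (.u 82)))) (.u 85)) (.u 85)) (.u 85)) (.u 80)))))))) .h)) (.u 63)) (.u 63))
    (.u 56)) (.u 54))) (.u 48))) (.u 47))

theorem cp_17_4_5 : ckp 17 97 9 316912650057057350288129761792
    PB_17_4 AL_17_4 []
    [([1, 27, 1, 29, 31, 27, 32, 16, 34, 18, 36, 20, 21, 16, 23, 17, 8], [1000000, 1000000,
      1000000, 55, 57, 30, 61, 26, 1000000, 27, 69, 32, 33, 17, 43, 17, 8]), ([1, 27, 1, 29, 30,
      31, 32, 16, 34, 18, 36, 20, 21, 16, 23, 7, 8], [1000000, 1000000, 1000000, 1000000,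
      1000000, 1000000, 1000000, 28, 1000000, 27, 1000000, 32, 33, 17, 1000000, 16, 8]), ([43,
      27, 1, 29, 30, 31, 32, 29, 34, 18, 36, 20, 21, 16, 23, 8, 8], [1000000, 1000000, 1000000,
      45, 1000000, 1000000, 1000000, 32, 1000000, 27, 1000000, 32, 33, 17, 33, 8, 8])] tp_17_4_5
    [1, 27, 1, 29, 30, 27, 32, 16, 34, 18, 36, 20, 21, 16, 23, 7, 8]
    [1000000, 1000000, 1000000, 1000000, 1000000, 1000000, 1000000, 32, 1000000, 27, 1000000, 32, 33, 17, 1000000, 19, 8] = true := by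
  decide +kernel

end Pool.Agent.W2helper10.E9
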