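import Pool.Agent.W2helper10.E9.D17_4

set_option autoImplicit false
set_option maxRecDepth 1000000

namespace Pool.Agent.W2helper10.E9

open Pool.Agent.MPe9218d Pool.Agent.H372R3.GD Pool.Agent.H372R3.GE

def tp_17_4_6 : Tp :=
    (.b 13 4 (.d 22) (.b 15 6 (.d 24) (.b 16 7 (.d 25) (.b 5 13 (.d 31) (.b 7 15 (.d 33) (.b 8 16
    (.d 34) (.b 9 17 (.d 35) (.b 11 19 (.d 37) (.b 12 20 (.d 38) (.b 13 21 (.b 14 22 (.d 40) (.b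
    15 23 (.b 16 24 (.b 13 17 (.b 1 26 (.d 44) (.b 8 33 (.d 51) (.b 4 25 (.d 51) (.b 10 35 (.d 53)
    (.b 6 27 (.d 53) (.b 3 21 (.d 53) (.b 11 32 (.b 9 28 (.b 5 26 (.d 52) (.b 3 22 (.d 52) (.b 13
    8 (.d 52) (.b 12 37 (.b 16 11 (.b 3 28 (.d 46) (.b 13 14 (.d 46) (.b 6 31 (.d 49) (.b 7 32 (.b
    16 8 (.b 12 33 (.b 9 27 (.b 13 15 (.b 15 19 (.d 45) (.b 4 29 (.b 5 30 (.b 7 28 (.b 7 26 (.b 12
    21 (.d 71) (.b 2 61 (.d 79) (.b 12 30 (.b 6 35 (.d 79) (.b 3 29 (.d 79) (.b 0 23 (.d 79) (.b 3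
    62 (.b 14 50 (.b 1 56 (.b 3 30 (.d 78) (.b 15 20 (.d 78) (.b 3 56 (.b 10 36 (.b 3 32 (.d 76)
    (.b 1 28 (.d 76) (.b 0 26 (.d 76) (.b 0 59 (.d 77) (.b 11 30 (.b 14 32 (.b 7 25 (.d 57) (.b 1
    43 (.d 61) (.b 11 29 (.d 61) (.b 3 45 (.b 9 21 (.b 6 48 (.b 3 41 (.b 9 19 (.b 3 39 (.b 8 44
    (.b 12 24 (.d 68) (.b 9 18 (.d 68) (.b 8 43 (.b 15 21 (.d 77) (.b 8 37 (.u 90) (.u 81))) (.u
    75)))) (.u 74)) (.u 69)) (.u 67)) (.u 67)) (.u 66)) (.u 65)) (.u 63))))) (.u 64)) (.u 60))))))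
    (.u 86)) (.u 86)))) (.u 82)) (.u 80)) (.u 80))))) (.u 62)))) (.u 56)) (.u 54)) (.u 48)) (.u
    47))) (.b 15 19 (.b 4 29 (.b 15 17 (.d 47) (.b 5 30 (.b 7 28 (.b 7 26 (.b 12 21 (.d 71) (.b 0
    59 (.d 77) (.b 11 30 (.b 14 32 (.b 7 25 (.d 57) (.b 3 45 (.b 10 45 (.d 77) (.b 2 29 (.d 77)
    (.b 1 27 (.d 77) (.b 2 61 (.d 79) (.b 12 30 (.b 1 43 (.d 61) (.b 11 29 (.d 61) (.b 9 21 (.b 6
    48 (.b 3 41 (.b 9 19 (.b 3 39 (.b 10 48 (.b 8 44 (.b 12 24 (.d 68) (.b 9 18 (.d 68) (.b 8 43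
    (.b 6 35 (.d 79) (.b 3 29 (.d 79) (.b 15 18 (.d 80) (.b 8 37 (.b 1 56 (.b 3 30 (.d 78) (.b 13
    16 (.d 78) (.b 8 35 (.b 4 27 (.b 1 53 (.b 5 27 (.u 86) (.u 85)) (.u 85)) (.u 83)) (.u 83))))
    (.u 82)) (.u 81))))) (.u 75)))) (.u 74)) (.u 74)) (.u 69)) (.u 67)) (.u 67)) (.u 66)) (.u
    65)))) (.u 62)))))) (.u 63))) (.u 64)) (.u 60)))) (.u 56)) (.u 54)) (.u 48))) .h) (.u 45)))
    (.u 59)) (.u 59)) (.u 58)) (.u 50))))) (.u 55)) (.u 55))))) (.u 58)) (.u 58)))))))) (.u 43))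
    (.u 42)) (.u 41))) (.u 39)))))))))))

theorem cp_17_4_6 : ckp 17 97 9 316912650057057350288129761792
    PB_17_4 AL_17_4 []
    [([1, 27, 1, 29, 30, 27, 32, 16, 34, 18, 36, 20, 21, 16, 23, 7, 8], [1000000, 1000000,
      1000000, 1000000, 1000000, 1000000, 1000000, 32, 1000000, 27, 1000000, 32, 33, 17,
      1000000, 19, 8])] tp_17_4_6
    [1, 1, 1, 1, 1, 1, 1, 1, 1, 1, 1, 1, 1, 1, 1, 1, 1]
    [1000000, 1000000, 1000000, 1000000, 1000000, 1000000, 1000000, 1000000, 1000000, 1000000, 1000000, 1000000, 1000000, 1000000, 1000000, 1000000, 1000000] = true := by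
  decide +kernel

end Pool.Agent.W2helper10.E9
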