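import Pool.Agent.W2helper10.E9.Chk

set_option autoImplicit false
set_option maxRecDepth 1000000

namespace Pool.Agent.W2helper10.E9

open Pool.Agent.MPe9218d Pool.Agent.H372R3.GD Pool.Agent.H372R3.GE

def PB_1_1 : List ℕ :=
  [3, 2, 1]

def AL_1_1 : List ℕ :=
  [1, 1, 1, 2]

def w_1_1 : W :=
  ⟨1, 1, 3, 1, 14, PB_1_1, AL_1_1⟩

def t_1_1 : Tr :=
    (.b 0 1 .s (.u 3))

theorem ok_1_1 : okW w_1_1 = true := by decide +kernel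

theorem ck_1_1 : ckk 1 3 1 14
    PB_1_1 AL_1_1 [[1]] t_1_1 (List.replicate 1 1) (List.replicate 1 INF) = true := by
  decide +kernel

def PB_2_1 : List ℕ :=
  [14, 13, 12, 11, 10, 9, 8, 7, 6, 5, 4, 3, 1]

def AL_2_1 : List ℕ :=
  [1, 1, 0, 1, 1, 1, 1, 1, 2, 2, 2, 2, 3, 3, 3]

def w_2_1 : W :=
  ⟨2, 1, 14, 1, 32762, PB_2_1, AL_2_1⟩

def t_2_1 : Tr :=
    (.b 1 2 (.d 4) (.b 0 3 (.d 5) (.b 1 4 (.d 6) (.b 0 5 (.d 7) (.b 1 6 (.b 0 7 (.b 1 5 (.d 13)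
    (.b 0 6 (.d 14) .s)) (.u 9)) (.u 8))))))

theorem ok_2_1 : okW w_2_1 = true := by decide +kernel

theorem ck_2_1 : ckk 2 14 1 32762
    PB_2_1 AL_2_1 [[7, 6]] t_2_1 (List.replicate 2 1) (List.replicate 2 INF) = true := by
  decide +kernel

def PB_3_1 : List ℕ :=
  [37, 36, 35, 34, 33, 32, 31, 30, 29, 28, 27, 26, 25, 24, 23, 22, 21, 20, 19, 18, 17, 16, 15,
  14, 13, 11, 10, 8, 7, 5, 2]

def AL_3_1 : List ℕ :=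
  [1, 0, 1, 0, 0, 1, 0, 1, 1, 0, 1, 1, 0, 2, 1, 1, 2, 1, 1, 3, 1, 2, 3, 1, 3, 4, 2, 4, 4, 2, 5,
  5, 3, 7, 5, 4, 8, 6]

def w_3_1 : W :=
  ⟨3, 1, 37, 2, 274877902244, PB_3_1, AL_3_1⟩

def t_3_1 : Tr :=
    (.b 2 3 (.d 7) (.b 1 5 (.d 9) (.b 2 6 (.d 10) (.b 1 8 (.d 12) (.b 2 9 (.b 1 11 (.d 15) (.b 0
    13 (.d 17) (.b 1 14 (.d 18) (.b 0 16 (.d 20) (.b 0 19 (.d 23) (.b 1 20 (.b 0 22 (.b 1 15 (.d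
    29) (.b 1 18 (.d 32) (.b 2 7 (.b 0 20 (.d 34) (.d 37)) (.u 21)))) (.u 26)) (.u 24))))))) (.u
    13))))))

theorem ok_3_1 : okW w_3_1 = true := by decide +kernel

theorem ck_3_1 : ckk 3 37 2 274877902244
    PB_3_1 AL_3_1 [] t_3_1 (List.replicate 3 1) (List.replicate 3 INF) = true := by
  decide +kernel

def PB_4_1 : List ℕ :=
  [60, 59, 58, 57, 56, 55, 54, 53, 52, 51, 50, 49, 48, 47, 46, 45, 44, 43, 42, 41, 40, 39, 38,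
  37, 36, 35, 34, 33, 31, 30, 29, 27, 26, 25, 23, 22, 21, 19, 18, 15, 14, 11, 10, 7, 3]

def AL_4_1 : List ℕ :=
  [1, 0, 0, 1, 0, 0, 0, 1, 0, 0, 1, 1, 0, 0, 1, 1, 0, 0, 2, 1, 0, 1, 2, 1, 0, 1, 3, 1, 0, 2, 3,
  1, 0, 3, 4, 1, 1, 4, 4, 1, 1, 5, 5, 1, 2, 7, 5, 1, 3, 8, 6, 1, 5, 10, 6, 2, 6, 12, 7, 2, 9]

def w_4_1 : W :=
  ⟨4, 1, 60, 3, 2305843004632255624, PB_4_1, AL_4_1⟩

def t_4_1 : Tr :=
    (.b 3 4 (.d 10) (.b 2 7 (.d 13) (.b 3 8 (.d 14) (.b 2 11 (.d 17) (.b 3 12 (.b 2 15 (.d 21) (.b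
    1 18 (.d 24) (.b 2 19 (.d 25) (.b 1 22 (.d 28) (.b 1 26 (.d 32) (.b 2 27 (.b 1 30 (.d 36) (.b
    0 33 (.d 39) (.b 1 34 (.d 40) (.b 2 20 (.d 40) (.b 0 37 (.d 43) (.b 0 41 (.d 47) (.b 1 42 (.b
    0 45 (.d 51) (.b 2 23 (.d 56) (.b 3 9 (.b 1 38 (.d 60) (.b 2 24 (.b 0 49 (.b 1 39 (.d 59) (.d
    60)) (.u 55)) (.u 44))) (.u 29)))) (.u 48)))))))) (.u 33))))))) (.u 18))))))

theorem ok_4_1 : okW w_4_1 = true := by decide +kernel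

theorem ck_4_1 : ckk 4 60 3 2305843004632255624
    PB_4_1 AL_4_1 [] t_4_1 (List.replicate 4 1) (List.replicate 4 INF) = true := by
  decide +kernel

def PB_5_1 : List ℕ :=
  [76, 75, 74, 73, 72, 71, 70, 69, 68, 67, 66, 64, 63, 62, 61, 59, 58, 57, 56, 54, 53, 52, 51,
  49, 48, 47, 46, 44, 43, 42, 39, 38, 37, 34, 33, 32, 29, 28, 27, 24, 23, 19, 18, 14, 13, 9, 4]

def AL_5_1 : List ℕ :=
  [1, 0, 0, 0, 1, 0, 0, 0, 0, 1, 0, 0, 0, 1, 1, 0, 0, 0, 1, 1, 0, 0, 0, 2, 1, 0, 0, 1, 2, 1, 0,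
  0, 1, 3, 1, 0, 0, 2, 3, 1, 0, 0, 3, 4, 1, 0, 1, 4, 4, 1, 0, 1, 5, 5, 1, 0, 2, 7, 5, 1, 0, 3,
  8, 6, 1, 0, 5, 10, 6, 1, 1, 6, 12, 7, 1, 1, 9]

def w_5_1 : W :=
  ⟨5, 1, 76, 4, 151077643848890379428368, PB_5_1, AL_5_1⟩

def t_5_1 : Tr :=
    (.b 4 5 (.d 13) (.b 3 9 (.d 17) (.b 4 10 (.d 18) (.b 3 14 (.d 22) (.b 4 15 (.b 3 19 (.d 27)
    (.b 2 23 (.d 31) (.b 3 24 (.d 32) (.b 2 28 (.d 36) (.b 2 33 (.d 41) (.b 3 34 (.b 2 38 (.d 46)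
    (.b 1 42 (.d 50) (.b 2 43 (.d 51) (.b 3 25 (.d 51) (.b 1 47 (.d 55) (.b 1 52 (.d 60) (.b 2 53
    (.b 1 57 (.d 65) (.b 1 62 (.d 70) (.b 2 44 (.d 70) (.b 3 29 (.d 71) (.b 4 11 (.b 0 66 (.d 74)
    (.b 1 67 (.d 75) (.b 2 49 (.d 75) (.b 3 30 (.d 76) (.u 56))))) (.u 37)))))) (.u 61)))))))) (.u
    42))))))) (.u 23))))))

theorem ok_5_1 : okW w_5_1 = true := by decide +kernel

theorem ck_5_1 : ckk 5 76 4 151077643848890379428368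
    PB_5_1 AL_5_1 [] t_5_1 (List.replicate 5 1) (List.replicate 5 INF) = true := by
  decide +kernel

def PB_6_1 : List ℕ :=
  [92, 91, 89, 88, 87, 86, 85, 83, 82, 81, 80, 77, 76, 75, 74, 71, 70, 69, 68, 65, 64, 63, 62,
  59, 58, 57, 56, 53, 52, 51, 47, 46, 45, 41, 40, 39, 35, 34, 33, 29, 28, 23, 22, 17, 16, 11, 5]

def AL_6_1 : List ℕ :=
  [1, 0, 0, 0, 0, 1, 0, 0, 0, 0, 0, 1, 0, 0, 0, 0, 1, 1, 0, 0, 0, 0, 1, 1, 0, 0, 0, 0, 2, 1, 0,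
  0, 0, 1, 2, 1, 0, 0, 0, 1, 3, 1, 0, 0, 0, 2, 3, 1, 0, 0, 0, 3, 4, 1, 0, 0, 1, 4, 4, 1, 0, 0,
  1, 5, 5, 1, 0, 0, 2, 7, 5, 1, 0, 0, 3, 8, 6, 1, 0, 0, 5, 10, 6, 1, 0, 1, 6, 12, 7, 1, 0, 1, 9]

def w_6_1 : W :=
  ⟨6, 1, 92, 5, 8645316375543930082847557664, PB_6_1, AL_6_1⟩

def t_6_1 : Tr :=
    (.b 5 6 (.d 16) (.b 4 11 (.d 21) (.b 5 12 (.d 22) (.b 4 17 (.d 27) (.b 5 18 (.b 4 23 (.d 33)
    (.b 3 28 (.d 38) (.b 4 29 (.d 39) (.b 3 34 (.d 44) (.b 3 40 (.d 50) (.b 4 41 (.b 3 46 (.d 56)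
    (.b 2 51 (.d 61) (.b 3 52 (.d 62) (.b 4 30 (.d 62) (.b 2 57 (.d 67) (.b 2 63 (.d 73) (.b 3 64
    (.b 2 69 (.d 79) (.b 2 75 (.d 85) (.b 3 53 (.d 85) (.b 4 35 (.d 86) (.b 5 13 (.b 1 80 (.d 90)
    (.b 2 81 (.d 91) (.b 3 59 (.d 91) (.b 4 36 (.d 92) (.u 68))))) (.u 45)))))) (.u 74)))))))) (.u
    51))))))) (.u 28))))))

theorem ok_6_1 : okW w_6_1 = true := by decide +kernel

theorem ck_6_1 : ckk 6 92 5 8645316375543930082847557664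
    PB_6_1 AL_6_1 [] t_6_1 (List.replicate 6 1) (List.replicate 6 INF) = true := by
  decide +kernel

def PB_7_1 : List ℕ :=
  [108, 107, 104, 103, 102, 101, 100, 97, 96, 95, 94, 90, 89, 88, 87, 83, 82, 81, 80, 76, 75,
  74, 73, 69, 68, 67, 66, 62, 61, 60, 55, 54, 53, 48, 47, 46, 41, 40, 39, 34, 33, 27, 26, 20,
  19, 13, 6]

def AL_7_1 : List ℕ :=
  [1, 0, 0, 0, 0, 0, 1, 0, 0, 0, 0, 0, 0, 1, 0, 0, 0, 0, 0, 1, 1, 0, 0, 0, 0, 0, 1, 1, 0, 0, 0,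
  0, 0, 2, 1, 0, 0, 0, 0, 1, 2, 1, 0, 0, 0, 0, 1, 3, 1, 0, 0, 0, 0, 2, 3, 1, 0, 0, 0, 0, 3, 4,
  1, 0, 0, 0, 1, 4, 4, 1, 0, 0, 0, 1, 5, 5, 1, 0, 0, 0, 2, 7, 5, 1, 0, 0, 0, 3, 8, 6, 1, 0, 0,
  0, 5, 10, 6, 1, 0, 0, 1, 6, 12, 7, 1, 0, 0, 1, 9]

def w_7_1 : W :=
  ⟨7, 1, 108, 6, 526374444118390580322455109771328, PB_7_1, AL_7_1⟩

def t_7_1 : Tr :=
    (.b 6 7 (.d 19) (.b 5 13 (.d 25) (.b 6 14 (.d 26) (.b 5 20 (.d 32) (.b 6 21 (.b 5 27 (.d 39)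
    (.b 4 33 (.d 45) (.b 5 34 (.d 46) (.b 4 40 (.d 52) (.b 4 47 (.d 59) (.b 5 48 (.b 4 54 (.d 66)
    (.b 3 60 (.d 72) (.b 4 61 (.d 73) (.b 5 35 (.d 73) (.b 3 67 (.d 79) (.b 3 74 (.d 86) (.b 4 75
    (.b 3 81 (.d 93) (.b 3 88 (.d 100) (.b 4 62 (.d 100) (.b 5 41 (.d 101) (.b 6 15 (.b 2 94 (.d
    106) (.b 3 95 (.d 107) (.b 4 69 (.d 107) (.b 5 42 (.d 108) (.u 80))))) (.u 53)))))) (.u
    87)))))))) (.u 60))))))) (.u 33))))))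

theorem ok_7_1 : okW w_7_1 = true := by decide +kernel

theorem ck_7_1 : ckk 7 108 6 526374444118390580322455109771328
    PB_7_1 AL_7_1 [] t_7_1 (List.replicate 7 1) (List.replicate 7 INF) = true := by
  decide +kernel

def PB_8_1 : List ℕ :=
  [124, 123, 119, 118, 117, 116, 115, 111, 110, 109, 108, 103, 102, 101, 100, 95, 94, 93, 92,
  87, 86, 85, 84, 79, 78, 77, 76, 71, 70, 69, 63, 62, 61, 55, 54, 53, 47, 46, 45, 39, 38, 31,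
  30, 23, 22, 15, 7]

def AL_8_1 : List ℕ :=
  [1, 0, 0, 0, 0, 0, 0, 1, 0, 0, 0, 0, 0, 0, 0, 1, 0, 0, 0, 0, 0, 0, 1, 1, 0, 0, 0, 0, 0, 0, 1,
  1, 0, 0, 0, 0, 0, 0, 2, 1, 0, 0, 0, 0, 0, 1, 2, 1, 0, 0, 0, 0, 0, 1, 3, 1, 0, 0, 0, 0, 0, 2,
  3, 1, 0, 0, 0, 0, 0, 3, 4, 1, 0, 0, 0, 0, 1, 4, 4, 1, 0, 0, 0, 0, 1, 5, 5, 1, 0, 0, 0, 0, 2,
  7, 5, 1, 0, 0, 0, 0, 3, 8, 6, 1, 0, 0, 0, 0, 5, 10, 6, 1, 0, 0, 0, 1, 6, 12, 7, 1, 0, 0, 0, 1,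
  9]

def w_8_1 : W :=
  ⟨8, 1, 124, 7, 33194048387386180095970789626650591360, PB_8_1, AL_8_1⟩

def t_8_1 : Tr :=
    (.b 7 8 (.d 22) (.b 6 15 (.d 29) (.b 7 16 (.d 30) (.b 6 23 (.d 37) (.b 7 24 (.b 6 31 (.d 45)
    (.b 5 38 (.d 52) (.b 6 39 (.d 53) (.b 5 46 (.d 60) (.b 5 54 (.d 68) (.b 6 55 (.b 5 62 (.d 76)
    (.b 4 69 (.d 83) (.b 5 70 (.d 84) (.b 6 40 (.d 84) (.b 4 77 (.d 91) (.b 4 85 (.d 99) (.b 5 86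
    (.b 4 93 (.d 107) (.b 4 101 (.d 115) (.b 5 71 (.d 115) (.b 6 47 (.d 116) (.b 7 17 (.b 3 108
    (.d 122) (.b 4 109 (.d 123) (.b 5 79 (.d 123) (.b 6 48 (.d 124) (.u 92))))) (.u 61)))))) (.u
    100)))))))) (.u 69))))))) (.u 38))))))

theorem ok_8_1 : okW w_8_1 = true := by decide +kernel

theorem ck_8_1 : ckk 8 124 7 33194048387386180095970789626650591360
    PB_8_1 AL_8_1 [] t_8_1 (List.replicate 8 1) (List.replicate 8 INF) = true := by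
  decide +kernel

def PB_9_1 : List ℕ :=
  [140, 139, 134, 133, 132, 131, 130, 125, 124, 123, 122, 116, 115, 114, 113, 107, 106, 105,
  104, 98, 97, 96, 95, 89, 88, 87, 86, 80, 79, 78, 71, 70, 69, 62, 61, 60, 53, 52, 51, 44, 43,
  35, 34, 26, 25, 17, 8]

def AL_9_1 : List ℕ :=
  [1, 0, 0, 0, 0, 0, 0, 0, 1, 0, 0, 0, 0, 0, 0, 0, 0, 1, 0, 0, 0, 0, 0, 0, 0, 1, 1, 0, 0, 0, 0,
  0, 0, 0, 1, 1, 0, 0, 0, 0, 0, 0, 0, 2, 1, 0, 0, 0, 0, 0, 0, 1, 2, 1, 0, 0, 0, 0, 0, 0, 1, 3,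
  1, 0, 0, 0, 0, 0, 0, 2, 3, 1, 0, 0, 0, 0, 0, 0, 3, 4, 1, 0, 0, 0, 0, 0, 1, 4, 4, 1, 0, 0, 0,
  0, 0, 1, 5, 5, 1, 0, 0, 0, 0, 0, 2, 7, 5, 1, 0, 0, 0, 0, 0, 3, 8, 6, 1, 0, 0, 0, 0, 0, 5, 10,
  6, 1, 0, 0, 0, 0, 1, 6, 12, 7, 1, 0, 0, 0, 0, 1, 9]

def w_9_1 : W :=
  ⟨9, 1, 140, 8, 2132969785613926657947814333893680772022528, PB_9_1, AL_9_1⟩

def t_9_1 : Tr :=
    (.b 8 9 (.d 25) (.b 7 17 (.d 33) (.b 8 18 (.d 34) (.b 7 26 (.d 42) (.b 8 27 (.b 7 35 (.d 51)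
    (.b 6 43 (.d 59) (.b 7 44 (.d 60) (.b 6 52 (.d 68) (.b 6 61 (.d 77) (.b 7 62 (.b 6 70 (.d 86)
    (.b 5 78 (.d 94) (.b 6 79 (.d 95) (.b 7 45 (.d 95) (.b 5 87 (.d 103) (.b 5 96 (.d 112) (.b 6
    97 (.b 5 105 (.d 121) (.b 5 114 (.d 130) (.b 6 80 (.d 130) (.b 7 53 (.d 131) (.b 8 19 (.b 4
    122 (.d 138) (.b 5 123 (.d 139) (.b 6 89 (.d 139) (.b 7 54 (.d 140) (.u 104))))) (.u 69))))))
    (.u 113)))))))) (.u 78))))))) (.u 43))))))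

theorem ok_9_1 : okW w_9_1 = true := by decide +kernel

theorem ck_9_1 : ckk 9 140 8 2132969785613926657947814333893680772022528
    PB_9_1 AL_9_1 [] t_9_1 (List.replicate 9 1) (List.replicate 9 INF) = true := by
  decide +kernel

def PB_10_1 : List ℕ :=
  [156, 155, 149, 148, 147, 146, 145, 139, 138, 137, 136, 129, 128, 127, 126, 119, 118, 117,
  116, 109, 108, 107, 106, 99, 98, 97, 96, 89, 88, 87, 79, 78, 77, 69, 68, 67, 59, 58, 57, 49,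
  48, 39, 38, 29, 28, 19, 9]

def AL_10_1 : List ℕ :=
  [1, 0, 0, 0, 0, 0, 0, 0, 0, 1, 0, 0, 0, 0, 0, 0, 0, 0, 0, 1, 0, 0, 0, 0, 0, 0, 0, 0, 1, 1, 0,
  0, 0, 0, 0, 0, 0, 0, 1, 1, 0, 0, 0, 0, 0, 0, 0, 0, 2, 1, 0, 0, 0, 0, 0, 0, 0, 1, 2, 1, 0, 0,
  0, 0, 0, 0, 0, 1, 3, 1, 0, 0, 0, 0, 0, 0, 0, 2, 3, 1, 0, 0, 0, 0, 0, 0, 0, 3, 4, 1, 0, 0, 0,
  0, 0, 0, 1, 4, 4, 1, 0, 0, 0, 0, 0, 0, 1, 5, 5, 1, 0, 0, 0, 0, 0, 0, 2, 7, 5, 1, 0, 0, 0, 0,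
  0, 0, 3, 8, 6, 1, 0, 0, 0, 0, 0, 0, 5, 10, 6, 1, 0, 0, 0, 0, 0, 1, 6, 12, 7, 1, 0, 0, 0, 0, 0,
  1, 9]

def w_10_1 : W :=
  ⟨10, 1, 156, 9, 138399732663676268953720876769735057458126651904, PB_10_1, AL_10_1⟩

def t_10_1 : Tr :=
    (.b 9 10 (.d 28) (.b 8 19 (.d 37) (.b 9 20 (.d 38) (.b 8 29 (.d 47) (.b 9 30 (.b 8 39 (.d 57)
    (.b 7 48 (.d 66) (.b 8 49 (.d 67) (.b 7 58 (.d 76) (.b 7 68 (.d 86) (.b 8 69 (.b 7 78 (.d 96)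
    (.b 6 87 (.d 105) (.b 7 88 (.d 106) (.b 8 50 (.d 106) (.b 6 97 (.d 115) (.b 6 107 (.d 125) (.b
    7 108 (.b 6 117 (.d 135) (.b 6 127 (.d 145) (.b 7 89 (.d 145) (.b 8 59 (.d 146) (.b 9 21 (.b 5
    136 (.d 154) (.b 6 137 (.d 155) (.b 7 99 (.d 155) (.b 8 60 (.d 156) (.u 116))))) (.u 77))))))
    (.u 126)))))))) (.u 87))))))) (.u 48))))))

theorem ok_10_1 : okW w_10_1 = true := by decide +kernel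

theorem ck_10_1 : ckk 10 156 9 138399732663676268953720876769735057458126651904
    PB_10_1 AL_10_1 [] t_10_1 (List.replicate 10 1) (List.replicate 10 INF) = true := by
  decide +kernel

def PB_11_1 : List ℕ :=
  [172, 171, 164, 163, 162, 161, 160, 153, 152, 151, 150, 142, 141, 140, 139, 131, 130, 129,
  128, 120, 119, 118, 117, 109, 108, 107, 106, 98, 97, 96, 87, 86, 85, 76, 75, 74, 65, 64, 63,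
  54, 53, 43, 42, 32, 31, 21, 10]

def AL_11_1 : List ℕ :=
  [1, 0, 0, 0, 0, 0, 0, 0, 0, 0, 1, 0, 0, 0, 0, 0, 0, 0, 0, 0, 0, 1, 0, 0, 0, 0, 0, 0, 0, 0, 0,
  1, 1, 0, 0, 0, 0, 0, 0, 0, 0, 0, 1, 1, 0, 0, 0, 0, 0, 0, 0, 0, 0, 2, 1, 0, 0, 0, 0, 0, 0, 0,
  0, 1, 2, 1, 0, 0, 0, 0, 0, 0, 0, 0, 1, 3, 1, 0, 0, 0, 0, 0, 0, 0, 0, 2, 3, 1, 0, 0, 0, 0, 0,
  0, 0, 0, 3, 4, 1, 0, 0, 0, 0, 0, 0, 0, 1, 4, 4, 1, 0, 0, 0, 0, 0, 0, 0, 1, 5, 5, 1, 0, 0, 0,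
  0, 0, 0, 0, 2, 7, 5, 1, 0, 0, 0, 0, 0, 0, 0, 3, 8, 6, 1, 0, 0, 0, 0, 0, 0, 0, 5, 10, 6, 1, 0,
  0, 0, 0, 0, 0, 1, 6, 12, 7, 1, 0, 0, 0, 0, 0, 0, 1, 9]

def w_11_1 : W :=
  ⟨11, 1, 172, 10, 9024794029692297150141004931865044164492394615538688, PB_11_1, AL_11_1⟩

def t_11_1 : Tr :=
    (.b 10 11 (.d 31) (.b 9 21 (.d 41) (.b 10 22 (.d 42) (.b 9 32 (.d 52) (.b 10 33 (.b 9 43 (.d
    63) (.b 8 53 (.d 73) (.b 9 54 (.d 74) (.b 8 64 (.d 84) (.b 8 75 (.d 95) (.b 9 76 (.b 8 86 (.d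
    106) (.b 7 96 (.d 116) (.b 8 97 (.d 117) (.b 9 55 (.d 117) (.b 7 107 (.d 127) (.b 7 118 (.d
    138) (.b 8 119 (.b 7 129 (.d 149) (.b 7 140 (.d 160) (.b 8 98 (.d 160) (.b 9 65 (.d 161) (.b
    10 23 (.b 6 150 (.d 170) (.b 7 151 (.d 171) (.b 8 109 (.d 171) (.b 9 66 (.d 172) (.u 128)))))
    (.u 85)))))) (.u 139)))))))) (.u 96))))))) (.u 53))))))

theorem ok_11_1 : okW w_11_1 = true := by decide +kernel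

theorem ck_11_1 : ckk 11 172 10 9024794029692297150141004931865044164492394615538688
    PB_11_1 AL_11_1 [] t_11_1 (List.replicate 11 1) (List.replicate 11 INF) = true := by
  decide +kernel

def PB_12_1 : List ℕ :=
  [188, 187, 179, 178, 177, 176, 175, 167, 166, 165, 164, 155, 154, 153, 152, 143, 142, 141,
  140, 131, 130, 129, 128, 119, 118, 117, 116, 107, 106, 105, 95, 94, 93, 83, 82, 81, 71, 70,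
  69, 59, 58, 47, 46, 35, 34, 23, 11]

def AL_12_1 : List ℕ :=
  [1, 0, 0, 0, 0, 0, 0, 0, 0, 0, 0, 1, 0, 0, 0, 0, 0, 0, 0, 0, 0, 0, 0, 1, 0, 0, 0, 0, 0, 0, 0,
  0, 0, 0, 1, 1, 0, 0, 0, 0, 0, 0, 0, 0, 0, 0, 1, 1, 0, 0, 0, 0, 0, 0, 0, 0, 0, 0, 2, 1, 0, 0,
  0, 0, 0, 0, 0, 0, 0, 1, 2, 1, 0, 0, 0, 0, 0, 0, 0, 0, 0, 1, 3, 1, 0, 0, 0, 0, 0, 0, 0, 0, 0,
  2, 3, 1, 0, 0, 0, 0, 0, 0, 0, 0, 0, 3, 4, 1, 0, 0, 0, 0, 0, 0, 0, 0, 1, 4, 4, 1, 0, 0, 0, 0,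
  0, 0, 0, 0, 1, 5, 5, 1, 0, 0, 0, 0, 0, 0, 0, 0, 2, 7, 5, 1, 0, 0, 0, 0, 0, 0, 0, 0, 3, 8, 6,
  1, 0, 0, 0, 0, 0, 0, 0, 0, 5, 10, 6, 1, 0, 0, 0, 0, 0, 0, 0, 1, 6, 12, 7, 1, 0, 0, 0, 0, 0, 0,
  0, 1, 9]

def w_12_1 : W :=
  ⟨12, 1, 188, 11, 589963243593763884474303430398524121341245350745831639040, PB_12_1, AL_12_1⟩

def t_12_1 : Tr :=
    (.b 11 12 (.d 34) (.b 10 23 (.d 45) (.b 11 24 (.d 46) (.b 10 35 (.d 57) (.b 11 36 (.b 10 47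
    (.d 69) (.b 9 58 (.d 80) (.b 10 59 (.d 81) (.b 9 70 (.d 92) (.b 9 82 (.d 104) (.b 10 83 (.b 9
    94 (.d 116) (.b 8 105 (.d 127) (.b 9 106 (.d 128) (.b 10 60 (.d 128) (.b 8 117 (.d 139) (.b 8
    129 (.d 151) (.b 9 130 (.b 8 141 (.d 163) (.b 8 153 (.d 175) (.b 9 107 (.d 175) (.b 10 71 (.d
    176) (.b 11 25 (.b 7 164 (.d 186) (.b 8 165 (.d 187) (.b 9 119 (.d 187) (.b 10 72 (.d 188) (.u
    140))))) (.u 93)))))) (.u 152)))))))) (.u 105))))))) (.u 58))))))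

theorem ok_12_1 : okW w_12_1 = true := by decide +kernel

theorem ck_12_1 : ckk 12 188 11 589963243593763884474303430398524121341245350745831639040
    PB_12_1 AL_12_1 [] t_12_1 (List.replicate 12 1) (List.replicate 12 INF) = true := by
  decide +kernel

def PB_13_1 : List ℕ :=
  [204, 203, 194, 193, 192, 191, 190, 181, 180, 179, 178, 168, 167, 166, 165, 155, 154, 153,
  152, 142, 141, 140, 139, 129, 128, 127, 126, 116, 115, 114, 103, 102, 101, 90, 89, 88, 77, 76,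
  75, 64, 63, 51, 50, 38, 37, 25, 12]

def AL_13_1 : List ℕ :=
  [1, 0, 0, 0, 0, 0, 0, 0, 0, 0, 0, 0, 1, 0, 0, 0, 0, 0, 0, 0, 0, 0, 0, 0, 0, 1, 0, 0, 0, 0, 0,
  0, 0, 0, 0, 0, 0, 1, 1, 0, 0, 0, 0, 0, 0, 0, 0, 0, 0, 0, 1, 1, 0, 0, 0, 0, 0, 0, 0, 0, 0, 0,
  0, 2, 1, 0, 0, 0, 0, 0, 0, 0, 0, 0, 0, 1, 2, 1, 0, 0, 0, 0, 0, 0, 0, 0, 0, 0, 1, 3, 1, 0, 0,
  0, 0, 0, 0, 0, 0, 0, 0, 2, 3, 1, 0, 0, 0, 0, 0, 0, 0, 0, 0, 0, 3, 4, 1, 0, 0, 0, 0, 0, 0, 0,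
  0, 0, 1, 4, 4, 1, 0, 0, 0, 0, 0, 0, 0, 0, 0, 1, 5, 5, 1, 0, 0, 0, 0, 0, 0, 0, 0, 0, 2, 7, 5,
  1, 0, 0, 0, 0, 0, 0, 0, 0, 0, 3, 8, 6, 1, 0, 0, 0, 0, 0, 0, 0, 0, 0, 5, 10, 6, 1, 0, 0, 0, 0,
  0, 0, 0, 0, 1, 6, 12, 7, 1, 0, 0, 0, 0, 0, 0, 0, 0, 1, 9]

def w_13_1 : W :=
  ⟨13, 1, 204, 12, 38615166348224898067245182702438990336649859846403406579109888, PB_13_1, AL_13_1⟩

def t_13_1 : Tr :=
    (.b 12 13 (.d 37) (.b 11 25 (.d 49) (.b 12 26 (.d 50) (.b 11 38 (.d 62) (.b 12 39 (.b 11 51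
    (.d 75) (.b 10 63 (.d 87) (.b 11 64 (.d 88) (.b 10 76 (.d 100) (.b 10 89 (.d 113) (.b 11 90
    (.b 10 102 (.d 126) (.b 9 114 (.d 138) (.b 10 115 (.d 139) (.b 11 65 (.d 139) (.b 9 127 (.d
    151) (.b 9 140 (.d 164) (.b 10 141 (.b 9 153 (.d 177) (.b 9 166 (.d 190) (.b 10 116 (.d 190)
    (.b 11 77 (.d 191) (.b 12 27 (.b 8 178 (.d 202) (.b 9 179 (.d 203) (.b 10 129 (.d 203) (.b 11
    78 (.d 204) (.u 152))))) (.u 101)))))) (.u 165)))))))) (.u 114))))))) (.u 63))))))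

theorem ok_13_1 : okW w_13_1 = true := by decide +kernel

theorem ck_13_1 : ckk 13 204 12 38615166348224898067245182702438990336649859846403406579109888
    PB_13_1 AL_13_1 [] t_13_1 (List.replicate 13 1) (List.replicate 13 INF) = true := by
  decide +kernel

def PB_14_1 : List ℕ :=
  [220, 219, 209, 208, 207, 206, 205, 195, 194, 193, 192, 181, 180, 179, 178, 167, 166, 165,
  164, 153, 152, 151, 150, 139, 138, 137, 136, 125, 124, 123, 111, 110, 109, 97, 96, 95, 83, 82,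
  81, 69, 68, 55, 54, 41, 40, 27, 13]

def AL_14_1 : List ℕ :=
  [1, 0, 0, 0, 0, 0, 0, 0, 0, 0, 0, 0, 0, 1, 0, 0, 0, 0, 0, 0, 0, 0, 0, 0, 0, 0, 0, 1, 0, 0, 0,
  0, 0, 0, 0, 0, 0, 0, 0, 0, 1, 1, 0, 0, 0, 0, 0, 0, 0, 0, 0, 0, 0, 0, 1, 1, 0, 0, 0, 0, 0, 0,
  0, 0, 0, 0, 0, 0, 2, 1, 0, 0, 0, 0, 0, 0, 0, 0, 0, 0, 0, 1, 2, 1, 0, 0, 0, 0, 0, 0, 0, 0, 0,
  0, 0, 1, 3, 1, 0, 0, 0, 0, 0, 0, 0, 0, 0, 0, 0, 2, 3, 1, 0, 0, 0, 0, 0, 0, 0, 0, 0, 0, 0, 3,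
  4, 1, 0, 0, 0, 0, 0, 0, 0, 0, 0, 0, 1, 4, 4, 1, 0, 0, 0, 0, 0, 0, 0, 0, 0, 0, 1, 5, 5, 1, 0,
  0, 0, 0, 0, 0, 0, 0, 0, 0, 2, 7, 5, 1, 0, 0, 0, 0, 0, 0, 0, 0, 0, 0, 3, 8, 6, 1, 0, 0, 0, 0,
  0, 0, 0, 0, 0, 0, 5, 10, 6, 1, 0, 0, 0, 0, 0, 0, 0, 0, 0, 1, 6, 12, 7, 1, 0, 0, 0, 0, 0, 0, 0,
  0, 0, 1, 9]

def w_14_1 : W :=
  ⟨14, 1, 220, 13, 2529089176747550638963631813125398013226950058268758529702365241344, PB_14_1, AL_14_1⟩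

def t_14_1 : Tr :=
    (.b 13 14 (.d 40) (.b 12 27 (.d 53) (.b 13 28 (.d 54) (.b 12 41 (.d 67) (.b 13 42 (.b 12 55
    (.d 81) (.b 11 68 (.d 94) (.b 12 69 (.d 95) (.b 11 82 (.d 108) (.b 11 96 (.d 122) (.b 12 97
    (.b 11 110 (.d 136) (.b 10 123 (.d 149) (.b 11 124 (.d 150) (.b 12 70 (.d 150) (.b 10 137 (.d
    163) (.b 10 151 (.d 177) (.b 11 152 (.b 10 165 (.d 191) (.b 10 179 (.d 205) (.b 11 125 (.d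
    205) (.b 12 83 (.d 206) (.b 13 29 (.b 9 192 (.d 218) (.b 10 193 (.d 219) (.b 11 139 (.d 219)
    (.b 12 84 (.d 220) (.u 164))))) (.u 109)))))) (.u 178)))))))) (.u 123))))))) (.u 68))))))

theorem ok_14_1 : okW w_14_1 = true := by decide +kernel

theorem ck_14_1 : ckk 14 220 13 2529089176747550638963631813125398013226950058268758529702365241344
    PB_14_1 AL_14_1 [] t_14_1 (List.replicate 14 1) (List.replicate 14 INF) = true := by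
  decide +kernel

def PB_15_1 : List ℕ :=
  [236, 235, 224, 223, 222, 221, 220, 209, 208, 207, 206, 194, 193, 192, 191, 179, 178, 177,
  176, 164, 163, 162, 161, 149, 148, 147, 146, 134, 133, 132, 119, 118, 117, 104, 103, 102, 89,
  88, 87, 74, 73, 59, 58, 44, 43, 29, 14]

def AL_15_1 : List ℕ :=
  [1, 0, 0, 0, 0, 0, 0, 0, 0, 0, 0, 0, 0, 0, 1, 0, 0, 0, 0, 0, 0, 0, 0, 0, 0, 0, 0, 0, 0, 1, 0,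
  0, 0, 0, 0, 0, 0, 0, 0, 0, 0, 0, 0, 1, 1, 0, 0, 0, 0, 0, 0, 0, 0, 0, 0, 0, 0, 0, 1, 1, 0, 0,
  0, 0, 0, 0, 0, 0, 0, 0, 0, 0, 0, 2, 1, 0, 0, 0, 0, 0, 0, 0, 0, 0, 0, 0, 0, 1, 2, 1, 0, 0, 0,
  0, 0, 0, 0, 0, 0, 0, 0, 0, 1, 3, 1, 0, 0, 0, 0, 0, 0, 0, 0, 0, 0, 0, 0, 2, 3, 1, 0, 0, 0, 0,
  0, 0, 0, 0, 0, 0, 0, 0, 3, 4, 1, 0, 0, 0, 0, 0, 0, 0, 0, 0, 0, 0, 1, 4, 4, 1, 0, 0, 0, 0, 0,
  0, 0, 0, 0, 0, 0, 1, 5, 5, 1, 0, 0, 0, 0, 0, 0, 0, 0, 0, 0, 0, 2, 7, 5, 1, 0, 0, 0, 0, 0, 0,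
  0, 0, 0, 0, 0, 3, 8, 6, 1, 0, 0, 0, 0, 0, 0, 0, 0, 0, 0, 0, 5, 10, 6, 1, 0, 0, 0, 0, 0, 0, 0,
  0, 0, 0, 1, 6, 12, 7, 1, 0, 0, 0, 0, 0, 0, 0, 0, 0, 0, 1, 9]

def w_15_1 : W :=
  ⟨15, 1, 236, 14, 165694148762348737451440788611365644959985916929124582480884536300290048, PB_15_1, AL_15_1⟩

def t_15_1 : Tr :=
    (.b 14 15 (.d 43) (.b 13 29 (.d 57) (.b 14 30 (.d 58) (.b 13 44 (.d 72) (.b 14 45 (.b 13 59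
    (.d 87) (.b 12 73 (.d 101) (.b 13 74 (.d 102) (.b 12 88 (.d 116) (.b 12 103 (.d 131) (.b 13
    104 (.b 12 118 (.d 146) (.b 11 132 (.d 160) (.b 12 133 (.d 161) (.b 13 75 (.d 161) (.b 11 147
    (.d 175) (.b 11 162 (.d 190) (.b 12 163 (.b 11 177 (.d 205) (.b 11 192 (.d 220) (.b 12 134 (.d
    220) (.b 13 89 (.d 221) (.b 14 31 (.b 10 206 (.d 234) (.b 11 207 (.d 235) (.b 12 149 (.d 235)
    (.b 13 90 (.d 236) (.u 176))))) (.u 117)))))) (.u 191)))))))) (.u 132))))))) (.u 73))))))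

theorem ok_15_1 : okW w_15_1 = true := by decide +kernel

theorem ck_15_1 : ckk 15 236 14 165694148762348737451440788611365644959985916929124582480884536300290048
    PB_15_1 AL_15_1 [] t_15_1 (List.replicate 15 1) (List.replicate 15 INF) = true := by
  decide +kernel

def PB_16_1 : List ℕ :=
  [252, 251, 239, 238, 237, 236, 235, 223, 222, 221, 220, 207, 206, 205, 204, 191, 190, 189,
  188, 175, 174, 173, 172, 159, 158, 157, 156, 143, 142, 141, 127, 126, 125, 111, 110, 109, 95,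
  94, 93, 79, 78, 63, 62, 47, 46, 31, 15]

def AL_16_1 : List ℕ :=
  [1, 0, 0, 0, 0, 0, 0, 0, 0, 0, 0, 0, 0, 0, 0, 1, 0, 0, 0, 0, 0, 0, 0, 0, 0, 0, 0, 0, 0, 0, 0,
  1, 0, 0, 0, 0, 0, 0, 0, 0, 0, 0, 0, 0, 0, 0, 1, 1, 0, 0, 0, 0, 0, 0, 0, 0, 0, 0, 0, 0, 0, 0,
  1, 1, 0, 0, 0, 0, 0, 0, 0, 0, 0, 0, 0, 0, 0, 0, 2, 1, 0, 0, 0, 0, 0, 0, 0, 0, 0, 0, 0, 0, 0,
  1, 2, 1, 0, 0, 0, 0, 0, 0, 0, 0, 0, 0, 0, 0, 0, 1, 3, 1, 0, 0, 0, 0, 0, 0, 0, 0, 0, 0, 0, 0,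
  0, 2, 3, 1, 0, 0, 0, 0, 0, 0, 0, 0, 0, 0, 0, 0, 0, 3, 4, 1, 0, 0, 0, 0, 0, 0, 0, 0, 0, 0, 0,
  0, 1, 4, 4, 1, 0, 0, 0, 0, 0, 0, 0, 0, 0, 0, 0, 0, 1, 5, 5, 1, 0, 0, 0, 0, 0, 0, 0, 0, 0, 0,
  0, 0, 2, 7, 5, 1, 0, 0, 0, 0, 0, 0, 0, 0, 0, 0, 0, 0, 3, 8, 6, 1, 0, 0, 0, 0, 0, 0, 0, 0, 0,
  0, 0, 0, 5, 10, 6, 1, 0, 0, 0, 0, 0, 0, 0, 0, 0, 0, 0, 1, 6, 12, 7, 1, 0, 0, 0, 0, 0, 0, 0, 0,
  0, 0, 0, 1, 9]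

def w_16_1 : W :=
  ⟨16, 1, 252, 15, 10857220024367733052248283302140580903758203406137740009777622187205671813120, PB_16_1, AL_16_1⟩

def t_16_1 : Tr :=
    (.b 15 16 (.d 46) (.b 14 31 (.d 61) (.b 15 32 (.d 62) (.b 14 47 (.d 77) (.b 15 48 (.b 14 63
    (.d 93) (.b 13 78 (.d 108) (.b 14 79 (.d 109) (.b 13 94 (.d 124) (.b 13 110 (.d 140) (.b 14
    111 (.b 13 126 (.d 156) (.b 12 141 (.d 171) (.b 13 142 (.d 172) (.b 14 80 (.d 172) (.b 12 157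
    (.d 187) (.b 12 173 (.d 203) (.b 13 174 (.b 12 189 (.d 219) (.b 12 205 (.d 235) (.b 13 143 (.d
    235) (.b 14 95 (.d 236) (.b 15 33 (.b 11 220 (.d 250) (.b 12 221 (.d 251) (.b 13 159 (.d 251)
    (.b 14 96 (.d 252) (.u 188))))) (.u 125)))))) (.u 204)))))))) (.u 141))))))) (.u 78))))))

theorem ok_16_1 : okW w_16_1 = true := by decide +kernel

theorem ck_16_1 : ckk 16 252 15 10857220024367733052248283302140580903758203406137740009777622187205671813120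
    PB_16_1 AL_16_1 [] t_16_1 (List.replicate 16 1) (List.replicate 16 INF) = true := by
  decide +kernel

def PB_17_1 : List ℕ :=
  [268, 267, 254, 253, 252, 251, 250, 237, 236, 235, 234, 220, 219, 218, 217, 203, 202, 201,
  200, 186, 185, 184, 183, 169, 168, 167, 166, 152, 151, 150, 135, 134, 133, 118, 117, 116, 101,
  100, 99, 84, 83, 67, 66, 50, 49, 33, 16]

def AL_17_1 : List ℕ :=
  [1, 0, 0, 0, 0, 0, 0, 0, 0, 0, 0, 0, 0, 0, 0, 0, 1, 0, 0, 0, 0, 0, 0, 0, 0, 0, 0, 0, 0, 0, 0,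
  0, 0, 1, 0, 0, 0, 0, 0, 0, 0, 0, 0, 0, 0, 0, 0, 0, 0, 1, 1, 0, 0, 0, 0, 0, 0, 0, 0, 0, 0, 0,
  0, 0, 0, 0, 1, 1, 0, 0, 0, 0, 0, 0, 0, 0, 0, 0, 0, 0, 0, 0, 0, 2, 1, 0, 0, 0, 0, 0, 0, 0, 0,
  0, 0, 0, 0, 0, 0, 1, 2, 1, 0, 0, 0, 0, 0, 0, 0, 0, 0, 0, 0, 0, 0, 0, 1, 3, 1, 0, 0, 0, 0, 0,
  0, 0, 0, 0, 0, 0, 0, 0, 0, 2, 3, 1, 0, 0, 0, 0, 0, 0, 0, 0, 0, 0, 0, 0, 0, 0, 3, 4, 1, 0, 0,
  0, 0, 0, 0, 0, 0, 0, 0, 0, 0, 0, 1, 4, 4, 1, 0, 0, 0, 0, 0, 0, 0, 0, 0, 0, 0, 0, 0, 1, 5, 5,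
  1, 0, 0, 0, 0, 0, 0, 0, 0, 0, 0, 0, 0, 0, 2, 7, 5, 1, 0, 0, 0, 0, 0, 0, 0, 0, 0, 0, 0, 0, 0,
  3, 8, 6, 1, 0, 0, 0, 0, 0, 0, 0, 0, 0, 0, 0, 0, 0, 5, 10, 6, 1, 0, 0, 0, 0, 0, 0, 0, 0, 0, 0,
  0, 0, 1, 6, 12, 7, 1, 0, 0, 0, 0, 0, 0, 0, 0, 0, 0, 0, 0, 1, 9]

def w_17_1 : W :=
  ⟨17, 1, 268, 16, 711482683481402969914866562615681187935749424656241527389895445339487775240552448, PB_17_1, AL_17_1⟩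

def t_17_1 : Tr :=
    (.b 16 17 (.d 49) (.b 15 33 (.d 65) (.b 16 34 (.d 66) (.b 15 50 (.d 82) (.b 16 51 (.b 15 67
    (.d 99) (.b 14 83 (.d 115) (.b 15 84 (.d 116) (.b 14 100 (.d 132) (.b 14 117 (.d 149) (.b 15
    118 (.b 14 134 (.d 166) (.b 13 150 (.d 182) (.b 14 151 (.d 183) (.b 15 85 (.d 183) (.b 13 167
    (.d 199) (.b 13 184 (.d 216) (.b 14 185 (.b 13 201 (.d 233) (.b 13 218 (.d 250) (.b 14 152 (.d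
    250) (.b 15 101 (.d 251) (.b 16 35 (.b 12 234 (.d 266) (.b 13 235 (.d 267) (.b 14 169 (.d 267)
    (.b 15 102 (.d 268) (.u 200))))) (.u 133)))))) (.u 217)))))))) (.u 150))))))) (.u 83))))))

theorem ok_17_1 : okW w_17_1 = true := by decide +kernel

theorem ck_17_1 : ckk 17 268 16 711482683481402969914866562615681187935749424656241527389895445339487775240552448
    PB_17_1 AL_17_1 [] t_17_1 (List.replicate 17 1) (List.replicate 17 INF) = true := by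
  decide +kernel

end Pool.Agent.W2helper10.E9
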