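import Pool.Agent.W2helper10.E9.Chk

set_option autoImplicit false
set_option maxRecDepth 1000000

namespace Pool.Agent.W2helper10.E9

open Pool.Agent.MPe9218d Pool.Agent.H372R3.GD Pool.Agent.H372R3.GE

def PB_2_2 : List ℕ :=
  [5, 4, 3, 2, 1]

def AL_2_2 : List ℕ :=
  [1, 1, 1, 2, 2, 3]

def w_2_2 : W :=
  ⟨2, 2, 5, 1, 62, PB_2_2, AL_2_2⟩

def t_2_2 : Tr :=
    (.b 0 1 (.b 1 2 (.b 1 1 .s (.u 5)) (.u 4)) (.u 3))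

theorem ok_2_2 : okW w_2_2 = true := by decide +kernel

theorem ck_2_2 : ckk 2 5 1 62
    PB_2_2 AL_2_2 [[1, 1]] t_2_2 (List.replicate 2 1) (List.replicate 2 INF) = true := by
  decide +kernel

def PB_3_2 : List ℕ :=
  [14, 13, 12, 11, 10, 9, 8, 7, 6, 5, 4, 3, 2, 1]

def AL_3_2 : List ℕ :=
  [1, 1, 1, 1, 1, 2, 2, 3, 3, 3, 4, 5, 6, 7, 8]

def w_3_2 : W :=
  ⟨3, 2, 14, 1, 32766, PB_3_2, AL_3_2⟩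

def t_3_2 : Tr :=
    (.b 2 1 (.d 3) (.b 0 2 (.d 4) (.b 1 3 (.b 0 8 (.b 2 6 (.b 0 3 (.d 9) (.b 0 7 (.b 2 5 (.b 1 2
    (.b 2 4 (.d 6) (.b 0 5 (.b 1 1 (.b 0 4 (.d 14) (.u 8)) (.u 7)) (.u 7))) (.b 2 4 (.b 0 5 (.b 2
    3 (.b 0 4 (.b 2 2 (.d 8) .s) (.b 2 2 .s (.u 8))) (.u 7)) (.u 7)) (.u 6))) (.u 11)) (.u 11)))
    (.u 10)) (.u 10)) (.u 5))))

theorem ok_3_2 : okW w_3_2 = true := by decide +kernel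

theorem ck_3_2 : ckk 3 14 1 32766
    PB_3_2 AL_3_2 [[4, 3, 3], [5, 3, 2]] t_3_2 (List.replicate 3 1) (List.replicate 3 INF) = true := by
  decide +kernel

def PB_4_2 : List ℕ :=
  [25, 24, 23, 22, 21, 20, 19, 18, 17, 16, 15, 14, 13, 12, 11, 10, 9, 8, 7, 6, 5, 3, 2]

def AL_4_2 : List ℕ :=
  [1, 0, 1, 1, 0, 1, 1, 1, 1, 2, 2, 2, 2, 3, 2, 3, 4, 4, 5, 5, 6, 7, 6, 8, 9, 9]

def w_4_2 : W :=
  ⟨4, 2, 25, 2, 67108844, PB_4_2, AL_4_2⟩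

def t_4_2 : Tr :=
    (.b 3 1 (.d 5) (.b 1 3 (.d 7) (.b 2 4 (.d 8) (.b 3 5 (.b 0 10 (.d 14) (.b 3 4 (.b 1 7 (.b 2 7
    (.b 1 6 (.d 12) (.b 3 2 (.d 12) (.b 2 5 (.b 0 14 (.b 0 11 (.b 3 3 (.d 19) (.d 25)) (.u 21))
    (.u 18)) (.u 15)))) (.u 13)) (.u 11)) (.u 10))) (.u 9)))))

theorem ok_4_2 : okW w_4_2 = true := by decide +kernel

theorem ck_4_2 : ckk 4 25 2 67108844
    PB_4_2 AL_4_2 [] t_4_2 (List.replicate 4 1) (List.replicate 4 INF) = true := by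
  decide +kernel

def PB_5_2 : List ℕ :=
  [39, 38, 37, 36, 35, 34, 33, 32, 31, 30, 29, 28, 27, 26, 25, 24, 23, 22, 21, 20, 19, 18, 17,
  16, 15, 14, 13, 12, 11, 9, 8, 7, 4, 3]

def AL_5_2 : List ℕ :=
  [1, 0, 0, 1, 1, 0, 0, 1, 1, 1, 0, 1, 2, 2, 1, 1, 2, 3, 2, 1, 2, 4, 4, 3, 3, 4, 6, 6, 4, 4, 7,
  9, 7, 6, 8, 11, 12, 10, 9, 12]

def w_5_2 : W :=
  ⟨5, 2, 39, 3, 1099511626648, PB_5_2, AL_5_2⟩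

def t_5_2 : Tr :=
    (.b 4 1 (.d 7) (.b 2 4 (.d 10) (.b 3 5 (.d 11) (.b 4 6 (.b 4 5 (.b 1 8 (.d 14) (.b 2 9 (.d 15)
    (.b 3 9 (.b 4 2 (.d 16) (.b 0 12 (.d 18) (.b 1 13 (.d 19) (.b 2 13 (.b 3 6 (.d 20) (.b 0 17
    (.d 23) (.b 1 18 (.b 2 10 (.b 0 18 (.d 32) (.b 0 27 (.d 33) (.b 1 14 (.b 4 3 (.d 25) (.b 3 7
    (.b 4 4 (.b 0 32 (.d 38) (.u 39)) (.u 34)) (.u 29))) (.u 28)))) (.u 24)) (.u 24)))) (.u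
    21))))) (.u 17)))) (.u 13)) (.u 12)))))

theorem ok_5_2 : okW w_5_2 = true := by decide +kernel

theorem ck_5_2 : ckk 5 39 3 1099511626648
    PB_5_2 AL_5_2 [] t_5_2 (List.replicate 5 1) (List.replicate 5 INF) = true := by
  decide +kernel

def PB_6_2 : List ℕ :=
  [62, 61, 60, 59, 58, 57, 56, 55, 54, 53, 52, 51, 50, 49, 48, 47, 46, 45, 44, 43, 42, 41, 40,
  39, 38, 37, 36, 35, 34, 33, 32, 31, 30, 29, 28, 27, 26, 25, 23, 22, 21, 20, 19, 17, 16, 15,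
  14, 11, 10, 9, 5, 4]

def AL_6_2 : List ℕ :=
  [1, 0, 0, 0, 1, 1, 0, 0, 0, 1, 1, 1, 0, 0, 1, 2, 2, 1, 0, 1, 2, 3, 2, 1, 0, 2, 4, 4, 3, 1, 2,
  4, 6, 6, 3, 2, 3, 7, 9, 7, 4, 3, 7, 11, 12, 9, 5, 6, 11, 16, 16, 11, 8, 10, 18, 23, 21, 14,
  11, 17, 26, 31, 26]

def w_6_2 : W :=
  ⟨6, 2, 62, 4, 9223372036837723696, PB_6_2, AL_6_2⟩

def t_6_2 : Tr :=
    (.b 5 1 (.d 9) (.b 3 5 (.d 13) (.b 4 6 (.d 14) (.b 5 7 (.b 5 6 (.b 2 10 (.d 18) (.b 3 11 (.d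
    19) (.b 4 11 (.b 5 2 (.d 20) (.b 1 15 (.d 23) (.b 2 16 (.d 24) (.b 3 16 (.b 4 7 (.d 25) (.b 1
    21 (.d 29) (.b 0 26 (.d 34) (.b 2 27 (.b 1 26 (.d 36) (.b 4 8 (.d 36) (.b 0 32 (.d 40) (.b 1
    38 (.b 2 21 (.b 3 12 (.d 30) (.b 5 3 (.d 31) (.b 0 33 (.d 51) (.b 0 34 (.d 62) (.b 1 27 (.b 2
    17 (.d 35) (.b 3 13 (.d 41) (.b 5 4 (.d 42) (.b 0 38 (.d 46) (.b 2 18 (.d 46) (.b 4 9 (.d 47)
    (.b 0 43 (.b 3 14 (.d 52) (.b 0 39 (.d 57) (.b 2 19 (.d 57) (.d 58)))) (.u 53)))))))) (.b 2 17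
    (.b 0 38 (.d 46) (.b 1 28 (.d 46) (.b 4 9 (.d 47) (.b 0 39 (.d 57) (.b 1 29 (.d 57) (.b 0 49
    (.b 1 32 (.d 58) (.b 5 4 (.u 59) (.u 42))) (.u 59))))))) (.u 35))))))) (.u 48)) (.u 48)))))
    (.u 37))))) (.u 26))))) (.u 21)))) (.u 16)) (.u 15)))))

theorem ok_6_2 : okW w_6_2 = true := by decide +kernel

theorem ck_6_2 : ckk 6 62 4 9223372036837723696
    PB_6_2 AL_6_2 [] t_6_2 (List.replicate 6 1) (List.replicate 6 INF) = true := by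
  decide +kernel

def PB_7_2 : List ℕ :=
  [70, 69, 68, 67, 66, 65, 64, 63, 62, 61, 60, 59, 58, 57, 56, 55, 54, 53, 52, 51, 50, 49, 48,
  47, 46, 45, 44, 43, 42, 41, 40, 39, 38, 37, 36, 34, 33, 32, 31, 30, 27, 26, 25, 24, 23, 20,
  19, 18, 17, 13, 12, 11, 6, 5]

def AL_7_2 : List ℕ :=
  [1, 0, 0, 0, 0, 1, 1, 0, 0, 0, 0, 1, 1, 1, 0, 0, 0, 1, 2, 2, 1, 0, 0, 1, 2, 3, 2, 1, 0, 0, 2,
  4, 4, 3, 1, 0, 2, 4, 6, 6, 3, 1, 1, 3, 7, 9, 7, 4, 1, 2, 7, 11, 12, 9, 4, 2, 5, 11, 16, 16,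
  11, 5, 4, 9, 18, 23, 21, 13, 6, 7, 16]

def w_7_2 : W :=
  ⟨7, 2, 70, 5, 2361183241399651154016, PB_7_2, AL_7_2⟩

def t_7_2 : Tr :=
    (.b 6 1 (.d 11) (.b 4 6 (.d 16) (.b 5 7 (.d 17) (.b 6 8 (.b 6 7 (.b 3 12 (.d 22) (.b 4 13 (.d
    23) (.b 5 13 (.b 6 2 (.d 24) (.b 2 18 (.d 28) (.b 3 19 (.d 29) (.b 4 19 (.b 5 8 (.d 30) (.b 2
    25 (.d 35) (.b 1 31 (.d 41) (.b 2 32 (.d 42) (.b 3 20 (.d 42) (.b 3 32 (.b 5 9 (.d 43) (.b 0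
    37 (.d 47) (.b 1 38 (.d 48) (.b 0 44 (.d 54) (.b 2 45 (.b 3 25 (.b 4 14 (.d 36) (.b 6 3 (.d
    37) (.b 2 39 (.d 49) (.b 4 15 (.d 49) (.b 6 4 (.b 1 44 (.d 56) (.b 5 10 (.d 56) (.b 0 51 (.d
    61) (.b 1 51 (.u 70) (.u 63))))) (.u 50)))))) (.u 57)) (.u 57)))))) (.u 44))))))) (.u 31)))))
    (.u 25)))) (.u 19)) (.u 18)))))

theorem ok_7_2 : okW w_7_2 = true := by decide +kernel

theorem ck_7_2 : ckk 7 70 5 2361183241399651154016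
    PB_7_2 AL_7_2 [] t_7_2 (List.replicate 7 1) (List.replicate 7 INF) = true := by
  decide +kernel

def PB_8_2 : List ℕ :=
  [81, 80, 79, 78, 77, 76, 75, 74, 73, 72, 71, 70, 69, 68, 67, 66, 65, 64, 63, 62, 61, 60, 59,
  58, 57, 55, 54, 53, 52, 51, 50, 49, 47, 46, 45, 44, 43, 42, 39, 38, 37, 36, 35, 31, 30, 29,
  28, 27, 23, 22, 21, 20, 15, 14, 13, 7, 6]

def AL_8_2 : List ℕ :=
  [1, 0, 0, 0, 0, 0, 1, 1, 0, 0, 0, 0, 0, 1, 1, 1, 0, 0, 0, 0, 1, 2, 2, 1, 0, 0, 0, 1, 2, 3, 2,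
  1, 0, 0, 0, 2, 4, 4, 3, 1, 0, 0, 2, 4, 6, 6, 3, 1, 0, 1, 3, 7, 9, 7, 4, 1, 0, 2, 7, 11, 12, 9,
  4, 1, 1, 5, 11, 16, 16, 11, 5, 1, 3, 9, 18, 23, 21, 13, 5, 2, 6, 16]

def w_8_2 : W :=
  ⟨8, 2, 81, 6, 4835703206116118966100160, PB_8_2, AL_8_2⟩

def t_8_2 : Tr :=
    (.b 7 1 (.d 13) (.b 5 7 (.d 19) (.b 6 8 (.d 20) (.b 7 9 (.b 7 8 (.b 4 14 (.d 26) (.b 5 15 (.d
    27) (.b 6 15 (.b 7 2 (.d 28) (.b 3 21 (.d 33) (.b 4 22 (.d 34) (.b 5 22 (.b 6 9 (.d 35) (.b 3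
    29 (.d 41) (.b 2 36 (.d 48) (.b 3 37 (.d 49) (.b 4 23 (.d 49) (.b 4 37 (.b 6 10 (.d 50) (.b 1
    43 (.d 55) (.b 2 44 (.d 56) (.b 1 51 (.d 63) (.b 2 52 (.d 64) (.b 3 38 (.d 64) (.b 4 24 (.d
    64) (.b 3 52 (.b 4 29 (.b 5 16 (.d 42) (.b 7 3 (.d 43) (.b 3 45 (.d 57) (.b 5 17 (.d 57) (.b 7
    4 (.b 6 11 (.d 65) (.b 0 58 (.d 70) (.b 1 59 (.d 71) (.b 2 59 (.b 3 46 (.d 72) (.b 5 18 (.d
    72) (.b 0 66 (.d 78) (.b 1 66 (.d 80) (.u 81))))) (.u 73))))) (.u 58)))))) (.u 66)) (.u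
    66))))))))) (.u 51))))))) (.u 36))))) (.u 29)))) (.u 22)) (.u 21)))))

theorem ok_8_2 : okW w_8_2 = true := by decide +kernel

theorem ck_8_2 : ckk 8 81 6 4835703206116118966100160
    PB_8_2 AL_8_2 [] t_8_2 (List.replicate 8 1) (List.replicate 8 INF) = true := by
  decide +kernel

def PB_9_2 : List ℕ :=
  [92, 91, 90, 89, 88, 87, 86, 85, 84, 83, 82, 80, 79, 78, 77, 76, 75, 74, 73, 71, 70, 69, 68,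
  67, 66, 65, 62, 61, 60, 59, 58, 57, 56, 53, 52, 51, 50, 49, 48, 44, 43, 42, 41, 40, 35, 34,
  33, 32, 31, 26, 25, 24, 23, 17, 16, 15, 8, 7]

def AL_9_2 : List ℕ :=
  [1, 0, 0, 0, 0, 0, 0, 1, 1, 0, 0, 0, 0, 0, 0, 1, 1, 1, 0, 0, 0, 0, 0, 1, 2, 2, 1, 0, 0, 0, 0,
  1, 2, 3, 2, 1, 0, 0, 0, 0, 2, 4, 4, 3, 1, 0, 0, 0, 2, 4, 6, 6, 3, 1, 0, 0, 1, 3, 7, 9, 7, 4,
  1, 0, 0, 2, 7, 11, 12, 9, 4, 1, 0, 1, 5, 11, 16, 16, 11, 5, 1, 0, 3, 9, 18, 23, 21, 13, 5, 1,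
  1, 6, 16]

def w_9_2 : W :=
  ⟨9, 2, 92, 7, 9901097712552923441687396736, PB_9_2, AL_9_2⟩

def t_9_2 : Tr :=
    (.b 8 1 (.d 15) (.b 6 8 (.d 22) (.b 7 9 (.d 23) (.b 8 10 (.b 8 9 (.b 5 16 (.d 30) (.b 6 17 (.d
    31) (.b 7 17 (.b 8 2 (.d 32) (.b 4 24 (.d 38) (.b 5 25 (.d 39) (.b 6 25 (.b 7 10 (.d 40) (.b 4
    33 (.d 47) (.b 3 41 (.d 55) (.b 4 42 (.d 56) (.b 5 26 (.d 56) (.b 5 42 (.b 7 11 (.d 57) (.b 2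
    49 (.d 63) (.b 3 50 (.d 64) (.b 2 58 (.d 72) (.b 3 59 (.d 73) (.b 4 43 (.d 73) (.b 5 27 (.d
    73) (.b 4 59 (.b 5 33 (.b 6 18 (.d 48) (.b 8 3 (.d 49) (.b 4 51 (.d 65) (.b 6 19 (.d 65) (.b 8
    4 (.b 7 12 (.d 74) (.b 1 66 (.d 80) (.b 2 67 (.d 81) (.b 3 67 (.b 4 52 (.d 82) (.b 6 20 (.d
    82) (.b 1 75 (.d 89) (.b 2 76 (.d 90) (.b 3 60 (.d 90) (.b 5 28 (.d 90) (.u 92))))))) (.u
    83))))) (.u 66)))))) (.u 75)) (.u 75))))))))) (.u 58))))))) (.u 41))))) (.u 33)))) (.u 25))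
    (.u 24)))))

theorem ok_9_2 : okW w_9_2 = true := by decide +kernel

theorem ck_9_2 : ckk 9 92 7 9901097712552923441687396736
    PB_9_2 AL_9_2 [] t_9_2 (List.replicate 9 1) (List.replicate 9 INF) = true := by
  decide +kernel

def PB_10_2 : List ℕ :=
  [103, 102, 101, 99, 98, 97, 96, 95, 94, 93, 92, 89, 88, 87, 86, 85, 84, 83, 82, 79, 78, 77,
  76, 75, 74, 73, 69, 68, 67, 66, 65, 64, 63, 59, 58, 57, 56, 55, 54, 49, 48, 47, 46, 45, 39,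
  38, 37, 36, 35, 29, 28, 27, 26, 19, 18, 17, 9, 8]

def AL_10_2 : List ℕ :=
  [1, 0, 0, 0, 0, 0, 0, 0, 1, 1, 0, 0, 0, 0, 0, 0, 0, 1, 1, 1, 0, 0, 0, 0, 0, 0, 1, 2, 2, 1, 0,
  0, 0, 0, 0, 1, 2, 3, 2, 1, 0, 0, 0, 0, 0, 2, 4, 4, 3, 1, 0, 0, 0, 0, 2, 4, 6, 6, 3, 1, 0, 0,
  0, 1, 3, 7, 9, 7, 4, 1, 0, 0, 0, 2, 7, 11, 12, 9, 4, 1, 0, 0, 1, 5, 11, 16, 16, 11, 5, 1, 0,
  0, 3, 9, 18, 23, 21, 13, 5, 1, 0, 1, 6, 16]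

def w_10_2 : W :=
  ⟨10, 2, 103, 8, 19011041548255897319567384249088, PB_10_2, AL_10_2⟩

def t_10_2 : Tr :=
    (.b 9 1 (.d 17) (.b 7 9 (.d 25) (.b 8 10 (.d 26) (.b 9 11 (.b 9 10 (.b 6 18 (.d 34) (.b 7 19
    (.d 35) (.b 8 19 (.b 9 2 (.d 36) (.b 5 27 (.d 43) (.b 6 28 (.d 44) (.b 7 28 (.b 8 11 (.d 45)
    (.b 5 37 (.d 53) (.b 4 46 (.d 62) (.b 5 47 (.d 63) (.b 6 29 (.d 63) (.b 6 47 (.b 8 12 (.d 64)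
    (.b 3 55 (.d 71) (.b 4 56 (.d 72) (.b 3 65 (.d 81) (.b 4 66 (.d 82) (.b 5 48 (.d 82) (.b 6 30
    (.d 82) (.b 5 66 (.b 6 37 (.b 7 20 (.d 54) (.b 9 3 (.d 55) (.b 5 57 (.d 73) (.b 7 21 (.d 73)
    (.b 9 4 (.b 8 13 (.d 83) (.b 2 74 (.d 90) (.b 3 75 (.d 91) (.b 4 75 (.b 5 58 (.d 92) (.b 7 22
    (.d 92) (.b 2 84 (.d 100) (.b 3 85 (.d 101) (.b 4 67 (.d 101) (.b 6 31 (.d 101) (.u 103)))))))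
    (.u 93))))) (.u 74)))))) (.u 84)) (.u 84))))))))) (.u 65))))))) (.u 46))))) (.u 37)))) (.u
    28)) (.u 27)))))

theorem ok_10_2 : okW w_10_2 = true := by decide +kernel

theorem ck_10_2 : ckk 10 103 8 19011041548255897319567384249088
    PB_10_2 AL_10_2 [] t_10_2 (List.replicate 10 1) (List.replicate 10 INF) = true := by
  decide +kernel

def PB_11_2 : List ℕ :=
  [114, 113, 112, 109, 108, 107, 106, 105, 104, 103, 102, 98, 97, 96, 95, 94, 93, 92, 91, 87,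
  86, 85, 84, 83, 82, 81, 76, 75, 74, 73, 72, 71, 70, 65, 64, 63, 62, 61, 60, 54, 53, 52, 51,
  50, 43, 42, 41, 40, 39, 32, 31, 30, 29, 21, 20, 19, 10, 9]

def AL_11_2 : List ℕ :=
  [1, 0, 0, 0, 0, 0, 0, 0, 0, 1, 1, 0, 0, 0, 0, 0, 0, 0, 0, 1, 1, 1, 0, 0, 0, 0, 0, 0, 0, 1, 2,
  2, 1, 0, 0, 0, 0, 0, 0, 1, 2, 3, 2, 1, 0, 0, 0, 0, 0, 0, 2, 4, 4, 3, 1, 0, 0, 0, 0, 0, 2, 4,
  6, 6, 3, 1, 0, 0, 0, 0, 1, 3, 7, 9, 7, 4, 1, 0, 0, 0, 0, 2, 7, 11, 12, 9, 4, 1, 0, 0, 0, 1, 5,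
  11, 16, 16, 11, 5, 1, 0, 0, 0, 3, 9, 18, 23, 21, 13, 5, 1, 0, 0, 1, 6, 16]

def w_11_2 : W :=
  ⟨11, 2, 114, 9, 37639713278613788920101969568728576, PB_11_2, AL_11_2⟩

def t_11_2 : Tr :=
    (.b 10 1 (.d 19) (.b 8 10 (.d 28) (.b 9 11 (.d 29) (.b 10 12 (.b 10 11 (.b 7 20 (.d 38) (.b 8
    21 (.d 39) (.b 9 21 (.b 10 2 (.d 40) (.b 6 30 (.d 48) (.b 7 31 (.d 49) (.b 8 31 (.b 9 12 (.d
    50) (.b 6 41 (.d 59) (.b 5 51 (.d 69) (.b 6 52 (.d 70) (.b 7 32 (.d 70) (.b 7 52 (.b 9 13 (.d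
    71) (.b 4 61 (.d 79) (.b 5 62 (.d 80) (.b 4 72 (.d 90) (.b 5 73 (.d 91) (.b 6 53 (.d 91) (.b 7
    33 (.d 91) (.b 6 73 (.b 7 41 (.b 8 22 (.d 60) (.b 10 3 (.d 61) (.b 6 63 (.d 81) (.b 8 23 (.d
    81) (.b 10 4 (.b 9 14 (.d 92) (.b 3 82 (.d 100) (.b 4 83 (.d 101) (.b 5 83 (.b 6 64 (.d 102)
    (.b 8 24 (.d 102) (.b 3 93 (.d 111) (.b 4 94 (.d 112) (.b 5 74 (.d 112) (.b 7 34 (.d 112) (.u
    114))))))) (.u 103))))) (.u 82)))))) (.u 93)) (.u 93))))))))) (.u 72))))))) (.u 51))))) (.u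
    41)))) (.u 31)) (.u 30)))))

theorem ok_11_2 : okW w_11_2 = true := by decide +kernel

theorem ck_11_2 : ckk 11 114 9 37639713278613788920101969568728576
    PB_11_2 AL_11_2 [] t_11_2 (List.replicate 11 1) (List.replicate 11 INF) = true := by
  decide +kernel

def PB_12_2 : List ℕ :=
  [125, 124, 123, 119, 118, 117, 116, 115, 114, 113, 112, 107, 106, 105, 104, 103, 102, 101,
  100, 95, 94, 93, 92, 91, 90, 89, 83, 82, 81, 80, 79, 78, 77, 71, 70, 69, 68, 67, 66, 59, 58,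
  57, 56, 55, 47, 46, 45, 44, 43, 35, 34, 33, 32, 23, 22, 21, 11, 10]

def AL_12_2 : List ℕ :=
  [1, 0, 0, 0, 0, 0, 0, 0, 0, 0, 1, 1, 0, 0, 0, 0, 0, 0, 0, 0, 0, 1, 1, 1, 0, 0, 0, 0, 0, 0, 0,
  0, 1, 2, 2, 1, 0, 0, 0, 0, 0, 0, 0, 1, 2, 3, 2, 1, 0, 0, 0, 0, 0, 0, 0, 2, 4, 4, 3, 1, 0, 0,
  0, 0, 0, 0, 2, 4, 6, 6, 3, 1, 0, 0, 0, 0, 0, 1, 3, 7, 9, 7, 4, 1, 0, 0, 0, 0, 0, 2, 7, 11, 12,
  9, 4, 1, 0, 0, 0, 0, 1, 5, 11, 16, 16, 11, 5, 1, 0, 0, 0, 0, 3, 9, 18, 23, 21, 13, 5, 1, 0, 0,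
  0, 1, 6, 16]

def w_12_2 : W :=
  ⟨12, 2, 125, 10, 75761126792413116968090555318928411648, PB_12_2, AL_12_2⟩

def t_12_2 : Tr :=
    (.b 11 1 (.d 21) (.b 9 11 (.d 31) (.b 10 12 (.d 32) (.b 11 13 (.b 11 12 (.b 8 22 (.d 42) (.b 9
    23 (.d 43) (.b 10 23 (.b 11 2 (.d 44) (.b 7 33 (.d 53) (.b 8 34 (.d 54) (.b 9 34 (.b 10 13 (.d
    55) (.b 7 45 (.d 65) (.b 6 56 (.d 76) (.b 7 57 (.d 77) (.b 8 35 (.d 77) (.b 8 57 (.b 10 14 (.d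
    78) (.b 5 67 (.d 87) (.b 6 68 (.d 88) (.b 5 79 (.d 99) (.b 6 80 (.d 100) (.b 7 58 (.d 100) (.b
    8 36 (.d 100) (.b 7 80 (.b 8 45 (.b 9 24 (.d 66) (.b 11 3 (.d 67) (.b 7 69 (.d 89) (.b 9 25
    (.d 89) (.b 11 4 (.b 10 15 (.d 101) (.b 4 90 (.d 110) (.b 5 91 (.d 111) (.b 6 91 (.b 7 70 (.d
    112) (.b 9 26 (.d 112) (.b 4 102 (.d 122) (.b 5 103 (.d 123) (.b 6 81 (.d 123) (.b 8 37 (.d
    123) (.u 125))))))) (.u 113))))) (.u 90)))))) (.u 102)) (.u 102))))))))) (.u 79))))))) (.u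
    56))))) (.u 45)))) (.u 34)) (.u 33)))))

theorem ok_12_2 : okW w_12_2 = true := by decide +kernel

theorem ck_12_2 : ckk 12 125 10 75761126792413116968090555318928411648
    PB_12_2 AL_12_2 [] t_12_2 (List.replicate 12 1) (List.replicate 12 INF) = true := by
  decide +kernel

def PB_13_2 : List ℕ :=
  [136, 135, 134, 129, 128, 127, 126, 125, 124, 123, 122, 116, 115, 114, 113, 112, 111, 110,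
  109, 103, 102, 101, 100, 99, 98, 97, 90, 89, 88, 87, 86, 85, 84, 77, 76, 75, 74, 73, 72, 64,
  63, 62, 61, 60, 51, 50, 49, 48, 47, 38, 37, 36, 35, 25, 24, 23, 12, 11]

def AL_13_2 : List ℕ :=
  [1, 0, 0, 0, 0, 0, 0, 0, 0, 0, 0, 1, 1, 0, 0, 0, 0, 0, 0, 0, 0, 0, 0, 1, 1, 1, 0, 0, 0, 0, 0,
  0, 0, 0, 0, 1, 2, 2, 1, 0, 0, 0, 0, 0, 0, 0, 0, 1, 2, 3, 2, 1, 0, 0, 0, 0, 0, 0, 0, 0, 2, 4,
  4, 3, 1, 0, 0, 0, 0, 0, 0, 0, 2, 4, 6, 6, 3, 1, 0, 0, 0, 0, 0, 0, 1, 3, 7, 9, 7, 4, 1, 0, 0,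
  0, 0, 0, 0, 2, 7, 11, 12, 9, 4, 1, 0, 0, 0, 0, 0, 1, 5, 11, 16, 16, 11, 5, 1, 0, 0, 0, 0, 0,
  3, 9, 18, 23, 21, 13, 5, 1, 0, 0, 0, 0, 1, 6, 16]

def w_13_2 : W :=
  ⟨13, 2, 136, 11, 153802478460869821733017798766539824961536, PB_13_2, AL_13_2⟩

def t_13_2 : Tr :=
    (.b 12 1 (.d 23) (.b 10 12 (.d 34) (.b 11 13 (.d 35) (.b 12 14 (.b 12 13 (.b 9 24 (.d 46) (.b
    10 25 (.d 47) (.b 11 25 (.b 12 2 (.d 48) (.b 8 36 (.d 58) (.b 9 37 (.d 59) (.b 10 37 (.b 11 14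
    (.d 60) (.b 8 49 (.d 71) (.b 7 61 (.d 83) (.b 8 62 (.d 84) (.b 9 38 (.d 84) (.b 9 62 (.b 11 15
    (.d 85) (.b 6 73 (.d 95) (.b 7 74 (.d 96) (.b 6 86 (.d 108) (.b 7 87 (.d 109) (.b 8 63 (.d
    109) (.b 9 39 (.d 109) (.b 8 87 (.b 9 49 (.b 10 26 (.d 72) (.b 12 3 (.d 73) (.b 8 75 (.d 97)
    (.b 10 27 (.d 97) (.b 12 4 (.b 11 16 (.d 110) (.b 5 98 (.d 120) (.b 6 99 (.d 121) (.b 7 99 (.b
    8 76 (.d 122) (.b 10 28 (.d 122) (.b 5 111 (.d 133) (.b 6 112 (.d 134) (.b 7 88 (.d 134) (.b 9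
    40 (.d 134) (.u 136))))))) (.u 123))))) (.u 98)))))) (.u 111)) (.u 111))))))))) (.u 86)))))))
    (.u 61))))) (.u 49)))) (.u 37)) (.u 36)))))

theorem ok_13_2 : okW w_13_2 = true := by decide +kernel

theorem ck_13_2 : ckk 13 136 11 153802478460869821733017798766539824961536
    PB_13_2 AL_13_2 [] t_13_2 (List.replicate 13 1) (List.replicate 13 INF) = true := by
  decide +kernel

end Pool.Agent.W2helper10.E9
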