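import Pool.Agent.W2helper10.E9.Chk

set_option autoImplicit false
set_option maxRecDepth 1000000

namespace Pool.Agent.W2helper10.E9

open Pool.Agent.MPe9218d Pool.Agent.H372R3.GD Pool.Agent.H372R3.GE

def PB_14_2 : List ℕ :=
  [147, 146, 145, 139, 138, 137, 136, 135, 134, 133, 132, 125, 124, 123, 122, 121, 120, 119,
  118, 111, 110, 109, 108, 107, 106, 105, 97, 96, 95, 94, 93, 92, 91, 83, 82, 81, 80, 79, 78,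
  69, 68, 67, 66, 65, 55, 54, 53, 52, 51, 41, 40, 39, 38, 27, 26, 25, 13, 12]

def AL_14_2 : List ℕ :=
  [1, 0, 0, 0, 0, 0, 0, 0, 0, 0, 0, 0, 1, 1, 0, 0, 0, 0, 0, 0, 0, 0, 0, 0, 0, 1, 1, 1, 0, 0, 0,
  0, 0, 0, 0, 0, 0, 0, 1, 2, 2, 1, 0, 0, 0, 0, 0, 0, 0, 0, 0, 1, 2, 3, 2, 1, 0, 0, 0, 0, 0, 0,
  0, 0, 0, 2, 4, 4, 3, 1, 0, 0, 0, 0, 0, 0, 0, 0, 2, 4, 6, 6, 3, 1, 0, 0, 0, 0, 0, 0, 0, 1, 3,
  7, 9, 7, 4, 1, 0, 0, 0, 0, 0, 0, 0, 2, 7, 11, 12, 9, 4, 1, 0, 0, 0, 0, 0, 0, 1, 5, 11, 16, 16,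
  11, 5, 1, 0, 0, 0, 0, 0, 0, 3, 9, 18, 23, 21, 13, 5, 1, 0, 0, 0, 0, 0, 1, 6, 16]

def w_14_2 : W :=
  ⟨14, 2, 147, 12, 313598869579902930695956750034244091584196608, PB_14_2, AL_14_2⟩

def t_14_2 : Tr :=
    (.b 13 1 (.d 25) (.b 11 13 (.d 37) (.b 12 14 (.d 38) (.b 13 15 (.b 13 14 (.b 10 26 (.d 50) (.b
    11 27 (.d 51) (.b 12 27 (.b 13 2 (.d 52) (.b 9 39 (.d 63) (.b 10 40 (.d 64) (.b 11 40 (.b 12
    15 (.d 65) (.b 9 53 (.d 77) (.b 8 66 (.d 90) (.b 9 67 (.d 91) (.b 10 41 (.d 91) (.b 10 67 (.b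
    12 16 (.d 92) (.b 7 79 (.d 103) (.b 8 80 (.d 104) (.b 7 93 (.d 117) (.b 8 94 (.d 118) (.b 9 68
    (.d 118) (.b 10 42 (.d 118) (.b 9 94 (.b 10 53 (.b 11 28 (.d 78) (.b 13 3 (.d 79) (.b 9 81 (.d
    105) (.b 11 29 (.d 105) (.b 13 4 (.b 12 17 (.d 119) (.b 6 106 (.d 130) (.b 7 107 (.d 131) (.b
    8 107 (.b 9 82 (.d 132) (.b 11 30 (.d 132) (.b 6 120 (.d 144) (.b 7 121 (.d 145) (.b 8 95 (.d
    145) (.b 10 43 (.d 145) (.u 147))))))) (.u 133))))) (.u 106)))))) (.u 120)) (.u 120)))))))))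
    (.u 93))))))) (.u 66))))) (.u 53)))) (.u 40)) (.u 39)))))

theorem ok_14_2 : okW w_14_2 = true := by decide +kernel

theorem ck_14_2 : ckk 14 147 12 313598869579902930695956750034244091584196608
    PB_14_2 AL_14_2 [] t_14_2 (List.replicate 14 1) (List.replicate 14 INF) = true := by
  decide +kernel

def PB_15_2 : List ℕ :=
  [158, 157, 156, 149, 148, 147, 146, 145, 144, 143, 142, 134, 133, 132, 131, 130, 129, 128,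
  127, 119, 118, 117, 116, 115, 114, 113, 104, 103, 102, 101, 100, 99, 98, 89, 88, 87, 86, 85,
  84, 74, 73, 72, 71, 70, 59, 58, 57, 56, 55, 44, 43, 42, 41, 29, 28, 27, 14, 13]

def AL_15_2 : List ℕ :=
  [1, 0, 0, 0, 0, 0, 0, 0, 0, 0, 0, 0, 0, 1, 1, 0, 0, 0, 0, 0, 0, 0, 0, 0, 0, 0, 0, 1, 1, 1, 0,
  0, 0, 0, 0, 0, 0, 0, 0, 0, 0, 1, 2, 2, 1, 0, 0, 0, 0, 0, 0, 0, 0, 0, 0, 1, 2, 3, 2, 1, 0, 0,
  0, 0, 0, 0, 0, 0, 0, 0, 2, 4, 4, 3, 1, 0, 0, 0, 0, 0, 0, 0, 0, 0, 2, 4, 6, 6, 3, 1, 0, 0, 0,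
  0, 0, 0, 0, 0, 1, 3, 7, 9, 7, 4, 1, 0, 0, 0, 0, 0, 0, 0, 0, 2, 7, 11, 12, 9, 4, 1, 0, 0, 0, 0,
  0, 0, 0, 1, 5, 11, 16, 16, 11, 5, 1, 0, 0, 0, 0, 0, 0, 0, 3, 9, 18, 23, 21, 13, 5, 1, 0, 0, 0,
  0, 0, 0, 1, 6, 16]

def w_15_2 : W :=
  ⟨15, 2, 158, 13, 640828682225997020010232145223076559425602871296, PB_15_2, AL_15_2⟩

def t_15_2 : Tr :=
    (.b 14 1 (.d 27) (.b 12 14 (.d 40) (.b 13 15 (.d 41) (.b 14 16 (.b 14 15 (.b 11 28 (.d 54) (.b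
    12 29 (.d 55) (.b 13 29 (.b 14 2 (.d 56) (.b 10 42 (.d 68) (.b 11 43 (.d 69) (.b 12 43 (.b 13
    16 (.d 70) (.b 10 57 (.d 83) (.b 9 71 (.d 97) (.b 10 72 (.d 98) (.b 11 44 (.d 98) (.b 11 72
    (.b 13 17 (.d 99) (.b 8 85 (.d 111) (.b 9 86 (.d 112) (.b 8 100 (.d 126) (.b 9 101 (.d 127)
    (.b 10 73 (.d 127) (.b 11 45 (.d 127) (.b 10 101 (.b 11 57 (.b 12 30 (.d 84) (.b 14 3 (.d 85)
    (.b 10 87 (.d 113) (.b 12 31 (.d 113) (.b 14 4 (.b 13 18 (.d 128) (.b 7 114 (.d 140) (.b 8 115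
    (.d 141) (.b 9 115 (.b 10 88 (.d 142) (.b 12 32 (.d 142) (.b 7 129 (.d 155) (.b 8 130 (.d 156)
    (.b 9 102 (.d 156) (.b 11 46 (.d 156) (.u 158))))))) (.u 143))))) (.u 114)))))) (.u 129)) (.u
    129))))))))) (.u 100))))))) (.u 71))))) (.u 57)))) (.u 43)) (.u 42)))))

theorem ok_15_2 : okW w_15_2 = true := by decide +kernel

theorem ck_15_2 : ckk 15 158 13 640828682225997020010232145223076559425602871296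
    PB_15_2 AL_15_2 [] t_15_2 (List.replicate 15 1) (List.replicate 15 INF) = true := by
  decide +kernel

def PB_16_2 : List ℕ :=
  [169, 168, 167, 159, 158, 157, 156, 155, 154, 153, 152, 143, 142, 141, 140, 139, 138, 137,
  136, 127, 126, 125, 124, 123, 122, 121, 111, 110, 109, 108, 107, 106, 105, 95, 94, 93, 92, 91,
  90, 79, 78, 77, 76, 75, 63, 62, 61, 60, 59, 47, 46, 45, 44, 31, 30, 29, 15, 14]

def AL_16_2 : List ℕ :=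
  [1, 0, 0, 0, 0, 0, 0, 0, 0, 0, 0, 0, 0, 0, 1, 1, 0, 0, 0, 0, 0, 0, 0, 0, 0, 0, 0, 0, 0, 1, 1,
  1, 0, 0, 0, 0, 0, 0, 0, 0, 0, 0, 0, 0, 1, 2, 2, 1, 0, 0, 0, 0, 0, 0, 0, 0, 0, 0, 0, 1, 2, 3,
  2, 1, 0, 0, 0, 0, 0, 0, 0, 0, 0, 0, 0, 2, 4, 4, 3, 1, 0, 0, 0, 0, 0, 0, 0, 0, 0, 0, 2, 4, 6,
  6, 3, 1, 0, 0, 0, 0, 0, 0, 0, 0, 0, 1, 3, 7, 9, 7, 4, 1, 0, 0, 0, 0, 0, 0, 0, 0, 0, 2, 7, 11,
  12, 9, 4, 1, 0, 0, 0, 0, 0, 0, 0, 0, 1, 5, 11, 16, 16, 11, 5, 1, 0, 0, 0, 0, 0, 0, 0, 0, 3, 9,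
  18, 23, 21, 13, 5, 1, 0, 0, 0, 0, 0, 0, 0, 1, 6, 16]

def w_16_2 : W :=
  ⟨16, 2, 169, 14, 1310961281909019635450783356044604035728766450843648, PB_16_2, AL_16_2⟩

def t_16_2 : Tr :=
    (.b 15 1 (.d 29) (.b 13 15 (.d 43) (.b 14 16 (.d 44) (.b 15 17 (.b 15 16 (.b 12 30 (.d 58) (.b
    13 31 (.d 59) (.b 14 31 (.b 15 2 (.d 60) (.b 11 45 (.d 73) (.b 12 46 (.d 74) (.b 13 46 (.b 14
    17 (.d 75) (.b 11 61 (.d 89) (.b 10 76 (.d 104) (.b 11 77 (.d 105) (.b 12 47 (.d 105) (.b 12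
    77 (.b 14 18 (.d 106) (.b 9 91 (.d 119) (.b 10 92 (.d 120) (.b 9 107 (.d 135) (.b 10 108 (.d
    136) (.b 11 78 (.d 136) (.b 12 48 (.d 136) (.b 11 108 (.b 12 61 (.b 13 32 (.d 90) (.b 15 3 (.d
    91) (.b 11 93 (.d 121) (.b 13 33 (.d 121) (.b 15 4 (.b 14 19 (.d 137) (.b 8 122 (.d 150) (.b 9
    123 (.d 151) (.b 10 123 (.b 11 94 (.d 152) (.b 13 34 (.d 152) (.b 8 138 (.d 166) (.b 9 139 (.d
    167) (.b 10 109 (.d 167) (.b 12 49 (.d 167) (.u 169))))))) (.u 153))))) (.u 122)))))) (.u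
    138)) (.u 138))))))))) (.u 107))))))) (.u 76))))) (.u 61)))) (.u 46)) (.u 45)))))

theorem ok_16_2 : okW w_16_2 = true := by decide +kernel

theorem ck_16_2 : ckk 16 169 14 1310961281909019635450783356044604035728766450843648
    PB_16_2 AL_16_2 [] t_16_2 (List.replicate 16 1) (List.replicate 16 INF) = true := by
  decide +kernel

def PB_17_2 : List ℕ :=
  [180, 179, 178, 169, 168, 167, 166, 165, 164, 163, 162, 152, 151, 150, 149, 148, 147, 146,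
  145, 135, 134, 133, 132, 131, 130, 129, 118, 117, 116, 115, 114, 113, 112, 101, 100, 99, 98,
  97, 96, 84, 83, 82, 81, 80, 67, 66, 65, 64, 63, 50, 49, 48, 47, 33, 32, 31, 16, 15]

def AL_17_2 : List ℕ :=
  [1, 0, 0, 0, 0, 0, 0, 0, 0, 0, 0, 0, 0, 0, 0, 1, 1, 0, 0, 0, 0, 0, 0, 0, 0, 0, 0, 0, 0, 0, 0,
  1, 1, 1, 0, 0, 0, 0, 0, 0, 0, 0, 0, 0, 0, 0, 0, 1, 2, 2, 1, 0, 0, 0, 0, 0, 0, 0, 0, 0, 0, 0,
  0, 1, 2, 3, 2, 1, 0, 0, 0, 0, 0, 0, 0, 0, 0, 0, 0, 0, 2, 4, 4, 3, 1, 0, 0, 0, 0, 0, 0, 0, 0,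
  0, 0, 0, 2, 4, 6, 6, 3, 1, 0, 0, 0, 0, 0, 0, 0, 0, 0, 0, 1, 3, 7, 9, 7, 4, 1, 0, 0, 0, 0, 0,
  0, 0, 0, 0, 0, 2, 7, 11, 12, 9, 4, 1, 0, 0, 0, 0, 0, 0, 0, 0, 0, 1, 5, 11, 16, 16, 11, 5, 1,
  0, 0, 0, 0, 0, 0, 0, 0, 0, 3, 9, 18, 23, 21, 13, 5, 1, 0, 0, 0, 0, 0, 0, 0, 0, 1, 6, 16]

def w_17_2 : W :=
  ⟨17, 2, 180, 15, 2683357939558849506734917469040986190025133703542439936, PB_17_2, AL_17_2⟩

def t_17_2 : Tr :=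
    (.b 16 1 (.d 31) (.b 14 16 (.d 46) (.b 15 17 (.d 47) (.b 16 18 (.b 16 17 (.b 13 32 (.d 62) (.b
    14 33 (.d 63) (.b 15 33 (.b 16 2 (.d 64) (.b 12 48 (.d 78) (.b 13 49 (.d 79) (.b 14 49 (.b 15
    18 (.d 80) (.b 12 65 (.d 95) (.b 11 81 (.d 111) (.b 12 82 (.d 112) (.b 13 50 (.d 112) (.b 13
    82 (.b 15 19 (.d 113) (.b 10 97 (.d 127) (.b 11 98 (.d 128) (.b 10 114 (.d 144) (.b 11 115 (.d
    145) (.b 12 83 (.d 145) (.b 13 51 (.d 145) (.b 12 115 (.b 13 65 (.b 14 34 (.d 96) (.b 16 3 (.d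
    97) (.b 12 99 (.d 129) (.b 14 35 (.d 129) (.b 16 4 (.b 15 20 (.d 146) (.b 9 130 (.d 160) (.b
    10 131 (.d 161) (.b 11 131 (.b 12 100 (.d 162) (.b 14 36 (.d 162) (.b 9 147 (.d 177) (.b 10
    148 (.d 178) (.b 11 116 (.d 178) (.b 13 52 (.d 178) (.u 180))))))) (.u 163))))) (.u 130))))))
    (.u 147)) (.u 147))))))))) (.u 114))))))) (.u 81))))) (.u 65)))) (.u 49)) (.u 48)))))

theorem ok_17_2 : okW w_17_2 = true := by decide +kernel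

theorem ck_17_2 : ckk 17 180 15 2683357939558849506734917469040986190025133703542439936
    PB_17_2 AL_17_2 [] t_17_2 (List.replicate 17 1) (List.replicate 17 INF) = true := by
  decide +kernel

def PB_18_2 : List ℕ :=
  [191, 190, 189, 179, 178, 177, 176, 175, 174, 173, 172, 161, 160, 159, 158, 157, 156, 155,
  154, 143, 142, 141, 140, 139, 138, 137, 125, 124, 123, 122, 121, 120, 119, 107, 106, 105, 104,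
  103, 102, 89, 88, 87, 86, 85, 71, 70, 69, 68, 67, 53, 52, 51, 50, 35, 34, 33, 17, 16]

def AL_18_2 : List ℕ :=
  [1, 0, 0, 0, 0, 0, 0, 0, 0, 0, 0, 0, 0, 0, 0, 0, 1, 1, 0, 0, 0, 0, 0, 0, 0, 0, 0, 0, 0, 0, 0,
  0, 0, 1, 1, 1, 0, 0, 0, 0, 0, 0, 0, 0, 0, 0, 0, 0, 0, 0, 1, 2, 2, 1, 0, 0, 0, 0, 0, 0, 0, 0,
  0, 0, 0, 0, 0, 1, 2, 3, 2, 1, 0, 0, 0, 0, 0, 0, 0, 0, 0, 0, 0, 0, 0, 2, 4, 4, 3, 1, 0, 0, 0,
  0, 0, 0, 0, 0, 0, 0, 0, 0, 2, 4, 6, 6, 3, 1, 0, 0, 0, 0, 0, 0, 0, 0, 0, 0, 0, 1, 3, 7, 9, 7,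
  4, 1, 0, 0, 0, 0, 0, 0, 0, 0, 0, 0, 0, 2, 7, 11, 12, 9, 4, 1, 0, 0, 0, 0, 0, 0, 0, 0, 0, 0, 1,
  5, 11, 16, 16, 11, 5, 1, 0, 0, 0, 0, 0, 0, 0, 0, 0, 0, 3, 9, 18, 23, 21, 13, 5, 1, 0, 0, 0, 0,
  0, 0, 0, 0, 0, 1, 6, 16]

def w_18_2 : W :=
  ⟨18, 2, 191, 16, 5493990533516697762681670409042731289633413098543325052928, PB_18_2, AL_18_2⟩

def t_18_2 : Tr :=
    (.b 17 1 (.d 33) (.b 15 17 (.d 49) (.b 16 18 (.d 50) (.b 17 19 (.b 17 18 (.b 14 34 (.d 66) (.b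
    15 35 (.d 67) (.b 16 35 (.b 17 2 (.d 68) (.b 13 51 (.d 83) (.b 14 52 (.d 84) (.b 15 52 (.b 16
    19 (.d 85) (.b 13 69 (.d 101) (.b 12 86 (.d 118) (.b 13 87 (.d 119) (.b 14 53 (.d 119) (.b 14
    87 (.b 16 20 (.d 120) (.b 11 103 (.d 135) (.b 12 104 (.d 136) (.b 11 121 (.d 153) (.b 12 122
    (.d 154) (.b 13 88 (.d 154) (.b 14 54 (.d 154) (.b 13 122 (.b 14 69 (.b 15 36 (.d 102) (.b 17
    3 (.d 103) (.b 13 105 (.d 137) (.b 15 37 (.d 137) (.b 17 4 (.b 16 21 (.d 155) (.b 10 138 (.d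
    170) (.b 11 139 (.d 171) (.b 12 139 (.b 13 106 (.d 172) (.b 15 38 (.d 172) (.b 10 156 (.d 188)
    (.b 11 157 (.d 189) (.b 12 123 (.d 189) (.b 14 55 (.d 189) (.u 191))))))) (.u 173))))) (.u
    138)))))) (.u 156)) (.u 156))))))))) (.u 121))))))) (.u 86))))) (.u 69)))) (.u 52)) (.u
    51)))))

theorem ok_18_2 : okW w_18_2 = true := by decide +kernel

theorem ck_18_2 : ckk 18 191 16 5493990533516697762681670409042731289633413098543325052928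
    PB_18_2 AL_18_2 [] t_18_2 (List.replicate 18 1) (List.replicate 18 INF) = true := by
  decide +kernel

def PB_19_2 : List ℕ :=
  [202, 201, 200, 189, 188, 187, 186, 185, 184, 183, 182, 170, 169, 168, 167, 166, 165, 164,
  163, 151, 150, 149, 148, 147, 146, 145, 132, 131, 130, 129, 128, 127, 126, 113, 112, 111, 110,
  109, 108, 94, 93, 92, 91, 90, 75, 74, 73, 72, 71, 56, 55, 54, 53, 37, 36, 35, 18, 17]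

def AL_19_2 : List ℕ :=
  [1, 0, 0, 0, 0, 0, 0, 0, 0, 0, 0, 0, 0, 0, 0, 0, 0, 1, 1, 0, 0, 0, 0, 0, 0, 0, 0, 0, 0, 0, 0,
  0, 0, 0, 0, 1, 1, 1, 0, 0, 0, 0, 0, 0, 0, 0, 0, 0, 0, 0, 0, 0, 0, 1, 2, 2, 1, 0, 0, 0, 0, 0,
  0, 0, 0, 0, 0, 0, 0, 0, 0, 1, 2, 3, 2, 1, 0, 0, 0, 0, 0, 0, 0, 0, 0, 0, 0, 0, 0, 0, 2, 4, 4,
  3, 1, 0, 0, 0, 0, 0, 0, 0, 0, 0, 0, 0, 0, 0, 2, 4, 6, 6, 3, 1, 0, 0, 0, 0, 0, 0, 0, 0, 0, 0,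
  0, 0, 1, 3, 7, 9, 7, 4, 1, 0, 0, 0, 0, 0, 0, 0, 0, 0, 0, 0, 0, 2, 7, 11, 12, 9, 4, 1, 0, 0, 0,
  0, 0, 0, 0, 0, 0, 0, 0, 1, 5, 11, 16, 16, 11, 5, 1, 0, 0, 0, 0, 0, 0, 0, 0, 0, 0, 0, 3, 9, 18,
  23, 21, 13, 5, 1, 0, 0, 0, 0, 0, 0, 0, 0, 0, 0, 1, 6, 16]

def w_19_2 : W :=
  ⟨19, 2, 202, 17, 11250129458246084139984386525864073594746631276672120678383616, PB_19_2, AL_19_2⟩

def t_19_2 : Tr :=
    (.b 18 1 (.d 35) (.b 16 18 (.d 52) (.b 17 19 (.d 53) (.b 18 20 (.b 18 19 (.b 15 36 (.d 70) (.b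
    16 37 (.d 71) (.b 17 37 (.b 18 2 (.d 72) (.b 14 54 (.d 88) (.b 15 55 (.d 89) (.b 16 55 (.b 17
    20 (.d 90) (.b 14 73 (.d 107) (.b 13 91 (.d 125) (.b 14 92 (.d 126) (.b 15 56 (.d 126) (.b 15
    92 (.b 17 21 (.d 127) (.b 12 109 (.d 143) (.b 13 110 (.d 144) (.b 12 128 (.d 162) (.b 13 129
    (.d 163) (.b 14 93 (.d 163) (.b 15 57 (.d 163) (.b 14 129 (.b 15 73 (.b 16 38 (.d 108) (.b 18
    3 (.d 109) (.b 14 111 (.d 145) (.b 16 39 (.d 145) (.b 18 4 (.b 17 22 (.d 164) (.b 11 146 (.d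
    180) (.b 12 147 (.d 181) (.b 13 147 (.b 14 112 (.d 182) (.b 16 40 (.d 182) (.b 11 165 (.d 199)
    (.b 12 166 (.d 200) (.b 13 130 (.d 200) (.b 15 58 (.d 200) (.u 202))))))) (.u 183))))) (.u
    146)))))) (.u 165)) (.u 165))))))))) (.u 128))))))) (.u 91))))) (.u 73)))) (.u 55)) (.u
    54)))))

theorem ok_19_2 : okW w_19_2 = true := by decide +kernel

theorem ck_19_2 : ckk 19 202 17 11250129458246084139984386525864073594746631276672120678383616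
    PB_19_2 AL_19_2 [] t_19_2 (List.replicate 19 1) (List.replicate 19 INF) = true := by
  decide +kernel

def PB_20_2 : List ℕ :=
  [213, 212, 211, 199, 198, 197, 196, 195, 194, 193, 192, 179, 178, 177, 176, 175, 174, 173,
  172, 159, 158, 157, 156, 155, 154, 153, 139, 138, 137, 136, 135, 134, 133, 119, 118, 117, 116,
  115, 114, 99, 98, 97, 96, 95, 79, 78, 77, 76, 75, 59, 58, 57, 56, 39, 38, 37, 19, 18]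

def AL_20_2 : List ℕ :=
  [1, 0, 0, 0, 0, 0, 0, 0, 0, 0, 0, 0, 0, 0, 0, 0, 0, 0, 1, 1, 0, 0, 0, 0, 0, 0, 0, 0, 0, 0, 0,
  0, 0, 0, 0, 0, 0, 1, 1, 1, 0, 0, 0, 0, 0, 0, 0, 0, 0, 0, 0, 0, 0, 0, 0, 0, 1, 2, 2, 1, 0, 0,
  0, 0, 0, 0, 0, 0, 0, 0, 0, 0, 0, 0, 0, 1, 2, 3, 2, 1, 0, 0, 0, 0, 0, 0, 0, 0, 0, 0, 0, 0, 0,
  0, 0, 2, 4, 4, 3, 1, 0, 0, 0, 0, 0, 0, 0, 0, 0, 0, 0, 0, 0, 0, 2, 4, 6, 6, 3, 1, 0, 0, 0, 0,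
  0, 0, 0, 0, 0, 0, 0, 0, 0, 1, 3, 7, 9, 7, 4, 1, 0, 0, 0, 0, 0, 0, 0, 0, 0, 0, 0, 0, 0, 2, 7,
  11, 12, 9, 4, 1, 0, 0, 0, 0, 0, 0, 0, 0, 0, 0, 0, 0, 1, 5, 11, 16, 16, 11, 5, 1, 0, 0, 0, 0,
  0, 0, 0, 0, 0, 0, 0, 0, 3, 9, 18, 23, 21, 13, 5, 1, 0, 0, 0, 0, 0, 0, 0, 0, 0, 0, 0, 1, 6, 16]

def w_20_2 : W :=
  ⟨20, 2, 213, 18, 23038664464965918874008766860214075644292438304425880428600885248, PB_20_2, AL_20_2⟩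

def t_20_2 : Tr :=
    (.b 19 1 (.d 37) (.b 17 19 (.d 55) (.b 18 20 (.d 56) (.b 19 21 (.b 19 20 (.b 16 38 (.d 74) (.b
    17 39 (.d 75) (.b 18 39 (.b 19 2 (.d 76) (.b 15 57 (.d 93) (.b 16 58 (.d 94) (.b 17 58 (.b 18
    21 (.d 95) (.b 15 77 (.d 113) (.b 14 96 (.d 132) (.b 15 97 (.d 133) (.b 16 59 (.d 133) (.b 16
    97 (.b 18 22 (.d 134) (.b 13 115 (.d 151) (.b 14 116 (.d 152) (.b 13 135 (.d 171) (.b 14 136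
    (.d 172) (.b 15 98 (.d 172) (.b 16 60 (.d 172) (.b 15 136 (.b 16 77 (.b 17 40 (.d 114) (.b 19
    3 (.d 115) (.b 15 117 (.d 153) (.b 17 41 (.d 153) (.b 19 4 (.b 18 23 (.d 173) (.b 12 154 (.d
    190) (.b 13 155 (.d 191) (.b 14 155 (.b 15 118 (.d 192) (.b 17 42 (.d 192) (.b 12 174 (.d 210)
    (.b 13 175 (.d 211) (.b 14 137 (.d 211) (.b 16 61 (.d 211) (.u 213))))))) (.u 193))))) (.u
    154)))))) (.u 174)) (.u 174))))))))) (.u 135))))))) (.u 96))))) (.u 77)))) (.u 58)) (.u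
    57)))))

theorem ok_20_2 : okW w_20_2 = true := by decide +kernel

theorem ck_20_2 : ckk 20 213 18 23038664464965918874008766860214075644292438304425880428600885248
    PB_20_2 AL_20_2 [] t_20_2 (List.replicate 20 1) (List.replicate 20 INF) = true := by
  decide +kernel

def PB_21_2 : List ℕ :=
  [224, 223, 222, 209, 208, 207, 206, 205, 204, 203, 202, 188, 187, 186, 185, 184, 183, 182,
  181, 167, 166, 165, 164, 163, 162, 161, 146, 145, 144, 143, 142, 141, 140, 125, 124, 123, 122,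
  121, 120, 104, 103, 102, 101, 100, 83, 82, 81, 80, 79, 62, 61, 60, 59, 41, 40, 39, 20, 19]

def AL_21_2 : List ℕ :=
  [1, 0, 0, 0, 0, 0, 0, 0, 0, 0, 0, 0, 0, 0, 0, 0, 0, 0, 0, 1, 1, 0, 0, 0, 0, 0, 0, 0, 0, 0, 0,
  0, 0, 0, 0, 0, 0, 0, 0, 1, 1, 1, 0, 0, 0, 0, 0, 0, 0, 0, 0, 0, 0, 0, 0, 0, 0, 0, 0, 1, 2, 2,
  1, 0, 0, 0, 0, 0, 0, 0, 0, 0, 0, 0, 0, 0, 0, 0, 0, 1, 2, 3, 2, 1, 0, 0, 0, 0, 0, 0, 0, 0, 0,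
  0, 0, 0, 0, 0, 0, 0, 2, 4, 4, 3, 1, 0, 0, 0, 0, 0, 0, 0, 0, 0, 0, 0, 0, 0, 0, 0, 2, 4, 6, 6,
  3, 1, 0, 0, 0, 0, 0, 0, 0, 0, 0, 0, 0, 0, 0, 0, 1, 3, 7, 9, 7, 4, 1, 0, 0, 0, 0, 0, 0, 0, 0,
  0, 0, 0, 0, 0, 0, 2, 7, 11, 12, 9, 4, 1, 0, 0, 0, 0, 0, 0, 0, 0, 0, 0, 0, 0, 0, 1, 5, 11, 16,
  16, 11, 5, 1, 0, 0, 0, 0, 0, 0, 0, 0, 0, 0, 0, 0, 0, 3, 9, 18, 23, 21, 13, 5, 1, 0, 0, 0, 0,
  0, 0, 0, 0, 0, 0, 0, 0, 1, 6, 16]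

def w_21_2 : W :=
  ⟨21, 2, 224, 19, 47181545745100336907811525415679394612155003565271795614993794727936, PB_21_2, AL_21_2⟩

def t_21_2 : Tr :=
    (.b 20 1 (.d 39) (.b 18 20 (.d 58) (.b 19 21 (.d 59) (.b 20 22 (.b 20 21 (.b 17 40 (.d 78) (.b
    18 41 (.d 79) (.b 19 41 (.b 20 2 (.d 80) (.b 16 60 (.d 98) (.b 17 61 (.d 99) (.b 18 61 (.b 19
    22 (.d 100) (.b 16 81 (.d 119) (.b 15 101 (.d 139) (.b 16 102 (.d 140) (.b 17 62 (.d 140) (.b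
    17 102 (.b 19 23 (.d 141) (.b 14 121 (.d 159) (.b 15 122 (.d 160) (.b 14 142 (.d 180) (.b 15
    143 (.d 181) (.b 16 103 (.d 181) (.b 17 63 (.d 181) (.b 16 143 (.b 17 81 (.b 18 42 (.d 120)
    (.b 20 3 (.d 121) (.b 16 123 (.d 161) (.b 18 43 (.d 161) (.b 20 4 (.b 19 24 (.d 182) (.b 13
    162 (.d 200) (.b 14 163 (.d 201) (.b 15 163 (.b 16 124 (.d 202) (.b 18 44 (.d 202) (.b 13 183
    (.d 221) (.b 14 184 (.d 222) (.b 15 144 (.d 222) (.b 17 64 (.d 222) (.u 224))))))) (.u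
    203))))) (.u 162)))))) (.u 183)) (.u 183))))))))) (.u 142))))))) (.u 101))))) (.u 81)))) (.u
    61)) (.u 60)))))

theorem ok_21_2 : okW w_21_2 = true := by decide +kernel

theorem ck_21_2 : ckk 21 224 19 47181545745100336907811525415679394612155003565271795614993794727936
    PB_21_2 AL_21_2 [] t_21_2 (List.replicate 21 1) (List.replicate 21 INF) = true := by
  decide +kernel

def PB_22_2 : List ℕ :=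
  [235, 234, 233, 219, 218, 217, 216, 215, 214, 213, 212, 197, 196, 195, 194, 193, 192, 191,
  190, 175, 174, 173, 172, 171, 170, 169, 153, 152, 151, 150, 149, 148, 147, 131, 130, 129, 128,
  127, 126, 109, 108, 107, 106, 105, 87, 86, 85, 84, 83, 65, 64, 63, 62, 43, 42, 41, 21, 20]

def AL_22_2 : List ℕ :=
  [1, 0, 0, 0, 0, 0, 0, 0, 0, 0, 0, 0, 0, 0, 0, 0, 0, 0, 0, 0, 1, 1, 0, 0, 0, 0, 0, 0, 0, 0, 0,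
  0, 0, 0, 0, 0, 0, 0, 0, 0, 0, 1, 1, 1, 0, 0, 0, 0, 0, 0, 0, 0, 0, 0, 0, 0, 0, 0, 0, 0, 0, 0,
  1, 2, 2, 1, 0, 0, 0, 0, 0, 0, 0, 0, 0, 0, 0, 0, 0, 0, 0, 0, 0, 1, 2, 3, 2, 1, 0, 0, 0, 0, 0,
  0, 0, 0, 0, 0, 0, 0, 0, 0, 0, 0, 0, 2, 4, 4, 3, 1, 0, 0, 0, 0, 0, 0, 0, 0, 0, 0, 0, 0, 0, 0,
  0, 0, 2, 4, 6, 6, 3, 1, 0, 0, 0, 0, 0, 0, 0, 0, 0, 0, 0, 0, 0, 0, 0, 1, 3, 7, 9, 7, 4, 1, 0,
  0, 0, 0, 0, 0, 0, 0, 0, 0, 0, 0, 0, 0, 0, 2, 7, 11, 12, 9, 4, 1, 0, 0, 0, 0, 0, 0, 0, 0, 0, 0,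
  0, 0, 0, 0, 1, 5, 11, 16, 16, 11, 5, 1, 0, 0, 0, 0, 0, 0, 0, 0, 0, 0, 0, 0, 0, 0, 3, 9, 18,
  23, 21, 13, 5, 1, 0, 0, 0, 0, 0, 0, 0, 0, 0, 0, 0, 0, 0, 1, 6, 16]

def w_22_2 : W :=
  ⟨22, 2, 235, 20, 96626127270116525984913186162506208916486125573867859420248669498114048, PB_22_2, AL_22_2⟩

def t_22_2 : Tr :=
    (.b 21 1 (.d 41) (.b 19 21 (.d 61) (.b 20 22 (.d 62) (.b 21 23 (.b 21 22 (.b 18 42 (.d 82) (.b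
    19 43 (.d 83) (.b 20 43 (.b 21 2 (.d 84) (.b 17 63 (.d 103) (.b 18 64 (.d 104) (.b 19 64 (.b
    20 23 (.d 105) (.b 17 85 (.d 125) (.b 16 106 (.d 146) (.b 17 107 (.d 147) (.b 18 65 (.d 147)
    (.b 18 107 (.b 20 24 (.d 148) (.b 15 127 (.d 167) (.b 16 128 (.d 168) (.b 15 149 (.d 189) (.b
    16 150 (.d 190) (.b 17 108 (.d 190) (.b 18 66 (.d 190) (.b 17 150 (.b 18 85 (.b 19 44 (.d 126)
    (.b 21 3 (.d 127) (.b 17 129 (.d 169) (.b 19 45 (.d 169) (.b 21 4 (.b 20 25 (.d 191) (.b 14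
    170 (.d 210) (.b 15 171 (.d 211) (.b 16 171 (.b 17 130 (.d 212) (.b 19 46 (.d 212) (.b 14 192
    (.d 232) (.b 15 193 (.d 233) (.b 16 151 (.d 233) (.b 18 67 (.d 233) (.u 235))))))) (.u
    213))))) (.u 170)))))) (.u 192)) (.u 192))))))))) (.u 149))))))) (.u 106))))) (.u 85)))) (.u
    64)) (.u 63)))))

theorem ok_22_2 : okW w_22_2 = true := by decide +kernel

theorem ck_22_2 : ckk 22 235 20 96626127270116525984913186162506208916486125573867859420248669498114048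
    PB_22_2 AL_22_2 [] t_22_2 (List.replicate 22 1) (List.replicate 22 INF) = true := by
  decide +kernel

def PB_23_2 : List ℕ :=
  [246, 245, 244, 229, 228, 227, 226, 225, 224, 223, 222, 206, 205, 204, 203, 202, 201, 200,
  199, 183, 182, 181, 180, 179, 178, 177, 160, 159, 158, 157, 156, 155, 154, 137, 136, 135, 134,
  133, 132, 114, 113, 112, 111, 110, 91, 90, 89, 88, 87, 68, 67, 66, 65, 45, 44, 43, 22, 21]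

def AL_23_2 : List ℕ :=
  [1, 0, 0, 0, 0, 0, 0, 0, 0, 0, 0, 0, 0, 0, 0, 0, 0, 0, 0, 0, 0, 1, 1, 0, 0, 0, 0, 0, 0, 0, 0,
  0, 0, 0, 0, 0, 0, 0, 0, 0, 0, 0, 0, 1, 1, 1, 0, 0, 0, 0, 0, 0, 0, 0, 0, 0, 0, 0, 0, 0, 0, 0,
  0, 0, 0, 1, 2, 2, 1, 0, 0, 0, 0, 0, 0, 0, 0, 0, 0, 0, 0, 0, 0, 0, 0, 0, 0, 1, 2, 3, 2, 1, 0,
  0, 0, 0, 0, 0, 0, 0, 0, 0, 0, 0, 0, 0, 0, 0, 0, 0, 2, 4, 4, 3, 1, 0, 0, 0, 0, 0, 0, 0, 0, 0,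
  0, 0, 0, 0, 0, 0, 0, 0, 2, 4, 6, 6, 3, 1, 0, 0, 0, 0, 0, 0, 0, 0, 0, 0, 0, 0, 0, 0, 0, 0, 1,
  3, 7, 9, 7, 4, 1, 0, 0, 0, 0, 0, 0, 0, 0, 0, 0, 0, 0, 0, 0, 0, 0, 2, 7, 11, 12, 9, 4, 1, 0, 0,
  0, 0, 0, 0, 0, 0, 0, 0, 0, 0, 0, 0, 0, 1, 5, 11, 16, 16, 11, 5, 1, 0, 0, 0, 0, 0, 0, 0, 0, 0,
  0, 0, 0, 0, 0, 0, 3, 9, 18, 23, 21, 13, 5, 1, 0, 0, 0, 0, 0, 0, 0, 0, 0, 0, 0, 0, 0, 0, 1, 6,
  16]

def w_23_2 : W :=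
  ⟨23, 2, 246, 21, 197888589951983960391587620976963911650522473027717923565503106598920257536, PB_23_2, AL_23_2⟩

def t_23_2 : Tr :=
    (.b 22 1 (.d 43) (.b 20 22 (.d 64) (.b 21 23 (.d 65) (.b 22 24 (.b 22 23 (.b 19 44 (.d 86) (.b
    20 45 (.d 87) (.b 21 45 (.b 22 2 (.d 88) (.b 18 66 (.d 108) (.b 19 67 (.d 109) (.b 20 67 (.b
    21 24 (.d 110) (.b 18 89 (.d 131) (.b 17 111 (.d 153) (.b 18 112 (.d 154) (.b 19 68 (.d 154)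
    (.b 19 112 (.b 21 25 (.d 155) (.b 16 133 (.d 175) (.b 17 134 (.d 176) (.b 16 156 (.d 198) (.b
    17 157 (.d 199) (.b 18 113 (.d 199) (.b 19 69 (.d 199) (.b 18 157 (.b 19 89 (.b 20 46 (.d 132)
    (.b 22 3 (.d 133) (.b 18 135 (.d 177) (.b 20 47 (.d 177) (.b 22 4 (.b 21 26 (.d 200) (.b 15
    178 (.d 220) (.b 16 179 (.d 221) (.b 17 179 (.b 18 136 (.d 222) (.b 20 48 (.d 222) (.b 15 201
    (.d 243) (.b 16 202 (.d 244) (.b 17 158 (.d 244) (.b 19 70 (.d 244) (.u 246))))))) (.u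
    223))))) (.u 178)))))) (.u 201)) (.u 201))))))))) (.u 156))))))) (.u 111))))) (.u 89)))) (.u
    67)) (.u 66)))))

theorem ok_23_2 : okW w_23_2 = true := by decide +kernel

theorem ck_23_2 : ckk 23 246 21 197888589951983960391587620976963911650522473027717923565503106598920257536
    PB_23_2 AL_23_2 [] t_23_2 (List.replicate 23 1) (List.replicate 23 INF) = true := by
  decide +kernel

end Pool.Agent.W2helper10.E9
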