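import Pool.Agent.W2helper10.E9.Chk

set_option autoImplicit false
set_option maxRecDepth 1000000

namespace Pool.Agent.W2helper10.E9

open Pool.Agent.MPe9218d Pool.Agent.H372R3.GD Pool.Agent.H372R3.GE

def PB_4_3 : List ℕ :=
  [20, 19, 18, 17, 16, 15, 14, 13, 12, 11, 10, 9, 8, 7, 6, 5, 4, 3, 2]

def AL_4_3 : List ℕ :=
  [1, 0, 1, 1, 1, 1, 2, 2, 2, 3, 4, 4, 5, 6, 7, 8, 9, 11, 13, 14, 17]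

def w_4_3 : W :=
  ⟨4, 3, 20, 2, 2097148, PB_4_3, AL_4_3⟩

def t_4_3 : Tr :=
    (.b 3 1 (.d 5) (.b 0 2 (.b 3 4 (.b 2 2 (.b 1 2 (.d 8) (.b 0 1 (.b 1 3 (.d 7) (.b 1 11 (.b 1 5
    (.b 3 2 (.d 12) (.b 3 3 (.d 13) (.b 2 1 (.b 1 4 .s (.u 14)) (.u 11)))) (.u 15)) (.u 15))) (.b
    1 3 (.b 3 2 (.d 12) (.b 2 1 (.d 20) (.b 3 3 .s (.u 11)))) (.u 7)))) (.u 10)) (.u 10)) (.u 6)))

theorem ok_4_3 : okW w_4_3 = true := by decide +kernel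

theorem ck_4_3 : ckk 4 20 2 2097148
    PB_4_3 AL_4_3 [[1, 4, 1, 4], [2, 3, 2, 3]] t_4_3 (List.replicate 4 1) (List.replicate 4 INF) = true := by
  decide +kernel

def PB_5_3 : List ℕ :=
  [13, 12, 11, 10, 9, 8, 7, 6, 5, 4, 3, 1]

def AL_5_3 : List ℕ :=
  [1, 1, 0, 1, 2, 1, 1, 2, 2, 3, 3, 3, 4, 5]

def w_5_3 : W :=
  ⟨5, 3, 13, 1, 16378, PB_5_3, AL_5_3⟩

def t_5_3 : Tr :=
    (.b 3 2 (.b 4 3 (.d 5) (.b 0 4 (.d 6) (.b 1 5 (.b 2 6 (.b 1 3 (.b 4 6 (.d 12) (.b 2 2 (.d 12)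
    (.u 13))) (.u 9)) (.u 8)) (.u 7)))) (.u 4))

theorem ok_5_3 : okW w_5_3 = true := by decide +kernel

theorem ck_5_3 : ckk 5 13 1 16378
    PB_5_3 AL_5_3 [] t_5_3 (List.replicate 5 1) (List.replicate 5 INF) = true := by
  decide +kernel

def PB_6_3 : List ℕ :=
  [37, 36, 35, 34, 33, 32, 31, 30, 29, 28, 27, 26, 25, 24, 23, 22, 21, 20, 19, 18, 17, 16, 15,
  14, 13, 12, 11, 10, 9, 8, 7, 6, 5, 4, 2]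

def AL_6_3 : List ℕ :=
  [1, 0, 1, 0, 1, 1, 1, 1, 1, 1, 2, 2, 2, 2, 3, 3, 4, 4, 4, 5, 5, 6, 7, 7, 8, 9, 10, 11, 13, 13,
  15, 16, 17, 20, 21, 23, 25, 27]

def w_6_3 : W :=
  ⟨6, 3, 37, 2, 274877906932, PB_6_3, AL_6_3⟩

def t_6_3 : Tr :=
    (.b 4 2 (.d 6) (.b 5 3 (.d 7) (.b 0 4 (.d 8) (.b 1 5 (.d 9) (.b 2 6 (.b 3 7 (.b 4 8 (.b 2 4
    (.d 12) (.b 1 17 (.b 5 13 (.b 0 14 (.b 1 6 (.d 20) (.b 5 12 (.b 5 9 (.b 3 5 (.d 13) (.b 0 10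
    (.b 4 6 (.b 1 11 (.b 2 5 (.d 23) (.b 3 6 (.d 24) (.b 5 8 (.b 5 7 (.b 4 5 (.d 15) (.b 0 8 (.b 5
    6 (.b 1 10 (.b 1 9 (.b 0 7 (.b 5 5 (.d 17) (.b 1 8 (.b 0 6 (.d 18) (.b 1 7 .s (.u 19))) (.b 0
    6 (.b 0 5 (.d 37) (.u 19)) (.u 18)))) (.b 5 5 (.b 1 7 (.b 5 4 (.d 18) .s) (.u 19)) (.u 17)))
    (.b 0 7 (.b 5 5 (.b 0 5 (.b 5 4 (.d 18) (.d 34)) (.u 19)) (.u 17)) (.u 17))) (.u 28)) (.u 16))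
    (.u 16))) (.b 4 5 (.b 0 8 (.b 4 4 (.b 1 10 (.b 1 8 (.d 32) (.b 0 6 (.b 0 5 (.d 32) (.u 19))
    (.u 18))) (.u 28)) (.u 16)) (.u 16)) (.u 15))) (.u 26)))) (.b 5 7 (.b 4 5 (.b 0 5 (.b 5 4 (.d
    18) (.b 5 6 (.b 4 4 (.d 16) (.b 5 5 (.u 28) (.u 17))) (.u 28))) (.u 19)) (.u 15)) (.u 15)))
    (.u 14)) (.u 14))) (.b 3 5 (.b 0 10 (.b 4 6 (.b 3 4 (.d 14) (.b 1 11 (.b 4 5 (.b 0 8 (.b 4 4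
    (.b 5 10 (.d 24) (.b 2 5 (.d 25) (.b 5 11 (.b 1 10 (.b 1 8 (.d 30) (.b 0 6 (.b 0 5 (.b 1 9 (.d
    29) (.b 4 3 (.d 29) (.u 17))) (.u 19)) (.u 18))) (.u 28)) (.u 23)))) (.u 16)) (.u 16)) (.u
    15)) (.u 15))) (.b 3 4 (.b 1 11 (.b 3 3 (.b 0 8 (.b 3 2 (.b 5 10 (.d 24) (.b 1 10 (.b 2 5 (.b
    5 11 (.d 23) (.b 4 7 (.d 25) (.b 1 9 (.d 29) (.b 0 7 (.b 3 1 (.b 0 6 (.b 0 5 (.d 19) (.d 29))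
    (.u 18)) (.u 17)) (.u 17))))) (.u 28)) (.u 28))) (.u 16)) (.u 16)) (.u 15)) (.u 15)) (.u 14)))
    (.b 4 6 (.b 3 4 (.b 4 4 (.b 3 2 (.b 1 11 (.d 15) (.b 4 3 (.b 3 1 (.u 18) (.u 17)) (.u 17)))
    (.u 16)) (.u 16)) (.u 14)) (.u 14))) (.u 13))) (.u 22))) (.u 22)) (.u 21)) (.u 21))) (.b 2 4
    (.b 5 9 (.b 3 5 (.d 13) (.b 2 3 (.d 13) (.u 14))) (.b 0 8 (.b 3 2 (.b 2 3 (.d 13) (.b 1 11 (.b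
    5 12 (.b 4 10 (.b 1 6 (.d 20) (.b 3 1 (.d 21) (.b 1 9 (.b 0 7 (.b 5 10 (.d 24) (.d 29)) (.u
    17)) (.u 17)))) (.u 22)) (.u 22)) (.u 15))) (.u 16)) (.u 16))) (.u 12))) (.u 11)) (.u 10))))))

theorem ok_6_3 : okW w_6_3 = true := by decide +kernel

theorem ck_6_3 : ckk 6 37 2 274877906932
    PB_6_3 AL_6_3 [[7, 7, 6, 7, 6, 6], [8, 7, 6, 7, 6, 5]] t_6_3 (List.replicate 6 1) (List.replicate 6 INF) = true := by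
  decide +kernel

def PB_7_3 : List ℕ :=
  [52, 51, 50, 49, 48, 47, 46, 45, 44, 43, 42, 41, 40, 39, 38, 37, 36, 35, 34, 33, 32, 31, 30,
  29, 28, 27, 26, 25, 24, 23, 22, 21, 20, 19, 18, 17, 16, 15, 14, 13, 12, 11, 10, 9, 8, 6, 5, 3]

def AL_7_3 : List ℕ :=
  [1, 0, 0, 1, 0, 1, 1, 0, 1, 1, 1, 1, 1, 2, 1, 2, 2, 2, 3, 3, 3, 3, 4, 4, 4, 5, 5, 6, 6, 6, 8,
  8, 9, 10, 10, 11, 13, 13, 14, 16, 16, 18, 19, 20, 23, 24, 26, 28, 29, 32, 35, 37, 39]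

def w_7_3 : W :=
  ⟨7, 3, 52, 3, 9007199254740840, PB_7_3, AL_7_3⟩

def t_7_3 : Tr :=
    (.b 5 2 (.d 8) (.b 6 3 (.d 9) (.b 1 5 (.d 11) (.b 2 6 (.d 12) (.b 3 7 (.b 4 8 (.d 14) (.b 5 9
    (.b 3 5 (.d 15) (.b 6 10 (.b 0 11 (.b 5 7 (.d 17) (.b 1 12 (.b 6 8 (.b 2 7 (.d 25) (.b 0 3 (.d
    25) (.b 4 9 (.d 27) (.b 0 4 (.d 27) (.b 2 17 (.d 29) (.b 0 9 (.b 6 7 (.u 31) (.u 19)) (.u
    19))))))) (.u 18)) (.u 18))) (.b 5 7 (.b 2 13 (.b 6 7 (.b 0 13 (.d 29) (.b 4 20 (.b 1 14 (.b 2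
    7 (.d 25) (.b 3 6 (.d 28) (.b 0 25 (.b 4 19 (.b 1 13 (.b 1 12 (.b 5 6 (.d 18) (.b 1 10 (.b 0
    23 (.b 4 17 (.b 4 15 (.b 2 11 (.b 1 9 (.d 21) (.b 6 5 (.d 21) (.b 2 10 (.b 4 13 (.b 0 20 (.b 6
    6 (.d 34) (.b 0 14 (.d 42) (.b 2 8 (.d 48) (.b 0 18 (.b 4 12 (.b 2 9 (.d 37) (.b 4 10 (.d 52)
    (.b 0 16 (.b 0 15 (.b 4 11 (.d 39) .s) (.u 27)) (.u 26)))) (.u 24)) (.u 24))))) (.u 36)) (.u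
    23)) (.u 22)))) (.b 6 4 (.b 1 9 (.d 21) (.b 4 13 (.b 0 18 (.b 4 12 (.b 2 12 (.d 34) (.b 0 14
    (.d 42) (.b 0 15 (.d 46) (.b 4 9 (.b 0 16 (.d 26) (.b 0 17 (.d 39) (.d 52))) (.u 27))))) (.u
    24)) (.u 24)) (.u 23))) (.u 22))) (.b 1 7 (.b 0 16 (.b 0 15 (.b 2 9 (.d 37) (.b 1 6 (.b 2 11
    (.d 40) (.b 6 5 (.b 6 4 (.d 40) (.u 22)) (.u 21))) (.u 24))) (.u 27)) (.u 26)) (.u 23))) (.u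
    33)) (.u 33)) (.u 20))) (.b 5 6 (.b 5 4 (.b 4 13 (.b 0 23 (.b 0 19 (.d 37) (.b 4 12 (.b 2 8
    (.b 6 5 (.d 21) (.b 5 3 (.d 21) (.b 4 10 (.b 4 9 (.b 0 20 (.b 6 6 (.d 34) (.d 37)) (.u 36))
    (.u 27)) (.u 26)))) (.u 24)) (.u 24))) (.u 33)) (.u 23)) (.u 20)) (.u 18))) (.u 31)) (.u 31))
    (.u 31)))) (.u 30)) (.u 30))) (.u 19)) (.u 19)) (.u 17))) (.u 16))) (.b 3 5 (.b 0 11 (.b 6 10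
    (.b 3 4 (.d 16) (.b 1 12 (.b 6 8 (.b 5 21 (.b 2 17 (.d 29) (.b 0 9 (.b 6 7 (.b 0 4 (.d 29) (.b
    5 13 (.b 4 20 (.u 31) (.u 30)) (.u 25))) (.u 19)) (.u 19))) (.u 31)) (.u 18)) (.u 18))) (.b 3
    4 (.b 1 12 (.b 3 2 (.b 5 21 (.b 4 19 (.b 2 15 (.b 6 11 (.d 29) (.b 0 4 (.d 29) (.b 6 24 (.b 2
    13 (.b 0 9 (.b 3 1 (.d 19) (.b 6 21 (.b 5 20 (.d 32) (.b 2 10 (.b 0 6 (.b 1 10 (.d 20) (.b 4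
    15 (.b 4 12 (.b 2 8 (.b 6 15 (.b 0 5 (.d 23) (.b 2 7 (.b 4 9 (.b 6 14 (.d 26) (.u 28)) (.u
    27)) (.u 25))) (.u 25)) (.u 24)) (.u 24)) (.u 21))) (.u 22)) (.u 22))) (.u 33))) (.b 3 1 (.b 1
    10 (.b 5 16 (.b 2 10 (.b 6 21 (.b 0 10 (.d 32) (.b 4 17 (.b 4 16 (.d 34) (.b 1 9 (.b 6 17 (.b
    1 7 (.b 6 14 (.b 5 11 (.b 2 7 (.d 25) (.d 35)) (.u 27)) (.u 26)) (.u 23)) (.u 23)) (.u 21)))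
    (.u 33))) (.u 33)) (.u 22)) (.u 22)) (.u 20)) (.u 19))) (.b 0 9 (.b 3 1 (.b 4 15 (.b 1 9 (.b 0
    8 (.d 20) (.u 22)) (.u 21)) (.u 21)) (.u 19)) (.u 19))) (.u 30)))) (.u 31)) (.u 31)) (.u 31))
    (.u 18)) (.u 18)) (.u 16))) (.u 17)) (.u 15)))) (.u 13))))))

theorem ok_7_3 : okW w_7_3 = true := by decide +kernel

theorem ck_7_3 : ckk 7 52 3 9007199254740840
    PB_7_3 AL_7_3 [[15, 10, 10, 7, 12, 7, 7]] t_7_3 (List.replicate 7 1) (List.replicate 7 INF) = true := by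
  decide +kernel

def PB_8_3 : List ℕ :=
  [56, 55, 54, 53, 52, 51, 50, 49, 48, 47, 46, 45, 44, 43, 42, 41, 40, 39, 38, 37, 36, 35, 34,
  33, 32, 31, 30, 29, 28, 27, 26, 25, 24, 23, 22, 21, 20, 19, 18, 17, 16, 15, 14, 13, 12, 11,
  10, 7, 6, 4]

def AL_8_3 : List ℕ :=
  [1, 0, 0, 0, 1, 0, 1, 1, 0, 0, 1, 1, 1, 1, 1, 1, 1, 1, 2, 2, 2, 2, 3, 2, 2, 3, 4, 4, 3, 4, 4,
  4, 5, 6, 6, 6, 7, 7, 8, 8, 9, 10, 12, 11, 11, 13, 13, 14, 16, 18, 17, 18, 20, 21, 23, 24, 26]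

def w_8_3 : W :=
  ⟨8, 3, 56, 4, 144115188075855056, PB_8_3, AL_8_3⟩

def t_8_3 : Tr :=
    (.b 6 2 (.d 10) (.b 7 3 (.d 11) (.b 2 6 (.d 14) (.b 3 7 (.d 15) (.b 4 8 (.d 16) (.b 5 9 (.d
    17) (.b 6 10 (.b 7 11 (.b 0 12 (.b 6 8 (.d 20) (.b 5 14 (.d 28) (.b 2 8 (.d 28) (.b 1 6 (.d
    28) (.b 0 4 (.d 28) (.b 4 24 (.b 2 20 (.b 4 10 (.d 30) (.b 3 8 (.d 30) (.b 3 23 (.b 1 19 (.b 3
    9 (.d 29) (.b 1 18 (.b 5 25 (.b 3 21 (.b 2 19 (.b 1 13 (.b 7 9 (.d 21) (.b 2 14 (.b 0 10 (.b 3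
    17 (.d 37) (.b 5 17 (.b 2 11 (.b 4 16 (.d 24) (.b 1 10 (.d 24) (.u 26))) (.u 25)) (.u 25)))
    (.u 22)) (.u 22))) (.b 7 9 (.b 0 10 (.b 2 14 (.b 7 8 (.d 22) (.b 3 17 (.d 37) (.b 0 9 (.b 5 17
    (.b 2 11 (.b 4 16 (.d 24) (.u 26)) (.u 25)) (.u 25)) (.u 23)))) (.b 7 8 (.b 4 16 (.b 3 20 (.d
    34) (.b 0 9 (.b 5 17 (.b 7 5 (.b 1 15 (.d 35) (.b 6 9 (.d 35) (.b 2 16 (.b 2 15 (.u 38) (.u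
    37)) (.u 36)))) (.u 25)) (.u 25)) (.u 23))) (.u 24)) (.u 22))) (.b 2 14 (.b 7 8 (.b 3 15 (.b 5
    15 (.b 4 13 (.b 2 12 (.d 24) (.d 34)) (.u 27)) (.u 27)) (.u 23)) (.u 22)) (.u 22))) (.u 21)))
    (.u 33)) (.u 33)) (.u 33)) (.u 32))) (.u 31)) (.u 31)))) (.u 32)) (.u 32))))))) (.b 6 8 (.b 2
    14 (.b 7 8 (.b 1 13 (.d 21) (.b 6 7 (.d 21) (.b 3 15 (.b 5 15 (.b 4 13 (.b 2 12 (.d 24) (.b 0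
    14 (.d 34) (.b 1 15 (.d 35) (.b 0 28 (.b 1 29 (.b 0 26 (.b 3 13 (.b 7 5 (.d 25) (.b 3 12 (.b 0
    22 (.b 1 26 (.d 56) (.b 3 9 (.b 5 10 (.b 0 20 (.d 28) (.b 4 9 (.b 3 8 (.d 30) (.b 7 6 (.b 0 21
    (.d 47) (.u 43)) (.u 40))) (.u 31))) (.u 32)) (.u 29))) (.u 42)) (.u 26))) (.b 7 5 (.b 7 4 (.b
    1 21 (.b 3 14 (.d 40) (.b 0 22 (.b 2 13 (.d 39) (.b 0 21 (.b 1 19 (.d 53) (.b 5 10 (.b 0 20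
    (.d 28) (.b 4 10 (.b 4 9 (.b 1 20 (.d 46) (.u 49)) (.u 31)) (.u 30))) (.u 32))) (.u 43))) (.u
    42))) (.u 29)) (.u 26)) (.u 25))) (.u 38)) (.u 37)) (.u 36))))) (.u 27)) (.u 27)) (.u 23))))
    (.u 22)) (.u 22)) (.u 20))) (.u 19)) (.u 18))))))))

theorem ok_8_3 : okW w_8_3 = true := by decide +kernel

theorem ck_8_3 : ckk 8 56 4 144115188075855056
    PB_8_3 AL_8_3 [] t_8_3 (List.replicate 8 1) (List.replicate 8 INF) = true := by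
  decide +kernel

def PB_9_3 : List ℕ :=
  [58, 57, 56, 55, 54, 53, 52, 51, 50, 49, 48, 47, 46, 45, 44, 43, 42, 41, 40, 39, 38, 37, 36,
  35, 34, 33, 32, 31, 30, 29, 28, 27, 26, 25, 24, 23, 22, 21, 20, 19, 17, 16, 15, 14, 13, 12, 8,
  7, 5]

def AL_9_3 : List ℕ :=
  [1, 0, 0, 0, 0, 1, 0, 1, 1, 0, 0, 0, 1, 1, 1, 1, 1, 1, 0, 1, 1, 2, 2, 2, 2, 2, 2, 1, 2, 3, 4,
  4, 3, 3, 3, 3, 3, 5, 6, 6, 6, 5, 6, 6, 6, 7, 9, 10, 11, 10, 9, 10, 10, 11, 13, 16, 17, 16, 15]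

def w_9_3 : W :=
  ⟨9, 3, 58, 5, 576460752303157664, PB_9_3, AL_9_3⟩

def t_9_3 : Tr :=
    (.b 7 2 (.d 12) (.b 8 3 (.d 13) (.b 3 7 (.d 17) (.b 4 8 (.d 18) (.b 5 9 (.d 19) (.b 6 10 (.d
    20) (.b 7 11 (.b 8 12 (.b 7 9 (.b 4 17 (.d 27) (.b 2 13 (.d 27) (.b 1 11 (.d 27) (.b 5 16 (.b
    3 14 (.d 28) (.b 7 4 (.d 28) (.b 6 19 (.b 8 5 (.b 1 14 (.d 24) (.b 7 8 (.d 24) (.b 2 15 (.d
    25) (.b 3 16 (.b 8 4 (.b 6 17 (.b 5 15 (.b 1 23 (.d 33) (.b 4 24 (.b 0 14 (.d 40) (.b 0 31 (.d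
    41) (.b 6 16 (.b 2 24 (.b 5 11 (.b 4 23 (.b 2 17 (.d 41) (.b 1 32 (.b 4 19 (.b 1 30 (.b 4 18
    (.b 1 25 (.b 3 15 (.d 45) (.d 58)) (.u 49)) (.u 44)) (.u 44)) (.u 43)) (.u 42))) (.u 39)) (.u
    35)) (.u 34)) (.u 32)))) (.u 38))) (.u 31)) (.u 31)) (.u 30)) (.u 26))))) (.u 29)) (.u 29))))
    (.u 30))))) (.u 23)) (.u 22)) (.u 21))))))))

theorem ok_9_3 : okW w_9_3 = true := by decide +kernel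

theorem ck_9_3 : ckk 9 58 5 576460752303157664
    PB_9_3 AL_9_3 [] t_9_3 (List.replicate 9 1) (List.replicate 9 INF) = true := by
  decide +kernel

def PB_10_3 : List ℕ :=
  [68, 67, 66, 65, 64, 63, 62, 61, 60, 59, 58, 57, 56, 55, 54, 53, 52, 51, 50, 49, 48, 47, 46,
  45, 44, 43, 42, 41, 40, 39, 38, 37, 36, 35, 34, 33, 32, 31, 30, 29, 28, 27, 26, 25, 24, 23,
  22, 19, 18, 17, 16, 15, 14, 9, 8, 6]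

def AL_10_3 : List ℕ :=
  [1, 0, 0, 0, 0, 0, 1, 0, 1, 1, 0, 0, 0, 0, 1, 1, 1, 1, 1, 1, 0, 0, 1, 1, 2, 2, 2, 2, 2, 1, 1,
  1, 2, 3, 4, 4, 3, 3, 2, 2, 2, 3, 5, 6, 6, 6, 5, 4, 5, 4, 5, 7, 9, 10, 11, 9, 8, 8, 7, 8, 10,
  13, 16, 17, 15, 14, 12, 12, 14]

def w_10_3 : W :=
  ⟨10, 3, 68, 6, 590295810358702490432, PB_10_3, AL_10_3⟩

def t_10_3 : Tr :=
    (.b 8 2 (.d 14) (.b 9 3 (.d 15) (.b 4 8 (.d 20) (.b 5 9 (.d 21) (.b 6 10 (.d 22) (.b 7 11 (.d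
    23) (.b 8 12 (.b 9 13 (.b 8 10 (.b 3 17 (.d 29) (.b 4 18 (.d 30) (.b 2 14 (.d 30) (.b 5 19 (.d
    31) (.b 6 18 (.b 8 4 (.d 32) (.b 7 21 (.b 9 5 (.b 8 9 (.d 27) (.b 2 16 (.d 28) (.b 9 4 (.b 7
    19 (.b 6 17 (.b 1 25 (.d 37) (.b 2 26 (.d 38) (.b 0 22 (.d 38) (.b 3 27 (.b 5 27 (.b 4 25 (.b
    6 12 (.d 40) (.b 5 26 (.b 0 34 (.d 46) (.b 7 18 (.b 1 35 (.d 47) (.b 3 19 (.d 47) (.b 2 36 (.b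
    4 20 (.b 5 21 (.b 4 19 (.b 2 34 (.b 5 20 (.b 2 33 (.b 0 36 (.d 64) (.b 0 54 (.d 66) (.b 2 28
    (.b 6 14 (.b 1 43 (.b 2 27 (.d 57) (.b 7 15 (.b 6 13 (.b 1 36 (.d 66) (.b 3 20 (.d 66) (.b 3
    25 (.d 67) (.b 7 13 (.b 7 12 (.b 1 37 (.b 3 26 (.d 60) (.u 68)) (.u 65)) (.u 42)) (.u 41)))))
    (.u 59)) (.u 59))) (.u 59)) (.u 58)) (.u 56)))) (.u 51)) (.u 50)) (.u 50)) (.u 49)) (.u 49))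
    (.u 48)) (.u 48)))) (.u 36))) (.u 44))) (.u 43)) (.u 43)) (.u 39))))) (.u 35)) (.u 35)) (.u
    34)))) (.u 33)) (.u 33))) (.u 34)))))) (.u 26)) (.u 25)) (.u 24))))))))

theorem ok_10_3 : okW w_10_3 = true := by decide +kernel

theorem ck_10_3 : ckk 10 68 6 590295810358702490432
    PB_10_3 AL_10_3 [] t_10_3 (List.replicate 10 1) (List.replicate 10 INF) = true := by
  decide +kernel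

def PB_11_3 : List ℕ :=
  [76, 75, 74, 73, 72, 71, 70, 69, 68, 67, 66, 65, 64, 63, 62, 61, 60, 59, 58, 57, 56, 55, 54,
  53, 52, 51, 50, 49, 48, 47, 46, 45, 44, 43, 42, 41, 40, 39, 38, 37, 36, 35, 34, 32, 31, 30,
  29, 28, 27, 26, 25, 21, 20, 19, 18, 17, 16, 10, 9, 7]

def AL_11_3 : List ℕ :=
  [1, 0, 0, 0, 0, 0, 0, 1, 0, 1, 1, 0, 0, 0, 0, 0, 1, 1, 1, 1, 1, 1, 0, 0, 0, 1, 1, 2, 2, 2, 2,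
  2, 1, 0, 1, 1, 2, 3, 4, 4, 3, 3, 2, 1, 1, 2, 3, 5, 6, 6, 6, 5, 4, 3, 3, 3, 5, 7, 9, 10, 11, 9,
  7, 7, 5, 5, 7, 10, 13, 16, 17, 15, 13, 11, 9, 9, 11]

def w_11_3 : W :=
  ⟨11, 3, 76, 7, 151115727451820027479680, PB_11_3, AL_11_3⟩

def t_11_3 : Tr :=
    (.b 9 2 (.d 16) (.b 10 3 (.d 17) (.b 5 9 (.d 23) (.b 6 10 (.d 24) (.b 7 11 (.d 25) (.b 8 12
    (.d 26) (.b 9 13 (.b 10 14 (.b 9 11 (.b 10 11 (.b 9 10 (.d 30) (.b 3 18 (.d 32) (.b 4 19 (.d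
    33) (.b 5 20 (.d 34) (.b 6 21 (.d 35) (.b 7 22 (.b 8 23 (.b 10 5 (.b 7 20 (.b 10 4 (.b 8 21
    (.b 7 19 (.b 8 20 (.b 1 27 (.d 41) (.b 2 28 (.d 42) (.b 3 29 (.d 43) (.b 4 30 (.d 44) (.b 5 29
    (.b 7 13 (.d 45) (.b 6 32 (.b 8 14 (.b 8 13 (.b 6 30 (.b 5 28 (.b 6 29 (.b 0 37 (.d 51) (.b 1
    38 (.d 52) (.b 2 39 (.d 53) (.b 3 40 (.b 5 22 (.b 3 38 (.b 6 22 (.b 4 39 (.b 5 21 (.d 55) (.b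
    3 37 (.b 4 38 (.b 0 48 (.d 62) (.b 2 47 (.b 1 40 (.d 72) (.b 1 60 (.d 74) (.b 3 31 (.b 4 31
    (.b 3 30 (.d 64) (.b 7 15 (.b 7 14 (.b 2 40 (.d 74) (.b 0 57 (.d 75) (.u 76))) (.u 66)) (.u
    65))) (.u 65)) (.u 63)))) (.u 67))) (.u 58)) (.u 57))) (.u 57)) (.u 56)) (.u 56)) (.u 54)) (.u
    54))))) (.u 49)) (.u 48)) (.u 48)) (.u 47)) (.u 46)) (.u 46))) (.u 47)))))) (.u 40)) (.u 39))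
    (.u 39)) (.u 38)) (.u 38)) (.u 37)) (.u 37)) (.u 36))))))) (.u 31)) (.u 29)) (.u 28)) (.u
    27))))))))

theorem ok_11_3 : okW w_11_3 = true := by decide +kernel

theorem ck_11_3 : ckk 11 76 7 151115727451820027479680
    PB_11_3 AL_11_3 [] t_11_3 (List.replicate 11 1) (List.replicate 11 INF) = true := by
  decide +kernel

def PB_12_3 : List ℕ :=
  [86, 85, 84, 83, 82, 81, 80, 79, 78, 77, 76, 75, 74, 73, 72, 71, 70, 69, 68, 67, 66, 65, 64,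
  63, 62, 61, 60, 59, 58, 57, 56, 55, 54, 53, 52, 51, 50, 49, 47, 46, 45, 44, 43, 42, 41, 40,
  39, 38, 35, 34, 33, 32, 31, 30, 29, 28, 23, 22, 21, 20, 19, 18, 11, 10, 8]

def AL_12_3 : List ℕ :=
  [1, 0, 0, 0, 0, 0, 0, 0, 1, 0, 1, 1, 0, 0, 0, 0, 0, 0, 1, 1, 1, 1, 1, 1, 0, 0, 0, 0, 1, 1, 2,
  2, 2, 2, 2, 1, 0, 0, 1, 1, 2, 3, 4, 4, 3, 3, 2, 1, 0, 1, 2, 3, 5, 6, 6, 6, 5, 4, 3, 1, 2, 3,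
  5, 7, 9, 10, 11, 9, 7, 6, 4, 3, 4, 7, 10, 13, 16, 17, 15, 13, 10, 8, 6, 6, 10, 14, 19]

def w_12_3 : W :=
  ⟨12, 3, 86, 8, 154742504910390852975332608, PB_12_3, AL_12_3⟩

def t_12_3 : Tr :=
    (.b 10 2 (.d 18) (.b 11 3 (.d 19) (.b 6 10 (.d 26) (.b 7 11 (.d 27) (.b 8 12 (.d 28) (.b 9 13
    (.d 29) (.b 10 14 (.b 11 15 (.b 10 12 (.b 11 12 (.b 10 11 (.d 33) (.b 4 20 (.d 36) (.b 5 21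
    (.d 37) (.b 6 22 (.d 38) (.b 7 23 (.d 39) (.b 8 24 (.b 9 25 (.b 11 5 (.b 8 22 (.b 11 4 (.b 9
    23 (.b 8 21 (.b 9 22 (.b 2 30 (.d 46) (.b 3 31 (.d 47) (.b 4 32 (.d 48) (.b 5 33 (.d 49) (.b 6
    32 (.b 8 14 (.d 50) (.b 7 35 (.b 9 15 (.b 9 14 (.b 7 33 (.b 6 31 (.b 7 32 (.b 1 41 (.d 57) (.b
    2 42 (.d 58) (.b 3 43 (.d 59) (.b 4 42 (.b 6 24 (.d 60) (.b 5 45 (.b 7 25 (.b 7 24 (.b 5 43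
    (.b 4 41 (.b 5 42 (.b 0 52 (.d 68) (.b 1 53 (.d 69) (.b 3 52 (.b 0 64 (.d 80) (.b 2 44 (.d 80)
    (.b 2 64 (.b 3 44 (.d 82) (.b 6 26 (.d 82) (.b 1 63 (.b 3 45 (.d 81) (.b 1 62 (.b 2 63 (.d 85)
    (.b 4 34 (.b 8 15 (.b 5 34 (.d 72) (.d 86)) (.u 73)) (.u 70))) (.u 84))) (.u 83)))) (.u 84))))
    (.u 74)))) (.u 64)) (.u 63)) (.u 63)) (.u 62)) (.u 61)) (.u 61))) (.u 62))))) (.u 54)) (.u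
    53)) (.u 53)) (.u 52)) (.u 51)) (.u 51))) (.u 52)))))) (.u 44)) (.u 43)) (.u 43)) (.u 42)) (.u
    42)) (.u 41)) (.u 41)) (.u 40))))))) (.u 34)) (.u 32)) (.u 31)) (.u 30))))))))

theorem ok_12_3 : okW w_12_3 = true := by decide +kernel

theorem ck_12_3 : ckk 12 86 8 154742504910390852975332608
    PB_12_3 AL_12_3 [] t_12_3 (List.replicate 12 1) (List.replicate 12 INF) = true := by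
  decide +kernel

def PB_13_3 : List ℕ :=
  [92, 91, 90, 89, 88, 87, 86, 85, 84, 83, 82, 81, 80, 79, 78, 77, 76, 75, 74, 73, 72, 71, 70,
  69, 68, 67, 66, 64, 63, 62, 61, 60, 59, 58, 57, 56, 55, 54, 51, 50, 49, 48, 47, 46, 45, 44,
  43, 42, 38, 37, 36, 35, 34, 33, 32, 31, 25, 24, 23, 22, 21, 20, 12, 11, 9]

def AL_13_3 : List ℕ :=
  [1, 0, 0, 0, 0, 0, 0, 0, 0, 1, 0, 1, 1, 0, 0, 0, 0, 0, 0, 0, 1, 1, 1, 1, 1, 1, 0, 0, 0, 0, 0,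
  1, 1, 2, 2, 2, 2, 2, 1, 0, 0, 0, 1, 1, 2, 3, 4, 4, 3, 3, 2, 1, 0, 0, 1, 2, 3, 5, 6, 6, 6, 5,
  4, 3, 1, 0, 2, 3, 5, 7, 9, 10, 11, 9, 7, 6, 3, 2, 2, 4, 7, 10, 13, 16, 17, 15, 13, 10, 7, 5,
  3, 5, 10]

def w_13_3 : W :=
  ⟨13, 3, 92, 9, 9903520277376039402519665152, PB_13_3, AL_13_3⟩

def t_13_3 : Tr :=
    (.b 11 2 (.d 20) (.b 12 3 (.d 21) (.b 7 11 (.d 29) (.b 8 12 (.d 30) (.b 9 13 (.d 31) (.b 10 14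
    (.d 32) (.b 11 15 (.b 12 16 (.b 11 13 (.b 12 13 (.b 11 12 (.d 36) (.b 5 22 (.d 40) (.b 6 23
    (.d 41) (.b 7 24 (.d 42) (.b 8 25 (.d 43) (.b 9 26 (.b 10 27 (.b 12 5 (.b 9 24 (.b 12 4 (.b 10
    25 (.b 9 23 (.b 10 24 (.b 3 33 (.d 51) (.b 4 34 (.d 52) (.b 5 35 (.d 53) (.b 6 36 (.d 54) (.b
    7 35 (.b 9 15 (.d 55) (.b 8 38 (.b 10 16 (.b 10 15 (.b 8 36 (.b 7 34 (.b 8 35 (.b 2 45 (.d 63)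
    (.b 3 46 (.d 64) (.b 4 47 (.d 65) (.b 5 46 (.b 7 26 (.d 66) (.b 6 49 (.b 8 27 (.b 8 26 (.b 6
    47 (.b 5 45 (.b 6 46 (.b 1 57 (.d 75) (.b 2 58 (.d 76) (.b 4 57 (.b 6 38 (.d 78) (.b 5 36 (.d
    78) (.b 0 69 (.d 87) (.b 1 70 (.d 88) (.b 3 48 (.d 88) (.b 2 69 (.d 91) (.b 7 27 (.d 91) (.u
    92)))))))) (.u 81)))) (.u 70)) (.u 69)) (.u 69)) (.u 68)) (.u 67)) (.u 67))) (.u 68))))) (.u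
    59)) (.u 58)) (.u 58)) (.u 57)) (.u 56)) (.u 56))) (.u 57)))))) (.u 48)) (.u 47)) (.u 47)) (.u
    46)) (.u 46)) (.u 45)) (.u 45)) (.u 44))))))) (.u 37)) (.u 35)) (.u 34)) (.u 33))))))))

theorem ok_13_3 : okW w_13_3 = true := by decide +kernel

theorem ck_13_3 : ckk 13 92 9 9903520277376039402519665152
    PB_13_3 AL_13_3 [] t_13_3 (List.replicate 13 1) (List.replicate 13 INF) = true := by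
  decide +kernel

end Pool.Agent.W2helper10.E9
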