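import Pool.Agent.W2helper10.E9.Chk

set_option autoImplicit false
set_option maxRecDepth 1000000

namespace Pool.Agent.W2helper10.E9

open Pool.Agent.MPe9218d Pool.Agent.H372R3.GD Pool.Agent.H372R3.GE

def PB_14_3 : List ℕ :=
  [100, 99, 98, 97, 96, 95, 94, 93, 92, 91, 90, 89, 88, 87, 86, 85, 84, 83, 82, 81, 80, 79, 78,
  77, 76, 75, 74, 73, 72, 69, 68, 67, 66, 65, 64, 63, 62, 61, 60, 59, 55, 54, 53, 52, 51, 50,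
  49, 48, 47, 46, 41, 40, 39, 38, 37, 36, 35, 34, 27, 26, 25, 24, 23, 22, 13, 12, 10]

def AL_14_3 : List ℕ :=
  [1, 0, 0, 0, 0, 0, 0, 0, 0, 0, 1, 0, 1, 1, 0, 0, 0, 0, 0, 0, 0, 0, 1, 1, 1, 1, 1, 1, 0, 0, 0,
  0, 0, 0, 1, 1, 2, 2, 2, 2, 2, 1, 0, 0, 0, 0, 1, 1, 2, 3, 4, 4, 3, 3, 2, 1, 0, 0, 0, 1, 2, 3,
  5, 6, 6, 6, 5, 4, 3, 1, 0, 0, 2, 3, 5, 7, 9, 10, 11, 9, 7, 6, 3, 1, 1, 2, 4, 7, 10, 13, 16,
  17, 15, 13, 10, 7, 4, 2, 2, 5, 10]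

def w_14_3 : W :=
  ⟨14, 3, 100, 10, 2535301196914179471695293723648, PB_14_3, AL_14_3⟩

def t_14_3 : Tr :=
    (.b 12 2 (.d 22) (.b 13 3 (.d 23) (.b 8 12 (.d 32) (.b 9 13 (.d 33) (.b 10 14 (.d 34) (.b 11
    15 (.d 35) (.b 12 16 (.b 13 17 (.b 12 14 (.b 13 14 (.b 12 13 (.d 39) (.b 6 24 (.d 44) (.b 7 25
    (.d 45) (.b 8 26 (.d 46) (.b 9 27 (.d 47) (.b 10 28 (.b 11 29 (.b 13 5 (.b 10 26 (.b 13 4 (.b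
    11 27 (.b 10 25 (.b 11 26 (.b 4 36 (.d 56) (.b 5 37 (.d 57) (.b 6 38 (.d 58) (.b 7 39 (.d 59)
    (.b 8 38 (.b 10 16 (.d 60) (.b 9 41 (.b 11 17 (.b 11 16 (.b 9 39 (.b 8 37 (.b 9 38 (.b 3 49
    (.d 69) (.b 4 50 (.d 70) (.b 5 51 (.d 71) (.b 6 50 (.b 8 28 (.d 72) (.b 7 53 (.b 9 29 (.b 9 28
    (.b 7 51 (.b 6 49 (.b 7 50 (.b 2 62 (.d 82) (.b 3 63 (.d 83) (.b 4 64 (.d 84) (.b 6 40 (.d 84)
    (.b 5 63 (.b 7 41 (.d 85) (.b 10 18 (.b 10 17 (.b 5 62 (.b 0 74 (.d 94) (.b 1 75 (.d 95) (.b 2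
    76 (.d 96) (.b 4 78 (.d 98) (.b 5 52 (.d 98) (.b 8 30 (.d 98) (.b 3 75 (.d 99) (.u 100))))))))
    (.u 88)) (.u 87)) (.u 86))) (.u 87)))))) (.u 76)) (.u 75)) (.u 75)) (.u 74)) (.u 73)) (.u
    73))) (.u 74))))) (.u 64)) (.u 63)) (.u 63)) (.u 62)) (.u 61)) (.u 61))) (.u 62)))))) (.u 52))
    (.u 51)) (.u 51)) (.u 50)) (.u 50)) (.u 49)) (.u 49)) (.u 48))))))) (.u 40)) (.u 38)) (.u 37))
    (.u 36))))))))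

theorem ok_14_3 : okW w_14_3 = true := by decide +kernel

theorem ck_14_3 : ckk 14 100 10 2535301196914179471695293723648
    PB_14_3 AL_14_3 [] t_14_3 (List.replicate 14 1) (List.replicate 14 INF) = true := by
  decide +kernel

def PB_15_3 : List ℕ :=
  [108, 107, 106, 105, 104, 103, 102, 101, 100, 99, 98, 97, 96, 95, 94, 93, 92, 91, 89, 88, 87,
  86, 85, 84, 83, 82, 81, 80, 79, 78, 74, 73, 72, 71, 70, 69, 68, 67, 66, 65, 64, 59, 58, 57,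
  56, 55, 54, 53, 52, 51, 50, 44, 43, 42, 41, 40, 39, 38, 37, 29, 28, 27, 26, 25, 24, 14, 13,
  11]

def AL_15_3 : List ℕ :=
  [1, 0, 0, 0, 0, 0, 0, 0, 0, 0, 0, 1, 0, 1, 1, 0, 0, 0, 0, 0, 0, 0, 0, 0, 1, 1, 1, 1, 1, 1, 0,
  0, 0, 0, 0, 0, 0, 1, 1, 2, 2, 2, 2, 2, 1, 0, 0, 0, 0, 0, 1, 1, 2, 3, 4, 4, 3, 3, 2, 1, 0, 0,
  0, 0, 1, 2, 3, 5, 6, 6, 6, 5, 4, 3, 1, 0, 0, 0, 2, 3, 5, 7, 9, 10, 11, 9, 7, 6, 3, 1, 0, 1, 2,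
  4, 7, 10, 13, 16, 17, 15, 13, 10, 7, 4, 1, 1, 2, 5, 10]

def w_15_3 : W :=
  ⟨15, 3, 108, 11, 649035869112344350231915990640640, PB_15_3, AL_15_3⟩

def t_15_3 : Tr :=
    (.b 13 2 (.d 24) (.b 14 3 (.d 25) (.b 9 13 (.d 35) (.b 10 14 (.d 36) (.b 11 15 (.d 37) (.b 12
    16 (.d 38) (.b 13 17 (.b 14 18 (.b 13 15 (.b 14 15 (.b 13 14 (.d 42) (.b 7 26 (.d 48) (.b 8 27
    (.d 49) (.b 9 28 (.d 50) (.b 10 29 (.d 51) (.b 11 30 (.b 12 31 (.b 14 5 (.b 11 28 (.b 14 4 (.b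
    12 29 (.b 11 27 (.b 12 28 (.b 5 39 (.d 61) (.b 6 40 (.d 62) (.b 7 41 (.d 63) (.b 8 42 (.d 64)
    (.b 9 41 (.b 11 17 (.d 65) (.b 10 44 (.b 12 18 (.b 12 17 (.b 10 42 (.b 9 40 (.b 10 41 (.b 4 53
    (.d 75) (.b 5 54 (.d 76) (.b 6 55 (.d 77) (.b 7 54 (.b 9 30 (.d 78) (.b 8 57 (.b 10 31 (.b 10
    30 (.b 8 55 (.b 7 53 (.b 8 54 (.b 3 67 (.d 89) (.b 4 68 (.d 90) (.b 5 69 (.d 91) (.b 7 43 (.d
    91) (.b 6 68 (.b 8 44 (.d 92) (.b 11 19 (.b 11 18 (.b 6 67 (.b 1 80 (.d 102) (.b 2 81 (.d 103)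
    (.b 3 82 (.d 104) (.b 4 83 (.d 105) (.b 6 57 (.d 105) (.b 5 84 (.d 106) (.b 9 32 (.d 106) (.u
    108)))))))) (.u 95)) (.u 94)) (.u 93))) (.u 94)))))) (.u 82)) (.u 81)) (.u 81)) (.u 80)) (.u
    79)) (.u 79))) (.u 80))))) (.u 69)) (.u 68)) (.u 68)) (.u 67)) (.u 66)) (.u 66))) (.u 67))))))
    (.u 56)) (.u 55)) (.u 55)) (.u 54)) (.u 54)) (.u 53)) (.u 53)) (.u 52))))))) (.u 43)) (.u 41))
    (.u 40)) (.u 39))))))))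

theorem ok_15_3 : okW w_15_3 = true := by decide +kernel

theorem ck_15_3 : ckk 15 108 11 649035869112344350231915990640640
    PB_15_3 AL_15_3 [] t_15_3 (List.replicate 15 1) (List.replicate 15 INF) = true := by
  decide +kernel

def PB_16_3 : List ℕ :=
  [116, 115, 114, 113, 111, 110, 109, 108, 107, 106, 105, 104, 103, 102, 101, 100, 99, 98, 95,
  94, 93, 92, 91, 90, 89, 88, 87, 86, 85, 84, 79, 78, 77, 76, 75, 74, 73, 72, 71, 70, 69, 63,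
  62, 61, 60, 59, 58, 57, 56, 55, 54, 47, 46, 45, 44, 43, 42, 41, 40, 31, 30, 29, 28, 27, 26,
  15, 14, 12]

def AL_16_3 : List ℕ :=
  [1, 0, 0, 0, 0, 0, 0, 0, 0, 0, 0, 0, 1, 0, 1, 1, 0, 0, 0, 0, 0, 0, 0, 0, 0, 0, 1, 1, 1, 1, 1,
  1, 0, 0, 0, 0, 0, 0, 0, 0, 1, 1, 2, 2, 2, 2, 2, 1, 0, 0, 0, 0, 0, 0, 1, 1, 2, 3, 4, 4, 3, 3,
  2, 1, 0, 0, 0, 0, 0, 1, 2, 3, 5, 6, 6, 6, 5, 4, 3, 1, 0, 0, 0, 0, 2, 3, 5, 7, 9, 10, 11, 9, 7,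
  6, 3, 1, 0, 0, 1, 2, 4, 7, 10, 13, 16, 17, 15, 13, 10, 7, 4, 1, 0, 1, 2, 5, 10]

def w_16_3 : W :=
  ⟨16, 3, 116, 12, 160960964911957654530412864140791808, PB_16_3, AL_16_3⟩

def t_16_3 : Tr :=
    (.b 14 2 (.d 26) (.b 15 3 (.d 27) (.b 10 14 (.d 38) (.b 11 15 (.d 39) (.b 12 16 (.d 40) (.b 13
    17 (.d 41) (.b 14 18 (.b 15 19 (.b 14 16 (.b 15 16 (.b 14 15 (.d 45) (.b 8 28 (.d 52) (.b 9 29
    (.d 53) (.b 10 30 (.d 54) (.b 11 31 (.d 55) (.b 12 32 (.b 13 33 (.b 15 5 (.b 12 30 (.b 15 4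
    (.b 13 31 (.b 12 29 (.b 13 30 (.b 6 42 (.d 66) (.b 7 43 (.d 67) (.b 8 44 (.d 68) (.b 9 45 (.d
    69) (.b 10 44 (.b 12 18 (.d 70) (.b 11 47 (.b 13 19 (.b 13 18 (.b 11 45 (.b 10 43 (.b 11 44
    (.b 5 57 (.d 81) (.b 6 58 (.d 82) (.b 7 59 (.d 83) (.b 8 58 (.b 10 32 (.d 84) (.b 9 61 (.b 11
    33 (.b 11 32 (.b 9 59 (.b 8 57 (.b 9 58 (.b 4 72 (.d 96) (.b 5 73 (.d 97) (.b 6 74 (.d 98) (.b
    8 46 (.d 98) (.b 7 73 (.b 9 47 (.d 99) (.b 12 20 (.b 12 19 (.b 7 72 (.b 2 86 (.d 110) (.b 3 87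
    (.d 111) (.b 4 88 (.d 112) (.b 5 89 (.d 113) (.b 7 61 (.d 113) (.b 6 90 (.d 114) (.b 10 34 (.d
    114) (.u 116)))))))) (.u 102)) (.u 101)) (.u 100))) (.u 101)))))) (.u 88)) (.u 87)) (.u 87))
    (.u 86)) (.u 85)) (.u 85))) (.u 86))))) (.u 74)) (.u 73)) (.u 73)) (.u 72)) (.u 71)) (.u 71)))
    (.u 72)))))) (.u 60)) (.u 59)) (.u 59)) (.u 58)) (.u 58)) (.u 57)) (.u 57)) (.u 56))))))) (.u
    46)) (.u 44)) (.u 43)) (.u 42))))))))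

theorem ok_16_3 : okW w_16_3 = true := by decide +kernel

theorem ck_16_3 : ckk 16 116 12 160960964911957654530412864140791808
    PB_16_3 AL_16_3 [] t_16_3 (List.replicate 16 1) (List.replicate 16 INF) = true := by
  decide +kernel

def PB_17_3 : List ℕ :=
  [124, 123, 122, 121, 118, 117, 116, 115, 114, 113, 112, 111, 110, 109, 108, 107, 106, 105,
  101, 100, 99, 98, 97, 96, 95, 94, 93, 92, 91, 90, 84, 83, 82, 81, 80, 79, 78, 77, 76, 75, 74,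
  67, 66, 65, 64, 63, 62, 61, 60, 59, 58, 50, 49, 48, 47, 46, 45, 44, 43, 33, 32, 31, 30, 29,
  28, 16, 15, 13]

def AL_17_3 : List ℕ :=
  [1, 0, 0, 0, 0, 0, 0, 0, 0, 0, 0, 0, 0, 1, 0, 1, 1, 0, 0, 0, 0, 0, 0, 0, 0, 0, 0, 0, 1, 1, 1,
  1, 1, 1, 0, 0, 0, 0, 0, 0, 0, 0, 0, 1, 1, 2, 2, 2, 2, 2, 1, 0, 0, 0, 0, 0, 0, 0, 1, 1, 2, 3,
  4, 4, 3, 3, 2, 1, 0, 0, 0, 0, 0, 0, 1, 2, 3, 5, 6, 6, 6, 5, 4, 3, 1, 0, 0, 0, 0, 0, 2, 3, 5,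
  7, 9, 10, 11, 9, 7, 6, 3, 1, 0, 0, 0, 1, 2, 4, 7, 10, 13, 16, 17, 15, 13, 10, 7, 4, 1, 0, 0,
  1, 2, 5, 10]

def w_17_3 : W :=
  ⟨17, 3, 124, 13, 40541418376023854725481147634804695040, PB_17_3, AL_17_3⟩

def t_17_3 : Tr :=
    (.b 15 2 (.d 28) (.b 16 3 (.d 29) (.b 11 15 (.d 41) (.b 12 16 (.d 42) (.b 13 17 (.d 43) (.b 14
    18 (.d 44) (.b 15 19 (.b 16 20 (.b 15 17 (.b 16 17 (.b 15 16 (.d 48) (.b 9 30 (.d 56) (.b 10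
    31 (.d 57) (.b 11 32 (.d 58) (.b 12 33 (.d 59) (.b 13 34 (.b 14 35 (.b 16 5 (.b 13 32 (.b 16 4
    (.b 14 33 (.b 13 31 (.b 14 32 (.b 7 45 (.d 71) (.b 8 46 (.d 72) (.b 9 47 (.d 73) (.b 10 48 (.d
    74) (.b 11 47 (.b 13 19 (.d 75) (.b 12 50 (.b 14 20 (.b 14 19 (.b 12 48 (.b 11 46 (.b 12 47
    (.b 6 61 (.d 87) (.b 7 62 (.d 88) (.b 8 63 (.d 89) (.b 9 62 (.b 11 34 (.d 90) (.b 10 65 (.b 12
    35 (.b 12 34 (.b 10 63 (.b 9 61 (.b 10 62 (.b 5 77 (.d 103) (.b 6 78 (.d 104) (.b 7 79 (.d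
    105) (.b 9 49 (.d 105) (.b 8 78 (.b 10 50 (.d 106) (.b 13 21 (.b 13 20 (.b 8 77 (.b 3 92 (.d
    118) (.b 4 93 (.d 119) (.b 5 94 (.d 120) (.b 6 95 (.d 121) (.b 8 65 (.d 121) (.b 7 96 (.d 122)
    (.b 11 36 (.d 122) (.u 124)))))))) (.u 109)) (.u 108)) (.u 107))) (.u 108)))))) (.u 94)) (.u
    93)) (.u 93)) (.u 92)) (.u 91)) (.u 91))) (.u 92))))) (.u 79)) (.u 78)) (.u 78)) (.u 77)) (.u
    76)) (.u 76))) (.u 77)))))) (.u 64)) (.u 63)) (.u 63)) (.u 62)) (.u 62)) (.u 61)) (.u 61)) (.u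
    60))))))) (.u 49)) (.u 47)) (.u 46)) (.u 45))))))))

theorem ok_17_3 : okW w_17_3 = true := by decide +kernel

theorem ck_17_3 : ckk 17 124 13 40541418376023854725481147634804695040
    PB_17_3 AL_17_3 [] t_17_3 (List.replicate 17 1) (List.replicate 17 INF) = true := by
  decide +kernel

def PB_18_3 : List ℕ :=
  [132, 131, 130, 129, 125, 124, 123, 122, 121, 120, 119, 118, 117, 116, 115, 114, 113, 112,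
  107, 106, 105, 104, 103, 102, 101, 100, 99, 98, 97, 96, 89, 88, 87, 86, 85, 84, 83, 82, 81,
  80, 79, 71, 70, 69, 68, 67, 66, 65, 64, 63, 62, 53, 52, 51, 50, 49, 48, 47, 46, 35, 34, 33,
  32, 31, 30, 17, 16, 14]

def AL_18_3 : List ℕ :=
  [1, 0, 0, 0, 0, 0, 0, 0, 0, 0, 0, 0, 0, 0, 1, 0, 1, 1, 0, 0, 0, 0, 0, 0, 0, 0, 0, 0, 0, 0, 1,
  1, 1, 1, 1, 1, 0, 0, 0, 0, 0, 0, 0, 0, 0, 0, 1, 1, 2, 2, 2, 2, 2, 1, 0, 0, 0, 0, 0, 0, 0, 0,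
  1, 1, 2, 3, 4, 4, 3, 3, 2, 1, 0, 0, 0, 0, 0, 0, 0, 1, 2, 3, 5, 6, 6, 6, 5, 4, 3, 1, 0, 0, 0,
  0, 0, 0, 2, 3, 5, 7, 9, 10, 11, 9, 7, 6, 3, 1, 0, 0, 0, 0, 1, 2, 4, 7, 10, 13, 16, 17, 15, 13,
  10, 7, 4, 1, 0, 0, 0, 1, 2, 5, 10]

def w_18_3 : W :=
  ⟨18, 3, 132, 14, 10293536731502092821146064103786076651520, PB_18_3, AL_18_3⟩

def t_18_3 : Tr :=
    (.b 16 2 (.d 30) (.b 17 3 (.d 31) (.b 12 16 (.d 44) (.b 13 17 (.d 45) (.b 14 18 (.d 46) (.b 15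
    19 (.d 47) (.b 16 20 (.b 17 21 (.b 16 18 (.b 17 18 (.b 16 17 (.d 51) (.b 10 32 (.d 60) (.b 11
    33 (.d 61) (.b 12 34 (.d 62) (.b 13 35 (.d 63) (.b 14 36 (.b 15 37 (.b 17 5 (.b 14 34 (.b 17 4
    (.b 15 35 (.b 14 33 (.b 15 34 (.b 8 48 (.d 76) (.b 9 49 (.d 77) (.b 10 50 (.d 78) (.b 11 51
    (.d 79) (.b 12 50 (.b 14 20 (.d 80) (.b 13 53 (.b 15 21 (.b 15 20 (.b 13 51 (.b 12 49 (.b 13
    50 (.b 7 65 (.d 93) (.b 8 66 (.d 94) (.b 9 67 (.d 95) (.b 10 66 (.b 12 36 (.d 96) (.b 11 69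
    (.b 13 37 (.b 13 36 (.b 11 67 (.b 10 65 (.b 11 66 (.b 6 82 (.d 110) (.b 7 83 (.d 111) (.b 8 84
    (.d 112) (.b 10 52 (.d 112) (.b 9 83 (.b 11 53 (.d 113) (.b 14 22 (.b 14 21 (.b 9 82 (.b 4 98
    (.d 126) (.b 5 99 (.d 127) (.b 6 100 (.d 128) (.b 7 101 (.d 129) (.b 9 69 (.d 129) (.b 8 102
    (.d 130) (.b 12 38 (.d 130) (.u 132)))))))) (.u 116)) (.u 115)) (.u 114))) (.u 115)))))) (.u
    100)) (.u 99)) (.u 99)) (.u 98)) (.u 97)) (.u 97))) (.u 98))))) (.u 84)) (.u 83)) (.u 83)) (.u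
    82)) (.u 81)) (.u 81))) (.u 82)))))) (.u 68)) (.u 67)) (.u 67)) (.u 66)) (.u 66)) (.u 65)) (.u
    65)) (.u 64))))))) (.u 52)) (.u 50)) (.u 49)) (.u 48))))))))

theorem ok_18_3 : okW w_18_3 = true := by decide +kernel

theorem ck_18_3 : ckk 18 132 14 10293536731502092821146064103786076651520
    PB_18_3 AL_18_3 [] t_18_3 (List.replicate 18 1) (List.replicate 18 INF) = true := by
  decide +kernel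

def PB_19_3 : List ℕ :=
  [140, 139, 138, 137, 132, 131, 130, 129, 128, 127, 126, 125, 124, 123, 122, 121, 120, 119,
  113, 112, 111, 110, 109, 108, 107, 106, 105, 104, 103, 102, 94, 93, 92, 91, 90, 89, 88, 87,
  86, 85, 84, 75, 74, 73, 72, 71, 70, 69, 68, 67, 66, 56, 55, 54, 53, 52, 51, 50, 49, 37, 36,
  35, 34, 33, 32, 18, 17, 15]

def AL_19_3 : List ℕ :=
  [1, 0, 0, 0, 0, 0, 0, 0, 0, 0, 0, 0, 0, 0, 0, 1, 0, 1, 1, 0, 0, 0, 0, 0, 0, 0, 0, 0, 0, 0, 0,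
  0, 1, 1, 1, 1, 1, 1, 0, 0, 0, 0, 0, 0, 0, 0, 0, 0, 0, 1, 1, 2, 2, 2, 2, 2, 1, 0, 0, 0, 0, 0,
  0, 0, 0, 0, 1, 1, 2, 3, 4, 4, 3, 3, 2, 1, 0, 0, 0, 0, 0, 0, 0, 0, 1, 2, 3, 5, 6, 6, 6, 5, 4,
  3, 1, 0, 0, 0, 0, 0, 0, 0, 2, 3, 5, 7, 9, 10, 11, 9, 7, 6, 3, 1, 0, 0, 0, 0, 0, 1, 2, 4, 7,
  10, 13, 16, 17, 15, 13, 10, 7, 4, 1, 0, 0, 0, 0, 1, 2, 5, 10]

def w_19_3 : W :=
  ⟨19, 3, 140, 15, 2624256969844435964323934355763122978324480, PB_19_3, AL_19_3⟩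

def t_19_3 : Tr :=
    (.b 17 2 (.d 32) (.b 18 3 (.d 33) (.b 13 17 (.d 47) (.b 14 18 (.d 48) (.b 15 19 (.d 49) (.b 16
    20 (.d 50) (.b 17 21 (.b 18 22 (.b 17 19 (.b 18 19 (.b 17 18 (.d 54) (.b 11 34 (.d 64) (.b 12
    35 (.d 65) (.b 13 36 (.d 66) (.b 14 37 (.d 67) (.b 15 38 (.b 16 39 (.b 18 5 (.b 15 36 (.b 18 4
    (.b 16 37 (.b 15 35 (.b 16 36 (.b 9 51 (.d 81) (.b 10 52 (.d 82) (.b 11 53 (.d 83) (.b 12 54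
    (.d 84) (.b 13 53 (.b 15 21 (.d 85) (.b 14 56 (.b 16 22 (.b 16 21 (.b 14 54 (.b 13 52 (.b 14
    53 (.b 8 69 (.d 99) (.b 9 70 (.d 100) (.b 10 71 (.d 101) (.b 11 70 (.b 13 38 (.d 102) (.b 12
    73 (.b 14 39 (.b 14 38 (.b 12 71 (.b 11 69 (.b 12 70 (.b 7 87 (.d 117) (.b 8 88 (.d 118) (.b 9
    89 (.d 119) (.b 11 55 (.d 119) (.b 10 88 (.b 12 56 (.d 120) (.b 15 23 (.b 15 22 (.b 10 87 (.b
    5 104 (.d 134) (.b 6 105 (.d 135) (.b 7 106 (.d 136) (.b 8 107 (.d 137) (.b 10 73 (.d 137) (.b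
    9 108 (.d 138) (.b 13 40 (.d 138) (.u 140)))))))) (.u 123)) (.u 122)) (.u 121))) (.u 122))))))
    (.u 106)) (.u 105)) (.u 105)) (.u 104)) (.u 103)) (.u 103))) (.u 104))))) (.u 89)) (.u 88))
    (.u 88)) (.u 87)) (.u 86)) (.u 86))) (.u 87)))))) (.u 72)) (.u 71)) (.u 71)) (.u 70)) (.u 70))
    (.u 69)) (.u 69)) (.u 68))))))) (.u 55)) (.u 53)) (.u 52)) (.u 51))))))))

theorem ok_19_3 : okW w_19_3 = true := by decide +kernel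

theorem ck_19_3 : ckk 19 140 15 2624256969844435964323934355763122978324480
    PB_19_3 AL_19_3 [] t_19_3 (List.replicate 19 1) (List.replicate 19 INF) = true := by
  decide +kernel

def PB_20_3 : List ℕ :=
  [148, 147, 146, 145, 139, 138, 137, 136, 135, 134, 133, 132, 131, 130, 129, 128, 127, 126,
  119, 118, 117, 116, 115, 114, 113, 112, 111, 110, 109, 108, 99, 98, 97, 96, 95, 94, 93, 92,
  91, 90, 89, 79, 78, 77, 76, 75, 74, 73, 72, 71, 70, 59, 58, 57, 56, 55, 54, 53, 52, 39, 38,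
  37, 36, 35, 34, 19, 18, 16]

def AL_20_3 : List ℕ :=
  [1, 0, 0, 0, 0, 0, 0, 0, 0, 0, 0, 0, 0, 0, 0, 0, 1, 0, 1, 1, 0, 0, 0, 0, 0, 0, 0, 0, 0, 0, 0,
  0, 0, 0, 1, 1, 1, 1, 1, 1, 0, 0, 0, 0, 0, 0, 0, 0, 0, 0, 0, 0, 1, 1, 2, 2, 2, 2, 2, 1, 0, 0,
  0, 0, 0, 0, 0, 0, 0, 0, 1, 1, 2, 3, 4, 4, 3, 3, 2, 1, 0, 0, 0, 0, 0, 0, 0, 0, 0, 1, 2, 3, 5,
  6, 6, 6, 5, 4, 3, 1, 0, 0, 0, 0, 0, 0, 0, 0, 2, 3, 5, 7, 9, 10, 11, 9, 7, 6, 3, 1, 0, 0, 0, 0,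
  0, 0, 1, 2, 4, 7, 10, 13, 16, 17, 15, 13, 10, 7, 4, 1, 0, 0, 0, 0, 0, 1, 2, 5, 10]

def w_20_3 : W :=
  ⟨20, 3, 148, 16, 670416068789139872221897065867987672420384768, PB_20_3, AL_20_3⟩

def t_20_3 : Tr :=
    (.b 18 2 (.d 34) (.b 19 3 (.d 35) (.b 14 18 (.d 50) (.b 15 19 (.d 51) (.b 16 20 (.d 52) (.b 17
    21 (.d 53) (.b 18 22 (.b 19 23 (.b 18 20 (.b 19 20 (.b 18 19 (.d 57) (.b 12 36 (.d 68) (.b 13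
    37 (.d 69) (.b 14 38 (.d 70) (.b 15 39 (.d 71) (.b 16 40 (.b 17 41 (.b 19 5 (.b 16 38 (.b 19 4
    (.b 17 39 (.b 16 37 (.b 17 38 (.b 10 54 (.d 86) (.b 11 55 (.d 87) (.b 12 56 (.d 88) (.b 13 57
    (.d 89) (.b 14 56 (.b 16 22 (.d 90) (.b 15 59 (.b 17 23 (.b 17 22 (.b 15 57 (.b 14 55 (.b 15
    56 (.b 9 73 (.d 105) (.b 10 74 (.d 106) (.b 11 75 (.d 107) (.b 12 74 (.b 14 40 (.d 108) (.b 13
    77 (.b 15 41 (.b 15 40 (.b 13 75 (.b 12 73 (.b 13 74 (.b 8 92 (.d 124) (.b 9 93 (.d 125) (.b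
    10 94 (.d 126) (.b 12 58 (.d 126) (.b 11 93 (.b 13 59 (.d 127) (.b 16 24 (.b 16 23 (.b 11 92
    (.b 6 110 (.d 142) (.b 7 111 (.d 143) (.b 8 112 (.d 144) (.b 9 113 (.d 145) (.b 11 77 (.d 145)
    (.b 10 114 (.d 146) (.b 14 42 (.d 146) (.u 148)))))))) (.u 130)) (.u 129)) (.u 128))) (.u
    129)))))) (.u 112)) (.u 111)) (.u 111)) (.u 110)) (.u 109)) (.u 109))) (.u 110))))) (.u 94))
    (.u 93)) (.u 93)) (.u 92)) (.u 91)) (.u 91))) (.u 92)))))) (.u 76)) (.u 75)) (.u 75)) (.u 74))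
    (.u 74)) (.u 73)) (.u 73)) (.u 72))))))) (.u 58)) (.u 56)) (.u 55)) (.u 54))))))))

theorem ok_20_3 : okW w_20_3 = true := by decide +kernel

theorem ck_20_3 : ckk 20 148 16 670416068789139872221897065867987672420384768
    PB_20_3 AL_20_3 [] t_20_3 (List.replicate 20 1) (List.replicate 20 INF) = true := by
  decide +kernel

end Pool.Agent.W2helper10.E9
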