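import Pool.Agent.W2helper10.E9.Chk

set_option autoImplicit false
set_option maxRecDepth 1000000

namespace Pool.Agent.W2helper10.E9

open Pool.Agent.MPe9218d Pool.Agent.H372R3.GD Pool.Agent.H372R3.GE

def PB_21_3 : List ℕ :=
  [156, 155, 154, 153, 146, 145, 144, 143, 142, 141, 140, 139, 138, 137, 136, 135, 134, 133,
  125, 124, 123, 122, 121, 120, 119, 118, 117, 116, 115, 114, 104, 103, 102, 101, 100, 99, 98,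
  97, 96, 95, 94, 83, 82, 81, 80, 79, 78, 77, 76, 75, 74, 62, 61, 60, 59, 58, 57, 56, 55, 41,
  40, 39, 38, 37, 36, 20, 19, 17]

def AL_21_3 : List ℕ :=
  [1, 0, 0, 0, 0, 0, 0, 0, 0, 0, 0, 0, 0, 0, 0, 0, 0, 1, 0, 1, 1, 0, 0, 0, 0, 0, 0, 0, 0, 0, 0,
  0, 0, 0, 0, 0, 1, 1, 1, 1, 1, 1, 0, 0, 0, 0, 0, 0, 0, 0, 0, 0, 0, 0, 0, 1, 1, 2, 2, 2, 2, 2,
  1, 0, 0, 0, 0, 0, 0, 0, 0, 0, 0, 0, 1, 1, 2, 3, 4, 4, 3, 3, 2, 1, 0, 0, 0, 0, 0, 0, 0, 0, 0,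
  0, 1, 2, 3, 5, 6, 6, 6, 5, 4, 3, 1, 0, 0, 0, 0, 0, 0, 0, 0, 0, 2, 3, 5, 7, 9, 10, 11, 9, 7, 6,
  3, 1, 0, 0, 0, 0, 0, 0, 0, 1, 2, 4, 7, 10, 13, 16, 17, 15, 13, 10, 7, 4, 1, 0, 0, 0, 0, 0, 0,
  1, 2, 5, 10]

def w_21_3 : W :=
  ⟨21, 3, 156, 17, 171448118282317552329927738415072708967515422720, PB_21_3, AL_21_3⟩

def t_21_3 : Tr :=
    (.b 19 2 (.d 36) (.b 20 3 (.d 37) (.b 15 19 (.d 53) (.b 16 20 (.d 54) (.b 17 21 (.d 55) (.b 18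
    22 (.d 56) (.b 19 23 (.b 20 24 (.b 19 21 (.b 20 21 (.b 19 20 (.d 60) (.b 13 38 (.d 72) (.b 14
    39 (.d 73) (.b 15 40 (.d 74) (.b 16 41 (.d 75) (.b 17 42 (.b 18 43 (.b 20 5 (.b 17 40 (.b 20 4
    (.b 18 41 (.b 17 39 (.b 18 40 (.b 11 57 (.d 91) (.b 12 58 (.d 92) (.b 13 59 (.d 93) (.b 14 60
    (.d 94) (.b 15 59 (.b 17 23 (.d 95) (.b 16 62 (.b 18 24 (.b 18 23 (.b 16 60 (.b 15 58 (.b 16
    59 (.b 10 77 (.d 111) (.b 11 78 (.d 112) (.b 12 79 (.d 113) (.b 13 78 (.b 15 42 (.d 114) (.b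
    14 81 (.b 16 43 (.b 16 42 (.b 14 79 (.b 13 77 (.b 14 78 (.b 9 97 (.d 131) (.b 10 98 (.d 132)
    (.b 11 99 (.d 133) (.b 13 61 (.d 133) (.b 12 98 (.b 14 62 (.d 134) (.b 17 25 (.b 17 24 (.b 12
    97 (.b 7 116 (.d 150) (.b 8 117 (.d 151) (.b 9 118 (.d 152) (.b 10 119 (.d 153) (.b 12 81 (.d
    153) (.b 11 120 (.d 154) (.b 15 44 (.d 154) (.u 156)))))))) (.u 137)) (.u 136)) (.u 135))) (.u
    136)))))) (.u 118)) (.u 117)) (.u 117)) (.u 116)) (.u 115)) (.u 115))) (.u 116))))) (.u 99))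
    (.u 98)) (.u 98)) (.u 97)) (.u 96)) (.u 96))) (.u 97)))))) (.u 80)) (.u 79)) (.u 79)) (.u 78))
    (.u 78)) (.u 77)) (.u 77)) (.u 76))))))) (.u 61)) (.u 59)) (.u 58)) (.u 57))))))))

theorem ok_21_3 : okW w_21_3 = true := by decide +kernel

theorem ck_21_3 : ckk 21 156 17 171448118282317552329927738415072708967515422720
    PB_21_3 AL_21_3 [] t_21_3 (List.replicate 21 1) (List.replicate 21 INF) = true := by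
  decide +kernel

def PB_22_3 : List ℕ :=
  [164, 163, 162, 161, 153, 152, 151, 150, 149, 148, 147, 146, 145, 144, 143, 142, 141, 140,
  131, 130, 129, 128, 127, 126, 125, 124, 123, 122, 121, 120, 109, 108, 107, 106, 105, 104, 103,
  102, 101, 100, 99, 87, 86, 85, 84, 83, 82, 81, 80, 79, 78, 65, 64, 63, 62, 61, 60, 59, 58, 43,
  42, 41, 40, 39, 38, 21, 20, 18]

def AL_22_3 : List ℕ :=
  [1, 0, 0, 0, 0, 0, 0, 0, 0, 0, 0, 0, 0, 0, 0, 0, 0, 0, 1, 0, 1, 1, 0, 0, 0, 0, 0, 0, 0, 0, 0,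
  0, 0, 0, 0, 0, 0, 0, 1, 1, 1, 1, 1, 1, 0, 0, 0, 0, 0, 0, 0, 0, 0, 0, 0, 0, 0, 0, 1, 1, 2, 2,
  2, 2, 2, 1, 0, 0, 0, 0, 0, 0, 0, 0, 0, 0, 0, 0, 1, 1, 2, 3, 4, 4, 3, 3, 2, 1, 0, 0, 0, 0, 0,
  0, 0, 0, 0, 0, 0, 1, 2, 3, 5, 6, 6, 6, 5, 4, 3, 1, 0, 0, 0, 0, 0, 0, 0, 0, 0, 0, 2, 3, 5, 7,
  9, 10, 11, 9, 7, 6, 3, 1, 0, 0, 0, 0, 0, 0, 0, 0, 1, 2, 4, 7, 10, 13, 16, 17, 15, 13, 10, 7,
  4, 1, 0, 0, 0, 0, 0, 0, 0, 1, 2, 5, 10]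

def w_22_3 : W :=
  ⟨22, 3, 164, 18, 43867883694656997936223460227003038019708676997120, PB_22_3, AL_22_3⟩

def t_22_3 : Tr :=
    (.b 20 2 (.d 38) (.b 21 3 (.d 39) (.b 16 20 (.d 56) (.b 17 21 (.d 57) (.b 18 22 (.d 58) (.b 19
    23 (.d 59) (.b 20 24 (.b 21 25 (.b 20 22 (.b 21 22 (.b 20 21 (.d 63) (.b 14 40 (.d 76) (.b 15
    41 (.d 77) (.b 16 42 (.d 78) (.b 17 43 (.d 79) (.b 18 44 (.b 19 45 (.b 21 5 (.b 18 42 (.b 21 4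
    (.b 19 43 (.b 18 41 (.b 19 42 (.b 12 60 (.d 96) (.b 13 61 (.d 97) (.b 14 62 (.d 98) (.b 15 63
    (.d 99) (.b 16 62 (.b 18 24 (.d 100) (.b 17 65 (.b 19 25 (.b 19 24 (.b 17 63 (.b 16 61 (.b 17
    62 (.b 11 81 (.d 117) (.b 12 82 (.d 118) (.b 13 83 (.d 119) (.b 14 82 (.b 16 44 (.d 120) (.b
    15 85 (.b 17 45 (.b 17 44 (.b 15 83 (.b 14 81 (.b 15 82 (.b 10 102 (.d 138) (.b 11 103 (.d
    139) (.b 12 104 (.d 140) (.b 14 64 (.d 140) (.b 13 103 (.b 15 65 (.d 141) (.b 18 26 (.b 18 25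
    (.b 13 102 (.b 8 122 (.d 158) (.b 9 123 (.d 159) (.b 10 124 (.d 160) (.b 11 125 (.d 161) (.b
    13 85 (.d 161) (.b 12 126 (.d 162) (.b 16 46 (.d 162) (.u 164)))))))) (.u 144)) (.u 143)) (.u
    142))) (.u 143)))))) (.u 124)) (.u 123)) (.u 123)) (.u 122)) (.u 121)) (.u 121))) (.u 122)))))
    (.u 104)) (.u 103)) (.u 103)) (.u 102)) (.u 101)) (.u 101))) (.u 102)))))) (.u 84)) (.u 83))
    (.u 83)) (.u 82)) (.u 82)) (.u 81)) (.u 81)) (.u 80))))))) (.u 64)) (.u 62)) (.u 61)) (.u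
    60))))))))

theorem ok_22_3 : okW w_22_3 = true := by decide +kernel

theorem ck_22_3 : ckk 22 164 18 43867883694656997936223460227003038019708676997120
    PB_22_3 AL_22_3 [] t_22_3 (List.replicate 22 1) (List.replicate 22 INF) = true := by
  decide +kernel

def PB_23_3 : List ℕ :=
  [172, 171, 170, 169, 160, 159, 158, 157, 156, 155, 154, 153, 152, 151, 150, 149, 148, 147,
  137, 136, 135, 134, 133, 132, 131, 130, 129, 128, 127, 126, 114, 113, 112, 111, 110, 109, 108,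
  107, 106, 105, 104, 91, 90, 89, 88, 87, 86, 85, 84, 83, 82, 68, 67, 66, 65, 64, 63, 62, 61,
  45, 44, 43, 42, 41, 40, 22, 21, 19]

def AL_23_3 : List ℕ :=
  [1, 0, 0, 0, 0, 0, 0, 0, 0, 0, 0, 0, 0, 0, 0, 0, 0, 0, 0, 1, 0, 1, 1, 0, 0, 0, 0, 0, 0, 0, 0,
  0, 0, 0, 0, 0, 0, 0, 0, 0, 1, 1, 1, 1, 1, 1, 0, 0, 0, 0, 0, 0, 0, 0, 0, 0, 0, 0, 0, 0, 0, 1,
  1, 2, 2, 2, 2, 2, 1, 0, 0, 0, 0, 0, 0, 0, 0, 0, 0, 0, 0, 0, 1, 1, 2, 3, 4, 4, 3, 3, 2, 1, 0,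
  0, 0, 0, 0, 0, 0, 0, 0, 0, 0, 0, 1, 2, 3, 5, 6, 6, 6, 5, 4, 3, 1, 0, 0, 0, 0, 0, 0, 0, 0, 0,
  0, 0, 2, 3, 5, 7, 9, 10, 11, 9, 7, 6, 3, 1, 0, 0, 0, 0, 0, 0, 0, 0, 0, 1, 2, 4, 7, 10, 13, 16,
  17, 15, 13, 10, 7, 4, 1, 0, 0, 0, 0, 0, 0, 0, 0, 1, 2, 5, 10]

def w_23_3 : W :=
  ⟨23, 3, 172, 19, 11227255399918398744049129910211380941087479465246720, PB_23_3, AL_23_3⟩

def t_23_3 : Tr :=
    (.b 21 2 (.d 40) (.b 22 3 (.d 41) (.b 17 21 (.d 59) (.b 18 22 (.d 60) (.b 19 23 (.d 61) (.b 20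
    24 (.d 62) (.b 21 25 (.b 22 26 (.b 21 23 (.b 22 23 (.b 21 22 (.d 66) (.b 15 42 (.d 80) (.b 16
    43 (.d 81) (.b 17 44 (.d 82) (.b 18 45 (.d 83) (.b 19 46 (.b 20 47 (.b 22 5 (.b 19 44 (.b 22 4
    (.b 20 45 (.b 19 43 (.b 20 44 (.b 13 63 (.d 101) (.b 14 64 (.d 102) (.b 15 65 (.d 103) (.b 16
    66 (.d 104) (.b 17 65 (.b 19 25 (.d 105) (.b 18 68 (.b 20 26 (.b 20 25 (.b 18 66 (.b 17 64 (.b
    18 65 (.b 12 85 (.d 123) (.b 13 86 (.d 124) (.b 14 87 (.d 125) (.b 15 86 (.b 17 46 (.d 126)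
    (.b 16 89 (.b 18 47 (.b 18 46 (.b 16 87 (.b 15 85 (.b 16 86 (.b 11 107 (.d 145) (.b 12 108 (.d
    146) (.b 13 109 (.d 147) (.b 15 67 (.d 147) (.b 14 108 (.b 16 68 (.d 148) (.b 19 27 (.b 19 26
    (.b 14 107 (.b 9 128 (.d 166) (.b 10 129 (.d 167) (.b 11 130 (.d 168) (.b 12 131 (.d 169) (.b
    14 89 (.d 169) (.b 13 132 (.d 170) (.b 17 48 (.d 170) (.u 172)))))))) (.u 151)) (.u 150)) (.u
    149))) (.u 150)))))) (.u 130)) (.u 129)) (.u 129)) (.u 128)) (.u 127)) (.u 127))) (.u 128)))))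
    (.u 109)) (.u 108)) (.u 108)) (.u 107)) (.u 106)) (.u 106))) (.u 107)))))) (.u 88)) (.u 87))
    (.u 87)) (.u 86)) (.u 86)) (.u 85)) (.u 85)) (.u 84))))))) (.u 67)) (.u 65)) (.u 64)) (.u
    63))))))))

theorem ok_23_3 : okW w_23_3 = true := by decide +kernel

theorem ck_23_3 : ckk 23 172 19 11227255399918398744049129910211380941087479465246720
    PB_23_3 AL_23_3 [] t_23_3 (List.replicate 23 1) (List.replicate 23 INF) = true := by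
  decide +kernel

def PB_24_3 : List ℕ :=
  [180, 179, 178, 177, 167, 166, 165, 164, 163, 162, 161, 160, 159, 158, 157, 156, 155, 154,
  143, 142, 141, 140, 139, 138, 137, 136, 135, 134, 133, 132, 119, 118, 117, 116, 115, 114, 113,
  112, 111, 110, 109, 95, 94, 93, 92, 91, 90, 89, 88, 87, 86, 71, 70, 69, 68, 67, 66, 65, 64,
  47, 46, 45, 44, 43, 42, 23, 22, 20]

def AL_24_3 : List ℕ :=
  [1, 0, 0, 0, 0, 0, 0, 0, 0, 0, 0, 0, 0, 0, 0, 0, 0, 0, 0, 0, 1, 0, 1, 1, 0, 0, 0, 0, 0, 0, 0,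
  0, 0, 0, 0, 0, 0, 0, 0, 0, 0, 0, 1, 1, 1, 1, 1, 1, 0, 0, 0, 0, 0, 0, 0, 0, 0, 0, 0, 0, 0, 0,
  0, 0, 1, 1, 2, 2, 2, 2, 2, 1, 0, 0, 0, 0, 0, 0, 0, 0, 0, 0, 0, 0, 0, 0, 1, 1, 2, 3, 4, 4, 3,
  3, 2, 1, 0, 0, 0, 0, 0, 0, 0, 0, 0, 0, 0, 0, 0, 1, 2, 3, 5, 6, 6, 6, 5, 4, 3, 1, 0, 0, 0, 0,
  0, 0, 0, 0, 0, 0, 0, 0, 2, 3, 5, 7, 9, 10, 11, 9, 7, 6, 3, 1, 0, 0, 0, 0, 0, 0, 0, 0, 0, 0, 1,
  2, 4, 7, 10, 13, 16, 17, 15, 13, 10, 7, 4, 1, 0, 0, 0, 0, 0, 0, 0, 0, 0, 1, 2, 5, 10]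

def w_24_3 : W :=
  ⟨24, 3, 180, 20, 2873803260729030539282841648245944866004432991397347328, PB_24_3, AL_24_3⟩

def t_24_3 : Tr :=
    (.b 22 2 (.d 42) (.b 23 3 (.d 43) (.b 18 22 (.d 62) (.b 19 23 (.d 63) (.b 20 24 (.d 64) (.b 21
    25 (.d 65) (.b 22 26 (.b 23 27 (.b 22 24 (.b 23 24 (.b 22 23 (.d 69) (.b 16 44 (.d 84) (.b 17
    45 (.d 85) (.b 18 46 (.d 86) (.b 19 47 (.d 87) (.b 20 48 (.b 21 49 (.b 23 5 (.b 20 46 (.b 23 4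
    (.b 21 47 (.b 20 45 (.b 21 46 (.b 14 66 (.d 106) (.b 15 67 (.d 107) (.b 16 68 (.d 108) (.b 17
    69 (.d 109) (.b 18 68 (.b 20 26 (.d 110) (.b 19 71 (.b 21 27 (.b 21 26 (.b 19 69 (.b 18 67 (.b
    19 68 (.b 13 89 (.d 129) (.b 14 90 (.d 130) (.b 15 91 (.d 131) (.b 16 90 (.b 18 48 (.d 132)
    (.b 17 93 (.b 19 49 (.b 19 48 (.b 17 91 (.b 16 89 (.b 17 90 (.b 12 112 (.d 152) (.b 13 113 (.d
    153) (.b 14 114 (.d 154) (.b 16 70 (.d 154) (.b 15 113 (.b 17 71 (.d 155) (.b 20 28 (.b 20 27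
    (.b 15 112 (.b 10 134 (.d 174) (.b 11 135 (.d 175) (.b 12 136 (.d 176) (.b 13 137 (.d 177) (.b
    15 93 (.d 177) (.b 14 138 (.d 178) (.b 18 50 (.d 178) (.u 180)))))))) (.u 158)) (.u 157)) (.u
    156))) (.u 157)))))) (.u 136)) (.u 135)) (.u 135)) (.u 134)) (.u 133)) (.u 133))) (.u 134)))))
    (.u 114)) (.u 113)) (.u 113)) (.u 112)) (.u 111)) (.u 111))) (.u 112)))))) (.u 92)) (.u 91))
    (.u 91)) (.u 90)) (.u 90)) (.u 89)) (.u 89)) (.u 88))))))) (.u 70)) (.u 68)) (.u 67)) (.u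
    66))))))))

theorem ok_24_3 : okW w_24_3 = true := by decide +kernel

theorem ck_24_3 : ckk 24 180 20 2873803260729030539282841648245944866004432991397347328
    PB_24_3 AL_24_3 [] t_24_3 (List.replicate 24 1) (List.replicate 24 INF) = true := by
  decide +kernel

def PB_25_3 : List ℕ :=
  [188, 187, 186, 185, 174, 173, 172, 171, 170, 169, 168, 167, 166, 165, 164, 163, 162, 161,
  149, 148, 147, 146, 145, 144, 143, 142, 141, 140, 139, 138, 124, 123, 122, 121, 120, 119, 118,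
  117, 116, 115, 114, 99, 98, 97, 96, 95, 94, 93, 92, 91, 90, 74, 73, 72, 71, 70, 69, 68, 67,
  49, 48, 47, 46, 45, 44, 24, 23, 21]

def AL_25_3 : List ℕ :=
  [1, 0, 0, 0, 0, 0, 0, 0, 0, 0, 0, 0, 0, 0, 0, 0, 0, 0, 0, 0, 0, 1, 0, 1, 1, 0, 0, 0, 0, 0, 0,
  0, 0, 0, 0, 0, 0, 0, 0, 0, 0, 0, 0, 0, 1, 1, 1, 1, 1, 1, 0, 0, 0, 0, 0, 0, 0, 0, 0, 0, 0, 0,
  0, 0, 0, 0, 0, 1, 1, 2, 2, 2, 2, 2, 1, 0, 0, 0, 0, 0, 0, 0, 0, 0, 0, 0, 0, 0, 0, 0, 1, 1, 2,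
  3, 4, 4, 3, 3, 2, 1, 0, 0, 0, 0, 0, 0, 0, 0, 0, 0, 0, 0, 0, 0, 1, 2, 3, 5, 6, 6, 6, 5, 4, 3,
  1, 0, 0, 0, 0, 0, 0, 0, 0, 0, 0, 0, 0, 0, 2, 3, 5, 7, 9, 10, 11, 9, 7, 6, 3, 1, 0, 0, 0, 0, 0,
  0, 0, 0, 0, 0, 0, 1, 2, 4, 7, 10, 13, 16, 17, 15, 13, 10, 7, 4, 1, 0, 0, 0, 0, 0, 0, 0, 0, 0,
  0, 1, 2, 5, 10]

def w_25_3 : W :=
  ⟨25, 3, 188, 21, 735645747179702335663101195753544755782979053780257996800, PB_25_3, AL_25_3⟩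

def t_25_3 : Tr :=
    (.b 23 2 (.d 44) (.b 24 3 (.d 45) (.b 19 23 (.d 65) (.b 20 24 (.d 66) (.b 21 25 (.d 67) (.b 22
    26 (.d 68) (.b 23 27 (.b 24 28 (.b 23 25 (.b 24 25 (.b 23 24 (.d 72) (.b 17 46 (.d 88) (.b 18
    47 (.d 89) (.b 19 48 (.d 90) (.b 20 49 (.d 91) (.b 21 50 (.b 22 51 (.b 24 5 (.b 21 48 (.b 24 4
    (.b 22 49 (.b 21 47 (.b 22 48 (.b 15 69 (.d 111) (.b 16 70 (.d 112) (.b 17 71 (.d 113) (.b 18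
    72 (.d 114) (.b 19 71 (.b 21 27 (.d 115) (.b 20 74 (.b 22 28 (.b 22 27 (.b 20 72 (.b 19 70 (.b
    20 71 (.b 14 93 (.d 135) (.b 15 94 (.d 136) (.b 16 95 (.d 137) (.b 17 94 (.b 19 50 (.d 138)
    (.b 18 97 (.b 20 51 (.b 20 50 (.b 18 95 (.b 17 93 (.b 18 94 (.b 13 117 (.d 159) (.b 14 118 (.d
    160) (.b 15 119 (.d 161) (.b 17 73 (.d 161) (.b 16 118 (.b 18 74 (.d 162) (.b 21 29 (.b 21 28
    (.b 16 117 (.b 11 140 (.d 182) (.b 12 141 (.d 183) (.b 13 142 (.d 184) (.b 14 143 (.d 185) (.b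
    16 97 (.d 185) (.b 15 144 (.d 186) (.b 19 52 (.d 186) (.u 188)))))))) (.u 165)) (.u 164)) (.u
    163))) (.u 164)))))) (.u 142)) (.u 141)) (.u 141)) (.u 140)) (.u 139)) (.u 139))) (.u 140)))))
    (.u 119)) (.u 118)) (.u 118)) (.u 117)) (.u 116)) (.u 116))) (.u 117)))))) (.u 96)) (.u 95))
    (.u 95)) (.u 94)) (.u 94)) (.u 93)) (.u 93)) (.u 92))))))) (.u 73)) (.u 71)) (.u 70)) (.u
    69))))))))

theorem ok_25_3 : okW w_25_3 = true := by decide +kernel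

theorem ck_25_3 : ckk 25 188 21 735645747179702335663101195753544755782979053780257996800
    PB_25_3 AL_25_3 [] t_25_3 (List.replicate 25 1) (List.replicate 25 INF) = true := by
  decide +kernel

def PB_26_3 : List ℕ :=
  [196, 195, 194, 193, 181, 180, 179, 178, 177, 176, 175, 174, 173, 172, 171, 170, 169, 168,
  155, 154, 153, 152, 151, 150, 149, 148, 147, 146, 145, 144, 129, 128, 127, 126, 125, 124, 123,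
  122, 121, 120, 119, 103, 102, 101, 100, 99, 98, 97, 96, 95, 94, 77, 76, 75, 74, 73, 72, 71,
  70, 51, 50, 49, 48, 47, 46, 25, 24, 22]

def AL_26_3 : List ℕ :=
  [1, 0, 0, 0, 0, 0, 0, 0, 0, 0, 0, 0, 0, 0, 0, 0, 0, 0, 0, 0, 0, 0, 1, 0, 1, 1, 0, 0, 0, 0, 0,
  0, 0, 0, 0, 0, 0, 0, 0, 0, 0, 0, 0, 0, 0, 0, 1, 1, 1, 1, 1, 1, 0, 0, 0, 0, 0, 0, 0, 0, 0, 0,
  0, 0, 0, 0, 0, 0, 0, 0, 1, 1, 2, 2, 2, 2, 2, 1, 0, 0, 0, 0, 0, 0, 0, 0, 0, 0, 0, 0, 0, 0, 0,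
  0, 1, 1, 2, 3, 4, 4, 3, 3, 2, 1, 0, 0, 0, 0, 0, 0, 0, 0, 0, 0, 0, 0, 0, 0, 0, 1, 2, 3, 5, 6,
  6, 6, 5, 4, 3, 1, 0, 0, 0, 0, 0, 0, 0, 0, 0, 0, 0, 0, 0, 0, 2, 3, 5, 7, 9, 10, 11, 9, 7, 6, 3,
  1, 0, 0, 0, 0, 0, 0, 0, 0, 0, 0, 0, 0, 1, 2, 4, 7, 10, 13, 16, 17, 15, 13, 10, 7, 4, 1, 0, 0,
  0, 0, 0, 0, 0, 0, 0, 0, 0, 1, 2, 5, 10]

def w_26_3 : W :=
  ⟨26, 3, 196, 22, 188319181669710788866744416799908329570754198880774646661120, PB_26_3, AL_26_3⟩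

def t_26_3 : Tr :=
    (.b 24 2 (.d 46) (.b 25 3 (.d 47) (.b 20 24 (.d 68) (.b 21 25 (.d 69) (.b 22 26 (.d 70) (.b 23
    27 (.d 71) (.b 24 28 (.b 25 29 (.b 24 26 (.b 25 26 (.b 24 25 (.d 75) (.b 18 48 (.d 92) (.b 19
    49 (.d 93) (.b 20 50 (.d 94) (.b 21 51 (.d 95) (.b 22 52 (.b 23 53 (.b 25 5 (.b 22 50 (.b 25 4
    (.b 23 51 (.b 22 49 (.b 23 50 (.b 16 72 (.d 116) (.b 17 73 (.d 117) (.b 18 74 (.d 118) (.b 19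
    75 (.d 119) (.b 20 74 (.b 22 28 (.d 120) (.b 21 77 (.b 23 29 (.b 23 28 (.b 21 75 (.b 20 73 (.b
    21 74 (.b 15 97 (.d 141) (.b 16 98 (.d 142) (.b 17 99 (.d 143) (.b 18 98 (.b 20 52 (.d 144)
    (.b 19 101 (.b 21 53 (.b 21 52 (.b 19 99 (.b 18 97 (.b 19 98 (.b 14 122 (.d 166) (.b 15 123
    (.d 167) (.b 16 124 (.d 168) (.b 18 76 (.d 168) (.b 17 123 (.b 19 77 (.d 169) (.b 22 30 (.b 22
    29 (.b 17 122 (.b 12 146 (.d 190) (.b 13 147 (.d 191) (.b 14 148 (.d 192) (.b 15 149 (.d 193)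
    (.b 17 101 (.d 193) (.b 16 150 (.d 194) (.b 20 54 (.d 194) (.u 196)))))))) (.u 172)) (.u 171))
    (.u 170))) (.u 171)))))) (.u 148)) (.u 147)) (.u 147)) (.u 146)) (.u 145)) (.u 145))) (.u
    146))))) (.u 124)) (.u 123)) (.u 123)) (.u 122)) (.u 121)) (.u 121))) (.u 122)))))) (.u 100))
    (.u 99)) (.u 99)) (.u 98)) (.u 98)) (.u 97)) (.u 97)) (.u 96))))))) (.u 76)) (.u 74)) (.u 73))
    (.u 72))))))))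

theorem ok_26_3 : okW w_26_3 = true := by decide +kernel

theorem ck_26_3 : ckk 26 196 22 188319181669710788866744416799908329570754198880774646661120
    PB_26_3 AL_26_3 [] t_26_3 (List.replicate 26 1) (List.replicate 26 INF) = true := by
  decide +kernel

def PB_27_3 : List ℕ :=
  [204, 203, 202, 201, 188, 187, 186, 185, 184, 183, 182, 181, 180, 179, 178, 177, 176, 175,
  161, 160, 159, 158, 157, 156, 155, 154, 153, 152, 151, 150, 134, 133, 132, 131, 130, 129, 128,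
  127, 126, 125, 124, 107, 106, 105, 104, 103, 102, 101, 100, 99, 98, 80, 79, 78, 77, 76, 75,
  74, 73, 53, 52, 51, 50, 49, 48, 26, 25, 23]

def AL_27_3 : List ℕ :=
  [1, 0, 0, 0, 0, 0, 0, 0, 0, 0, 0, 0, 0, 0, 0, 0, 0, 0, 0, 0, 0, 0, 0, 1, 0, 1, 1, 0, 0, 0, 0,
  0, 0, 0, 0, 0, 0, 0, 0, 0, 0, 0, 0, 0, 0, 0, 0, 0, 1, 1, 1, 1, 1, 1, 0, 0, 0, 0, 0, 0, 0, 0,
  0, 0, 0, 0, 0, 0, 0, 0, 0, 0, 0, 1, 1, 2, 2, 2, 2, 2, 1, 0, 0, 0, 0, 0, 0, 0, 0, 0, 0, 0, 0,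
  0, 0, 0, 0, 0, 1, 1, 2, 3, 4, 4, 3, 3, 2, 1, 0, 0, 0, 0, 0, 0, 0, 0, 0, 0, 0, 0, 0, 0, 0, 0,
  1, 2, 3, 5, 6, 6, 6, 5, 4, 3, 1, 0, 0, 0, 0, 0, 0, 0, 0, 0, 0, 0, 0, 0, 0, 0, 2, 3, 5, 7, 9,
  10, 11, 9, 7, 6, 3, 1, 0, 0, 0, 0, 0, 0, 0, 0, 0, 0, 0, 0, 0, 1, 2, 4, 7, 10, 13, 16, 17, 15,
  13, 10, 7, 4, 1, 0, 0, 0, 0, 0, 0, 0, 0, 0, 0, 0, 0, 1, 2, 5, 10]

def w_27_3 : W :=
  ⟨27, 3, 204, 23, 48208925917601990528640481201569517324651958384679759233679360, PB_27_3, AL_27_3⟩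

def t_27_3 : Tr :=
    (.b 25 2 (.d 48) (.b 26 3 (.d 49) (.b 21 25 (.d 71) (.b 22 26 (.d 72) (.b 23 27 (.d 73) (.b 24
    28 (.d 74) (.b 25 29 (.b 26 30 (.b 25 27 (.b 26 27 (.b 25 26 (.d 78) (.b 19 50 (.d 96) (.b 20
    51 (.d 97) (.b 21 52 (.d 98) (.b 22 53 (.d 99) (.b 23 54 (.b 24 55 (.b 26 5 (.b 23 52 (.b 26 4
    (.b 24 53 (.b 23 51 (.b 24 52 (.b 17 75 (.d 121) (.b 18 76 (.d 122) (.b 19 77 (.d 123) (.b 20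
    78 (.d 124) (.b 21 77 (.b 23 29 (.d 125) (.b 22 80 (.b 24 30 (.b 24 29 (.b 22 78 (.b 21 76 (.b
    22 77 (.b 16 101 (.d 147) (.b 17 102 (.d 148) (.b 18 103 (.d 149) (.b 19 102 (.b 21 54 (.d
    150) (.b 20 105 (.b 22 55 (.b 22 54 (.b 20 103 (.b 19 101 (.b 20 102 (.b 15 127 (.d 173) (.b
    16 128 (.d 174) (.b 17 129 (.d 175) (.b 19 79 (.d 175) (.b 18 128 (.b 20 80 (.d 176) (.b 23 31
    (.b 23 30 (.b 18 127 (.b 13 152 (.d 198) (.b 14 153 (.d 199) (.b 15 154 (.d 200) (.b 16 155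
    (.d 201) (.b 18 105 (.d 201) (.b 17 156 (.d 202) (.b 21 56 (.d 202) (.u 204)))))))) (.u 179))
    (.u 178)) (.u 177))) (.u 178)))))) (.u 154)) (.u 153)) (.u 153)) (.u 152)) (.u 151)) (.u
    151))) (.u 152))))) (.u 129)) (.u 128)) (.u 128)) (.u 127)) (.u 126)) (.u 126))) (.u 127))))))
    (.u 104)) (.u 103)) (.u 103)) (.u 102)) (.u 102)) (.u 101)) (.u 101)) (.u 100))))))) (.u 79))
    (.u 77)) (.u 76)) (.u 75))))))))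

theorem ok_27_3 : okW w_27_3 = true := by decide +kernel

theorem ck_27_3 : ckk 27 204 23 48208925917601990528640481201569517324651958384679759233679360
    PB_27_3 AL_27_3 [] t_27_3 (List.replicate 27 1) (List.replicate 27 INF) = true := by
  decide +kernel

end Pool.Agent.W2helper10.E9
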