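import Pool.Agent.W2helper10.E9.Chk

set_option autoImplicit false
set_option maxRecDepth 1000000

namespace Pool.Agent.W2helper10.E9

open Pool.Agent.MPe9218d Pool.Agent.H372R3.GD Pool.Agent.H372R3.GE

def PB_28_3 : List ℕ :=
  [212, 211, 210, 209, 195, 194, 193, 192, 191, 190, 189, 188, 187, 186, 185, 184, 183, 182,
  167, 166, 165, 164, 163, 162, 161, 160, 159, 158, 157, 156, 139, 138, 137, 136, 135, 134, 133,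
  132, 131, 130, 129, 111, 110, 109, 108, 107, 106, 105, 104, 103, 102, 83, 82, 81, 80, 79, 78,
  77, 76, 55, 54, 53, 52, 51, 50, 27, 26, 24]

def AL_28_3 : List ℕ :=
  [1, 0, 0, 0, 0, 0, 0, 0, 0, 0, 0, 0, 0, 0, 0, 0, 0, 0, 0, 0, 0, 0, 0, 0, 1, 0, 1, 1, 0, 0, 0,
  0, 0, 0, 0, 0, 0, 0, 0, 0, 0, 0, 0, 0, 0, 0, 0, 0, 0, 0, 1, 1, 1, 1, 1, 1, 0, 0, 0, 0, 0, 0,
  0, 0, 0, 0, 0, 0, 0, 0, 0, 0, 0, 0, 0, 0, 1, 1, 2, 2, 2, 2, 2, 1, 0, 0, 0, 0, 0, 0, 0, 0, 0,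
  0, 0, 0, 0, 0, 0, 0, 0, 0, 1, 1, 2, 3, 4, 4, 3, 3, 2, 1, 0, 0, 0, 0, 0, 0, 0, 0, 0, 0, 0, 0,
  0, 0, 0, 0, 0, 1, 2, 3, 5, 6, 6, 6, 5, 4, 3, 1, 0, 0, 0, 0, 0, 0, 0, 0, 0, 0, 0, 0, 0, 0, 0,
  0, 2, 3, 5, 7, 9, 10, 11, 9, 7, 6, 3, 1, 0, 0, 0, 0, 0, 0, 0, 0, 0, 0, 0, 0, 0, 0, 1, 2, 4, 7,
  10, 13, 16, 17, 15, 13, 10, 7, 4, 1, 0, 0, 0, 0, 0, 0, 0, 0, 0, 0, 0, 0, 0, 1, 2, 5, 10]

def w_28_3 : W :=
  ⟨28, 3, 212, 24, 12341384607407203392667632302358501305363633444824137116562751488, PB_28_3, AL_28_3⟩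

def t_28_3 : Tr :=
    (.b 26 2 (.d 50) (.b 27 3 (.d 51) (.b 22 26 (.d 74) (.b 23 27 (.d 75) (.b 24 28 (.d 76) (.b 25
    29 (.d 77) (.b 26 30 (.b 27 31 (.b 26 28 (.b 27 28 (.b 26 27 (.d 81) (.b 20 52 (.d 100) (.b 21
    53 (.d 101) (.b 22 54 (.d 102) (.b 23 55 (.d 103) (.b 24 56 (.b 25 57 (.b 27 5 (.b 24 54 (.b
    27 4 (.b 25 55 (.b 24 53 (.b 25 54 (.b 18 78 (.d 126) (.b 19 79 (.d 127) (.b 20 80 (.d 128)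
    (.b 21 81 (.d 129) (.b 22 80 (.b 24 30 (.d 130) (.b 23 83 (.b 25 31 (.b 25 30 (.b 23 81 (.b 22
    79 (.b 23 80 (.b 17 105 (.d 153) (.b 18 106 (.d 154) (.b 19 107 (.d 155) (.b 20 106 (.b 22 56
    (.d 156) (.b 21 109 (.b 23 57 (.b 23 56 (.b 21 107 (.b 20 105 (.b 21 106 (.b 16 132 (.d 180)
    (.b 17 133 (.d 181) (.b 18 134 (.d 182) (.b 20 82 (.d 182) (.b 19 133 (.b 21 83 (.d 183) (.b
    24 32 (.b 24 31 (.b 19 132 (.b 14 158 (.d 206) (.b 15 159 (.d 207) (.b 16 160 (.d 208) (.b 17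
    161 (.d 209) (.b 19 109 (.d 209) (.b 18 162 (.d 210) (.b 22 58 (.d 210) (.u 212)))))))) (.u
    186)) (.u 185)) (.u 184))) (.u 185)))))) (.u 160)) (.u 159)) (.u 159)) (.u 158)) (.u 157)) (.u
    157))) (.u 158))))) (.u 134)) (.u 133)) (.u 133)) (.u 132)) (.u 131)) (.u 131))) (.u 132))))))
    (.u 108)) (.u 107)) (.u 107)) (.u 106)) (.u 106)) (.u 105)) (.u 105)) (.u 104))))))) (.u 82))
    (.u 80)) (.u 79)) (.u 78))))))))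

theorem ok_28_3 : okW w_28_3 = true := by decide +kernel

theorem ck_28_3 : ckk 28 212 24 12341384607407203392667632302358501305363633444824137116562751488
    PB_28_3 AL_28_3 [] t_28_3 (List.replicate 28 1) (List.replicate 28 INF) = true := by
  decide +kernel

def PB_29_3 : List ℕ :=
  [220, 219, 218, 217, 202, 201, 200, 199, 198, 197, 196, 195, 194, 193, 192, 191, 190, 189,
  173, 172, 171, 170, 169, 168, 167, 166, 165, 164, 163, 162, 144, 143, 142, 141, 140, 139, 138,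
  137, 136, 135, 134, 115, 114, 113, 112, 111, 110, 109, 108, 107, 106, 86, 85, 84, 83, 82, 81,
  80, 79, 57, 56, 55, 54, 53, 52, 28, 27, 25]

def AL_29_3 : List ℕ :=
  [1, 0, 0, 0, 0, 0, 0, 0, 0, 0, 0, 0, 0, 0, 0, 0, 0, 0, 0, 0, 0, 0, 0, 0, 0, 1, 0, 1, 1, 0, 0,
  0, 0, 0, 0, 0, 0, 0, 0, 0, 0, 0, 0, 0, 0, 0, 0, 0, 0, 0, 0, 0, 1, 1, 1, 1, 1, 1, 0, 0, 0, 0,
  0, 0, 0, 0, 0, 0, 0, 0, 0, 0, 0, 0, 0, 0, 0, 0, 0, 1, 1, 2, 2, 2, 2, 2, 1, 0, 0, 0, 0, 0, 0,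
  0, 0, 0, 0, 0, 0, 0, 0, 0, 0, 0, 0, 0, 1, 1, 2, 3, 4, 4, 3, 3, 2, 1, 0, 0, 0, 0, 0, 0, 0, 0,
  0, 0, 0, 0, 0, 0, 0, 0, 0, 0, 1, 2, 3, 5, 6, 6, 6, 5, 4, 3, 1, 0, 0, 0, 0, 0, 0, 0, 0, 0, 0,
  0, 0, 0, 0, 0, 0, 0, 2, 3, 5, 7, 9, 10, 11, 9, 7, 6, 3, 1, 0, 0, 0, 0, 0, 0, 0, 0, 0, 0, 0, 0,
  0, 0, 0, 1, 2, 4, 7, 10, 13, 16, 17, 15, 13, 10, 7, 4, 1, 0, 0, 0, 0, 0, 0, 0, 0, 0, 0, 0, 0,
  0, 0, 1, 2, 5, 10]

def w_29_3 : W :=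
  ⟨29, 3, 220, 25, 3159381604776455895333274130629586771250748320801720938827905761280, PB_29_3, AL_29_3⟩

def t_29_3 : Tr :=
    (.b 27 2 (.d 52) (.b 28 3 (.d 53) (.b 23 27 (.d 77) (.b 24 28 (.d 78) (.b 25 29 (.d 79) (.b 26
    30 (.d 80) (.b 27 31 (.b 28 32 (.b 27 29 (.b 28 29 (.b 27 28 (.d 84) (.b 21 54 (.d 104) (.b 22
    55 (.d 105) (.b 23 56 (.d 106) (.b 24 57 (.d 107) (.b 25 58 (.b 26 59 (.b 28 5 (.b 25 56 (.b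
    28 4 (.b 26 57 (.b 25 55 (.b 26 56 (.b 19 81 (.d 131) (.b 20 82 (.d 132) (.b 21 83 (.d 133)
    (.b 22 84 (.d 134) (.b 23 83 (.b 25 31 (.d 135) (.b 24 86 (.b 26 32 (.b 26 31 (.b 24 84 (.b 23
    82 (.b 24 83 (.b 18 109 (.d 159) (.b 19 110 (.d 160) (.b 20 111 (.d 161) (.b 21 110 (.b 23 58
    (.d 162) (.b 22 113 (.b 24 59 (.b 24 58 (.b 22 111 (.b 21 109 (.b 22 110 (.b 17 137 (.d 187)
    (.b 18 138 (.d 188) (.b 19 139 (.d 189) (.b 21 85 (.d 189) (.b 20 138 (.b 22 86 (.d 190) (.b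
    25 33 (.b 25 32 (.b 20 137 (.b 15 164 (.d 214) (.b 16 165 (.d 215) (.b 17 166 (.d 216) (.b 18
    167 (.d 217) (.b 20 113 (.d 217) (.b 19 168 (.d 218) (.b 23 60 (.d 218) (.u 220)))))))) (.u
    193)) (.u 192)) (.u 191))) (.u 192)))))) (.u 166)) (.u 165)) (.u 165)) (.u 164)) (.u 163)) (.u
    163))) (.u 164))))) (.u 139)) (.u 138)) (.u 138)) (.u 137)) (.u 136)) (.u 136))) (.u 137))))))
    (.u 112)) (.u 111)) (.u 111)) (.u 110)) (.u 110)) (.u 109)) (.u 109)) (.u 108))))))) (.u 85))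
    (.u 83)) (.u 82)) (.u 81))))))))

theorem ok_29_3 : okW w_29_3 = true := by decide +kernel

theorem ck_29_3 : ckk 29 220 25 3159381604776455895333274130629586771250748320801720938827905761280
    PB_29_3 AL_29_3 [] t_29_3 (List.replicate 29 1) (List.replicate 29 INF) = true := by
  decide +kernel

def PB_30_3 : List ℕ :=
  [228, 227, 226, 225, 209, 208, 207, 206, 205, 204, 203, 202, 201, 200, 199, 198, 197, 196,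
  179, 178, 177, 176, 175, 174, 173, 172, 171, 170, 169, 168, 149, 148, 147, 146, 145, 144, 143,
  142, 141, 140, 139, 119, 118, 117, 116, 115, 114, 113, 112, 111, 110, 89, 88, 87, 86, 85, 84,
  83, 82, 59, 58, 57, 56, 55, 54, 29, 28, 26]

def AL_30_3 : List ℕ :=
  [1, 0, 0, 0, 0, 0, 0, 0, 0, 0, 0, 0, 0, 0, 0, 0, 0, 0, 0, 0, 0, 0, 0, 0, 0, 0, 1, 0, 1, 1, 0,
  0, 0, 0, 0, 0, 0, 0, 0, 0, 0, 0, 0, 0, 0, 0, 0, 0, 0, 0, 0, 0, 0, 0, 1, 1, 1, 1, 1, 1, 0, 0,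
  0, 0, 0, 0, 0, 0, 0, 0, 0, 0, 0, 0, 0, 0, 0, 0, 0, 0, 0, 0, 1, 1, 2, 2, 2, 2, 2, 1, 0, 0, 0,
  0, 0, 0, 0, 0, 0, 0, 0, 0, 0, 0, 0, 0, 0, 0, 0, 0, 1, 1, 2, 3, 4, 4, 3, 3, 2, 1, 0, 0, 0, 0,
  0, 0, 0, 0, 0, 0, 0, 0, 0, 0, 0, 0, 0, 0, 0, 1, 2, 3, 5, 6, 6, 6, 5, 4, 3, 1, 0, 0, 0, 0, 0,
  0, 0, 0, 0, 0, 0, 0, 0, 0, 0, 0, 0, 0, 2, 3, 5, 7, 9, 10, 11, 9, 7, 6, 3, 1, 0, 0, 0, 0, 0, 0,
  0, 0, 0, 0, 0, 0, 0, 0, 0, 0, 1, 2, 4, 7, 10, 13, 16, 17, 15, 13, 10, 7, 4, 1, 0, 0, 0, 0, 0,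
  0, 0, 0, 0, 0, 0, 0, 0, 0, 0, 1, 2, 5, 10]

def w_30_3 : W :=
  ⟨30, 3, 228, 26, 808800045418644419401263588641341804510902374387741678586927010283520, PB_30_3, AL_30_3⟩

def t_30_3 : Tr :=
    (.b 28 2 (.d 54) (.b 29 3 (.d 55) (.b 24 28 (.d 80) (.b 25 29 (.d 81) (.b 26 30 (.d 82) (.b 27
    31 (.d 83) (.b 28 32 (.b 29 33 (.b 28 30 (.b 29 30 (.b 28 29 (.d 87) (.b 22 56 (.d 108) (.b 23
    57 (.d 109) (.b 24 58 (.d 110) (.b 25 59 (.d 111) (.b 26 60 (.b 27 61 (.b 29 5 (.b 26 58 (.b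
    29 4 (.b 27 59 (.b 26 57 (.b 27 58 (.b 20 84 (.d 136) (.b 21 85 (.d 137) (.b 22 86 (.d 138)
    (.b 23 87 (.d 139) (.b 24 86 (.b 26 32 (.d 140) (.b 25 89 (.b 27 33 (.b 27 32 (.b 25 87 (.b 24
    85 (.b 25 86 (.b 19 113 (.d 165) (.b 20 114 (.d 166) (.b 21 115 (.d 167) (.b 22 114 (.b 24 60
    (.d 168) (.b 23 117 (.b 25 61 (.b 25 60 (.b 23 115 (.b 22 113 (.b 23 114 (.b 18 142 (.d 194)
    (.b 19 143 (.d 195) (.b 20 144 (.d 196) (.b 22 88 (.d 196) (.b 21 143 (.b 23 89 (.d 197) (.b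
    26 34 (.b 26 33 (.b 21 142 (.b 16 170 (.d 222) (.b 17 171 (.d 223) (.b 18 172 (.d 224) (.b 19
    173 (.d 225) (.b 21 117 (.d 225) (.b 20 174 (.d 226) (.b 24 62 (.d 226) (.u 228)))))))) (.u
    200)) (.u 199)) (.u 198))) (.u 199)))))) (.u 172)) (.u 171)) (.u 171)) (.u 170)) (.u 169)) (.u
    169))) (.u 170))))) (.u 144)) (.u 143)) (.u 143)) (.u 142)) (.u 141)) (.u 141))) (.u 142))))))
    (.u 116)) (.u 115)) (.u 115)) (.u 114)) (.u 114)) (.u 113)) (.u 113)) (.u 112))))))) (.u 88))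
    (.u 86)) (.u 85)) (.u 84))))))))

theorem ok_30_3 : okW w_30_3 = true := by decide +kernel

theorem ck_30_3 : ckk 30 228 26 808800045418644419401263588641341804510902374387741678586927010283520
    PB_30_3 AL_30_3 [] t_30_3 (List.replicate 30 1) (List.replicate 30 INF) = true := by
  decide +kernel

def PB_31_3 : List ℕ :=
  [236, 235, 234, 233, 216, 215, 214, 213, 212, 211, 210, 209, 208, 207, 206, 205, 204, 203,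
  185, 184, 183, 182, 181, 180, 179, 178, 177, 176, 175, 174, 154, 153, 152, 151, 150, 149, 148,
  147, 146, 145, 144, 123, 122, 121, 120, 119, 118, 117, 116, 115, 114, 92, 91, 90, 89, 88, 87,
  86, 85, 61, 60, 59, 58, 57, 56, 30, 29, 27]

def AL_31_3 : List ℕ :=
  [1, 0, 0, 0, 0, 0, 0, 0, 0, 0, 0, 0, 0, 0, 0, 0, 0, 0, 0, 0, 0, 0, 0, 0, 0, 0, 0, 1, 0, 1, 1,
  0, 0, 0, 0, 0, 0, 0, 0, 0, 0, 0, 0, 0, 0, 0, 0, 0, 0, 0, 0, 0, 0, 0, 0, 0, 1, 1, 1, 1, 1, 1,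
  0, 0, 0, 0, 0, 0, 0, 0, 0, 0, 0, 0, 0, 0, 0, 0, 0, 0, 0, 0, 0, 0, 0, 1, 1, 2, 2, 2, 2, 2, 1,
  0, 0, 0, 0, 0, 0, 0, 0, 0, 0, 0, 0, 0, 0, 0, 0, 0, 0, 0, 0, 0, 1, 1, 2, 3, 4, 4, 3, 3, 2, 1,
  0, 0, 0, 0, 0, 0, 0, 0, 0, 0, 0, 0, 0, 0, 0, 0, 0, 0, 0, 0, 1, 2, 3, 5, 6, 6, 6, 5, 4, 3, 1,
  0, 0, 0, 0, 0, 0, 0, 0, 0, 0, 0, 0, 0, 0, 0, 0, 0, 0, 0, 2, 3, 5, 7, 9, 10, 11, 9, 7, 6, 3, 1,
  0, 0, 0, 0, 0, 0, 0, 0, 0, 0, 0, 0, 0, 0, 0, 0, 0, 1, 2, 4, 7, 10, 13, 16, 17, 15, 13, 10, 7,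
  4, 1, 0, 0, 0, 0, 0, 0, 0, 0, 0, 0, 0, 0, 0, 0, 0, 0, 1, 2, 5, 10]

def w_31_3 : W :=
  ⟨31, 3, 236, 27, 207052601015444844439113567740513298337093497168653597061086387267174400, PB_31_3, AL_31_3⟩

def t_31_3 : Tr :=
    (.b 29 2 (.d 56) (.b 30 3 (.d 57) (.b 25 29 (.d 83) (.b 26 30 (.d 84) (.b 27 31 (.d 85) (.b 28
    32 (.d 86) (.b 29 33 (.b 30 34 (.b 29 31 (.b 30 31 (.b 29 30 (.d 90) (.b 23 58 (.d 112) (.b 24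
    59 (.d 113) (.b 25 60 (.d 114) (.b 26 61 (.d 115) (.b 27 62 (.b 28 63 (.b 30 5 (.b 27 60 (.b
    30 4 (.b 28 61 (.b 27 59 (.b 28 60 (.b 21 87 (.d 141) (.b 22 88 (.d 142) (.b 23 89 (.d 143)
    (.b 24 90 (.d 144) (.b 25 89 (.b 27 33 (.d 145) (.b 26 92 (.b 28 34 (.b 28 33 (.b 26 90 (.b 25
    88 (.b 26 89 (.b 20 117 (.d 171) (.b 21 118 (.d 172) (.b 22 119 (.d 173) (.b 23 118 (.b 25 62
    (.d 174) (.b 24 121 (.b 26 63 (.b 26 62 (.b 24 119 (.b 23 117 (.b 24 118 (.b 19 147 (.d 201)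
    (.b 20 148 (.d 202) (.b 21 149 (.d 203) (.b 23 91 (.d 203) (.b 22 148 (.b 24 92 (.d 204) (.b
    27 35 (.b 27 34 (.b 22 147 (.b 17 176 (.d 230) (.b 18 177 (.d 231) (.b 19 178 (.d 232) (.b 20
    179 (.d 233) (.b 22 121 (.d 233) (.b 21 180 (.d 234) (.b 25 64 (.d 234) (.u 236)))))))) (.u
    207)) (.u 206)) (.u 205))) (.u 206)))))) (.u 178)) (.u 177)) (.u 177)) (.u 176)) (.u 175)) (.u
    175))) (.u 176))))) (.u 149)) (.u 148)) (.u 148)) (.u 147)) (.u 146)) (.u 146))) (.u 147))))))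
    (.u 120)) (.u 119)) (.u 119)) (.u 118)) (.u 118)) (.u 117)) (.u 117)) (.u 116))))))) (.u 91))
    (.u 89)) (.u 88)) (.u 87))))))))

theorem ok_31_3 : okW w_31_3 = true := by decide +kernel

theorem ck_31_3 : ckk 31 236 27 207052601015444844439113567740513298337093497168653597061086387267174400
    PB_31_3 AL_31_3 [] t_31_3 (List.replicate 31 1) (List.replicate 31 INF) = true := by
  decide +kernel

def PB_32_3 : List ℕ :=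
  [244, 243, 242, 241, 223, 222, 221, 220, 219, 218, 217, 216, 215, 214, 213, 212, 211, 210,
  191, 190, 189, 188, 187, 186, 185, 184, 183, 182, 181, 180, 159, 158, 157, 156, 155, 154, 153,
  152, 151, 150, 149, 127, 126, 125, 124, 123, 122, 121, 120, 119, 118, 95, 94, 93, 92, 91, 90,
  89, 88, 63, 62, 61, 60, 59, 58, 31, 30, 28]

def AL_32_3 : List ℕ :=
  [1, 0, 0, 0, 0, 0, 0, 0, 0, 0, 0, 0, 0, 0, 0, 0, 0, 0, 0, 0, 0, 0, 0, 0, 0, 0, 0, 0, 1, 0, 1,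
  1, 0, 0, 0, 0, 0, 0, 0, 0, 0, 0, 0, 0, 0, 0, 0, 0, 0, 0, 0, 0, 0, 0, 0, 0, 0, 0, 1, 1, 1, 1,
  1, 1, 0, 0, 0, 0, 0, 0, 0, 0, 0, 0, 0, 0, 0, 0, 0, 0, 0, 0, 0, 0, 0, 0, 0, 0, 1, 1, 2, 2, 2,
  2, 2, 1, 0, 0, 0, 0, 0, 0, 0, 0, 0, 0, 0, 0, 0, 0, 0, 0, 0, 0, 0, 0, 0, 0, 1, 1, 2, 3, 4, 4,
  3, 3, 2, 1, 0, 0, 0, 0, 0, 0, 0, 0, 0, 0, 0, 0, 0, 0, 0, 0, 0, 0, 0, 0, 0, 1, 2, 3, 5, 6, 6,
  6, 5, 4, 3, 1, 0, 0, 0, 0, 0, 0, 0, 0, 0, 0, 0, 0, 0, 0, 0, 0, 0, 0, 0, 0, 2, 3, 5, 7, 9, 10,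
  11, 9, 7, 6, 3, 1, 0, 0, 0, 0, 0, 0, 0, 0, 0, 0, 0, 0, 0, 0, 0, 0, 0, 0, 1, 2, 4, 7, 10, 13,
  16, 17, 15, 13, 10, 7, 4, 1, 0, 0, 0, 0, 0, 0, 0, 0, 0, 0, 0, 0, 0, 0, 0, 0, 0, 1, 2, 5, 10]

def w_32_3 : W :=
  ⟨32, 3, 244, 28, 53005438901652698756386754953750562113828914483012964086632226601197109248, PB_32_3, AL_32_3⟩

def t_32_3 : Tr :=
    (.b 30 2 (.d 58) (.b 31 3 (.d 59) (.b 26 30 (.d 86) (.b 27 31 (.d 87) (.b 28 32 (.d 88) (.b 29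
    33 (.d 89) (.b 30 34 (.b 31 35 (.b 30 32 (.b 31 32 (.b 30 31 (.d 93) (.b 24 60 (.d 116) (.b 25
    61 (.d 117) (.b 26 62 (.d 118) (.b 27 63 (.d 119) (.b 28 64 (.b 29 65 (.b 31 5 (.b 28 62 (.b
    31 4 (.b 29 63 (.b 28 61 (.b 29 62 (.b 22 90 (.d 146) (.b 23 91 (.d 147) (.b 24 92 (.d 148)
    (.b 25 93 (.d 149) (.b 26 92 (.b 28 34 (.d 150) (.b 27 95 (.b 29 35 (.b 29 34 (.b 27 93 (.b 26
    91 (.b 27 92 (.b 21 121 (.d 177) (.b 22 122 (.d 178) (.b 23 123 (.d 179) (.b 24 122 (.b 26 64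
    (.d 180) (.b 25 125 (.b 27 65 (.b 27 64 (.b 25 123 (.b 24 121 (.b 25 122 (.b 20 152 (.d 208)
    (.b 21 153 (.d 209) (.b 22 154 (.d 210) (.b 24 94 (.d 210) (.b 23 153 (.b 25 95 (.d 211) (.b
    28 36 (.b 28 35 (.b 23 152 (.b 18 182 (.d 238) (.b 19 183 (.d 239) (.b 20 184 (.d 240) (.b 21
    185 (.d 241) (.b 23 125 (.d 241) (.b 22 186 (.d 242) (.b 26 66 (.d 242) (.u 244)))))))) (.u
    214)) (.u 213)) (.u 212))) (.u 213)))))) (.u 184)) (.u 183)) (.u 183)) (.u 182)) (.u 181)) (.u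
    181))) (.u 182))))) (.u 154)) (.u 153)) (.u 153)) (.u 152)) (.u 151)) (.u 151))) (.u 152))))))
    (.u 124)) (.u 123)) (.u 123)) (.u 122)) (.u 122)) (.u 121)) (.u 121)) (.u 120))))))) (.u 94))
    (.u 92)) (.u 91)) (.u 90))))))))

theorem ok_32_3 : okW w_32_3 = true := by decide +kernel

theorem ck_32_3 : ckk 32 244 28 53005438901652698756386754953750562113828914483012964086632226601197109248
    PB_32_3 AL_32_3 [] t_32_3 (List.replicate 32 1) (List.replicate 32 INF) = true := by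
  decide +kernel

def PB_33_3 : List ℕ :=
  [252, 251, 250, 249, 230, 229, 228, 227, 226, 225, 224, 223, 222, 221, 220, 219, 218, 217,
  197, 196, 195, 194, 193, 192, 191, 190, 189, 188, 187, 186, 164, 163, 162, 161, 160, 159, 158,
  157, 156, 155, 154, 131, 130, 129, 128, 127, 126, 125, 124, 123, 122, 98, 97, 96, 95, 94, 93,
  92, 91, 65, 64, 63, 62, 61, 60, 32, 31, 29]

def AL_33_3 : List ℕ :=
  [1, 0, 0, 0, 0, 0, 0, 0, 0, 0, 0, 0, 0, 0, 0, 0, 0, 0, 0, 0, 0, 0, 0, 0, 0, 0, 0, 0, 0, 1, 0,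
  1, 1, 0, 0, 0, 0, 0, 0, 0, 0, 0, 0, 0, 0, 0, 0, 0, 0, 0, 0, 0, 0, 0, 0, 0, 0, 0, 0, 0, 1, 1,
  1, 1, 1, 1, 0, 0, 0, 0, 0, 0, 0, 0, 0, 0, 0, 0, 0, 0, 0, 0, 0, 0, 0, 0, 0, 0, 0, 0, 0, 1, 1,
  2, 2, 2, 2, 2, 1, 0, 0, 0, 0, 0, 0, 0, 0, 0, 0, 0, 0, 0, 0, 0, 0, 0, 0, 0, 0, 0, 0, 0, 1, 1,
  2, 3, 4, 4, 3, 3, 2, 1, 0, 0, 0, 0, 0, 0, 0, 0, 0, 0, 0, 0, 0, 0, 0, 0, 0, 0, 0, 0, 0, 0, 1,
  2, 3, 5, 6, 6, 6, 5, 4, 3, 1, 0, 0, 0, 0, 0, 0, 0, 0, 0, 0, 0, 0, 0, 0, 0, 0, 0, 0, 0, 0, 0,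
  2, 3, 5, 7, 9, 10, 11, 9, 7, 6, 3, 1, 0, 0, 0, 0, 0, 0, 0, 0, 0, 0, 0, 0, 0, 0, 0, 0, 0, 0, 0,
  1, 2, 4, 7, 10, 13, 16, 17, 15, 13, 10, 7, 4, 1, 0, 0, 0, 0, 0, 0, 0, 0, 0, 0, 0, 0, 0, 0, 0,
  0, 0, 0, 1, 2, 5, 10]

def w_33_3 : W :=
  ⟨33, 3, 252, 29, 13569388908160540864780935546565077720200849548278687579005685319029919580160, PB_33_3, AL_33_3⟩

def t_33_3 : Tr :=
    (.b 31 2 (.d 60) (.b 32 3 (.d 61) (.b 27 31 (.d 89) (.b 28 32 (.d 90) (.b 29 33 (.d 91) (.b 30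
    34 (.d 92) (.b 31 35 (.b 32 36 (.b 31 33 (.b 32 33 (.b 31 32 (.d 96) (.b 25 62 (.d 120) (.b 26
    63 (.d 121) (.b 27 64 (.d 122) (.b 28 65 (.d 123) (.b 29 66 (.b 30 67 (.b 32 5 (.b 29 64 (.b
    32 4 (.b 30 65 (.b 29 63 (.b 30 64 (.b 23 93 (.d 151) (.b 24 94 (.d 152) (.b 25 95 (.d 153)
    (.b 26 96 (.d 154) (.b 27 95 (.b 29 35 (.d 155) (.b 28 98 (.b 30 36 (.b 30 35 (.b 28 96 (.b 27
    94 (.b 28 95 (.b 22 125 (.d 183) (.b 23 126 (.d 184) (.b 24 127 (.d 185) (.b 25 126 (.b 27 66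
    (.d 186) (.b 26 129 (.b 28 67 (.b 28 66 (.b 26 127 (.b 25 125 (.b 26 126 (.b 21 157 (.d 215)
    (.b 22 158 (.d 216) (.b 23 159 (.d 217) (.b 25 97 (.d 217) (.b 24 158 (.b 26 98 (.d 218) (.b
    29 37 (.b 29 36 (.b 24 157 (.b 19 188 (.d 246) (.b 20 189 (.d 247) (.b 21 190 (.d 248) (.b 22
    191 (.d 249) (.b 24 129 (.d 249) (.b 23 192 (.d 250) (.b 27 68 (.d 250) (.u 252)))))))) (.u
    221)) (.u 220)) (.u 219))) (.u 220)))))) (.u 190)) (.u 189)) (.u 189)) (.u 188)) (.u 187)) (.u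
    187))) (.u 188))))) (.u 159)) (.u 158)) (.u 158)) (.u 157)) (.u 156)) (.u 156))) (.u 157))))))
    (.u 128)) (.u 127)) (.u 127)) (.u 126)) (.u 126)) (.u 125)) (.u 125)) (.u 124))))))) (.u 97))
    (.u 95)) (.u 94)) (.u 93))))))))

theorem ok_33_3 : okW w_33_3 = true := by decide +kernel

theorem ck_33_3 : ckk 33 252 29 13569388908160540864780935546565077720200849548278687579005685319029919580160
    PB_33_3 AL_33_3 [] t_33_3 (List.replicate 33 1) (List.replicate 33 INF) = true := by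
  decide +kernel

end Pool.Agent.W2helper10.E9
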