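import Pool.Agent.W2helper10.E9.Chk

set_option autoImplicit false
set_option maxRecDepth 1000000

namespace Pool.Agent.W2helper10.E9

open Pool.Agent.MPe9218d Pool.Agent.H372R3.GD Pool.Agent.H372R3.GE

def PB_8_4 : List ℕ :=
  [47, 46, 45, 44, 43, 42, 41, 40, 39, 38, 37, 36, 35, 34, 33, 32, 31, 30, 29, 28, 27, 26, 25,
  24, 23, 22, 21, 20, 19, 18, 17, 16, 15, 14, 13, 12, 11, 10, 8, 7, 6, 4]

def AL_8_4 : List ℕ :=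
  [1, 0, 0, 0, 1, 0, 1, 1, 1, 0, 1, 1, 2, 1, 2, 2, 2, 1, 3, 3, 4, 3, 5, 4, 5, 4, 7, 7, 8, 7, 10,
  9, 10, 10, 14, 14, 16, 15, 19, 18, 21, 21, 28, 27, 30, 30, 36, 35]

def w_8_4 : W :=
  ⟨8, 4, 47, 4, 281474976710096, PB_8_4, AL_8_4⟩

def t_8_4 : Tr :=
    (.b 6 2 (.d 10) (.b 7 3 (.d 11) (.b 0 4 (.b 5 9 (.d 17) (.b 3 5 (.d 17) (.b 2 3 (.d 17) (.b 6
    10 (.b 4 6 (.b 2 4 (.d 16) (.b 7 11 (.b 4 5 (.b 6 8 (.b 4 4 (.b 0 2 (.b 2 6 (.d 14) (.b 0 1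
    (.b 3 7 (.d 15) (.b 3 20 (.b 2 18 (.b 3 11 (.b 6 7 (.b 7 9 (.b 1 13 (.d 21) (.b 4 2 (.b 6 6
    (.b 2 10 (.d 26) (.b 7 4 (.d 26) (.b 5 14 (.b 7 7 (.d 27) (.b 4 1 (.u 30) (.u 23))) (.u 28))))
    (.b 2 14 (.b 7 8 (.b 2 12 (.b 5 14 (.b 7 7 (.d 27) (.b 4 1 (.b 2 11 (.b 2 10 (.b 2 8 (.b 3 8
    (.b 1 27 (.b 1 17 (.d 37) (.b 5 13 (.u 39) (.u 33))) (.u 39)) (.u 30)) (.u 28)) (.u 26)) (.u
    25)) (.u 23))) (.u 28)) (.u 24)) (.u 22)) (.u 22))) (.b 2 14 (.b 7 8 (.b 6 6 (.b 7 7 (.b 2 10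
    (.d 26) (.b 7 4 (.d 26) (.b 5 15 (.d 27) (.u 28)))) (.u 23)) (.u 22)) (.u 22)) (.u 22)))) (.b
    1 13 (.b 2 14 (.b 6 6 (.b 4 2 (.b 2 10 (.d 26) (.b 3 8 (.b 5 13 (.d 29) (.b 1 5 (.d 29) (.b 1
    9 (.d 29) (.b 5 15 (.b 5 14 (.u 30) (.u 28)) (.u 27))))) (.u 30))) (.u 22)) (.u 22)) (.u 22))
    (.u 21))) (.b 1 13 (.b 7 9 (.b 2 14 (.b 7 8 (.b 4 2 (.b 5 11 (.d 31) (.b 1 3 (.d 31) (.b 1 9
    (.d 31) (.b 5 14 (.b 7 7 (.d 27) (.b 2 11 (.b 1 10 (.d 24) (.b 2 10 (.b 2 8 (.b 3 8 (.b 5 13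
    (.d 33) (.b 2 7 (.b 1 12 (.d 38) (.b 4 1 (.d 45) (.u 23))) (.u 29))) (.u 30)) (.u 28)) (.u
    26))) (.u 25))) (.u 28))))) (.u 22)) (.u 22)) (.u 22)) (.u 21)) (.u 21))) (.u 34)) (.u 34))
    (.u 34))) (.b 3 7 (.b 2 18 (.b 6 7 (.b 7 9 (.b 1 13 (.d 21) (.b 4 2 (.b 6 6 (.b 2 10 (.d 26)
    (.b 7 4 (.d 26) (.b 5 14 (.u 30) (.u 28)))) (.b 2 14 (.b 7 8 (.b 2 12 (.b 5 14 (.b 2 8 (.b 7 5
    (.d 25) (.b 1 25 (.d 41) (.b 5 11 (.b 2 7 (.b 7 7 (.d 29) (.b 4 1 (.b 5 10 (.b 3 6 (.d 32) (.b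
    1 29 (.b 1 27 (.u 40) (.u 39)) (.u 37))) (.u 36)) (.u 23))) (.u 33)) (.u 31)))) (.u 28)) (.u
    28)) (.u 24)) (.u 22)) (.u 22))) (.b 2 14 (.b 7 8 (.b 6 6 (.b 7 7 (.b 2 10 (.d 26) (.b 7 4 (.d
    26) (.b 5 15 (.b 5 14 (.u 30) (.u 28)) (.u 27)))) (.u 23)) (.u 22)) (.u 22)) (.u 22)))) (.b 1
    13 (.b 2 14 (.b 6 6 (.b 4 2 (.b 2 10 (.d 26) (.b 1 4 (.b 4 1 (.d 23) (.b 2 12 (.d 24) (.b 6 4
    (.d 24) (.b 5 17 (.b 5 15 (.b 5 14 (.d 28) (.d 29)) (.u 27)) (.u 25))))) (.u 30))) (.u 22))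
    (.u 22)) (.u 22)) (.u 21))) (.b 1 13 (.b 7 9 (.b 2 14 (.b 7 8 (.b 4 2 (.b 5 11 (.d 31) (.b 1 3
    (.d 31) (.b 1 9 (.d 31) (.b 5 14 (.b 2 8 (.b 1 10 (.d 24) (.b 7 5 (.d 25) (.b 3 6 (.d 32) (.b
    5 13 (.d 35) (.b 2 7 (.b 7 7 (.d 29) (.b 4 1 (.b 1 11 (.d 23) (.b 1 12 (.d 38) (.d 39))) (.u
    27))) (.u 33)))))) (.u 28)) (.u 28))))) (.u 22)) (.u 22)) (.u 22)) (.u 21)) (.u 21))) (.u 34))
    (.u 15)))) (.b 2 6 (.b 3 7 (.b 1 10 (.d 24) (.b 6 4 (.d 24) (.b 5 14 (.b 7 5 (.d 25) (.b 6 7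
    (.b 7 9 (.b 1 13 (.d 21) (.b 4 2 (.b 6 6 (.d 26) (.b 7 8 (.d 38) (.u 22))) (.b 7 8 (.b 6 6 (.b
    7 7 (.b 1 25 (.b 1 23 (.d 43) (.b 5 13 (.b 0 3 (.b 5 11 (.b 2 5 (.d 31) (.b 5 10 (.b 3 6 (.d
    32) (.b 4 3 (.b 6 5 (.b 7 6 (.u 47) (.u 40)) (.u 39)) (.u 37))) (.u 36))) (.u 35)) (.u 29))
    (.u 29))) (.u 41)) (.u 23)) (.u 22)) (.u 22)))) (.b 1 13 (.b 6 6 (.b 4 2 (.d 26) (.u 22)) (.u
    22)) (.u 21))) (.b 1 13 (.b 7 9 (.b 7 8 (.b 4 2 (.b 5 11 (.d 31) (.b 2 5 (.d 31) (.b 3 6 (.d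
    32) (.b 5 13 (.d 33) (.b 0 3 (.d 37) (.u 29)))))) (.u 22)) (.u 22)) (.u 21)) (.u 21)))) (.u
    28)))) (.u 15)) (.u 14))) (.u 20)) (.u 20)) (.u 19)) (.u 19))) (.u 18)) (.u 18))))) (.u 12))))

theorem ok_8_4 : okW w_8_4 = true := by decide +kernel

theorem ck_8_4 : ckk 8 47 4 281474976710096
    PB_8_4 AL_8_4 [] t_8_4 (List.replicate 8 1) (List.replicate 8 INF) = true := by
  decide +kernel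

def PB_9_4 : List ℕ :=
  [15, 14, 13, 12, 11, 10, 9, 8, 7, 6, 5, 1]

def AL_9_4 : List ℕ :=
  [1, 1, 0, 0, 0, 1, 1, 1, 2, 1, 1, 1, 1, 2, 2, 3]

def w_9_4 : W :=
  ⟨9, 4, 15, 1, 65506, PB_9_4, AL_9_4⟩

def t_9_4 : Tr :=
    (.b 5 4 (.d 6) (.b 6 5 (.d 7) (.b 7 6 (.b 8 7 (.d 9) (.b 0 8 (.d 10) (.b 1 9 (.d 11) (.b 2 10
    (.d 12) (.b 7 2 (.d 12) (.b 3 11 (.b 4 12 (.u 15) (.u 14)) (.u 13))))))) (.u 8))))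

theorem ok_9_4 : okW w_9_4 = true := by decide +kernel

theorem ck_9_4 : ckk 9 15 1 65506
    PB_9_4 AL_9_4 [] t_9_4 (List.replicate 9 1) (List.replicate 9 INF) = true := by
  decide +kernel

def PB_10_4 : List ℕ :=
  [26, 25, 24, 23, 22, 21, 20, 19, 18, 17, 16, 15, 14, 12, 11, 10, 9, 8, 6, 2]

def AL_10_4 : List ℕ :=
  [1, 0, 1, 0, 0, 0, 1, 0, 2, 1, 1, 1, 1, 0, 2, 1, 2, 2, 3, 2, 3, 2, 3, 2, 4, 3, 5]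

def w_10_4 : W :=
  ⟨10, 4, 26, 2, 134209348, PB_10_4, AL_10_4⟩

def t_10_4 : Tr :=
    (.b 6 4 (.b 8 6 (.d 10) (.b 9 7 (.d 11) (.b 0 8 (.d 12) (.b 1 9 (.d 13) (.b 2 10 (.b 4 12 (.b
    5 13 (.b 2 6 (.b 7 15 (.b 8 12 (.d 24) (.b 5 6 (.d 24) (.b 4 4 (.d 24) (.b 0 14 (.b 4 6 (.d
    22) (.b 4 8 (.d 22) (.b 2 2 (.d 22) (.b 7 8 (.b 1 19 (.d 23) (.b 5 7 (.d 23) (.b 5 9 (.d 23)
    (.d 25)))) (.u 26))))) (.u 26))))) (.u 19)) (.u 18)) (.u 17)) (.u 16)) (.u 14)))))) (.u 8))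

theorem ok_10_4 : okW w_10_4 = true := by decide +kernel

theorem ck_10_4 : ckk 10 26 2 134209348
    PB_10_4 AL_10_4 [] t_10_4 (List.replicate 10 1) (List.replicate 10 INF) = true := by
  decide +kernel

def PB_11_4 : List ℕ :=
  [31, 30, 29, 28, 27, 26, 25, 24, 23, 22, 21, 20, 19, 18, 17, 16, 14, 13, 12, 10, 9, 7, 3]

def AL_11_4 : List ℕ :=
  [1, 0, 0, 1, 0, 0, 0, 1, 0, 1, 2, 0, 1, 1, 1, 0, 1, 2, 1, 2, 2, 3, 1, 2, 3, 2, 2, 3, 4, 3, 5,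
  5]

def w_11_4 : W :=
  ⟨11, 4, 31, 3, 4294932104, PB_11_4, AL_11_4⟩

def t_11_4 : Tr :=
    (.b 7 4 (.b 9 6 (.d 12) (.b 10 7 (.d 13) (.b 1 9 (.d 15) (.b 2 10 (.d 16) (.b 3 11 (.b 5 13
    (.b 6 14 (.b 3 7 (.b 8 16 (.d 22) (.b 0 19 (.d 25) (.b 5 7 (.d 25) (.b 10 14 (.d 28) (.b 2 17
    (.b 9 13 (.d 27) (.b 6 7 (.d 27) (.b 6 10 (.d 27) (.b 3 1 (.d 27) (.u 29))))) (.u 31)))))) (.u
    21)) (.u 20)) (.u 19)) (.u 17)))))) (.u 10))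

theorem ok_11_4 : okW w_11_4 = true := by decide +kernel

theorem ck_11_4 : ckk 11 31 3 4294932104
    PB_11_4 AL_11_4 [] t_11_4 (List.replicate 11 1) (List.replicate 11 INF) = true := by
  decide +kernel

def PB_18_4 : List ℕ :=
  [60, 59, 58, 57, 56, 55, 54, 53, 52, 51, 50, 49, 48, 47, 46, 45, 44, 43, 42, 41, 40, 38, 35,
  34, 33, 32, 31, 30, 28, 27, 26, 24, 17, 16, 14, 10]

def AL_18_4 : List ℕ :=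
  [1, 0, 0, 0, 0, 0, 0, 0, 0, 0, 1, 0, 0, 0, 1, 0, 1, 1, 0, 0, 0, 0, 0, 0, 1, 0, 1, 1, 1, 0, 1,
  1, 1, 1, 1, 1, 0, 0, 1, 0, 1, 1, 2, 1, 2, 2, 2, 1, 2, 2, 2, 2, 3, 1, 1, 1, 2, 1, 3, 3, 4]

def w_18_4 : W :=
  ⟨18, 4, 60, 10, 2305842252712461312, PB_18_4, AL_18_4⟩

def t_18_4 : Tr :=
    (.b 14 4 (.d 24) (.b 16 6 (.d 26) (.b 17 7 (.d 27) (.b 6 14 (.d 34) (.b 8 16 (.d 36) (.b 9 17
    (.d 37) (.b 10 18 (.d 38) (.b 12 20 (.d 40) (.b 13 21 (.d 41) (.b 14 22 (.b 15 23 (.d 43) (.b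
    16 24 (.b 17 25 (.b 14 18 (.b 7 33 (.d 53) (.b 8 34 (.d 54) (.b 4 26 (.d 54) (.b 2 22 (.d 54)
    (.b 9 35 (.d 55) (.b 5 27 (.d 55) (.b 11 37 (.d 57) (.b 10 32 (.b 6 28 (.d 56) (.b 14 8 (.d
    56) (.b 12 38 (.b 16 10 (.b 2 28 (.d 48) (.b 14 16 (.d 48) (.b 17 21 (.b 4 30 (.d 50) (.b 5 31
    (.d 51) (.b 17 19 (.d 51) (.u 52)))) (.u 49)))) (.u 58)) (.u 58)))) (.u 60))))))))) (.u 46))
    (.u 45)) (.u 44))) (.u 42)))))))))))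

theorem ok_18_4 : okW w_18_4 = true := by decide +kernel

theorem ck_18_4 : ckk 18 60 10 2305842252712461312
    PB_18_4 AL_18_4 [] t_18_4 (List.replicate 18 1) (List.replicate 18 INF) = true := by
  decide +kernel

def PB_19_4 : List ℕ :=
  [64, 63, 62, 61, 60, 59, 58, 56, 55, 54, 53, 52, 51, 50, 49, 48, 47, 46, 45, 44, 43, 41, 37,
  36, 35, 34, 33, 32, 30, 29, 28, 26, 18, 17, 15, 11]

def AL_19_4 : List ℕ :=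
  [1, 0, 0, 0, 0, 0, 0, 0, 0, 0, 0, 1, 0, 0, 0, 1, 0, 1, 1, 0, 0, 0, 0, 0, 0, 0, 1, 0, 1, 1, 1,
  0, 1, 1, 1, 1, 1, 1, 0, 0, 0, 1, 0, 1, 1, 2, 1, 2, 2, 2, 1, 2, 2, 2, 2, 2, 2, 0, 1, 1, 2, 1,
  3, 3, 4]

def w_19_4 : W :=
  ⟨19, 4, 64, 11, 36749366634803005440, PB_19_4, AL_19_4⟩

def t_19_4 : Tr :=
    (.b 15 4 (.d 26) (.b 17 6 (.d 28) (.b 18 7 (.d 29) (.b 7 15 (.d 37) (.b 9 17 (.d 39) (.b 10 18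
    (.d 40) (.b 11 19 (.d 41) (.b 13 21 (.d 43) (.b 14 22 (.d 44) (.b 15 23 (.b 16 24 (.d 46) (.b
    17 25 (.b 18 26 (.b 15 19 (.b 17 19 (.b 15 17 (.d 51) (.b 8 35 (.d 57) (.b 9 36 (.d 58) (.b 5
    28 (.d 58) (.b 3 24 (.d 58) (.b 10 37 (.d 59) (.b 6 29 (.d 59) (.b 12 39 (.d 61) (.b 11 34 (.b
    7 30 (.d 60) (.b 13 40 (.b 17 10 (.b 5 32 (.d 54) (.b 18 20 (.d 54) (.b 6 33 (.u 63) (.u
    55)))) (.u 62)) (.u 62))) (.u 64)))))))))) (.u 53)) (.u 49)) (.u 48)) (.u 47))) (.u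
    45)))))))))))

theorem ok_19_4 : okW w_19_4 = true := by decide +kernel

theorem ck_19_4 : ckk 19 64 11 36749366634803005440
    PB_19_4 AL_19_4 [] t_19_4 (List.replicate 19 1) (List.replicate 19 INF) = true := by
  decide +kernel

def PB_20_4 : List ℕ :=
  [68, 67, 66, 65, 64, 63, 62, 60, 59, 58, 57, 56, 55, 54, 53, 52, 51, 50, 49, 48, 47, 46, 44,
  39, 38, 37, 36, 35, 34, 32, 31, 30, 28, 19, 18, 16, 12]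

def AL_20_4 : List ℕ :=
  [1, 0, 0, 0, 0, 0, 0, 0, 0, 0, 0, 0, 1, 0, 0, 0, 1, 0, 1, 1, 0, 0, 0, 0, 0, 0, 0, 0, 1, 0, 1,
  1, 1, 0, 1, 1, 1, 1, 1, 1, 0, 0, 0, 0, 1, 0, 1, 1, 2, 1, 2, 2, 2, 1, 2, 2, 2, 2, 2, 1, 1, 0,
  1, 1, 2, 1, 3, 3, 4]

def w_20_4 : W :=
  ⟨20, 4, 68, 12, 587989915663051067392, PB_20_4, AL_20_4⟩

def t_20_4 : Tr :=
    (.b 16 4 (.d 28) (.b 18 6 (.d 30) (.b 19 7 (.d 31) (.b 8 16 (.d 40) (.b 10 18 (.d 42) (.b 11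
    19 (.d 43) (.b 12 20 (.d 44) (.b 14 22 (.d 46) (.b 15 23 (.d 47) (.b 16 24 (.b 17 25 (.d 49)
    (.b 18 26 (.b 19 27 (.b 16 20 (.b 7 35 (.d 59) (.b 8 36 (.d 60) (.b 4 28 (.d 60) (.b 9 37 (.d
    61) (.b 10 38 (.d 62) (.b 6 30 (.d 62) (.b 11 39 (.d 63) (.b 13 41 (.d 65) (.b 12 36 (.b 16 8
    (.d 64) (.b 14 42 (.b 18 10 (.b 16 18 (.d 54) (.b 19 23 (.b 4 32 (.d 56) (.b 19 21 (.d 57) (.b
    6 34 (.u 67) (.u 58)))) (.u 55))) (.u 66)) (.u 66))) (.u 68)))))))))) (.u 52)) (.u 51)) (.u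
    50))) (.u 48)))))))))))

theorem ok_20_4 : okW w_20_4 = true := by decide +kernel

theorem ck_20_4 : ckk 20 68 12 587989915663051067392
    PB_20_4 AL_20_4 [] t_20_4 (List.replicate 20 1) (List.replicate 20 INF) = true := by
  decide +kernel

def PB_21_4 : List ℕ :=
  [70, 69, 68, 67, 66, 64, 62, 61, 60, 59, 58, 57, 56, 55, 54, 53, 52, 51, 50, 49, 47, 41, 40,
  39, 38, 37, 36, 34, 33, 32, 30, 20, 19, 17, 13]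

def AL_21_4 : List ℕ :=
  [1, 0, 0, 0, 0, 0, 0, 0, 0, 0, 0, 0, 0, 1, 0, 0, 0, 1, 0, 1, 1, 0, 0, 0, 0, 0, 0, 0, 0, 0, 1,
  0, 1, 1, 1, 0, 1, 1, 1, 1, 1, 1, 0, 0, 0, 0, 0, 1, 0, 1, 1, 2, 1, 2, 2, 2, 1, 2, 2, 2, 2, 2,
  1, 0, 1, 0, 1, 1, 2, 1, 3]

def w_21_4 : W :=
  ⟨21, 4, 70, 13, 2315065963398550921216, PB_21_4, AL_21_4⟩

def t_21_4 : Tr :=
    (.b 17 4 (.d 30) (.b 19 6 (.d 32) (.b 20 7 (.d 33) (.b 9 17 (.d 43) (.b 11 19 (.d 45) (.b 12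
    20 (.d 46) (.b 13 21 (.d 47) (.b 15 23 (.d 49) (.b 16 24 (.d 50) (.b 17 25 (.b 18 26 (.d 52)
    (.b 19 27 (.b 20 28 (.b 17 21 (.b 19 21 (.b 17 19 (.d 57) (.b 20 24 (.b 20 21 (.b 5 34 (.d 60)
    (.b 19 20 (.d 60) (.b 7 36 (.d 62) (.b 8 37 (.d 63) (.b 9 38 (.d 64) (.b 10 39 (.d 65) (.b 11
    40 (.d 66) (.b 12 41 (.d 67) (.b 13 42 (.b 14 43 (.d 69) (.u 70)) (.u 68)))))))))) (.u 61))
    (.u 58))) (.u 59)) (.u 55)) (.u 54)) (.u 53))) (.u 51)))))))))))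

theorem ok_21_4 : okW w_21_4 = true := by decide +kernel

theorem ck_21_4 : ckk 21 70 13 2315065963398550921216
    PB_21_4 AL_21_4 [] t_21_4 (List.replicate 21 1) (List.replicate 21 INF) = true := by
  decide +kernel

def PB_22_4 : List ℕ :=
  [75, 74, 73, 72, 71, 70, 68, 65, 64, 63, 62, 61, 60, 59, 58, 57, 56, 55, 54, 53, 52, 50, 43,
  42, 41, 40, 39, 38, 36, 35, 34, 32, 21, 20, 18, 14]

def AL_22_4 : List ℕ :=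
  [1, 0, 0, 0, 0, 0, 0, 0, 0, 0, 0, 0, 0, 0, 1, 0, 0, 0, 1, 0, 1, 1, 0, 0, 0, 0, 0, 0, 0, 0, 0,
  0, 1, 0, 1, 1, 1, 0, 1, 1, 1, 1, 1, 1, 0, 0, 0, 0, 0, 0, 1, 0, 1, 1, 2, 1, 2, 2, 2, 1, 2, 2,
  2, 2, 2, 1, 0, 0, 1, 0, 1, 1, 2, 1, 3, 3]

def w_22_4 : W :=
  ⟨22, 4, 75, 14, 74746203626413248233472, PB_22_4, AL_22_4⟩

def t_22_4 : Tr :=
    (.b 18 4 (.d 32) (.b 20 6 (.d 34) (.b 21 7 (.d 35) (.b 10 18 (.d 46) (.b 12 20 (.d 48) (.b 13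
    21 (.d 49) (.b 14 22 (.d 50) (.b 16 24 (.d 52) (.b 17 25 (.d 53) (.b 18 26 (.b 19 27 (.d 55)
    (.b 20 28 (.b 21 29 (.b 18 22 (.b 20 22 (.b 18 20 (.d 60) (.b 21 25 (.b 8 38 (.d 66) (.b 9 39
    (.d 67) (.b 10 40 (.d 68) (.b 6 32 (.d 68) (.b 11 41 (.d 69) (.b 12 42 (.d 70) (.b 13 43 (.d
    71) (.b 14 44 (.b 15 45 (.d 73) (.b 16 46 (.b 20 10 (.b 21 23 (.d 63) (.b 6 36 (.u 75) (.u
    64))) (.u 74)) (.u 74))) (.u 72))))))))) (.u 61))) (.u 62)) (.u 58)) (.u 57)) (.u 56))) (.u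
    54)))))))))))

theorem ok_22_4 : okW w_22_4 = true := by decide +kernel

theorem ck_22_4 : ckk 22 75 14 74746203626413248233472
    PB_22_4 AL_22_4 [] t_22_4 (List.replicate 22 1) (List.replicate 22 INF) = true := by
  decide +kernel

def PB_23_4 : List ℕ :=
  [78, 77, 76, 75, 74, 72, 68, 67, 66, 65, 64, 63, 62, 61, 60, 59, 58, 57, 56, 55, 53, 45, 44,
  43, 42, 41, 40, 38, 37, 36, 34, 22, 21, 19, 15]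

def AL_23_4 : List ℕ :=
  [1, 0, 0, 0, 0, 0, 0, 0, 0, 0, 0, 0, 0, 0, 0, 1, 0, 0, 0, 1, 0, 1, 1, 0, 0, 0, 0, 0, 0, 0, 0,
  0, 0, 0, 1, 0, 1, 1, 1, 0, 1, 1, 1, 1, 1, 1, 0, 0, 0, 0, 0, 0, 0, 1, 0, 1, 1, 2, 1, 2, 2, 2,
  1, 2, 2, 2, 2, 2, 1, 0, 0, 0, 1, 0, 1, 1, 2, 1, 3]

def w_23_4 : W :=
  ⟨23, 4, 78, 15, 590886079217234048745472, PB_23_4, AL_23_4⟩

def t_23_4 : Tr :=
    (.b 19 4 (.d 34) (.b 21 6 (.d 36) (.b 22 7 (.d 37) (.b 11 19 (.d 49) (.b 13 21 (.d 51) (.b 14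
    22 (.d 52) (.b 15 23 (.d 53) (.b 17 25 (.d 55) (.b 18 26 (.d 56) (.b 19 27 (.b 20 28 (.d 58)
    (.b 21 29 (.b 22 30 (.b 19 23 (.b 21 23 (.b 19 21 (.d 63) (.b 22 26 (.b 22 23 (.b 21 22 (.d
    66) (.b 7 38 (.d 68) (.b 9 40 (.d 70) (.b 10 41 (.d 71) (.b 11 42 (.d 72) (.b 12 43 (.d 73)
    (.b 13 44 (.d 74) (.b 14 45 (.d 75) (.b 15 46 (.b 16 47 (.d 77) (.u 78)) (.u 76)))))))))) (.u
    67)) (.u 64))) (.u 65)) (.u 61)) (.u 60)) (.u 59))) (.u 57)))))))))))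

theorem ok_23_4 : okW w_23_4 = true := by decide +kernel

theorem ck_23_4 : ckk 23 78 15 590886079217234048745472
    PB_23_4 AL_23_4 [] t_23_4 (List.replicate 23 1) (List.replicate 23 INF) = true := by
  decide +kernel

def PB_24_4 : List ℕ :=
  [82, 81, 80, 79, 78, 76, 71, 70, 69, 68, 67, 66, 65, 64, 63, 62, 61, 60, 59, 58, 56, 47, 46,
  45, 44, 43, 42, 40, 39, 38, 36, 23, 22, 20, 16]

def AL_24_4 : List ℕ :=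
  [1, 0, 0, 0, 0, 0, 0, 0, 0, 0, 0, 0, 0, 0, 0, 0, 1, 0, 0, 0, 1, 0, 1, 1, 0, 0, 0, 0, 0, 0, 0,
  0, 0, 0, 0, 0, 1, 0, 1, 1, 1, 0, 1, 1, 1, 1, 1, 1, 0, 0, 0, 0, 0, 0, 0, 0, 1, 0, 1, 1, 2, 1,
  2, 2, 2, 1, 2, 2, 2, 2, 2, 1, 0, 0, 0, 0, 1, 0, 1, 1, 2, 1, 3]

def w_24_4 : W :=
  ⟨24, 4, 82, 16, 9449455116328447767543808, PB_24_4, AL_24_4⟩

def t_24_4 : Tr :=
    (.b 20 4 (.d 36) (.b 22 6 (.d 38) (.b 23 7 (.d 39) (.b 12 20 (.d 52) (.b 14 22 (.d 54) (.b 15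
    23 (.d 55) (.b 16 24 (.d 56) (.b 18 26 (.d 58) (.b 19 27 (.d 59) (.b 20 28 (.b 21 29 (.d 61)
    (.b 22 30 (.b 23 31 (.b 20 24 (.b 22 24 (.b 20 22 (.d 66) (.b 23 27 (.b 23 24 (.b 22 23 (.d
    69) (.b 8 40 (.d 72) (.b 10 42 (.d 74) (.b 11 43 (.d 75) (.b 12 44 (.d 76) (.b 13 45 (.d 77)
    (.b 14 46 (.d 78) (.b 15 47 (.d 79) (.b 16 48 (.b 17 49 (.d 81) (.u 82)) (.u 80)))))))))) (.u
    70)) (.u 67))) (.u 68)) (.u 64)) (.u 63)) (.u 62))) (.u 60)))))))))))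

theorem ok_24_4 : okW w_24_4 = true := by decide +kernel

theorem ck_24_4 : ckk 24 82 16 9449455116328447767543808
    PB_24_4 AL_24_4 [] t_24_4 (List.replicate 24 1) (List.replicate 24 INF) = true := by
  decide +kernel

def PB_25_4 : List ℕ :=
  [86, 85, 84, 83, 82, 80, 74, 73, 72, 71, 70, 69, 68, 67, 66, 65, 64, 63, 62, 61, 59, 49, 48,
  47, 46, 45, 44, 42, 41, 40, 38, 24, 23, 21, 17]

def AL_25_4 : List ℕ :=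
  [1, 0, 0, 0, 0, 0, 0, 0, 0, 0, 0, 0, 0, 0, 0, 0, 0, 1, 0, 0, 0, 1, 0, 1, 1, 0, 0, 0, 0, 0, 0,
  0, 0, 0, 0, 0, 0, 0, 1, 0, 1, 1, 1, 0, 1, 1, 1, 1, 1, 1, 0, 0, 0, 0, 0, 0, 0, 0, 0, 1, 0, 1,
  1, 2, 1, 2, 2, 2, 1, 2, 2, 2, 2, 2, 1, 0, 0, 0, 0, 0, 1, 0, 1, 1, 2, 1, 3]

def w_25_4 : W :=
  ⟨25, 4, 86, 17, 151153504655425626297204736, PB_25_4, AL_25_4⟩

def t_25_4 : Tr :=
    (.b 21 4 (.d 38) (.b 23 6 (.d 40) (.b 24 7 (.d 41) (.b 13 21 (.d 55) (.b 15 23 (.d 57) (.b 16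
    24 (.d 58) (.b 17 25 (.d 59) (.b 19 27 (.d 61) (.b 20 28 (.d 62) (.b 21 29 (.b 22 30 (.d 64)
    (.b 23 31 (.b 24 32 (.b 21 25 (.b 23 25 (.b 21 23 (.d 69) (.b 24 28 (.b 24 25 (.b 23 24 (.d
    72) (.b 9 42 (.d 76) (.b 11 44 (.d 78) (.b 12 45 (.d 79) (.b 13 46 (.d 80) (.b 14 47 (.d 81)
    (.b 15 48 (.d 82) (.b 16 49 (.d 83) (.b 17 50 (.b 18 51 (.d 85) (.u 86)) (.u 84)))))))))) (.u
    73)) (.u 70))) (.u 71)) (.u 67)) (.u 66)) (.u 65))) (.u 63)))))))))))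

theorem ok_25_4 : okW w_25_4 = true := by decide +kernel

theorem ck_25_4 : ckk 25 86 17 151153504655425626297204736
    PB_25_4 AL_25_4 [] t_25_4 (List.replicate 25 1) (List.replicate 25 INF) = true := by
  decide +kernel

def PB_26_4 : List ℕ :=
  [90, 89, 88, 87, 86, 84, 77, 76, 75, 74, 73, 72, 71, 70, 69, 68, 67, 66, 65, 64, 62, 51, 50,
  49, 48, 47, 46, 44, 43, 42, 40, 25, 24, 22, 18]

def AL_26_4 : List ℕ :=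
  [1, 0, 0, 0, 0, 0, 0, 0, 0, 0, 0, 0, 0, 0, 0, 0, 0, 0, 1, 0, 0, 0, 1, 0, 1, 1, 0, 0, 0, 0, 0,
  0, 0, 0, 0, 0, 0, 0, 0, 0, 1, 0, 1, 1, 1, 0, 1, 1, 1, 1, 1, 1, 0, 0, 0, 0, 0, 0, 0, 0, 0, 0,
  1, 0, 1, 1, 2, 1, 2, 2, 2, 1, 2, 2, 2, 2, 2, 1, 0, 0, 0, 0, 0, 0, 1, 0, 1, 1, 2, 1, 3]

def w_26_4 : W :=
  ⟨26, 4, 90, 18, 2418153856853569068199051264, PB_26_4, AL_26_4⟩

def t_26_4 : Tr :=
    (.b 22 4 (.d 40) (.b 24 6 (.d 42) (.b 25 7 (.d 43) (.b 14 22 (.d 58) (.b 16 24 (.d 60) (.b 17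
    25 (.d 61) (.b 18 26 (.d 62) (.b 20 28 (.d 64) (.b 21 29 (.d 65) (.b 22 30 (.b 23 31 (.d 67)
    (.b 24 32 (.b 25 33 (.b 22 26 (.b 24 26 (.b 22 24 (.d 72) (.b 25 29 (.b 25 26 (.b 24 25 (.d
    75) (.b 10 44 (.d 80) (.b 12 46 (.d 82) (.b 13 47 (.d 83) (.b 14 48 (.d 84) (.b 15 49 (.d 85)
    (.b 16 50 (.d 86) (.b 17 51 (.d 87) (.b 18 52 (.b 19 53 (.d 89) (.u 90)) (.u 88)))))))))) (.u
    76)) (.u 73))) (.u 74)) (.u 70)) (.u 69)) (.u 68))) (.u 66)))))))))))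

theorem ok_26_4 : okW w_26_4 = true := by decide +kernel

theorem ck_26_4 : ckk 26 90 18 2418153856853569068199051264
    PB_26_4 AL_26_4 [] t_26_4 (List.replicate 26 1) (List.replicate 26 INF) = true := by
  decide +kernel

def PB_27_4 : List ℕ :=
  [94, 93, 92, 91, 90, 88, 80, 79, 78, 77, 76, 75, 74, 73, 72, 71, 70, 69, 68, 67, 65, 53, 52,
  51, 50, 49, 48, 46, 45, 44, 42, 26, 25, 23, 19]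

def AL_27_4 : List ℕ :=
  [1, 0, 0, 0, 0, 0, 0, 0, 0, 0, 0, 0, 0, 0, 0, 0, 0, 0, 0, 1, 0, 0, 0, 1, 0, 1, 1, 0, 0, 0, 0,
  0, 0, 0, 0, 0, 0, 0, 0, 0, 0, 0, 1, 0, 1, 1, 1, 0, 1, 1, 1, 1, 1, 1, 0, 0, 0, 0, 0, 0, 0, 0,
  0, 0, 0, 1, 0, 1, 1, 2, 1, 2, 2, 2, 1, 2, 2, 2, 2, 2, 1, 0, 0, 0, 0, 0, 0, 0, 1, 0, 1, 1, 2,
  1, 3]

def w_27_4 : W :=
  ⟨27, 4, 94, 19, 38688043968644758873680904192, PB_27_4, AL_27_4⟩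

def t_27_4 : Tr :=
    (.b 23 4 (.d 42) (.b 25 6 (.d 44) (.b 26 7 (.d 45) (.b 15 23 (.d 61) (.b 17 25 (.d 63) (.b 18
    26 (.d 64) (.b 19 27 (.d 65) (.b 21 29 (.d 67) (.b 22 30 (.d 68) (.b 23 31 (.b 24 32 (.d 70)
    (.b 25 33 (.b 26 34 (.b 23 27 (.b 25 27 (.b 23 25 (.d 75) (.b 26 30 (.b 26 27 (.b 25 26 (.d
    78) (.b 11 46 (.d 84) (.b 13 48 (.d 86) (.b 14 49 (.d 87) (.b 15 50 (.d 88) (.b 16 51 (.d 89)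
    (.b 17 52 (.d 90) (.b 18 53 (.d 91) (.b 19 54 (.b 20 55 (.d 93) (.u 94)) (.u 92)))))))))) (.u
    79)) (.u 76))) (.u 77)) (.u 73)) (.u 72)) (.u 71))) (.u 69)))))))))))

theorem ok_27_4 : okW w_27_4 = true := by decide +kernel

theorem ck_27_4 : ckk 27 94 19 38688043968644758873680904192
    PB_27_4 AL_27_4 [] t_27_4 (List.replicate 27 1) (List.replicate 27 INF) = true := by
  decide +kernel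

def PB_28_4 : List ℕ :=
  [98, 97, 96, 95, 94, 92, 83, 82, 81, 80, 79, 78, 77, 76, 75, 74, 73, 72, 71, 70, 68, 55, 54,
  53, 52, 51, 50, 48, 47, 46, 44, 27, 26, 24, 20]

def AL_28_4 : List ℕ :=
  [1, 0, 0, 0, 0, 0, 0, 0, 0, 0, 0, 0, 0, 0, 0, 0, 0, 0, 0, 0, 1, 0, 0, 0, 1, 0, 1, 1, 0, 0, 0,
  0, 0, 0, 0, 0, 0, 0, 0, 0, 0, 0, 0, 0, 1, 0, 1, 1, 1, 0, 1, 1, 1, 1, 1, 1, 0, 0, 0, 0, 0, 0,
  0, 0, 0, 0, 0, 0, 1, 0, 1, 1, 2, 1, 2, 2, 2, 1, 2, 2, 2, 2, 2, 1, 0, 0, 0, 0, 0, 0, 0, 0, 1,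
  0, 1, 1, 2, 1, 3]

def w_28_4 : W :=
  ⟨28, 4, 98, 20, 618989361570431697846044459008, PB_28_4, AL_28_4⟩

def t_28_4 : Tr :=
    (.b 24 4 (.d 44) (.b 26 6 (.d 46) (.b 27 7 (.d 47) (.b 16 24 (.d 64) (.b 18 26 (.d 66) (.b 19
    27 (.d 67) (.b 20 28 (.d 68) (.b 22 30 (.d 70) (.b 23 31 (.d 71) (.b 24 32 (.b 25 33 (.d 73)
    (.b 26 34 (.b 27 35 (.b 24 28 (.b 26 28 (.b 24 26 (.d 78) (.b 27 31 (.b 27 28 (.b 26 27 (.d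
    81) (.b 12 48 (.d 88) (.b 14 50 (.d 90) (.b 15 51 (.d 91) (.b 16 52 (.d 92) (.b 17 53 (.d 93)
    (.b 18 54 (.d 94) (.b 19 55 (.d 95) (.b 20 56 (.b 21 57 (.d 97) (.u 98)) (.u 96)))))))))) (.u
    82)) (.u 79))) (.u 80)) (.u 76)) (.u 75)) (.u 74))) (.u 72)))))))))))

theorem ok_28_4 : okW w_28_4 = true := by decide +kernel

theorem ck_28_4 : ckk 28 98 20 618989361570431697846044459008
    PB_28_4 AL_28_4 [] t_28_4 (List.replicate 28 1) (List.replicate 28 INF) = true := by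
  decide +kernel

def PB_29_4 : List ℕ :=
  [102, 101, 100, 99, 98, 96, 86, 85, 84, 83, 82, 81, 80, 79, 78, 77, 76, 75, 74, 73, 71, 57,
  56, 55, 54, 53, 52, 50, 49, 48, 46, 28, 27, 25, 21]

def AL_29_4 : List ℕ :=
  [1, 0, 0, 0, 0, 0, 0, 0, 0, 0, 0, 0, 0, 0, 0, 0, 0, 0, 0, 0, 0, 1, 0, 0, 0, 1, 0, 1, 1, 0, 0,
  0, 0, 0, 0, 0, 0, 0, 0, 0, 0, 0, 0, 0, 0, 0, 1, 0, 1, 1, 1, 0, 1, 1, 1, 1, 1, 1, 0, 0, 0, 0,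
  0, 0, 0, 0, 0, 0, 0, 0, 0, 1, 0, 1, 1, 2, 1, 2, 2, 2, 1, 2, 2, 2, 2, 2, 1, 0, 0, 0, 0, 0, 0,
  0, 0, 0, 1, 0, 1, 1, 2, 1, 3]

def w_29_4 : W :=
  ⟨29, 4, 102, 21, 9903675049704688914893432160256, PB_29_4, AL_29_4⟩

def t_29_4 : Tr :=
    (.b 25 4 (.d 46) (.b 27 6 (.d 48) (.b 28 7 (.d 49) (.b 17 25 (.d 67) (.b 19 27 (.d 69) (.b 20
    28 (.d 70) (.b 21 29 (.d 71) (.b 23 31 (.d 73) (.b 24 32 (.d 74) (.b 25 33 (.b 26 34 (.d 76)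
    (.b 27 35 (.b 28 36 (.b 25 29 (.b 27 29 (.b 25 27 (.d 81) (.b 28 32 (.b 28 29 (.b 27 28 (.d
    84) (.b 13 50 (.d 92) (.b 15 52 (.d 94) (.b 16 53 (.d 95) (.b 17 54 (.d 96) (.b 18 55 (.d 97)
    (.b 19 56 (.d 98) (.b 20 57 (.d 99) (.b 21 58 (.b 22 59 (.d 101) (.u 102)) (.u 100))))))))))
    (.u 85)) (.u 82))) (.u 83)) (.u 79)) (.u 78)) (.u 77))) (.u 75)))))))))))

theorem ok_29_4 : okW w_29_4 = true := by decide +kernel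

theorem ck_29_4 : ckk 29 102 21 9903675049704688914893432160256
    PB_29_4 AL_29_4 [] t_29_4 (List.replicate 29 1) (List.replicate 29 INF) = true := by
  decide +kernel

def PB_30_4 : List ℕ :=
  [106, 105, 104, 103, 102, 100, 89, 88, 87, 86, 85, 84, 83, 82, 81, 80, 79, 78, 77, 76, 74, 59,
  58, 57, 56, 55, 54, 52, 51, 50, 48, 29, 28, 26, 22]

def AL_30_4 : List ℕ :=
  [1, 0, 0, 0, 0, 0, 0, 0, 0, 0, 0, 0, 0, 0, 0, 0, 0, 0, 0, 0, 0, 0, 1, 0, 0, 0, 1, 0, 1, 1, 0,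
  0, 0, 0, 0, 0, 0, 0, 0, 0, 0, 0, 0, 0, 0, 0, 0, 0, 1, 0, 1, 1, 1, 0, 1, 1, 1, 1, 1, 1, 0, 0,
  0, 0, 0, 0, 0, 0, 0, 0, 0, 0, 0, 0, 1, 0, 1, 1, 2, 1, 2, 2, 2, 1, 2, 2, 2, 2, 2, 1, 0, 0, 0,
  0, 0, 0, 0, 0, 0, 0, 1, 0, 1, 1, 2, 1, 3]

def w_30_4 : W :=
  ⟨30, 4, 106, 22, 158457562911900705842808355815424, PB_30_4, AL_30_4⟩

def t_30_4 : Tr :=
    (.b 26 4 (.d 48) (.b 28 6 (.d 50) (.b 29 7 (.d 51) (.b 18 26 (.d 70) (.b 20 28 (.d 72) (.b 21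
    29 (.d 73) (.b 22 30 (.d 74) (.b 24 32 (.d 76) (.b 25 33 (.d 77) (.b 26 34 (.b 27 35 (.d 79)
    (.b 28 36 (.b 29 37 (.b 26 30 (.b 28 30 (.b 26 28 (.d 84) (.b 29 33 (.b 29 30 (.b 28 29 (.d
    87) (.b 14 52 (.d 96) (.b 16 54 (.d 98) (.b 17 55 (.d 99) (.b 18 56 (.d 100) (.b 19 57 (.d
    101) (.b 20 58 (.d 102) (.b 21 59 (.d 103) (.b 22 60 (.b 23 61 (.d 105) (.u 106)) (.u
    104)))))))))) (.u 88)) (.u 85))) (.u 86)) (.u 82)) (.u 81)) (.u 80))) (.u 78)))))))))))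

theorem ok_30_4 : okW w_30_4 = true := by decide +kernel

theorem ck_30_4 : ckk 30 106 22 158457562911900705842808355815424
    PB_30_4 AL_30_4 [] t_30_4 (List.replicate 30 1) (List.replicate 30 INF) = true := by
  decide +kernel

def PB_31_4 : List ℕ :=
  [110, 109, 108, 107, 106, 104, 92, 91, 90, 89, 88, 87, 86, 85, 84, 83, 82, 81, 80, 79, 77, 61,
  60, 59, 58, 57, 56, 54, 53, 52, 50, 30, 29, 27, 23]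

def AL_31_4 : List ℕ :=
  [1, 0, 0, 0, 0, 0, 0, 0, 0, 0, 0, 0, 0, 0, 0, 0, 0, 0, 0, 0, 0, 0, 0, 1, 0, 0, 0, 1, 0, 1, 1,
  0, 0, 0, 0, 0, 0, 0, 0, 0, 0, 0, 0, 0, 0, 0, 0, 0, 0, 0, 1, 0, 1, 1, 1, 0, 1, 1, 1, 1, 1, 1,
  0, 0, 0, 0, 0, 0, 0, 0, 0, 0, 0, 0, 0, 0, 0, 1, 0, 1, 1, 2, 1, 2, 2, 2, 1, 2, 2, 2, 2, 2, 1,
  0, 0, 0, 0, 0, 0, 0, 0, 0, 0, 0, 1, 0, 1, 1, 2, 1, 3]

def w_31_4 : W :=
  ⟨31, 4, 110, 23, 2535311103523430475959643104346112, PB_31_4, AL_31_4⟩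

def t_31_4 : Tr :=
    (.b 27 4 (.d 50) (.b 29 6 (.d 52) (.b 30 7 (.d 53) (.b 19 27 (.d 73) (.b 21 29 (.d 75) (.b 22
    30 (.d 76) (.b 23 31 (.d 77) (.b 25 33 (.d 79) (.b 26 34 (.d 80) (.b 27 35 (.b 28 36 (.d 82)
    (.b 29 37 (.b 30 38 (.b 27 31 (.b 29 31 (.b 27 29 (.d 87) (.b 30 34 (.b 30 31 (.b 29 30 (.d
    90) (.b 15 54 (.d 100) (.b 17 56 (.d 102) (.b 18 57 (.d 103) (.b 19 58 (.d 104) (.b 20 59 (.d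
    105) (.b 21 60 (.d 106) (.b 22 61 (.d 107) (.b 23 62 (.b 24 63 (.d 109) (.u 110)) (.u
    108)))))))))) (.u 91)) (.u 88))) (.u 89)) (.u 85)) (.u 84)) (.u 83))) (.u 81)))))))))))

theorem ok_31_4 : okW w_31_4 = true := by decide +kernel

theorem ck_31_4 : ckk 31 110 23 2535311103523430475959643104346112
    PB_31_4 AL_31_4 [] t_31_4 (List.replicate 31 1) (List.replicate 31 INF) = true := by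
  decide +kernel

end Pool.Agent.W2helper10.E9
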