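import Pool.Agent.W2helper10.E9.Tra
import Pool.Agent.W2helper10.E9.T1
import Pool.Agent.W2helper10.E9.T2
import Pool.Agent.W2helper10.E9.T3
import Pool.Agent.W2helper10.E9.T4
import Pool.Agent.W2helper10.E9.T5
import Pool.Agent.W2helper10.E9.T6
import Pool.Agent.W2helper10.E9.T7
import Pool.Agent.W2helper10.E9.T8

/-!
# The solutions for `s ≤ 3`
-/

set_option autoImplicit false

namespace Pool.Agent.W2helper10.E9

open Pool.Agent.MPe9218d Pool.Agent.H372R3.GD Pool.Agent.H372R3.GE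

theorem sol_1_1 {b : ℕ → ℕ} (hb : ∀ j, 1 ≤ j → j ≤ 1 → 1 ≤ b j)
    (h : Identity 1 1 b) :
    (b 1 = 1) := by
  have := crit_one ok_1_1 ck_1_1 (by decide +kernel) hb h
  simp [w_1_1, List.range_succ, resM, INF] at this
  omega

theorem sol_2_1 {b : ℕ → ℕ} (hb : ∀ j, 1 ≤ j → j ≤ 2 → 1 ≤ b j)
    (h : Identity 2 1 b) :
    (b 1 = 6 ∧ b 2 = 7) := by
  have := crit_one ok_2_1 ck_2_1 (by decide +kernel) hb h
  simp [w_2_1, List.range_succ, resM, INF] at this
  omega

theorem sol_2_2 {b : ℕ → ℕ} (hb : ∀ j, 1 ≤ j → j ≤ 2 → 1 ≤ b j)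
    (h : Identity 2 2 b) :
    (b 1 = 1 ∧ b 2 = 1) := by
  have := crit_one ok_2_2 ck_2_2 (by decide +kernel) hb h
  simp [w_2_2, List.range_succ, resM, INF] at this
  omega

theorem sol_3_2 {b : ℕ → ℕ} (hb : ∀ j, 1 ≤ j → j ≤ 3 → 1 ≤ b j)
    (h : Identity 3 2 b) :
    (b 1 = 3 ∧ b 2 = 3 ∧ b 3 = 4) ∨ (b 1 = 3 ∧ b 2 = 2 ∧ b 3 = 5) := by
  have := crit_one ok_3_2 ck_3_2 (by decide +kernel) hb h
  simp [w_3_2, List.range_succ, resM, INF] at this
  omega

theorem sol_4_3 {b : ℕ → ℕ} (hb : ∀ j, 1 ≤ j → j ≤ 4 → 1 ≤ b j)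
    (h : Identity 4 3 b) :
    (b 1 = 4 ∧ b 2 = 1 ∧ b 3 = 4 ∧ b 4 = 1) ∨ (b 1 = 3 ∧ b 2 = 2 ∧ b 3 = 3 ∧ b 4 = 2) := by
  have := crit_one ok_4_3 ck_4_3 (by decide +kernel) hb h
  simp [w_4_3, List.range_succ, resM, INF] at this
  omega

theorem sol_6_3 {b : ℕ → ℕ} (hb : ∀ j, 1 ≤ j → j ≤ 6 → 1 ≤ b j)
    (h : Identity 6 3 b) :
    (b 1 = 7 ∧ b 2 = 6 ∧ b 3 = 7 ∧ b 4 = 6 ∧ b 5 = 6 ∧ b 6 = 7) ∨ (b 1 = 7 ∧ b 2 = 6 ∧ b 3 = 7 ∧ b 4 = 6 ∧ b 5 = 5 ∧ b 6 = 8) := by
  have := crit_one ok_6_3 ck_6_3 (by decide +kernel) hb h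
  simp [w_6_3, List.range_succ, resM, INF] at this
  omega

theorem sol_7_3 {b : ℕ → ℕ} (hb : ∀ j, 1 ≤ j → j ≤ 7 → 1 ≤ b j)
    (h : Identity 7 3 b) :
    (b 1 = 10 ∧ b 2 = 10 ∧ b 3 = 7 ∧ b 4 = 12 ∧ b 5 = 7 ∧ b 6 = 7 ∧ b 7 = 15) := by
  have := crit_one ok_7_3 ck_7_3 (by decide +kernel) hb h
  simp [w_7_3, List.range_succ, resM, INF] at this
  omega

theorem none_1 {M : ℕ} (hM : 3 ≤ M) {b : ℕ → ℕ} (hb : ∀ j, 1 ≤ j → j ≤ M → 1 ≤ b j)
    (h : Identity M 1 b) : False := by
  rcases Nat.lt_or_ge M 17 with h1 | h1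
  · interval_cases M
    · exact crit_none ok_3_1 ck_3_1 (by decide +kernel) hb h
    · exact crit_none ok_4_1 ck_4_1 (by decide +kernel) hb h
    · exact crit_none ok_5_1 ck_5_1 (by decide +kernel) hb h
    · exact crit_none ok_6_1 ck_6_1 (by decide +kernel) hb h
    · exact crit_none ok_7_1 ck_7_1 (by decide +kernel) hb h
    · exact crit_none ok_8_1 ck_8_1 (by decide +kernel) hb h
    · exact crit_none ok_9_1 ck_9_1 (by decide +kernel) hb h
    · exact crit_none ok_10_1 ck_10_1 (by decide +kernel) hb h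
    · exact crit_none ok_11_1 ck_11_1 (by decide +kernel) hb h
    · exact crit_none ok_12_1 ck_12_1 (by decide +kernel) hb h
    · exact crit_none ok_13_1 ck_13_1 (by decide +kernel) hb h
    · exact crit_none ok_14_1 ck_14_1 (by decide +kernel) hb h
    · exact crit_none ok_15_1 ck_15_1 (by decide +kernel) hb h
    · exact crit_none ok_16_1 ck_16_1 (by decide +kernel) hb h
  · exact crit_all ok_17_1 ck_17_1 (by decide +kernel) (K := 16) (L := 4) (by decide)
      (by norm_num) (by decide) (by decide) (by decide) (by decide) h1 hb h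

theorem none_2 {M : ℕ} (hM : 4 ≤ M) {b : ℕ → ℕ} (hb : ∀ j, 1 ≤ j → j ≤ M → 1 ≤ b j)
    (h : Identity M 2 b) : False := by
  rcases Nat.lt_or_ge M 23 with h1 | h1
  · interval_cases M
    · exact crit_none ok_4_2 ck_4_2 (by decide +kernel) hb h
    · exact crit_none ok_5_2 ck_5_2 (by decide +kernel) hb h
    · exact crit_none ok_6_2 ck_6_2 (by decide +kernel) hb h
    · exact crit_none ok_7_2 ck_7_2 (by decide +kernel) hb h
    · exact crit_none ok_8_2 ck_8_2 (by decide +kernel) hb h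
    · exact crit_none ok_9_2 ck_9_2 (by decide +kernel) hb h
    · exact crit_none ok_10_2 ck_10_2 (by decide +kernel) hb h
    · exact crit_none ok_11_2 ck_11_2 (by decide +kernel) hb h
    · exact crit_none ok_12_2 ck_12_2 (by decide +kernel) hb h
    · exact crit_none ok_13_2 ck_13_2 (by decide +kernel) hb h
    · exact crit_none ok_14_2 ck_14_2 (by decide +kernel) hb h
    · exact crit_none ok_15_2 ck_15_2 (by decide +kernel) hb h
    · exact crit_none ok_16_2 ck_16_2 (by decide +kernel) hb h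
    · exact crit_none ok_17_2 ck_17_2 (by decide +kernel) hb h
    · exact crit_none ok_18_2 ck_18_2 (by decide +kernel) hb h
    · exact crit_none ok_19_2 ck_19_2 (by decide +kernel) hb h
    · exact crit_none ok_20_2 ck_20_2 (by decide +kernel) hb h
    · exact crit_none ok_21_2 ck_21_2 (by decide +kernel) hb h
    · exact crit_none ok_22_2 ck_22_2 (by decide +kernel) hb h
  · exact crit_all ok_23_2 ck_23_2 (by decide +kernel) (K := 11) (L := 7) (by decide)
      (by norm_num) (by decide) (by decide) (by decide) (by decide) h1 hb h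

theorem none_3 {M : ℕ} (hM : 8 ≤ M) {b : ℕ → ℕ} (hb : ∀ j, 1 ≤ j → j ≤ M → 1 ≤ b j)
    (h : Identity M 3 b) : False := by
  rcases Nat.lt_or_ge M 33 with h1 | h1
  · interval_cases M
    · exact crit_none ok_8_3 ck_8_3 (by decide +kernel) hb h
    · exact crit_none ok_9_3 ck_9_3 (by decide +kernel) hb h
    · exact crit_none ok_10_3 ck_10_3 (by decide +kernel) hb h
    · exact crit_none ok_11_3 ck_11_3 (by decide +kernel) hb h
    · exact crit_none ok_12_3 ck_12_3 (by decide +kernel) hb h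
    · exact crit_none ok_13_3 ck_13_3 (by decide +kernel) hb h
    · exact crit_none ok_14_3 ck_14_3 (by decide +kernel) hb h
    · exact crit_none ok_15_3 ck_15_3 (by decide +kernel) hb h
    · exact crit_none ok_16_3 ck_16_3 (by decide +kernel) hb h
    · exact crit_none ok_17_3 ck_17_3 (by decide +kernel) hb h
    · exact crit_none ok_18_3 ck_18_3 (by decide +kernel) hb h
    · exact crit_none ok_19_3 ck_19_3 (by decide +kernel) hb h
    · exact crit_none ok_20_3 ck_20_3 (by decide +kernel) hb h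
    · exact crit_none ok_21_3 ck_21_3 (by decide +kernel) hb h
    · exact crit_none ok_22_3 ck_22_3 (by decide +kernel) hb h
    · exact crit_none ok_23_3 ck_23_3 (by decide +kernel) hb h
    · exact crit_none ok_24_3 ck_24_3 (by decide +kernel) hb h
    · exact crit_none ok_25_3 ck_25_3 (by decide +kernel) hb h
    · exact crit_none ok_26_3 ck_26_3 (by decide +kernel) hb h
    · exact crit_none ok_27_3 ck_27_3 (by decide +kernel) hb h
    · exact crit_none ok_28_3 ck_28_3 (by decide +kernel) hb h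
    · exact crit_none ok_29_3 ck_29_3 (by decide +kernel) hb h
    · exact crit_none ok_30_3 ck_30_3 (by decide +kernel) hb h
    · exact crit_none ok_31_3 ck_31_3 (by decide +kernel) hb h
    · exact crit_none ok_32_3 ck_32_3 (by decide +kernel) hb h
  · exact crit_all ok_33_3 ck_33_3 (by decide +kernel) (K := 8) (L := 12) (by decide)
      (by norm_num) (by decide) (by decide) (by decide) (by decide) h1 hb h

end Pool.Agent.W2helper10.E9
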