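import Pool.Agent.W2helper10.E9.D14_4p0
import Pool.Agent.W2helper10.E9.D14_4p1
import Pool.Agent.W2helper10.E9.D14_4p2
import Pool.Agent.W2helper10.E9.D14_4p3
import Pool.Agent.W2helper10.E9.D14_4p4
import Pool.Agent.W2helper10.E9.D14_4p5
import Pool.Agent.W2helper10.E9.D14_4p6

set_option autoImplicit false
set_option maxRecDepth 1000000

namespace Pool.Agent.W2helper10.E9

open Pool.Agent.MPe9218d Pool.Agent.H372R3.GD Pool.Agent.H372R3.GE

theorem root_14_4 (v : ℕ → ℕ) (hv : ∀ r, 1 ≤ v r)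
    (hId : ∀ n, 1 ≤ n → n ≤ w_14_4.N → w_14_4.AL.getD n 0 =
      cB w_14_4.em w_14_4.mask (fun e => v (e % w_14_4.M)) w_14_4.PB n) :
    Gd w_14_4.M v [] (List.replicate w_14_4.M 1, List.replicate w_14_4.M INF) := by
  have g0 := piece ok_14_4 hv hId cp_14_4_0 (by decide +kernel) (fun p hp => absurd hp List.not_mem_nil)
  have g1 := piece ok_14_4 hv hId cp_14_4_1 (by decide +kernel) (fun p hp => absurd hp List.not_mem_nil)
  have g2 := piece ok_14_4 hv hId cp_14_4_2 (by decide +kernel) (List.forall_mem_cons.2 ⟨g1, List.forall_mem_nil _⟩)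
  have g3 := piece ok_14_4 hv hId cp_14_4_3 (by decide +kernel) (fun p hp => absurd hp List.not_mem_nil)
  have g4 := piece ok_14_4 hv hId cp_14_4_4 (by decide +kernel) (List.forall_mem_cons.2 ⟨g3, (List.forall_mem_cons.2 ⟨g0, (List.forall_mem_cons.2 ⟨g2, List.forall_mem_nil _⟩)⟩)⟩)
  have g5 := piece ok_14_4 hv hId cp_14_4_5 (by decide +kernel) (List.forall_mem_cons.2 ⟨g4, List.forall_mem_nil _⟩)
  have g6 := piece ok_14_4 hv hId cp_14_4_6 (by decide +kernel) (fun p hp => absurd hp List.not_mem_nil)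
  have g7 := piece ok_14_4 hv hId cp_14_4_7 (by decide +kernel) (List.forall_mem_cons.2 ⟨g6, List.forall_mem_nil _⟩)
  have g8 := piece ok_14_4 hv hId cp_14_4_8 (by decide +kernel) (fun p hp => absurd hp List.not_mem_nil)
  have g9 := piece ok_14_4 hv hId cp_14_4_9 (by decide +kernel) (fun p hp => absurd hp List.not_mem_nil)
  have g10 := piece ok_14_4 hv hId cp_14_4_10 (by decide +kernel) (List.forall_mem_cons.2 ⟨g8, (List.forall_mem_cons.2 ⟨g9, List.forall_mem_nil _⟩)⟩)
  have g11 := piece ok_14_4 hv hId cp_14_4_11 (by decide +kernel) (fun p hp => absurd hp List.not_mem_nil)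
  have g12 := piece ok_14_4 hv hId cp_14_4_12 (by decide +kernel) (List.forall_mem_cons.2 ⟨g7, (List.forall_mem_cons.2 ⟨g10, (List.forall_mem_cons.2 ⟨g11, List.forall_mem_nil _⟩)⟩)⟩)
  have g13 := piece ok_14_4 hv hId cp_14_4_13 (by decide +kernel) (List.forall_mem_cons.2 ⟨g5, (List.forall_mem_cons.2 ⟨g12, List.forall_mem_nil _⟩)⟩)
  exact g13

end Pool.Agent.W2helper10.E9
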