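import Pool.Agent.W2helper10.E9.D15_4p0
import Pool.Agent.W2helper10.E9.D15_4p1
import Pool.Agent.W2helper10.E9.D15_4p2
import Pool.Agent.W2helper10.E9.D15_4p3
import Pool.Agent.W2helper10.E9.D15_4p4
import Pool.Agent.W2helper10.E9.D15_4p5
import Pool.Agent.W2helper10.E9.D15_4p6
import Pool.Agent.W2helper10.E9.D15_4p7
import Pool.Agent.W2helper10.E9.D15_4p8
import Pool.Agent.W2helper10.E9.D15_4p9
import Pool.Agent.W2helper10.E9.D15_4p10

set_option autoImplicit false
set_option maxRecDepth 1000000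

namespace Pool.Agent.W2helper10.E9

open Pool.Agent.MPe9218d Pool.Agent.H372R3.GD Pool.Agent.H372R3.GE

theorem root_15_4 (v : ℕ → ℕ) (hv : ∀ r, 1 ≤ v r)
    (hId : ∀ n, 1 ≤ n → n ≤ w_15_4.N → w_15_4.AL.getD n 0 =
      cB w_15_4.em w_15_4.mask (fun e => v (e % w_15_4.M)) w_15_4.PB n) :
    Gd w_15_4.M v [[46, 33, 33, 22, 35, 22, 22, 15, 39, 26, 26, 15, 28, 15, 15]] (List.replicate w_15_4.M 1, List.replicate w_15_4.M INF) := by
  have g0 := piece ok_15_4 hv hId cp_15_4_0 (by decide +kernel) (fun p hp => absurd hp List.not_mem_nil)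
  have g1 := piece ok_15_4 hv hId cp_15_4_1 (by decide +kernel) (fun p hp => absurd hp List.not_mem_nil)
  have g2 := piece ok_15_4 hv hId cp_15_4_2 (by decide +kernel) (List.forall_mem_cons.2 ⟨g1, (List.forall_mem_cons.2 ⟨g0, List.forall_mem_nil _⟩)⟩)
  have g3 := piece ok_15_4 hv hId cp_15_4_3 (by decide +kernel) (List.forall_mem_cons.2 ⟨g2, List.forall_mem_nil _⟩)
  have g4 := piece ok_15_4 hv hId cp_15_4_4 (by decide +kernel) (fun p hp => absurd hp List.not_mem_nil)
  have g5 := piece ok_15_4 hv hId cp_15_4_5 (by decide +kernel) (List.forall_mem_cons.2 ⟨g3, (List.forall_mem_cons.2 ⟨g4, List.forall_mem_nil _⟩)⟩)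
  have g6 := piece ok_15_4 hv hId cp_15_4_6 (by decide +kernel) (fun p hp => absurd hp List.not_mem_nil)
  have g7 := piece ok_15_4 hv hId cp_15_4_7 (by decide +kernel) (List.forall_mem_cons.2 ⟨g5, (List.forall_mem_cons.2 ⟨g6, List.forall_mem_nil _⟩)⟩)
  have g8 := piece ok_15_4 hv hId cp_15_4_8 (by decide +kernel) (List.forall_mem_cons.2 ⟨g7, List.forall_mem_nil _⟩)
  have g9 := piece ok_15_4 hv hId cp_15_4_9 (by decide +kernel) (fun p hp => absurd hp List.not_mem_nil)
  have g10 := piece ok_15_4 hv hId cp_15_4_10 (by decide +kernel) (fun p hp => absurd hp List.not_mem_nil)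
  have g11 := piece ok_15_4 hv hId cp_15_4_11 (by decide +kernel) (List.forall_mem_cons.2 ⟨g10, List.forall_mem_nil _⟩)
  have g12 := piece ok_15_4 hv hId cp_15_4_12 (by decide +kernel) (fun p hp => absurd hp List.not_mem_nil)
  have g13 := piece ok_15_4 hv hId cp_15_4_13 (by decide +kernel) (List.forall_mem_cons.2 ⟨g8, (List.forall_mem_cons.2 ⟨g9, List.forall_mem_nil _⟩)⟩)
  have g14 := piece ok_15_4 hv hId cp_15_4_14 (by decide +kernel) (fun p hp => absurd hp List.not_mem_nil)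
  have g15 := piece ok_15_4 hv hId cp_15_4_15 (by decide +kernel) (List.forall_mem_cons.2 ⟨g13, (List.forall_mem_cons.2 ⟨g11, (List.forall_mem_cons.2 ⟨g12, List.forall_mem_nil _⟩)⟩)⟩)
  have g16 := piece ok_15_4 hv hId cp_15_4_16 (by decide +kernel) (List.forall_mem_cons.2 ⟨g15, (List.forall_mem_cons.2 ⟨g14, List.forall_mem_nil _⟩)⟩)
  have g17 := piece ok_15_4 hv hId cp_15_4_17 (by decide +kernel) (fun p hp => absurd hp List.not_mem_nil)
  have g18 := piece ok_15_4 hv hId cp_15_4_18 (by decide +kernel) (fun p hp => absurd hp List.not_mem_nil)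
  have g19 := piece ok_15_4 hv hId cp_15_4_19 (by decide +kernel) (List.forall_mem_cons.2 ⟨g16, List.forall_mem_nil _⟩)
  have g20 := piece ok_15_4 hv hId cp_15_4_20 (by decide +kernel) (fun p hp => absurd hp List.not_mem_nil)
  have g21 := piece ok_15_4 hv hId cp_15_4_21 (by decide +kernel) (List.forall_mem_cons.2 ⟨g20, (List.forall_mem_cons.2 ⟨g19, (List.forall_mem_cons.2 ⟨g18, (List.forall_mem_cons.2 ⟨g17, List.forall_mem_nil _⟩)⟩)⟩)⟩)
  exact g21

end Pool.Agent.W2helper10.E9
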