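import Pool.Agent.W2helper10.E9.D16_4p0
import Pool.Agent.W2helper10.E9.D16_4p1
import Pool.Agent.W2helper10.E9.D16_4p2
import Pool.Agent.W2helper10.E9.D16_4p3
import Pool.Agent.W2helper10.E9.D16_4p4

set_option autoImplicit false
set_option maxRecDepth 1000000

namespace Pool.Agent.W2helper10.E9

open Pool.Agent.MPe9218d Pool.Agent.H372R3.GD Pool.Agent.H372R3.GE

theorem root_16_4 (v : ℕ → ℕ) (hv : ∀ r, 1 ≤ v r)
    (hId : ∀ n, 1 ≤ n → n ≤ w_16_4.N → w_16_4.AL.getD n 0 =
      cB w_16_4.em w_16_4.mask (fun e => v (e % w_16_4.M)) w_16_4.PB n) :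
    Gd w_16_4.M v [] (List.replicate w_16_4.M 1, List.replicate w_16_4.M INF) := by
  have g0 := piece ok_16_4 hv hId cp_16_4_0 (by decide +kernel) (fun p hp => absurd hp List.not_mem_nil)
  have g1 := piece ok_16_4 hv hId cp_16_4_1 (by decide +kernel) (fun p hp => absurd hp List.not_mem_nil)
  have g2 := piece ok_16_4 hv hId cp_16_4_2 (by decide +kernel) (List.forall_mem_cons.2 ⟨g1, List.forall_mem_nil _⟩)
  have g3 := piece ok_16_4 hv hId cp_16_4_3 (by decide +kernel) (List.forall_mem_cons.2 ⟨g0, (List.forall_mem_cons.2 ⟨g2, List.forall_mem_nil _⟩)⟩)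
  have g4 := piece ok_16_4 hv hId cp_16_4_4 (by decide +kernel) (fun p hp => absurd hp List.not_mem_nil)
  have g5 := piece ok_16_4 hv hId cp_16_4_5 (by decide +kernel) (List.forall_mem_cons.2 ⟨g4, List.forall_mem_nil _⟩)
  have g6 := piece ok_16_4 hv hId cp_16_4_6 (by decide +kernel) (fun p hp => absurd hp List.not_mem_nil)
  have g7 := piece ok_16_4 hv hId cp_16_4_7 (by decide +kernel) (List.forall_mem_cons.2 ⟨g3, List.forall_mem_nil _⟩)
  have g8 := piece ok_16_4 hv hId cp_16_4_8 (by decide +kernel) (List.forall_mem_cons.2 ⟨g7, (List.forall_mem_cons.2 ⟨g5, (List.forall_mem_cons.2 ⟨g6, List.forall_mem_nil _⟩)⟩)⟩)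
  exact g8

end Pool.Agent.W2helper10.E9
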