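import Pool.Agent.W2helper10.E9.Chk

set_option autoImplicit false
set_option maxRecDepth 1000000

namespace Pool.Agent.W2helper10.E9

open Pool.Agent.MPe9218d Pool.Agent.H372R3.GD Pool.Agent.H372R3.GE

def PB_12_4 : List ℕ :=
  [75, 74, 73, 72, 71, 70, 69, 68, 67, 66, 65, 64, 63, 62, 61, 60, 59, 58, 57, 56, 55, 54, 53,
  52, 51, 50, 49, 48, 47, 46, 45, 44, 43, 42, 41, 40, 39, 38, 37, 36, 35, 34, 33, 32, 31, 30,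
  29, 28, 27, 26, 25, 24, 23, 22, 21, 20, 19, 18, 16, 15, 14, 12, 11, 10, 8, 4]

def AL_12_4 : List ℕ :=
  [1, 0, 0, 0, 1, 0, 0, 0, 1, 0, 1, 1, 1, 0, 1, 1, 1, 0, 1, 1, 2, 1, 2, 2, 2, 1, 2, 2, 3, 1, 3,
  3, 4, 3, 5, 4, 4, 3, 6, 5, 5, 4, 7, 7, 8, 7, 9, 8, 9, 8, 11, 10, 11, 10, 14, 14, 16, 14, 18,
  16, 18, 17, 22, 20, 21, 21, 28, 27, 29, 28, 33, 31, 34, 34, 39, 37]

def w_12_4 : W :=
  ⟨12, 4, 75, 4, 75557863725914323279120, PB_12_4, AL_12_4⟩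

def t_12_4 : Tr :=
    (.b 8 4 (.d 12) (.b 10 6 (.d 14) (.b 11 7 (.d 15) (.b 0 8 (.d 16) (.b 2 10 (.d 18) (.b 3 11
    (.d 19) (.b 4 12 (.b 6 14 (.b 7 15 (.b 9 17 (.d 25) (.b 1 21 (.d 29) (.b 7 9 (.d 29) (.b 6 7
    (.d 29) (.b 4 8 (.b 8 16 (.d 24) (.b 0 16 (.b 10 12 (.b 6 10 (.d 26) (.b 4 6 (.d 26) (.u 28)))
    (.u 32)) (.u 32))) (.b 8 16 (.b 6 10 (.b 10 18 (.d 26) (.b 2 22 (.b 8 10 (.b 0 16 (.b 6 8 (.d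
    28) (.b 8 8 (.b 5 25 (.b 11 13 (.b 7 11 (.d 27) (.b 3 23 (.d 31) (.b 5 18 (.d 40) (.b 2 12 (.d
    40) (.b 10 26 (.b 3 35 (.b 9 23 (.b 1 33 (.d 41) (.b 10 24 (.b 9 22 (.b 10 23 (.b 9 21 (.u 55)
    (.u 45)) (.u 45)) (.u 44)) (.u 44))) (.u 43)) (.u 43)) (.u 42)))))) (.u 33)) (.u 33)) (.u
    32))) (.u 32)) (.u 30)) (.u 30))) (.b 10 18 (.b 0 20 (.b 8 12 (.b 5 18 (.d 40) (.b 2 12 (.d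
    40) (.b 3 35 (.b 11 27 (.b 9 23 (.b 1 33 (.d 41) (.b 3 13 (.d 41) (.b 2 34 (.b 9 22 (.b 5 37
    (.b 11 25 (.b 9 21 (.b 7 11 (.b 11 19 (.d 27) (.b 3 23 (.b 8 9 (.b 5 25 (.b 10 11 (.b 2 22 (.d
    30) (.b 0 14 (.b 8 8 (.d 32) (.u 34)) (.u 34))) (.u 33)) (.u 33)) (.u 31)) (.u 31))) (.b 11 19
    (.b 8 10 (.b 10 14 (.b 2 22 (.d 30) (.b 5 26 (.b 0 16 (.b 11 14 (.b 10 12 (.b 8 8 (.d 32) (.b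
    0 14 (.b 11 12 (.b 10 10 (.b 5 25 (.d 33) (.u 56)) (.u 34)) (.u 34)) (.u 34))) (.u 56)) (.u
    56)) (.u 56)) (.u 56))) (.b 2 22 (.b 0 16 (.b 8 8 (.b 5 25 (.b 11 13 (.b 3 23 (.d 31) (.b 4 10
    (.d 46) (.b 3 31 (.b 9 19 (.b 3 27 (.b 7 12 (.d 50) (.b 3 24 (.u 55) (.u 54))) (.u 51)) (.u
    47)) (.u 47)))) (.u 33)) (.u 33)) (.u 32)) (.u 32)) (.u 30))) (.b 2 22 (.b 10 14 (.b 3 23 (.b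
    11 15 (.b 0 16 (.b 10 12 (.b 4 10 (.d 46) (.b 9 19 (.b 7 12 (.d 50) (.b 5 31 (.b 5 27 (.b 6 12
    (.d 52) (.b 9 18 (.b 7 13 (.b 1 45 (.d 53) (.b 8 11 (.d 53) (.b 5 26 (.b 2 20 (.b 11 14 (.b 10
    11 (.b 11 13 (.b 5 25 (.d 33) (.b 3 21 (.b 2 19 (.b 0 15 (.b 10 10 (.b 11 12 (.b 2 16 (.d 68)
    (.b 0 12 (.d 68) (.b 10 8 (.b 3 16 (.b 11 9 (.d 37) (.b 10 7 (.d 37) (.u 38))) (.u 38)) (.u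
    36)))) (.b 2 18 (.b 0 14 (.b 3 19 (.b 0 13 (.b 2 17 (.b 10 9 (.b 3 15 (.d 67) (.b 0 9 (.b 2 16
    (.d 36) (.b 10 8 (.d 36) (.b 3 17 (.b 3 16 (.u 60) (.u 38)) (.u 37)))) (.u 39))) (.u 59)) (.u
    59)) (.u 35)) (.u 35)) (.u 34)) (.u 34))) (.b 2 18 (.b 0 14 (.b 11 12 (.b 3 20 (.b 3 19 (.b 2
    17 (.b 0 13 (.b 11 11 (.d 35) (.u 59)) (.u 59)) (.u 59)) (.u 59)) (.u 58)) (.u 34)) (.u 34))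
    (.u 34))) (.u 57)) (.u 57)) (.u 57))) (.b 5 25 (.b 2 18 (.b 0 14 (.b 10 10 (.b 3 19 (.b 0 13
    (.b 1 47 (.d 75) (.b 6 13 (.d 75) (.b 5 19 (.d 75) (.b 3 15 (.b 5 21 (.d 37) (.b 2 15 (.d 37)
    (.b 10 7 (.d 37) (.b 0 10 (.b 2 16 (.d 36) (.b 10 8 (.d 36) (.b 0 9 (.d 39) (.b 5 22 (.b 3 14
    (.d 64) (.u 65)) (.u 60))))) (.u 38))))) (.u 67))))) (.u 35)) (.u 35)) (.u 34)) (.u 34)) (.u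
    34)) (.u 33))) (.b 5 25 (.b 11 13 (.b 2 18 (.b 0 14 (.b 11 12 (.b 3 21 (.b 3 20 (.b 2 16 (.b 0
    12 (.d 36) (.u 68)) (.u 68)) (.u 58)) (.u 57)) (.u 34)) (.u 34)) (.u 34)) (.u 33)) (.u 33)))
    (.u 56)) (.u 56)) (.u 56)))) (.u 49)) (.u 48))) (.u 55)) (.u 51))) (.u 47))) (.u 32)) (.u 32))
    (.u 31)) (.u 31)) (.u 30)) (.u 30))) (.u 27))) (.u 45)) (.u 45)) (.u 45)) (.u 44)) (.u 42))))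
    (.u 43)) (.u 43)) (.u 43)))) (.u 28)) (.u 28)) (.u 26))) (.u 24))))))) (.u 23)) (.u 22)) (.u
    20))))))))

theorem ok_12_4 : okW w_12_4 = true := by decide +kernel

theorem ck_12_4 : ckk 12 75 4 75557863725914323279120
    PB_12_4 AL_12_4 [] t_12_4 (List.replicate 12 1) (List.replicate 12 INF) = true := by
  decide +kernel

def PB_13_4 : List ℕ :=
  [61, 60, 59, 58, 57, 56, 55, 54, 53, 52, 51, 50, 49, 48, 47, 46, 45, 44, 43, 42, 41, 40, 39,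
  38, 37, 36, 35, 34, 33, 32, 31, 30, 29, 28, 27, 26, 25, 24, 23, 22, 21, 20, 18, 17, 16, 14,
  12, 11, 9, 5]

def AL_13_4 : List ℕ :=
  [1, 0, 0, 0, 0, 1, 0, 0, 0, 1, 0, 1, 1, 0, 1, 0, 1, 1, 1, 0, 1, 1, 1, 2, 1, 2, 1, 2, 1, 2, 2,
  2, 2, 2, 3, 3, 4, 3, 4, 3, 4, 3, 5, 5, 4, 5, 5, 7, 6, 8, 6, 8, 7, 7, 9, 9, 10, 9, 11, 10, 14,
  13]

def w_13_4 : W :=
  ⟨13, 4, 61, 5, 4611686018426821152, PB_13_4, AL_13_4⟩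

def t_13_4 : Tr :=
    (.b 9 4 (.d 14) (.b 11 6 (.d 16) (.b 12 7 (.d 17) (.b 1 9 (.d 19) (.b 3 11 (.d 21) (.b 4 12
    (.d 22) (.b 5 13 (.b 7 15 (.b 8 16 (.d 26) (.b 10 18 (.d 28) (.b 9 17 (.b 5 9 (.d 27) (.b 12
    20 (.b 11 19 (.b 7 11 (.d 29) (.b 1 22 (.b 6 15 (.d 49) (.b 2 7 (.d 49) (.b 0 3 (.d 49) (.b 0
    8 (.d 49) (.b 0 21 (.b 9 13 (.d 31) (.b 3 24 (.b 12 16 (.b 6 20 (.d 44) (.b 4 16 (.d 44) (.b 2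
    12 (.d 44) (.b 1 10 (.d 44) (.b 10 25 (.b 8 23 (.d 45) (.b 3 13 (.d 45) (.u 46))) (.u 47))))))
    (.u 34)) (.u 34))) (.b 9 13 (.b 4 25 (.b 11 13 (.b 2 23 (.d 33) (.b 9 11 (.d 33) (.b 3 24 (.b
    12 16 (.b 6 27 (.b 12 13 (.b 2 49 (.b 8 35 (.b 0 22 (.d 56) (.b 5 11 (.d 56) (.b 10 38 (.b 7
    12 (.d 54) (.b 2 24 (.d 58) (.b 9 12 (.d 58) (.b 7 13 (.d 58) (.b 1 20 (.b 0 43 (.b 2 25 (.d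
    57) (.b 10 37 (.b 8 33 (.b 1 19 (.b 1 18 (.b 11 12 (.d 36) (.b 3 20 (.b 1 16 (.b 3 18 (.b 8 29
    (.b 4 21 (.b 1 15 (.d 39) (.b 12 11 (.d 39) (.b 4 18 (.b 10 31 (.b 6 23 (.d 41) (.b 3 17 (.d
    41) (.u 43))) (.b 4 13 (.b 0 34 (.d 44) (.b 6 20 (.d 44) (.u 48))) (.u 47))) (.u 42)))) (.b 12
    8 (.b 1 15 (.d 39) (.b 10 25 (.b 6 23 (.d 41) (.b 3 17 (.d 41) (.u 43))) (.u 47))) (.u 42)))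
    (.b 0 27 (.b 6 20 (.d 44) (.b 4 16 (.d 44) (.b 1 10 (.d 44) (.b 2 36 (.b 3 12 (.b 10 27 (.d
    45) (.u 47)) (.u 46)) (.u 46))))) (.u 51))) (.u 40)) (.u 38)) (.u 38))) (.b 11 12 (.b 3 20 (.b
    11 10 (.b 8 29 (.b 4 21 (.b 12 11 (.d 39) (.b 4 18 (.b 3 18 (.b 11 8 (.d 40) (.b 10 31 (.b 6
    23 (.d 41) (.b 3 17 (.d 41) (.u 43))) (.b 4 13 (.b 0 34 (.d 44) (.b 6 20 (.d 44) (.u 48))) (.u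
    47)))) (.b 11 8 (.b 8 25 (.b 6 21 (.b 10 31 (.d 41) (.b 11 7 (.d 41) (.b 8 23 (.b 4 13 (.b 0
    34 (.d 44) (.b 6 20 (.d 44) (.u 48))) (.u 47)) (.u 45)))) (.u 43)) (.u 43)) (.u 40))) (.u
    42))) (.b 12 11 (.b 12 8 (.b 10 25 (.b 6 23 (.d 41) (.b 3 17 (.d 41) (.b 11 7 (.d 41) (.u
    43)))) (.u 47)) (.u 42)) (.u 39))) (.b 4 21 (.b 12 11 (.b 6 21 (.b 3 15 (.b 11 8 (.d 40) (.b
    10 31 (.d 41) (.b 4 19 (.d 41) (.b 12 9 (.d 41) (.u 42))))) (.u 43)) (.u 43)) (.u 39)) (.u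
    39))) (.u 38)) (.u 38)) (.u 36))) (.u 61)) (.u 61)) (.u 61))) (.u 61)) (.u 60)))))) (.u 60))))
    (.u 59)) (.u 59)) (.u 37)) (.u 37)) (.u 34)) (.u 34)))) (.u 35)) (.u 35)) (.u 31))))))) (.u
    32))) (.b 7 11 (.b 4 25 (.b 0 17 (.b 9 13 (.d 31) (.b 7 9 (.d 31) (.b 1 22 (.b 2 23 (.b 3 24
    (.b 12 16 (.b 1 18 (.b 12 14 (.b 6 20 (.d 44) (.b 4 16 (.d 44) (.b 2 12 (.d 44) (.b 1 10 (.d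
    44) (.b 0 8 (.d 44) (.b 10 25 (.b 8 23 (.d 45) (.b 3 13 (.d 45) (.u 46))) (.u 47))))))) (.u
    36)) (.u 36)) (.u 34)) (.u 34)) (.u 33)) (.u 32)))) (.u 35)) (.u 35)) (.u 29))) (.u 30))) (.b
    5 9 (.b 11 19 (.b 7 11 (.d 29) (.b 5 7 (.d 29) (.b 12 20 (.b 0 21 (.b 1 22 (.b 3 24 (.b 12 16
    (.b 9 19 (.d 51) (.b 8 17 (.d 51) (.b 2 5 (.d 51) (.b 2 10 (.d 51) (.b 0 1 (.d 51) (.b 0 6 (.d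
    51) (.b 2 23 (.b 11 15 (.d 33) (.b 4 25 (.b 0 17 (.b 1 18 (.b 12 14 (.b 9 43 (.d 53) (.b 10 25
    (.b 8 23 (.d 45) (.b 3 13 (.d 45) (.b 2 11 (.d 45) (.b 6 18 (.b 4 19 (.d 41) (.b 3 17 (.d 41)
    (.b 1 13 (.d 41) (.b 12 9 (.d 41) (.b 2 12 (.d 44) (.b 0 8 (.d 44) (.u 46))))))) (.u 46)))))
    (.u 47))) (.u 36)) (.u 36)) (.u 35)) (.u 35))) (.b 11 15 (.b 4 25 (.b 0 17 (.b 11 13 (.d 35)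
    (.b 1 18 (.b 12 14 (.b 6 27 (.b 8 38 (.d 56) (.b 6 8 (.d 56) (.u 61))) (.b 0 15 (.b 12 13 (.b
    2 27 (.b 9 43 (.d 53) (.b 3 18 (.b 0 12 (.b 1 16 (.d 38) (.b 10 25 (.b 8 23 (.d 45) (.b 3 13
    (.d 45) (.u 46))) (.u 47))) (.u 40)) (.u 40))) (.u 55)) (.u 37)) (.u 37))) (.u 36)) (.u 36)))
    (.b 11 13 (.b 6 27 (.b 12 13 (.b 8 38 (.d 56) (.b 6 8 (.d 56) (.u 61))) (.u 37)) (.u 37)) (.u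
    35))) (.b 0 17 (.b 11 13 (.b 10 25 (.b 8 23 (.d 45) (.b 3 13 (.d 45) (.b 2 36 (.b 9 24 (.b 6
    20 (.d 44) (.b 1 10 (.d 44) (.b 0 8 (.d 44) (.u 46)))) (.u 46)) (.u 46)))) (.u 47)) (.u 35))
    (.u 35))) (.u 33))))))))) (.u 34)) (.u 34)) (.u 32)) (.u 31)) (.u 30)))) (.b 2 23 (.b 7 11 (.b
    5 7 (.d 29) (.b 12 20 (.b 4 25 (.b 0 17 (.b 7 9 (.d 31) (.b 1 22 (.b 3 24 (.b 12 16 (.b 1 18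
    (.b 12 14 (.b 9 43 (.d 53) (.b 11 21 (.d 53) (.b 10 19 (.d 53) (.b 6 11 (.d 53) (.b 2 3 (.d
    53) (.b 2 8 (.d 53) (.b 0 8 (.d 53) (.b 10 25 (.b 8 23 (.d 45) (.b 3 13 (.d 45) (.b 2 11 (.d
    45) (.b 11 28 (.b 6 18 (.b 4 19 (.d 41) (.b 3 17 (.d 41) (.b 1 13 (.d 41) (.b 12 9 (.d 41) (.b
    2 12 (.d 44) (.u 46)))))) (.u 46)) (.u 46))))) (.u 47))))))))) (.u 36)) (.u 36)) (.u 34)) (.u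
    34)) (.u 32))) (.u 35)) (.u 35)) (.u 30))) (.b 5 7 (.b 0 21 (.b 1 18 (.b 5 4 (.d 32) (.b 3 24
    (.b 12 16 (.b 5 6 (.d 30) (.b 4 25 (.b 0 17 (.b 12 14 (.b 6 27 (.b 10 22 (.d 50) (.b 8 18 (.d
    50) (.b 6 14 (.d 50) (.b 2 6 (.d 50) (.b 0 2 (.d 50) (.b 8 38 (.d 56) (.b 10 40 (.b 11 20 (.d
    54) (.b 7 12 (.d 54) (.b 7 13 (.b 9 43 (.d 53) (.b 8 42 (.b 11 21 (.d 53) (.b 2 8 (.d 53) (.b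
    0 8 (.d 53) (.b 10 25 (.b 3 13 (.d 45) (.b 2 11 (.d 45) (.b 11 28 (.b 6 18 (.b 4 19 (.d 41)
    (.b 3 17 (.d 41) (.b 1 13 (.d 41) (.b 12 9 (.d 41) (.b 0 9 (.b 2 19 (.d 37) (.b 12 13 (.d 37)
    (.b 4 21 (.b 1 15 (.b 3 20 (.d 38) (.u 40)) (.u 39)) (.u 39)))) (.u 43)))))) (.u 46)) (.u
    46)))) (.u 47))))) (.u 52))) (.u 58)))) (.u 58)))))))) (.b 2 19 (.b 0 15 (.b 12 13 (.d 37) (.b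
    3 20 (.b 1 16 (.b 0 14 (.d 38) (.b 8 29 (.b 10 20 (.d 52) (.b 9 18 (.d 52) (.b 2 4 (.d 52) (.b
    6 34 (.d 56) (.b 9 39 (.b 11 21 (.d 53) (.b 7 13 (.d 53) (.b 2 8 (.d 53) (.b 11 25 (.b 9 21
    (.b 4 16 (.d 44) (.b 2 12 (.d 44) (.b 1 10 (.d 44) (.b 10 25 (.b 8 23 (.d 45) (.b 3 13 (.d 45)
    (.u 46))) (.u 47))))) (.u 49)) (.u 49))))) (.u 57)))))) (.b 3 15 (.b 1 11 (.b 10 31 (.d 41)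
    (.b 4 19 (.d 41) (.b 11 32 (.b 2 14 (.b 4 21 (.d 39) (.b 9 30 (.d 40) (.b 11 28 (.b 3 12 (.b 2
    11 (.d 45) (.u 46)) (.u 46)) (.u 46)))) (.u 42)) (.u 42)))) (.u 43)) (.u 43)))) (.b 0 14 (.b 8
    29 (.b 10 20 (.d 52) (.b 9 18 (.d 52) (.b 2 4 (.d 52) (.b 6 34 (.d 56) (.b 0 1 (.d 56) (.b 9
    39 (.b 11 21 (.d 53) (.b 7 13 (.d 53) (.b 2 8 (.d 53) (.b 0 8 (.d 53) (.b 11 25 (.b 9 21 (.b 4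
    16 (.d 44) (.b 2 12 (.d 44) (.b 10 25 (.b 8 23 (.d 45) (.b 3 13 (.d 45) (.u 46))) (.u 47))))
    (.u 49)) (.u 49)))))) (.u 57))))))) (.b 4 21 (.b 2 17 (.b 3 15 (.b 0 9 (.b 9 30 (.d 40) (.b 2
    16 (.d 40) (.b 9 39 (.b 11 21 (.d 53) (.b 10 19 (.d 53) (.b 7 13 (.d 53) (.b 0 8 (.d 53) (.b 4
    16 (.b 10 31 (.d 41) (.b 11 32 (.d 42) (.b 3 13 (.u 46) (.u 45)))) (.u 44)))))) (.u 57)))) (.u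
    43)) (.u 43)) (.u 39)) (.u 39))) (.u 38))) (.b 1 16 (.b 0 14 (.b 8 29 (.b 10 20 (.d 52) (.b 9
    18 (.d 52) (.b 2 4 (.d 52) (.b 6 34 (.d 56) (.b 0 1 (.d 56) (.b 9 39 (.b 11 21 (.d 53) (.b 7
    13 (.d 53) (.b 2 8 (.d 53) (.b 0 8 (.d 53) (.b 11 25 (.b 9 21 (.b 4 16 (.d 44) (.b 2 12 (.d
    44) (.b 1 10 (.d 44) (.b 8 22 (.b 10 27 (.d 45) (.u 47)) (.u 46))))) (.u 49)) (.u 49)))))) (.u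
    57))))))) (.b 1 11 (.b 0 9 (.b 4 21 (.b 2 17 (.d 39) (.b 9 30 (.b 10 27 (.b 4 19 (.d 41) (.b
    11 32 (.b 11 28 (.b 9 24 (.b 1 10 (.d 44) (.b 0 8 (.d 44) (.u 46))) (.u 46)) (.u 46)) (.u
    42))) (.u 45)) (.u 40))) (.b 2 17 (.b 10 31 (.b 9 30 (.b 2 16 (.d 40) (.b 11 32 (.b 10 27 (.b
    11 28 (.b 9 24 (.b 1 10 (.d 44) (.b 0 8 (.d 44) (.u 46))) (.u 46)) (.u 46)) (.u 45)) (.u 42)))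
    (.b 2 16 (.b 11 28 (.b 2 14 (.d 42) (.b 10 27 (.u 46) (.u 45))) (.u 46)) (.u 40))) (.u 41))
    (.u 39))) (.u 43)) (.u 43))) (.u 38)) (.u 38)))) (.b 12 13 (.b 3 20 (.b 1 16 (.b 8 29 (.b 10
    20 (.d 52) (.b 9 18 (.d 52) (.b 2 4 (.d 52) (.b 6 34 (.d 56) (.b 9 39 (.b 11 21 (.d 53) (.b 7
    13 (.d 53) (.b 2 8 (.d 53) (.b 11 25 (.b 9 21 (.b 4 16 (.d 44) (.b 2 12 (.d 44) (.b 1 10 (.d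
    44) (.b 10 25 (.b 8 23 (.d 45) (.b 3 13 (.d 45) (.u 46))) (.u 47))))) (.u 49)) (.u 49))))) (.u
    57)))))) (.b 3 15 (.b 1 11 (.b 10 31 (.d 41) (.b 4 19 (.d 41) (.b 12 9 (.d 41) (.b 11 32 (.b 2
    14 (.b 4 21 (.d 39) (.b 12 11 (.d 39) (.b 9 30 (.d 40) (.b 11 28 (.b 3 12 (.b 2 11 (.d 45) (.u
    46)) (.u 46)) (.u 46))))) (.u 42)) (.u 42))))) (.u 43)) (.u 43))) (.u 38)) (.u 38)) (.u 37)))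
    (.b 0 15 (.b 12 13 (.b 9 39 (.b 11 21 (.d 53) (.b 10 19 (.d 53) (.b 7 13 (.d 53) (.b 0 8 (.d
    53) (.b 11 25 (.b 9 21 (.b 4 16 (.d 44) (.b 1 10 (.d 44) (.b 10 25 (.b 8 23 (.d 45) (.b 3 13
    (.d 45) (.u 46))) (.u 47)))) (.u 49)) (.u 49)))))) (.u 57)) (.u 37)) (.u 37)))) (.u 36)) (.u
    35)) (.u 35))) (.u 34)) (.u 34))) (.u 36)) (.u 31)) (.u 29))) (.u 33))) (.u 27))))) (.u 25))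
    (.u 23))))))))

theorem ok_13_4 : okW w_13_4 = true := by decide +kernel

theorem ck_13_4 : ckk 13 61 5 4611686018426821152
    PB_13_4 AL_13_4 [] t_13_4 (List.replicate 13 1) (List.replicate 13 INF) = true := by
  decide +kernel

end Pool.Agent.W2helper10.E9
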