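import Pool.Agent.W2helper10.E9.Fin
import Pool.Agent.W2helper10.E9.T9
import Pool.Agent.W2helper10.E9.R14_4
import Pool.Agent.W2helper10.E9.R15_4
import Pool.Agent.W2helper10.E9.R16_4
import Pool.Agent.W2helper10.E9.R17_4
import Pool.Agent.W2helper49.DC.Core2

/-!
# The solutions for `s = 4`, and the complete list for `s ≤ 4`
-/

set_option autoImplicit false
set_option maxHeartbeats 400000

namespace Pool.Agent.W2helper10.E9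

open Pool.Agent.MPe9218d Pool.Agent.H372R3.GD Pool.Agent.H372R3.GE

theorem sol_15_4 {b : ℕ → ℕ} (hb : ∀ j, 1 ≤ j → j ≤ 15 → 1 ≤ b j)
    (h : Identity 15 4 b) :
    b 1 = 33 ∧ b 2 = 33 ∧ b 3 = 22 ∧ b 4 = 35 ∧ b 5 = 22 ∧ b 6 = 22 ∧ b 7 = 15 ∧ b 8 = 39 ∧ b 9 = 26 ∧ b 10 = 26 ∧ b 11 = 15 ∧ b 12 = 28 ∧ b 13 = 15 ∧ b 14 = 15 ∧ b 15 = 46 := by
  have := crit_root ok_15_4 (by decide +kernel) hb h root_15_4
  simp [w_15_4, List.range_succ, resM, INF] at this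
  omega

theorem none_14_4 {b : ℕ → ℕ} (hb : ∀ j, 1 ≤ j → j ≤ 14 → 1 ≤ b j)
    (h : Identity 14 4 b) : False :=
  List.not_mem_nil (crit_root ok_14_4 (by decide +kernel) hb h root_14_4)

theorem none_16_4 {b : ℕ → ℕ} (hb : ∀ j, 1 ≤ j → j ≤ 16 → 1 ≤ b j)
    (h : Identity 16 4 b) : False :=
  List.not_mem_nil (crit_root ok_16_4 (by decide +kernel) hb h root_16_4)

theorem none_17_4 {b : ℕ → ℕ} (hb : ∀ j, 1 ≤ j → j ≤ 17 → 1 ≤ b j)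
    (h : Identity 17 4 b) : False :=
  List.not_mem_nil (crit_root ok_17_4 (by decide +kernel) hb h root_17_4)

theorem fin_4 {M : ℕ} (hM : 8 ≤ M) {b : ℕ → ℕ} (hb : ∀ j, 1 ≤ j → j ≤ M → 1 ≤ b j)
    (h : Identity M 4 b) : M = 15 ∧ b 1 = 33 ∧ b 2 = 33 ∧ b 3 = 22 ∧ b 4 = 35 ∧ b 5 = 22 ∧ b 6 = 22 ∧ b 7 = 15 ∧ b 8 = 39 ∧ b 9 = 26 ∧ b 10 = 26 ∧ b 11 = 15 ∧ b 12 = 28 ∧ b 13 = 15 ∧ b 14 = 15 ∧ b 15 = 46 := by
  rcases Nat.lt_or_ge M 32 with h1 | h1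
  · interval_cases M
    · exact (crit_none ok_8_4 ck_8_4 (by decide +kernel) hb h).elim
    · exact (crit_none ok_9_4 ck_9_4 (by decide +kernel) hb h).elim
    · exact (crit_none ok_10_4 ck_10_4 (by decide +kernel) hb h).elim
    · exact (crit_none ok_11_4 ck_11_4 (by decide +kernel) hb h).elim
    · exact (crit_none ok_12_4 ck_12_4 (by decide +kernel) hb h).elim
    · exact (crit_none ok_13_4 ck_13_4 (by decide +kernel) hb h).elim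
    · exact (none_14_4 hb h).elim
    · exact ⟨rfl, sol_15_4 hb h⟩
    · exact (none_16_4 hb h).elim
    · exact (none_17_4 hb h).elim
    · exact (crit_none ok_18_4 ck_18_4 (by decide +kernel) hb h).elim
    · exact (crit_none ok_19_4 ck_19_4 (by decide +kernel) hb h).elim
    · exact (crit_none ok_20_4 ck_20_4 (by decide +kernel) hb h).elim
    · exact (crit_none ok_21_4 ck_21_4 (by decide +kernel) hb h).elim
    · exact (crit_none ok_22_4 ck_22_4 (by decide +kernel) hb h).elim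
    · exact (crit_none ok_23_4 ck_23_4 (by decide +kernel) hb h).elim
    · exact (crit_none ok_24_4 ck_24_4 (by decide +kernel) hb h).elim
    · exact (crit_none ok_25_4 ck_25_4 (by decide +kernel) hb h).elim
    · exact (crit_none ok_26_4 ck_26_4 (by decide +kernel) hb h).elim
    · exact (crit_none ok_27_4 ck_27_4 (by decide +kernel) hb h).elim
    · exact (crit_none ok_28_4 ck_28_4 (by decide +kernel) hb h).elim
    · exact (crit_none ok_29_4 ck_29_4 (by decide +kernel) hb h).elim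
    · exact (crit_none ok_30_4 ck_30_4 (by decide +kernel) hb h).elim
    · exact (crit_none ok_31_4 ck_31_4 (by decide +kernel) hb h).elim
  · exact (main 4 M le_rfl (by norm_num; omega) ⟨b, hb, h⟩).elim

theorem list4 (M s : ℕ) (b : ℕ → ℕ) (hs : 1 ≤ s) (hsM : 2 ^ (s - 1) ≤ M)
    (hw : s ≤ 4 ∨ 11 * 2 ^ (s - 3) < M)
    (hb : ∀ j, 1 ≤ j → j ≤ M → 1 ≤ b j) (h : Identity M s b) :
    (M = 1 ∧ s = 1 ∧ b 1 = 1) ∨
    (M = 2 ∧ s = 1 ∧ b 1 = 6 ∧ b 2 = 7) ∨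
    (M = 2 ∧ s = 2 ∧ b 1 = 1 ∧ b 2 = 1) ∨
    (M = 3 ∧ s = 2 ∧ b 1 = 3 ∧ b 2 = 3 ∧ b 3 = 4) ∨
    (M = 3 ∧ s = 2 ∧ b 1 = 3 ∧ b 2 = 2 ∧ b 3 = 5) ∨
    (M = 4 ∧ s = 3 ∧ b 1 = 3 ∧ b 2 = 2 ∧ b 3 = 3 ∧ b 4 = 2) ∨
    (M = 4 ∧ s = 3 ∧ b 1 = 4 ∧ b 2 = 1 ∧ b 3 = 4 ∧ b 4 = 1) ∨
    (M = 6 ∧ s = 3 ∧ b 1 = 7 ∧ b 2 = 6 ∧ b 3 = 7 ∧ b 4 = 6 ∧ b 5 = 6 ∧ b 6 = 7) ∨
    (M = 6 ∧ s = 3 ∧ b 1 = 7 ∧ b 2 = 6 ∧ b 3 = 7 ∧ b 4 = 6 ∧ b 5 = 5 ∧ b 6 = 8) ∨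
    (M = 7 ∧ s = 3 ∧ b 1 = 10 ∧ b 2 = 10 ∧ b 3 = 7 ∧ b 4 = 12 ∧ b 5 = 7 ∧ b 6 = 7 ∧ b 7 = 15) ∨
    (M = 15 ∧ s = 4 ∧ b 1 = 33 ∧ b 2 = 33 ∧ b 3 = 22 ∧ b 4 = 35 ∧ b 5 = 22 ∧ b 6 = 22 ∧
      b 7 = 15 ∧ b 8 = 39 ∧ b 9 = 26 ∧ b 10 = 26 ∧ b 11 = 15 ∧ b 12 = 28 ∧ b 13 = 15 ∧
      b 14 = 15 ∧ b 15 = 46) := by
  rcases Nat.lt_or_ge s 5 with h5 | h5
  · interval_cases s
    · norm_num at hsM
      rcases Nat.lt_or_ge M 3 with h3 | h3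
      · interval_cases M
        · exact Or.inl (⟨rfl, rfl, sol_1_1 hb h⟩)
        · exact Or.inr (Or.inl (⟨rfl, rfl, sol_2_1 hb h⟩))
      · exact (none_1 h3 hb h).elim
    · norm_num at hsM
      rcases Nat.lt_or_ge M 4 with h3 | h3
      · interval_cases M
        · exact Or.inr (Or.inr (Or.inl (⟨rfl, rfl, sol_2_2 hb h⟩)))
        · rcases sol_3_2 hb h with h4 | h4
          · exact Or.inr (Or.inr (Or.inr (Or.inl (⟨rfl, rfl, h4⟩))))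
          · exact Or.inr (Or.inr (Or.inr (Or.inr (Or.inl (⟨rfl, rfl, h4⟩)))))
      · exact (none_2 h3 hb h).elim
    · norm_num at hsM
      rcases Nat.lt_or_ge M 8 with h3 | h3
      · interval_cases M
        · rcases sol_4_3 hb h with h4 | h4
          · exact Or.inr (Or.inr (Or.inr (Or.inr (Or.inr (Or.inr (Or.inl (⟨rfl, rfl, h4⟩)))))))
          · exact Or.inr (Or.inr (Or.inr (Or.inr (Or.inr (Or.inl (⟨rfl, rfl, h4⟩))))))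
        · exact (crit_none ok_5_3 ck_5_3 (by decide +kernel) hb h).elim
        · rcases sol_6_3 hb h with h4 | h4
          · exact Or.inr (Or.inr (Or.inr (Or.inr (Or.inr (Or.inr (Or.inr (Or.inl (⟨rfl, rfl, h4⟩))))))))
          · exact Or.inr (Or.inr (Or.inr (Or.inr (Or.inr (Or.inr (Or.inr (Or.inr (Or.inl (⟨rfl, rfl, h4⟩)))))))))
        · exact Or.inr (Or.inr (Or.inr (Or.inr (Or.inr (Or.inr (Or.inr (Or.inr (Or.inr (Or.inl (⟨rfl, rfl, sol_7_3 hb h⟩))))))))))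
      · exact (none_3 h3 hb h).elim
    · norm_num at hsM
      obtain ⟨h6, h7⟩ := fin_4 hsM hb h
      exact Or.inr (Or.inr (Or.inr (Or.inr (Or.inr (Or.inr (Or.inr (Or.inr (Or.inr (Or.inr (⟨h6, rfl, h7⟩))))))))))
  · rcases hw with hw | hw
    · omega
    · exact (Pool.Agent.W2helper49.DC.C2.main s M (by omega) hw ⟨b, hb, h⟩).elim

end Pool.Agent.W2helper10.E9
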