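import Pool.Agent.W2helper10.E9.Chk

/-!
# The checker for a tree cut into pieces
-/

set_option autoImplicit false

namespace Pool.Agent.W2helper10.E9

open Pool.Agent.MPe9218d Pool.Agent.H372R3.GD Pool.Agent.H372R3.GE

/-- certificates with holes `h` -/
inductive Tp
  | s : Tp
  | h : Tp
  | u : ℕ → Tp
  | d : ℕ → Tp
  | b : ℕ → ℕ → Tp → Tp → Tp

def ckp (M N em mask : ℕ) (PB AL : List ℕ) (sols : List (List ℕ))
    (Hs : List (List ℕ × List ℕ)) : Tp → List ℕ → List ℕ → Bool
  | .s, lo, hi => (lo == hi) && sols.elem lo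
  | .h, lo, hi => Hs.elem (lo, hi)
  | .u n, lo, _ => Nat.ble 1 n && (Nat.ble n N &&
      Nat.blt (cB em mask (dl M lo) PB n) (AL.getD n 0))
  | .d n, _, hi => Nat.ble 1 n && (Nat.ble n N &&
      Nat.blt (AL.getD n 0) (cB em mask (dl M hi) PB n))
  | .b j g t t', lo, hi => Nat.blt j M && (ckp M N em mask PB AL sols Hs t lo (hi.set j g) &&
      ckp M N em mask PB AL sols Hs t' (lo.set j (g + 1)) hi)

/-- the assertion of a node -/
def Gd (M : ℕ) (v : ℕ → ℕ) (sols : List (List ℕ)) (p : List ℕ × List ℕ) : Prop :=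
  (∀ r, r < M → p.1.getD r 1 ≤ v r ∧ v r ≤ p.2.getD r 1) → (List.range M).map v ∈ sols

section
variable {w : W} (hw : okW w = true)
include hw

theorem psound {v : ℕ → ℕ} (hv : ∀ r, 1 ≤ v r) {sols : List (List ℕ)}
    (hId : ∀ n, 1 ≤ n → n ≤ w.N → w.AL.getD n 0 = cB w.em w.mask (fun e => v (e % w.M)) w.PB n)
    {Hs : List (List ℕ × List ℕ)} (hH : ∀ p ∈ Hs, Gd w.M v sols p) :
    ∀ (t : Tp) (lo hi : List ℕ), ckp w.M w.N w.em w.mask w.PB w.AL sols Hs t lo hi = true →
      lo.length = w.M → hi.length = w.M → (∀ r, r < w.M → 1 ≤ lo.getD r 1) →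
      Gd w.M v sols (lo, hi) := by
  have hM := okW_M hw
  have hlt : ∀ e, e % w.M < w.M := fun e => Nat.mod_lt _ hM
  intro t
  induction t with
  | s =>
    intro lo hi h hlo hhi _ hbd
    rw [ckp, Bool.and_eq_true, beq_iff_eq, List.elem_iff] at h
    obtain ⟨h1, h2⟩ := h
    have : (List.range w.M).map v = lo := by
      apply List.ext_getElem
      · simp [hlo]
      · intro i h3 h4
        have h5 := hbd i (by omega)
        rw [← h1] at h5
        simp only [List.getD_eq_getElem _ _ h4] at h5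
        simp only [List.getElem_map, List.getElem_range]
        omega
    rw [this]
    exact h2
  | h =>
    intro lo hi h hlo hhi _
    rw [ckp, List.elem_iff] at h
    exact hH _ h
  | u n =>
    intro lo hi h hlo hhi hpos hbd
    exfalso
    rw [ckp] at h
    simp only [Bool.and_eq_true, Nat.ble_eq, Nat.blt_eq] at h
    obtain ⟨h1, h2, h3⟩ := h
    have hA := hId n h1 h2
    have m2 : cB w.em w.mask (fun e => v (e % w.M)) w.PB n ≤ cB w.em w.mask (dl w.M lo) w.PB n :=
      ncard_mono hw (fun e => hpos _ (hlt e)) (fun e => (hbd _ (hlt e)).1) h1 h2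
    omega
  | d n =>
    intro lo hi h hlo hhi hpos hbd
    exfalso
    rw [ckp] at h
    simp only [Bool.and_eq_true, Nat.ble_eq, Nat.blt_eq] at h
    obtain ⟨h1, h2, h3⟩ := h
    have hA := hId n h1 h2
    have m2 : cB w.em w.mask (dl w.M hi) w.PB n ≤ cB w.em w.mask (fun e => v (e % w.M)) w.PB n :=
      ncard_mono hw (fun e => hv _) (fun e => (hbd _ (hlt e)).2) h1 h2
    omega
  | b j g t t' iht ihu =>
    intro lo hi h hlo hhi hpos hbd
    rw [ckp] at h
    simp only [Bool.and_eq_true, Nat.blt_eq] at h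
    obtain ⟨h1, h2, h3⟩ := h
    by_cases hg : v j ≤ g
    · refine iht lo (hi.set j g) h2 hlo (by simpa using hhi) hpos (fun r hr => ?_)
      show lo.getD r 1 ≤ v r ∧ v r ≤ (hi.set j g).getD r 1
      rw [getD_set _ _ _ _ (by omega)]
      refine ⟨(hbd r hr).1, ?_⟩
      split_ifs with hrj
      · rw [hrj]; exact hg
      · exact (hbd r hr).2
    · refine ihu (lo.set j (g + 1)) hi h3 (by simpa using hlo) hhi (fun r hr => ?_)
        (fun r hr => ?_)
      · rw [getD_set _ _ _ _ (by omega)]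
        split_ifs with hrj
        · omega
        · exact hpos r hr
      · show (lo.set j (g + 1)).getD r 1 ≤ v r ∧ v r ≤ hi.getD r 1
        rw [getD_set _ _ _ _ (by omega)]
        refine ⟨?_, (hbd r hr).2⟩
        split_ifs with hrj
        · rw [hrj]; omega
        · exact (hbd r hr).1

/-- the soundness of one piece -/
theorem piece {v : ℕ → ℕ} (hv : ∀ r, 1 ≤ v r) {sols : List (List ℕ)}
    (hId : ∀ n, 1 ≤ n → n ≤ w.N → w.AL.getD n 0 = cB w.em w.mask (fun e => v (e % w.M)) w.PB n)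
    {Hs : List (List ℕ × List ℕ)} {t : Tp} {lo hi : List ℕ}
    (ht : ckp w.M w.N w.em w.mask w.PB w.AL sols Hs t lo hi = true)
    (hl : (lo.length == w.M && (hi.length == w.M && lo.all (fun x => Nat.ble 1 x))) = true)
    (hH : ∀ p ∈ Hs, Gd w.M v sols p) : Gd w.M v sols (lo, hi) := by
  rw [Bool.and_eq_true, Bool.and_eq_true, beq_iff_eq, beq_iff_eq, List.all_eq_true] at hl
  refine psound hw hv hId hH t lo hi ht hl.1 hl.2.1 (fun r hr => ?_)
  rw [List.getD_eq_getElem _ _ (by omega)]
  have := hl.2.2 _ (List.getElem_mem (by omega : r < lo.length))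
  rwa [Nat.ble_eq] at this

/-- the criterion for a single modulus, given the root assertion -/
theorem crit_root {sols : List (List ℕ)} (hN : Nat.blt w.N INF = true) {b : ℕ → ℕ}
    (hb : ∀ j, 1 ≤ j → j ≤ w.M → 1 ≤ b j) (hId : Identity w.M w.s b)
    (hroot : ∀ v : ℕ → ℕ, (∀ r, 1 ≤ v r) →
      (∀ n, 1 ≤ n → n ≤ w.N → w.AL.getD n 0 = cB w.em w.mask (fun e => v (e % w.M)) w.PB n) →
      Gd w.M v sols (List.replicate w.M 1, List.replicate w.M INF)) :
    (List.range w.M).map (fun r => min (b (resM w.M r)) INF) ∈ sols := by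
  have hM := okW_M hw
  rw [Nat.blt_eq] at hN
  refine hroot (fun r => min (b (resM w.M r)) INF)
    (fun r => le_min (res_pos hM hb r) (by norm_num [INF])) (fun n h1 h2 => ?_) (fun r hr => ?_)
  · have h0 : (LSet (fun e => e ∉ C w.M w.s) (fun e => b (resM w.M e)) n n) =
        LSet (fun e => e ∉ C w.M w.s) (fun e => min (b (resM w.M (e % w.M))) INF) n n := by
      rw [LSet_cap (N := INF - 1) (by omega)]
      congr 1
      funext e
      rw [resM_mod]
      rfl
    rw [AL_spec hw h2, hId n h1, B0, BSet_eq hM b hb, h0,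
      B_spec hw (fun e => le_min (res_pos hM hb _) (by norm_num [INF])) h1 h2]
  · show (List.replicate w.M 1).getD r 1 ≤ _ ∧ _ ≤ (List.replicate w.M INF).getD r 1
    rw [getD_replicate _ _ _ hr, getD_replicate _ _ _ hr]
    exact ⟨le_min (res_pos hM hb r) (by norm_num [INF]), min_le_right _ _⟩

end

end Pool.Agent.W2helper10.E9
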