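import Pool.Agent.W2helper10.E9.Chk

/-!
# Transfer between moduli

`x = c M - l` with `l ≤ D K < M` goes to `c M₀ - l`.
-/

set_option autoImplicit false

namespace Pool.Agent.W2helper10.E9

open Pool.Agent.MPe9218d Pool.Agent.H372R3.GD Pool.Agent.H372R3.GE

def lev (M Λ x : ℕ) : ℕ := (x + Λ) / M

def tf (M M₀ Λ x : ℕ) : ℕ := lev M Λ x * M₀ - (lev M Λ x * M - x)

lemma lev_eq {M Λ x c l : ℕ} (hM : Λ < M) (h : x + l = c * M) (hl : l ≤ Λ) : lev M Λ x = c := by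
  unfold lev
  have h1 : x + Λ = (Λ - l) + c * M := by omega
  rw [h1, Nat.add_mul_div_right _ _ (by omega), Nat.div_eq_of_lt (by omega), zero_add]

lemma tf_eq {M M₀ Λ x c l : ℕ} (hM : Λ < M) (h : x + l = c * M) (hl : l ≤ Λ) :
    tf M M₀ Λ x = c * M₀ - l := by
  unfold tf
  rw [lev_eq hM h hl]
  congr 1
  omega

lemma mul_ge {c M : ℕ} (hc : 1 ≤ c) : M ≤ c * M := Nat.le_mul_of_pos_left _ hc

lemma tf_add {M M₀ Λ x c l : ℕ} (hM : Λ < M) (hM₀ : Λ < M₀) (hc : 1 ≤ c) (h : x + l = c * M)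
    (hl : l ≤ Λ) : tf M M₀ Λ x + l = c * M₀ := by
  rw [tf_eq hM h hl]
  have := mul_ge (M := M₀) hc
  omega

lemma lev_bd {M D K L x c l : ℕ} (hK : 1 ≤ K) (hM : D * K < M) (hL : D ≤ L) (h : x + l = c * M)
    (hl : l ≤ D * c) (hx : x + L ≤ K * M) : c ≤ K := by
  by_contra hc
  push Not at hc
  obtain ⟨t, rfl⟩ := Nat.exists_eq_add_of_lt hc
  have h1 : (t + 1) * (D * K + 1) ≤ (t + 1) * M := Nat.mul_le_mul_left _ hM
  have h2 : t * (D * 1) ≤ t * (D * K) := Nat.mul_le_mul_left _ (Nat.mul_le_mul_left _ hK)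
  nlinarith

lemma sum_tf {M M₀ D K : ℕ} (hM : D * K < M) (hM₀ : D * K < M₀) : ∀ l : List ℕ,
    (∀ e ∈ l, ∃ c x, e + x = c * M ∧ 1 ≤ c ∧ x ≤ D * c ∧ c ≤ K) →
    ∃ Q X, l.sum + X = Q * M ∧ (l.map (tf M M₀ (D * K))).sum + X = Q * M₀ ∧ X ≤ D * Q := by
  intro l
  induction l with
  | nil => intro _; exact ⟨0, 0, by simp, by simp, by simp⟩
  | cons p l ih =>
    intro h
    obtain ⟨Q, X, h1, h2, h3⟩ := ih (fun e he => h e (List.mem_cons_of_mem _ he))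
    obtain ⟨c, x, h4, h5, h6, h7⟩ := h p List.mem_cons_self
    have h8 : x ≤ D * K := h6.trans (Nat.mul_le_mul_left _ h7)
    have h9 := tf_add (M₀ := M₀) hM hM₀ h5 h4 h8
    refine ⟨c + Q, x + X, ?_, ?_, ?_⟩
    · rw [List.sum_cons, add_mul]; omega
    · rw [List.map_cons, List.sum_cons, add_mul]; omega
    · rw [mul_add]; omega

theorem inj_le {M M₀ D K L : ℕ} (hK : 1 ≤ K) (hM : D * K < M) (hM₀ : D * K < M₀) (hL : D ≤ L)
    {ok ok₀ : ℕ → Prop} {d d₀ : ℕ → ℕ} (hd₀ : ∀ e, 1 ≤ d₀ e)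
    (h1 : ∀ e, 1 ≤ e → e + L ≤ K * M → ok e → ∃ c x, e + x = c * M ∧ 1 ≤ c ∧ x ≤ D * c ∧
      ok₀ (c * M₀ - x))
    (h2 : ∀ c x c' x', x ≤ D * K → x' ≤ D * K → 1 ≤ c → 1 ≤ c' →
      (c' * M - x') + d (c * M - x) ≤ c * M - x → (c' * M₀ - x') + d₀ (c * M₀ - x) ≤ c * M₀ - x)
    {n n₀ c x : ℕ} (hn : n + x = c * M) (hn₀ : n₀ + x = c * M₀) (hx : x ≤ D * K)
    (hnN : n + L ≤ K * M) :
    (LSet ok d n n).ncard ≤ (LSet ok₀ d₀ n₀ n₀).ncard := by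
  have hsym : ∀ l ∈ LSet ok d n n, ∀ e ∈ l, ∃ c x, e + x = c * M ∧ 1 ≤ c ∧ x ≤ D * c ∧ c ≤ K ∧
      ok₀ (c * M₀ - x) := by
    intro l hl e he
    obtain ⟨e1, e2, e3⟩ := hl.1 e he
    obtain ⟨c, x, g1, g2, g3, g4⟩ := h1 e e1 (by omega) e3
    exact ⟨c, x, g1, g2, g3, lev_bd hK hM hL g1 g3 (by omega), g4⟩
  refine Set.ncard_le_ncard_of_injOn (List.map (tf M M₀ (D * K))) ?_ ?_ (finite_LSet hd₀ _ _)
  · intro l hl
    have hs := hsym l hl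
    obtain ⟨Q, X, q1, q2, q3⟩ := sum_tf hM hM₀ l (fun e he => by
      obtain ⟨c, x, g1, g2, g3, g4, _⟩ := hs e he
      exact ⟨c, x, g1, g2, g3, g4⟩)
    rw [hl.2.2] at q1
    have q4 := lev_bd hK hM hL q1 q3 hnN
    have q5 : X ≤ D * K := q3.trans (Nat.mul_le_mul_left _ q4)
    have q6 : Q = c := by rw [← lev_eq hM q1 q5, lev_eq hM hn hx]
    subst q6
    have q7 : (l.map (tf M M₀ (D * K))).sum = n₀ := by omega
    refine ⟨?_, ?_, q7⟩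
    · intro y hy
      have hy' := hy
      rw [List.mem_map] at hy
      obtain ⟨e, he, rfl⟩ := hy
      obtain ⟨c, x, g1, g2, g3, g4, g5⟩ := hs e he
      have g6 : x ≤ D * K := g3.trans (Nat.mul_le_mul_left _ g4)
      have g7 := mul_ge (M := M₀) g2
      have g8 := List.single_le_sum (l := l.map (tf M M₀ (D * K))) (fun x _ => Nat.zero_le x) _ hy'
      rw [q7] at g8
      rw [tf_eq hM g1 g6] at g8 ⊢
      exact ⟨by omega, g8, g5⟩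
    · rw [chain_pw, List.pairwise_map]
      refine List.Pairwise.imp_of_mem ?_ (chain_pw.mp hl.2.1)
      intro e e' he he' hee
      obtain ⟨c, x, g1, g2, g3, g4, g5⟩ := hs e he
      obtain ⟨c', x', g1', g2', g3', g4', g5'⟩ := hs e' he'
      have g6 : x ≤ D * K := g3.trans (Nat.mul_le_mul_left _ g4)
      have g6' : x' ≤ D * K := g3'.trans (Nat.mul_le_mul_left _ g4')
      rw [tf_eq hM g1 g6, tf_eq hM g1' g6']
      refine h2 c x c' x' g6 g6' g2 g2' ?_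
      rw [show c * M - x = e by omega, show c' * M - x' = e' by omega]
      exact hee
  · intro l hl l' hl' hll
    have inv : ∀ l ∈ LSet ok d n n, (l.map (tf M M₀ (D * K))).map (tf M₀ M (D * K)) = l := by
      intro l hl
      rw [List.map_map]
      conv_rhs => rw [← List.map_id l]
      refine List.map_congr_left fun e he => ?_
      obtain ⟨c, x, g1, g2, g3, g4, g5⟩ := hsym l hl e he
      have g6 : x ≤ D * K := g3.trans (Nat.mul_le_mul_left _ g4)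
      show tf M₀ M (D * K) (tf M M₀ (D * K) e) = e
      rw [tf_eq hM₀ (tf_add hM hM₀ g2 g1 g6) g6]
      omega
    rw [← inv l hl, ← inv l' hl', hll]

lemma cmp {M p c r y : ℕ} (hr : r ≤ M) (hy : y < M) :
    p * M + r ≤ c * M + y ↔ p < c ∨ (p = c ∧ r ≤ y) := by
  rcases lt_trichotomy p c with h | h | h
  · obtain ⟨t, rfl⟩ := Nat.exists_eq_add_of_lt h
    refine ⟨fun _ => Or.inl h, fun _ => ?_⟩
    have := Nat.zero_le (t * M)
    nlinarith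
  · subst h
    constructor
    · intro h; right; exact ⟨rfl, by omega⟩
    · rintro (h | ⟨_, h⟩) <;> omega
  · obtain ⟨t, rfl⟩ := Nat.exists_eq_add_of_lt h
    constructor
    · intro h'
      exfalso
      have := Nat.zero_le (t * M)
      nlinarith
    · rintro (h' | ⟨h', _⟩) <;> omega

section
variable {M M₀ s K L : ℕ}

lemma okA_sym (hs : 1 ≤ s) (hM : 2 ^ (s - 1) < M) {e : ℕ} (he : 1 ≤ e) (h : okA M s e) :
    ∃ c i, 1 ≤ i ∧ i ≤ s ∧ e + 2 ^ (i - 1) = c * M ∧ 1 ≤ c := by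
  obtain ⟨i, h1, h2, h3⟩ := h
  have h4 : 2 ^ (i - 1) ≤ 2 ^ (s - 1) := Nat.pow_le_pow_right (by norm_num) (by omega)
  have hmod2 : e + 2 ^ (i - 1) ≡ 0 [MOD M] := by
    have h5 : e + 2 ^ (i - 1) ≡ a M i + 2 ^ (i - 1) [MOD M] := Nat.ModEq.add_right _ h3
    have h6 : a M i + 2 ^ (i - 1) = M := by unfold a; omega
    rw [h6] at h5
    exact h5.trans (by simp [Nat.ModEq])
  obtain ⟨q, hq⟩ := (Nat.modEq_zero_iff_dvd).mp hmod2
  have h7 : 1 ≤ 2 ^ (i - 1) := Nat.one_le_two_pow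
  refine ⟨q, i, h1, h2, by rw [hq]; ring, ?_⟩
  rcases Nat.eq_zero_or_pos q with h0 | h0
  · rw [h0, Nat.mul_zero] at hq; omega
  · exact h0

lemma sym_okA (hM : 2 ^ (s - 1) < M) {c i : ℕ} (hc : 1 ≤ c) (h1 : 1 ≤ i) (h2 : i ≤ s) :
    okA M s (c * M - 2 ^ (i - 1)) := by
  refine ⟨i, h1, h2, ?_⟩
  have h4 : 2 ^ (i - 1) ≤ 2 ^ (s - 1) := Nat.pow_le_pow_right (by norm_num) (by omega)
  have h5 := mul_ge (M := M) hc
  have h6 : a M i + 2 ^ (i - 1) = M := by unfold a; omega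
  have h7 : c * M - 2 ^ (i - 1) + 2 ^ (i - 1) ≡ a M i + 2 ^ (i - 1) [MOD M] := by
    rw [Nat.sub_add_cancel (by omega), h6]
    simp [Nat.ModEq]
  exact Nat.ModEq.add_right_cancel' _ h7

lemma A_le (hs : 1 ≤ s) (hK : 1 ≤ K) (hM : 2 ^ (s - 1) * K < M) (hM₀ : 2 ^ (s - 1) * K < M₀)
    (hL : 2 ^ (s - 1) ≤ L) {n n₀ c x : ℕ} (hn : n + x = c * M) (hn₀ : n₀ + x = c * M₀)
    (hx : x ≤ 2 ^ (s - 1) * K) (hnN : n + L ≤ K * M) :
    A (a M) s M n ≤ A (a M₀) s M₀ n₀ := by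
  have hD : 2 ^ (s - 1) ≤ 2 ^ (s - 1) * K := Nat.le_mul_of_pos_right _ hK
  unfold A
  rw [ASet_eq, ASet_eq]
  refine inj_le hK hM hM₀ hL (fun _ => le_rfl) ?_ ?_ hn hn₀ hx hnN
  · intro e he _ hok
    obtain ⟨c, i, h1, h2, h3, h4⟩ := okA_sym hs (by omega) he hok
    have h5 : 2 ^ (i - 1) ≤ 2 ^ (s - 1) := Nat.pow_le_pow_right (by norm_num) (by omega)
    exact ⟨c, 2 ^ (i - 1), h3, h4, h5.trans (Nat.le_mul_of_pos_right _ h4),
      sym_okA (by omega) h4 h1 h2⟩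
  · intro c x c' x' hx hx' hc hc' h
    have g1 := mul_ge (M := M) hc
    have g2 := mul_ge (M := M) hc'
    have g3 := mul_ge (M := M₀) hc
    have g4 := mul_ge (M := M₀) hc'
    have h1 : c' * M + (x + 1) ≤ c * M + x' := by omega
    rw [cmp (by omega) (by omega)] at h1
    have h2 := (cmp (M := M₀) (p := c') (c := c) (r := x + 1) (y := x') (by omega) (by omega)).mpr h1
    omega

lemma A_tr (hs : 1 ≤ s) (hK : 1 ≤ K) (hM : 2 ^ (s - 1) * K < M) (hM₀ : 2 ^ (s - 1) * K < M₀)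
    (hL : 2 ^ (s - 1) ≤ L) {n n₀ c x : ℕ} (hn : n + x = c * M) (hn₀ : n₀ + x = c * M₀)
    (hx : x ≤ 2 ^ (s - 1) * K) (hnN : n + L ≤ K * M) (hnN₀ : n₀ + L ≤ K * M₀) :
    A (a M) s M n = A (a M₀) s M₀ n₀ :=
  le_antisymm (A_le hs hK hM hM₀ hL hn hn₀ hx hnN) (A_le hs hK hM₀ hM hL hn₀ hn hx hnN₀)

/-- the bounds stay in range -/
lemma range_tr (hLK : L ≤ 2 ^ (s - 1) * K) (hM : 2 ^ (s - 1) * K < M)
    (hM₀ : 2 ^ (s - 1) * K < M₀) {n n₀ c x : ℕ} (hn : n + x = c * M) (hn₀ : n₀ + x = c * M₀)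
    (hx : x ≤ 2 ^ (s - 1) * K) (hnN : n + L ≤ K * M) : n₀ + L ≤ K * M₀ := by
  have h1 : c * M + L ≤ K * M + x := by omega
  rw [cmp (by omega) (by omega)] at h1
  have h2 := (cmp (M := M₀) (p := c) (c := K) (r := L) (y := x) (by omega) (by omega)).mpr h1
  omega

lemma C_sym (hs : 1 ≤ s) (hK : 1 ≤ K) (hM : 2 ^ (s - 1) * K < M) (hM₀ : 2 ^ (s - 1) * K < M₀)
    (hL : 2 ^ (s - 1) ≤ L) (hLK : L ≤ 2 ^ (s - 1) * K) {e : ℕ} (he : 1 ≤ e) (heN : e + L ≤ K * M)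
    (hok : e ∉ C M s) : ∃ c x, e + x = c * M ∧ 1 ≤ c ∧ x ≤ 2 ^ (s - 1) * c ∧
      c * M₀ - x ∉ C M₀ s := by
  have hD : 2 ^ (s - 1) ≤ 2 ^ (s - 1) * K := Nat.le_mul_of_pos_right _ hK
  have hA : A (a M) s M e ≠ 0 := fun h => hok ⟨he, h⟩
  have hne : (ASet (a M) s M e).Nonempty := by
    by_contra h
    rw [Set.not_nonempty_iff_eq_empty] at h
    apply hA
    unfold A
    rw [h, Set.ncard_empty]
  obtain ⟨l, hl⟩ := hne
  rw [ASet_eq] at hl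
  obtain ⟨Q, X, q1, q2, q3⟩ := sum_tf (D := 2 ^ (s - 1)) (K := K) hM hM₀ l (fun p hp => by
    obtain ⟨p1, p2, p3⟩ := hl.1 p hp
    obtain ⟨c, i, h1, h2, h3, h4⟩ := okA_sym hs (by omega) p1 p3
    have h5 : 2 ^ (i - 1) ≤ 2 ^ (s - 1) := Nat.pow_le_pow_right (by norm_num) (by omega)
    have h6 : 2 ^ (i - 1) ≤ 2 ^ (s - 1) * c := h5.trans (Nat.le_mul_of_pos_right _ h4)
    exact ⟨c, 2 ^ (i - 1), h3, h4, h6, lev_bd hK hM hL h3 h6 (by omega)⟩)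
  rw [hl.2.2] at q1
  have q4 := lev_bd hK hM hL q1 q3 heN
  have q5 : X ≤ 2 ^ (s - 1) * K := q3.trans (Nat.mul_le_mul_left _ q4)
  have q6 : 1 ≤ Q := by
    rcases Nat.eq_zero_or_pos Q with h | h
    · subst h; omega
    · exact h
  have q7 := mul_ge (M := M₀) q6
  refine ⟨Q, X, q1, q6, q3, ?_⟩
  rintro ⟨_, h⟩
  apply hA
  rw [A_tr hs hK hM hM₀ hL q1 (n₀ := Q * M₀ - X) (by omega) q5 heN
    (range_tr hLK hM hM₀ q1 (by omega) q5 heN), h]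

lemma resM_congr {M e e' : ℕ} (h : e % M = e' % M) : resM M e = resM M e' := by
  unfold resM; rw [h]

/-- the transferred difference conditions -/
def vv (M M₀ Λ : ℕ) (b : ℕ → ℕ) (r : ℕ) : ℕ :=
  max 1 ((b (resM M (M - (M₀ - r % M₀) % M₀)) + (M₀ - r % M₀) % M₀) / M * M₀ +
    min ((b (resM M (M - (M₀ - r % M₀) % M₀)) + (M₀ - r % M₀) % M₀) % M) (Λ + 1) -
      (M₀ - r % M₀) % M₀)

lemma off_eq {M₀ x c : ℕ} (hx : x < M₀) (hc : 1 ≤ c) : (M₀ - (c * M₀ - x) % M₀) % M₀ = x := by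
  obtain ⟨k, rfl⟩ := Nat.exists_eq_add_of_le hc
  rcases Nat.eq_zero_or_pos x with h | h
  · subst h
    simp
  · have h1 : (1 + k) * M₀ - x = (M₀ - x) + k * M₀ := by
      rw [add_mul, one_mul]; omega
    rw [h1, Nat.add_mul_mod_self_right, Nat.mod_eq_of_lt (by omega : M₀ - x < M₀),
      Nat.mod_eq_of_lt (by omega : M₀ - (M₀ - x) < M₀)]
    omega

lemma mod_eq {M x c : ℕ} (hx : x < M) (hc : 1 ≤ c) : (c * M - x) % M = (M - x) % M := by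
  obtain ⟨k, rfl⟩ := Nat.exists_eq_add_of_le hc
  have h1 : (1 + k) * M - x = (M - x) + k * M := by
    rw [add_mul, one_mul]; omega
  rw [h1, Nat.add_mul_mod_self_right]

lemma stepB {Λ : ℕ} {b : ℕ → ℕ} (hM : Λ < M) (hM₀ : Λ < M₀) (hb : ∀ j, 1 ≤ j → j ≤ M → 1 ≤ b j)
    {c x c' x' : ℕ} (hx : x ≤ Λ) (hx' : x' ≤ Λ) (hc : 1 ≤ c) (hc' : 1 ≤ c') :
    (c' * M - x') + b (resM M (c * M - x)) ≤ c * M - x ↔
      (c' * M₀ - x') + vv M M₀ Λ b ((c * M₀ - x) % M₀) ≤ c * M₀ - x := by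
  have g1 := mul_ge (M := M) hc
  have g2 := mul_ge (M := M) hc'
  have g3 := mul_ge (M := M₀) hc
  have g4 := mul_ge (M := M₀) hc'
  have e1 : (M₀ - (c * M₀ - x) % M₀) % M₀ = x := off_eq (by omega) hc
  have e2 : resM M (c * M - x) = resM M (M - x) := resM_congr (mod_eq (by omega) hc)
  have hb1 : 1 ≤ b (resM M (M - x)) := res_pos (by omega) hb (M - x)
  obtain ⟨β, hβ⟩ : ∃ β, β = b (resM M (M - x)) + x := ⟨_, rfl⟩
  have hv : vv M M₀ Λ b ((c * M₀ - x) % M₀) = max 1 (β / M * M₀ + min (β % M) (Λ + 1) - x) := by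
    unfold vv
    rw [Nat.mod_mod, e1, ← hβ]
  have hβM : β / M * M + β % M = β := Nat.div_add_mod' β M
  have hr : β % M < M := Nat.mod_lt _ (by omega)
  have hpos : x + 1 ≤ β / M * M₀ + min (β % M) (Λ + 1) := by
    rcases Nat.eq_zero_or_pos (β / M) with h | h
    · rw [h, Nat.zero_mul] at hβM ⊢
      omega
    · have := mul_ge (M := M₀) h
      omega
  rw [hv, e2]
  have t1 : (c' * M - x') + b (resM M (M - x)) ≤ c * M - x ↔
      (c' + β / M) * M + β % M ≤ c * M + x' := by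
    rw [add_mul]; omega
  have t2 : (c' * M₀ - x') + max 1 (β / M * M₀ + min (β % M) (Λ + 1) - x) ≤ c * M₀ - x ↔
      (c' + β / M) * M₀ + min (β % M) (Λ + 1) ≤ c * M₀ + x' := by
    rw [add_mul, max_eq_right (by omega)]; omega
  rw [t1, t2, cmp hr.le (by omega), cmp (by omega) (by omega)]
  omega

theorem transfer (hs : 1 ≤ s) (hK : 1 ≤ K) (hL : 2 ^ (s - 1) ≤ L) (hLK : L ≤ 2 ^ (s - 1) * K)
    (hM₀ : M₀ = 2 ^ (s - 1) * K + 1) (hM : M₀ ≤ M) {b : ℕ → ℕ}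
    (hb : ∀ j, 1 ≤ j → j ≤ M → 1 ≤ b j) (hId : Identity M s b) {n₀ : ℕ} (h1 : 1 ≤ n₀)
    (h2 : n₀ + L ≤ K * M₀) :
    A (a M₀) s M₀ n₀ = (LSet (fun e => e ∉ C M₀ s)
      (fun e => vv M M₀ (2 ^ (s - 1) * K) b (e % M₀)) n₀ n₀).ncard := by
  obtain ⟨Λ, hΛ⟩ : ∃ Λ, Λ = 2 ^ (s - 1) * K := ⟨_, rfl⟩
  have hM₁ : 2 ^ (s - 1) * K < M := by omega
  have hM₀' : 2 ^ (s - 1) * K < M₀ := by omega
  obtain ⟨c, hc⟩ : ∃ c, c = (n₀ + Λ) / M₀ := ⟨_, rfl⟩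
  have h3 : c * M₀ + (n₀ + Λ) % M₀ = n₀ + Λ := by rw [hc]; exact Nat.div_add_mod' _ _
  have h4 : (n₀ + Λ) % M₀ < M₀ := Nat.mod_lt _ (by omega)
  obtain ⟨x, hx⟩ : ∃ x, x = Λ - (n₀ + Λ) % M₀ := ⟨_, rfl⟩
  have hxΛ : x ≤ 2 ^ (s - 1) * K := by omega
  have hn₀ : n₀ + x = c * M₀ := by omega
  have hc1 : 1 ≤ c := by
    rcases Nat.eq_zero_or_pos c with h | h
    · rw [h, Nat.zero_mul] at hn₀; omega
    · exact h
  have g1 := mul_ge (M := M) hc1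
  obtain ⟨n, hn'⟩ : ∃ n, n = c * M - x := ⟨_, rfl⟩
  have hn : n + x = c * M := by omega
  have hn1 : 1 ≤ n := by omega
  have hnN : n + L ≤ K * M := range_tr hLK hM₀' hM₁ hn₀ hn hxΛ h2
  rw [← A_tr hs hK hM₁ hM₀' hL hn hn₀ hxΛ hnN h2, hId n hn1]
  unfold B0
  rw [BSet_eq (by omega) b hb]
  have hv1 : ∀ e, 1 ≤ vv M M₀ (2 ^ (s - 1) * K) b (e % M₀) := fun e => le_max_left _ _
  refine le_antisymm ?_ ?_
  · refine inj_le hK hM₁ hM₀' hL hv1 ?_ ?_ hn hn₀ hxΛ hnN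
    · intro e he heN hok
      exact C_sym hs hK hM₁ hM₀' hL hLK he heN hok
    · intro c x c' x' hx hx' hc hc' h
      exact (stepB hM₁ hM₀' hb hx hx' hc hc').mp h
  · refine inj_le hK hM₀' hM₁ hL (fun e => res_pos (by omega) hb e) ?_ ?_ hn₀ hn hxΛ h2
    · intro e he heN hok
      exact C_sym hs hK hM₀' hM₁ hL hLK he heN hok
    · intro c x c' x' hx hx' hc hc' h
      exact (stepB hM₁ hM₀' hb hx hx' hc hc').mpr h

end

/-- the criterion for all large moduli -/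
theorem crit_all {w : W} (hw : okW w = true) {t : Tr}
    (ht : ckk w.M w.N w.em w.mask w.PB w.AL [] t (List.replicate w.M 1)
      (List.replicate w.M INF) = true)
    (hN : Nat.blt w.N INF = true) {K L M : ℕ} (hs : 1 ≤ w.s) (hK : 1 ≤ K)
    (hL : 2 ^ (w.s - 1) ≤ L) (hLK : L ≤ 2 ^ (w.s - 1) * K) (hM₀ : w.M = 2 ^ (w.s - 1) * K + 1)
    (hNK : w.N + L ≤ K * w.M) (hM : w.M ≤ M)
    {b : ℕ → ℕ} (hb : ∀ j, 1 ≤ j → j ≤ M → 1 ≤ b j) (hId : Identity M w.s b) : False := by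
  rw [Nat.blt_eq] at hN
  refine List.not_mem_nil (crit hw ht hN (v := vv M w.M (2 ^ (w.s - 1) * K) b)
    (fun r => le_max_left _ _) (fun n h1 h2 => ?_))
  exact transfer hs hK hL hLK hM₀ hM hb hId h1 (by omega)

end Pool.Agent.W2helper10.E9
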